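import Mathlib
import Pool.Agent.Lib.MP_d0f9e0_co.RamifB

set_option autoImplicit false

/-!
Discriminants of integers of `K` over the real subfield.
-/

open NumberField IsDedekindDomain

namespace Pool.Agent.Lib.MP_d0f9e0_co.Arith

open Ramif

variable (K : Subfield ℂ) [NumberField K] (hc : ∀ z ∈ K, star z ∈ K)

/-- trace, norm and discriminant of an integer `θ` of `K` over the real subfield -/
theorem exists_disc (θ : 𝓞 K) : ∃ b n : 𝓞 (realSub K),
    algebraMap (𝓞 (realSub K)) (𝓞 K) b = θ + RingOfIntegers.mapRingHom (conjHom K hc) θ ∧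
    algebraMap (𝓞 (realSub K)) (𝓞 K) n = θ * RingOfIntegers.mapRingHom (conjHom K hc) θ ∧
    algebraMap (𝓞 (realSub K)) (𝓞 K) (b ^ 2 - 4 * n)
      = (RingOfIntegers.mapRingHom (conjHom K hc) θ - θ) ^ 2 := by
  set c : 𝓞 K →+* 𝓞 K := RingOfIntegers.mapRingHom (conjHom K hc) with hcdef
  have hcK : ∀ z : 𝓞 K, algebraMap (𝓞 K) K (c z) = conjHom K hc (algebraMap (𝓞 K) K z) := by
    intro z
    rfl
  have hcc : ∀ w : K, conjHom K hc (conjHom K hc w) = w := fun w => Subtype.ext (by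
    rw [conjHom_coe, conjHom_coe, star_star])
  have hreal : ∀ w : K, conjHom K hc w = w → w ∈ realSub K := by
    intro w hw
    rw [mem_realSub]
    have := congrArg Subtype.val hw
    rwa [conjHom_coe] at this
  have hex : ∀ w : 𝓞 K, conjHom K hc (algebraMap (𝓞 K) K w) = algebraMap (𝓞 K) K w →
      ∃ t : 𝓞 (realSub K), algebraMap (𝓞 (realSub K)) (𝓞 K) t = w := by
    intro w hw
    have h1 : algebraMap (𝓞 K) K w ∈ realSub K := hreal _ hw
    have h2 : IsIntegral ℤ (⟨algebraMap (𝓞 K) K w, h1⟩ : realSub K) := by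
      have h3 : IsIntegral ℤ (algebraMap (realSub K) K ⟨algebraMap (𝓞 K) K w, h1⟩) :=
        RingOfIntegers.isIntegral_coe w
      exact (isIntegral_algebraMap_iff (algebraMap (realSub K) K).injective).1 h3
    refine ⟨⟨_, h2⟩, ?_⟩
    apply RingOfIntegers.coe_injective
    rfl
  obtain ⟨b, hb⟩ := hex (θ + c θ) (by rw [map_add, map_add, hcK, hcc, add_comm])
  obtain ⟨n, hn⟩ := hex (θ * c θ) (by rw [map_mul, map_mul, hcK, hcc, mul_comm])
  refine ⟨b, n, hb, hn, ?_⟩
  rw [map_sub, map_pow, map_mul, hb, hn, map_ofNat]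
  ring

/-- If `d ∈ conjIdeal K hc` and `P` is a prime of the real subfield not containing `d` then some
discriminant is not in `P`. (Take a prime `Q` of `K` over `P`; `Q` does not contain `d`, so some
`conj z - z` is not in `Q`.) -/
theorem exists_theta (d : ℕ) (hd : (d : 𝓞 K) ∈ conjIdeal K hc)
    (P : Ideal (𝓞 (realSub K))) (hP : P.IsPrime) (hdP : (d : 𝓞 (realSub K)) ∉ P) :
    ∃ (θ : 𝓞 K) (δ : 𝓞 (realSub K)), algebraMap (𝓞 (realSub K)) (𝓞 K) δ
      = (RingOfIntegers.mapRingHom (conjHom K hc) θ - θ) ^ 2 ∧ δ ∉ P := by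
  have := hP
  have hker : RingHom.ker (algebraMap (𝓞 (realSub K)) (𝓞 K)) ≤ P := by
    rw [(RingHom.injective_iff_ker_eq_bot _).1
      (FaithfulSMul.algebraMap_injective (𝓞 (realSub K)) (𝓞 K))]
    exact bot_le
  obtain ⟨Q, hQ, hQP⟩ := Ideal.exists_ideal_over_prime_of_isIntegral_of_isDomain
    (S := 𝓞 K) P hker
  have hdQ : (d : 𝓞 K) ∉ Q := by
    intro h
    apply hdP
    rw [← hQP, Ideal.mem_comap, map_natCast]
    exact h
  obtain ⟨z, hz⟩ : ∃ z : 𝓞 K, RingOfIntegers.mapRingHom (conjHom K hc) z - z ∉ Q := by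
    by_contra hall
    push Not at hall
    apply hdQ
    refine (Ideal.span_le.2 ?_ : conjIdeal K hc ≤ Q) hd
    rintro _ ⟨z, rfl⟩
    exact hall z
  obtain ⟨b, n, -, -, h⟩ := exists_disc K hc z
  refine ⟨z, b ^ 2 - 4 * n, h, fun hmem => hz ?_⟩
  rw [← hQP, Ideal.mem_comap, h] at hmem
  exact hQ.mem_of_pow_mem _ hmem

/-- For odd `d` one `θ` works for all primes over `2`. (Chinese remainder theorem for the ideals
`P.map (algebraMap _ _)`, `P` the finitely many primes of the real subfield containing `2`; these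
ideals are stable under conjugation, so `conj θ - θ` modulo `P.map` depends only on `θ` modulo
`P.map`, and `δ ∈ P` iff `(conj θ - θ) ^ 2 ∈ P.map`, `P.map ∩ 𝓞 F = P`.) -/
theorem exists_theta_two (d : ℕ) (hdodd : Odd d) (hd : (d : 𝓞 K) ∈ conjIdeal K hc) :
    ∃ (θ : 𝓞 K) (δ b n : 𝓞 (realSub K)), algebraMap (𝓞 (realSub K)) (𝓞 K) δ
      = (RingOfIntegers.mapRingHom (conjHom K hc) θ - θ) ^ 2 ∧ δ = b ^ 2 - 4 * n ∧ δ ≠ 0 ∧
      ∀ P : Ideal (𝓞 (realSub K)), P.IsPrime → (2 : 𝓞 (realSub K)) ∈ P → δ ∉ P := by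
  classical
  set c : 𝓞 K →+* 𝓞 K := RingOfIntegers.mapRingHom (conjHom K hc) with hcdef
  have h20 : (2 : 𝓞 (realSub K)) ≠ 0 := two_ne_zero
  have hI : (Ideal.span {(2 : 𝓞 (realSub K))} : Ideal (𝓞 (realSub K))) ≠ 0 := by
    rw [Ideal.zero_eq_bot, Ne, Ideal.span_singleton_eq_bot]
    exact h20
  have hfin := Ideal.finite_factors hI
  set T : Set (HeightOneSpectrum (𝓞 (realSub K))) :=
    {v | v.asIdeal ∣ Ideal.span {(2 : 𝓞 (realSub K))}} with hTdef
  have hTfin : Finite T := hfin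
  have hT : ∀ v : T, (2 : 𝓞 (realSub K)) ∈ v.1.asIdeal := fun v => Ideal.dvd_span_singleton.1 v.2
  have hdv : ∀ P : Ideal (𝓞 (realSub K)), P.IsPrime → (2 : 𝓞 (realSub K)) ∈ P →
      (d : 𝓞 (realSub K)) ∉ P := by
    intro P hP h2 hdP
    obtain ⟨k, hk⟩ := hdodd
    apply hP.ne_top
    rw [Ideal.eq_top_iff_one]
    have h3 : (1 : 𝓞 (realSub K)) = (d : 𝓞 (realSub K)) - 2 * k := by
      rw [hk]
      push_cast
      ring
    rw [h3]
    exact P.sub_mem hdP (P.mul_mem_right _ h2)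
  have hex : ∀ v : T, ∃ (θ : 𝓞 K) (δ : 𝓞 (realSub K)), algebraMap (𝓞 (realSub K)) (𝓞 K) δ
      = (c θ - θ) ^ 2 ∧ δ ∉ v.1.asIdeal :=
    fun v => exists_theta K hc d hd v.1.asIdeal v.1.isPrime (hdv _ v.1.isPrime (hT v))
  choose θ δ hδ hδ' using hex
  have hcop : Pairwise (Function.onFun IsCoprime fun v : T => v.1.asIdeal) := by
    intro v w hvw
    have h3 : v.1.asIdeal ≠ w.1.asIdeal := by
      intro h
      exact hvw (Subtype.ext (HeightOneSpectrum.ext h))
    exact Ideal.isCoprime_of_isMaximal h3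
  have he : ∀ v : T, ∃ e : 𝓞 (realSub K), ∀ w : T, e - (if w = v then 1 else 0) ∈ w.1.asIdeal :=
    fun v => Ideal.exists_forall_sub_mem_ideal hcop fun w => if w = v then 1 else 0
  choose e he using he
  have hTf : Fintype T := Fintype.ofFinite T
  have hcfix : ∀ a : 𝓞 (realSub K), c (algebraMap (𝓞 (realSub K)) (𝓞 K) a) =
      algebraMap (𝓞 (realSub K)) (𝓞 K) a := by
    intro a
    apply RingOfIntegers.coe_injective
    have h3 := (mem_realSub K _).1 (a : realSub K).2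
    exact Subtype.ext h3
  obtain ⟨b, n, -, -, hbn⟩ := exists_disc K hc
    (∑ v : T, algebraMap (𝓞 (realSub K)) (𝓞 K) (e v) * θ v)
  have hΘ : c (∑ v : T, algebraMap (𝓞 (realSub K)) (𝓞 K) (e v) * θ v) -
      ∑ v : T, algebraMap (𝓞 (realSub K)) (𝓞 K) (e v) * θ v =
      ∑ v : T, algebraMap (𝓞 (realSub K)) (𝓞 K) (e v) * (c (θ v) - θ v) := by
    rw [map_sum, ← Finset.sum_sub_distrib]
    refine Finset.sum_congr rfl fun v _ => ?_
    rw [map_mul, hcfix]
    ring
  have key : ∀ P : Ideal (𝓞 (realSub K)), P.IsPrime → (2 : 𝓞 (realSub K)) ∈ P →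
      b ^ 2 - 4 * n ∉ P := by
    intro P hP h2P hmem
    have hPne : P ≠ ⊥ := by
      rintro rfl
      exact h20 ((Submodule.mem_bot _).1 h2P)
    let v : T := ⟨⟨P, hP, hPne⟩, Ideal.dvd_span_singleton.2 h2P⟩
    obtain ⟨Q, hQ, hQP⟩ := Ideal.exists_ideal_over_prime_of_isIntegral_of_isDomain
      (R := 𝓞 (realSub K)) (S := 𝓞 K) P (by
        rw [(RingHom.injective_iff_ker_eq_bot _).1
          (FaithfulSMul.algebraMap_injective (𝓞 (realSub K)) (𝓞 K))]
        exact bot_le)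
    have hmQ : ∀ a : 𝓞 (realSub K), a ∈ P → algebraMap (𝓞 (realSub K)) (𝓞 K) a ∈ Q := by
      intro a ha
      rw [← hQP] at ha
      exact ha
    have h3 : (c (∑ v : T, algebraMap (𝓞 (realSub K)) (𝓞 K) (e v) * θ v) -
      ∑ v : T, algebraMap (𝓞 (realSub K)) (𝓞 K) (e v) * θ v) ^ 2 ∈ Q := by
      rw [← hbn]
      exact hmQ _ hmem
    have h4 := hQ.mem_of_pow_mem _ h3
    rw [hΘ] at h4
    have h5 : ∑ w : T, algebraMap (𝓞 (realSub K)) (𝓞 K) (e w) * (c (θ w) - θ w) -
        (c (θ v) - θ v) ∈ Q := by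
      have h6 : ∑ w : T, algebraMap (𝓞 (realSub K)) (𝓞 K) (e w) * (c (θ w) - θ w) -
          (c (θ v) - θ v) = ∑ w : T, algebraMap (𝓞 (realSub K)) (𝓞 K)
            (e w - if v = w then 1 else 0) * (c (θ w) - θ w) := by
        have h7 : c (θ v) - θ v = ∑ w : T, algebraMap (𝓞 (realSub K)) (𝓞 K)
            (if v = w then 1 else 0) * (c (θ w) - θ w) := by
          rw [Finset.sum_eq_single v]
          · rw [if_pos rfl, map_one, one_mul]
          · intro w _ hw
            rw [if_neg hw.symm, map_zero, zero_mul]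
          · intro h
            exact absurd (Finset.mem_univ v) h
        conv_lhs => rw [h7]
        rw [← Finset.sum_sub_distrib]
        refine Finset.sum_congr rfl fun w _ => ?_
        rw [map_sub]
        ring
      rw [h6]
      refine Q.sum_mem fun w _ => Q.mul_mem_right _ (hmQ _ ?_)
      exact he w v
    have h6 : c (θ v) - θ v ∈ Q := by
      have h7 := Q.sub_mem h4 h5
      rwa [sub_sub_cancel] at h7
    have h7 : algebraMap (𝓞 (realSub K)) (𝓞 K) (δ v) ∈ Q := by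
      rw [hδ]
      exact Q.pow_mem_of_mem h6 2 (by norm_num)
    apply hδ' v
    have h8 : δ v ∈ Q.comap (algebraMap (𝓞 (realSub K)) (𝓞 K)) := h7
    rw [hQP] at h8
    exact h8
  refine ⟨_, b ^ 2 - 4 * n, b, n, hbn, rfl, ?_, key⟩
  intro h0
  have hp : (Ideal.span {(2 : ℤ)}).IsPrime :=
    (Ideal.span_singleton_prime two_ne_zero).2 Int.prime_two
  obtain ⟨Q, hQ, hQP⟩ := Ideal.exists_ideal_over_prime_of_isIntegral_of_isDomain
    (R := ℤ) (S := 𝓞 (realSub K)) (Ideal.span {(2 : ℤ)}) (by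
      rw [(RingHom.injective_iff_ker_eq_bot _).1
        (FaithfulSMul.algebraMap_injective ℤ (𝓞 (realSub K)))]
      exact bot_le)
  have h2Q : (2 : 𝓞 (realSub K)) ∈ Q := by
    have h3 : (2 : ℤ) ∈ Q.comap (algebraMap ℤ (𝓞 (realSub K))) := by
      rw [hQP]
      exact Ideal.mem_span_singleton_self _
    rw [Ideal.mem_comap, map_ofNat] at h3
    exact h3
  apply key Q hQ h2Q
  rw [h0]
  exact Q.zero_mem

/-- The discriminants have even valuation at the primes `P` not containing `d`. (Two nonzero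
discriminants differ by a square of the real subfield; use `exists_theta`.) -/
theorem even_val_disc (d : ℕ) (hd : (d : 𝓞 K) ∈ conjIdeal K hc) (θ : 𝓞 K)
    (δ : 𝓞 (realSub K)) (hδ : algebraMap (𝓞 (realSub K)) (𝓞 K) δ
      = (RingOfIntegers.mapRingHom (conjHom K hc) θ - θ) ^ 2) (hδ0 : δ ≠ 0)
    (P : HeightOneSpectrum (𝓞 (realSub K))) (hdP : (d : 𝓞 (realSub K)) ∉ P.asIdeal) :
    ∃ k : ℤ, P.valuation (realSub K) (δ : realSub K) = WithZero.exp (2 * k) := by
  obtain ⟨θ', δ', hδ', hP'⟩ := exists_theta K hc d hd P.asIdeal P.isPrime hdP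
  set c : 𝓞 K →+* 𝓞 K := RingOfIntegers.mapRingHom (conjHom K hc) with hcdef
  have hcK : ∀ z : 𝓞 K, algebraMap (𝓞 K) K (c z) = conjHom K hc (algebraMap (𝓞 K) K z) := by
    intro z
    rfl
  have hcc : ∀ w : K, conjHom K hc (conjHom K hc w) = w := fun w => Subtype.ext (by
    rw [conjHom_coe, conjHom_coe, star_star])
  have hreal : ∀ w : K, conjHom K hc w = w → w ∈ realSub K := by
    intro w hw
    rw [mem_realSub]
    have := congrArg Subtype.val hw
    rwa [conjHom_coe] at this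
  have hδ'0 : δ' ≠ 0 := by
    rintro rfl
    exact hP' (Ideal.zero_mem _)
  have hne : ∀ (θ : 𝓞 K) (δ : 𝓞 (realSub K)), algebraMap (𝓞 (realSub K)) (𝓞 K) δ
      = (c θ - θ) ^ 2 → δ ≠ 0 → algebraMap (𝓞 K) K (c θ - θ) ≠ 0 := by
    intro θ δ h h0 h1
    apply h0
    have h2 : c θ - θ = 0 := by
      apply RingOfIntegers.coe_injective
      rw [h1, map_zero]
    rw [h2] at h
    apply FaithfulSMul.algebraMap_injective (𝓞 (realSub K)) (𝓞 K)
    rw [h, map_zero, zero_pow two_ne_zero]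
  have hneg : ∀ θ : 𝓞 K, conjHom K hc (algebraMap (𝓞 K) K (c θ - θ))
      = - algebraMap (𝓞 K) K (c θ - θ) := by
    intro θ
    rw [map_sub, map_sub, hcK, hcc]
    ring
  set u : K := algebraMap (𝓞 K) K (c θ - θ) with hu
  set u' : K := algebraMap (𝓞 K) K (c θ' - θ') with hu'
  have hu0 : u ≠ 0 := hne θ δ hδ hδ0
  have hu'0 : u' ≠ 0 := hne θ' δ' hδ' hδ'0
  have hx : u / u' ∈ realSub K := by
    apply hreal
    rw [map_div₀, hneg, hneg, neg_div_neg_eq]
  have hxne : (⟨u / u', hx⟩ : realSub K) ≠ 0 := by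
    intro h
    have := congrArg Subtype.val h
    exact div_ne_zero hu0 hu'0 this
  have hrel : (δ : realSub K) = (δ' : realSub K) * (⟨u / u', hx⟩ : realSub K) ^ 2 := by
    apply Subtype.ext
    have e1 : ((δ : realSub K) : K) = u ^ 2 := by
      have := congrArg (algebraMap (𝓞 K) K) hδ
      rw [map_pow] at this
      exact this
    have e2 : ((δ' : realSub K) : K) = u' ^ 2 := by
      have := congrArg (algebraMap (𝓞 K) K) hδ'
      rw [map_pow] at this
      exact this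
    change ((δ : realSub K) : K) = ((δ' : realSub K) : K) * (u / u') ^ 2
    rw [e1, e2]
    field_simp
  have hv' : P.valuation (realSub K) (δ' : realSub K) = 1 :=
    P.valuation_eq_one_iff_notMem.2 hP'
  have hvx : P.valuation (realSub K) (⟨u / u', hx⟩ : realSub K) ≠ 0 := by
    simpa using hxne
  refine ⟨WithZero.log (P.valuation (realSub K) (⟨u / u', hx⟩ : realSub K)), ?_⟩
  rw [hrel, map_mul, hv', one_mul, map_pow]
  conv_lhs => rw [← WithZero.exp_log hvx]
  rw [← WithZero.exp_nsmul]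
  congr 1

end Pool.Agent.Lib.MP_d0f9e0_co.Arith
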