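import Mathlib

set_option autoImplicit false

/-!
Norms of integers of a number field.
-/

open NumberField IsDedekindDomain

namespace Pool.Agent.Lib.MP_d0f9e0_co.Arith

/-- the norm modulo `k` only depends on the residue class modulo `k` -/
private theorem bqb_norm_congr {F : Type*} [Field F] [NumberField F] (k : ℕ) (u v : 𝓞 F) :
    ((Algebra.norm ℤ (u + k * v) : ℤ) : ZMod k) = ((Algebra.norm ℤ u : ℤ) : ZMod k) := by
  classical
  set B := Module.Free.chooseBasis ℤ (𝓞 F) with hB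
  set Φ : 𝓞 F →+* Matrix (Module.Free.ChooseBasisIndex ℤ (𝓞 F))
      (Module.Free.ChooseBasisIndex ℤ (𝓞 F)) (ZMod k) :=
    ((Int.castRingHom (ZMod k)).mapMatrix).comp (Algebra.leftMulMatrix B).toRingHom with hΦ
  have h1 : ∀ x : 𝓞 F, ((Algebra.norm ℤ x : ℤ) : ZMod k) = (Φ x).det := by
    intro x
    rw [Algebra.norm_eq_matrix_det B x]
    exact RingHom.map_det (Int.castRingHom (ZMod k)) (Algebra.leftMulMatrix B x)
  have h2 : Φ (k : 𝓞 F) = 0 := by
    rw [map_natCast]
    ext i j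
    rw [Matrix.natCast_apply]
    simp
  rw [h1, h1, map_add, map_mul, h2, zero_mul, add_zero]

/-- `N(b² - 4 n) = 1 mod 4` if it is odd. (Reduce the matrix of the multiplication modulo `4`:
`N(b² - 4 n) = N(b)² mod 4`; the norm is odd since no prime over `2` contains `b² - 4 n`.) -/
theorem norm_mod_four {F : Type*} [Field F] [NumberField F] (δ b n : 𝓞 F)
    (h : δ = b ^ 2 - 4 * n) (hδ0 : δ ≠ 0)
    (h2 : ∀ P : Ideal (𝓞 F), P.IsPrime → (2 : 𝓞 F) ∈ P → δ ∉ P) :
    (Algebra.norm ℤ δ) % 4 = 1 := by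
  have hodd : ((Algebra.norm ℤ δ : ℤ) : ZMod 2) ≠ 0 := by
    have htop : Ideal.span {(2 : 𝓞 F), δ} = ⊤ := by
      by_contra hne
      obtain ⟨P, hP, hle⟩ := Ideal.exists_le_maximal _ hne
      exact h2 P hP.isPrime (hle (Ideal.subset_span (by simp))) (hle (Ideal.subset_span (by simp)))
    have h1 : (1 : 𝓞 F) ∈ Ideal.span {(2 : 𝓞 F), δ} := by
      rw [htop]
      exact Submodule.mem_top
    obtain ⟨x, y, hxy⟩ := Ideal.mem_span_pair.1 h1
    have h3 : δ * y = 1 + ((2 : ℕ) : 𝓞 F) * (-x) := by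
      push_cast
      linear_combination hxy
    have h4 := bqb_norm_congr 2 (1 : 𝓞 F) (-x)
    rw [← h3, map_mul, map_one] at h4
    intro h0
    push_cast at h4
    rw [h0, zero_mul] at h4
    exact zero_ne_one h4
  have h4 : ((Algebra.norm ℤ δ : ℤ) : ZMod 4) = ((Algebra.norm ℤ b : ℤ) : ZMod 4) ^ 2 := by
    have h5 : δ = b ^ 2 + ((4 : ℕ) : 𝓞 F) * (-n) := by
      rw [h]
      push_cast
      ring
    have h6 := bqb_norm_congr 4 (b ^ 2) (-n)
    rw [← h5, map_pow] at h6
    push_cast at h6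
    exact h6
  rw [Ne, ZMod.intCast_zmod_eq_zero_iff_dvd] at hodd
  have h7 : ((4 : ℕ) : ℤ) ∣ (Algebra.norm ℤ b) ^ 2 - Algebra.norm ℤ δ := by
    rw [← ZMod.intCast_eq_intCast_iff_dvd_sub]
    push_cast
    exact h4
  push_cast at hodd h7
  generalize Algebra.norm ℤ δ = x at *
  generalize Algebra.norm ℤ b = y at *
  rcases Int.even_or_odd y with ⟨t, ht⟩ | ⟨t, ht⟩
  · exfalso
    apply hodd
    have h8 : y ^ 2 = 4 * t ^ 2 := by rw [ht]; ring
    rw [h8] at h7
    omega
  · have h8 : y ^ 2 = 4 * (t ^ 2 + t) + 1 := by rw [ht]; ring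
    rw [h8] at h7
    omega

/-- A prime ideal whose norm is divisible by `p` contains `p`. -/
private theorem bqb_mem {F : Type*} [Field F] [NumberField F] (P : Ideal (𝓞 F)) (hP : P.IsPrime)
    (hP0 : P ≠ ⊥) (p : ℕ) (hp : p.Prime) (hd : p ∣ Ideal.absNorm P) : (p : 𝓞 F) ∈ P := by
  have := hP
  have : Finite ((𝓞 F) ⧸ P) := Ideal.finiteQuotientOfFreeOfNeBot P hP0
  have := Fintype.ofFinite ((𝓞 F) ⧸ P)
  have : Fact p.Prime := ⟨hp⟩
  rw [Ideal.absNorm_apply, Submodule.cardQuot_apply] at hd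
  obtain ⟨x, hx⟩ := exists_prime_addOrderOf_dvd_card' (G := (𝓞 F) ⧸ P) p hd
  have hx0 : x ≠ 0 := by
    rintro rfl
    rw [addOrderOf_zero] at hx
    exact hp.one_lt.ne hx
  have h1 : (p : ℕ) • x = 0 := by rw [← hx]; exact addOrderOf_nsmul_eq_zero x
  rw [nsmul_eq_mul] at h1
  have h2 : ((p : ℕ) : (𝓞 F) ⧸ P) = 0 := (mul_eq_zero.mp h1).resolve_right hx0
  rw [← Ideal.Quotient.eq_zero_iff_mem]
  simpa using h2

/-- If the valuations of `δ` at all primes over `p` are even then so is `v_p (N δ)`. (`Ideal.absNorm`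
of the factorization of `span {δ}`.) -/
theorem norm_val_even {F : Type*} [Field F] [NumberField F] (δ : 𝓞 F) (hδ0 : δ ≠ 0)
    (p : ℕ) (hp : p.Prime)
    (h : ∀ P : HeightOneSpectrum (𝓞 F), (p : 𝓞 F) ∈ P.asIdeal →
      ∃ k : ℤ, P.valuation F (δ : F) = WithZero.exp (2 * k)) :
    Even (padicValNat p (Algebra.norm ℤ δ).natAbs) := by
  classical
  have : Fact p.Prime := ⟨hp⟩
  have hI : Ideal.span {δ} ≠ (⊥ : Ideal (𝓞 F)) := by
    rwa [Ne, Ideal.span_singleton_eq_bot]
  rw [← Ideal.absNorm_span_singleton]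
  have hprod : (UniqueFactorizationMonoid.normalizedFactors (Ideal.span {δ} : Ideal (𝓞 F))).prod
      = Ideal.span {δ} := by
    have := UniqueFactorizationMonoid.prod_normalizedFactors (a := (Ideal.span {δ} : Ideal (𝓞 F))) hI
    rwa [associated_iff_eq] at this
  rw [← hprod, Finset.prod_multiset_count, map_prod]
  have hP : ∀ P ∈ (UniqueFactorizationMonoid.normalizedFactors
      (Ideal.span {δ} : Ideal (𝓞 F))).toFinset, P.IsPrime ∧ P ≠ ⊥ := by
    intro P hP
    have h1 := UniqueFactorizationMonoid.prime_of_normalized_factor P (Multiset.mem_toFinset.mp hP)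
    exact ⟨Ideal.isPrime_of_prime h1, h1.ne_zero⟩
  have key : ∀ s : Finset (Ideal (𝓞 F)), (∀ P ∈ s, P.IsPrime ∧ P ≠ ⊥) →
      (∏ P ∈ s, Ideal.absNorm (P ^ Multiset.count P
        (UniqueFactorizationMonoid.normalizedFactors (Ideal.span {δ} : Ideal (𝓞 F)))) ≠ 0) ∧
      Even (padicValNat p (∏ P ∈ s, Ideal.absNorm (P ^ Multiset.count P
        (UniqueFactorizationMonoid.normalizedFactors (Ideal.span {δ} : Ideal (𝓞 F)))))) := by
    intro s
    induction s using Finset.induction_on with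
    | empty => intro _; simp
    | insert P s hPs ih =>
      intro hs
      obtain ⟨ih1, ih2⟩ := ih (fun Q hQ => hs Q (Finset.mem_insert_of_mem hQ))
      obtain ⟨hPp, hP0⟩ := hs P (Finset.mem_insert_self _ _)
      have hne : Ideal.absNorm (P ^ Multiset.count P
        (UniqueFactorizationMonoid.normalizedFactors (Ideal.span {δ} : Ideal (𝓞 F)))) ≠ 0 := by
        rw [map_pow]
        exact pow_ne_zero _ (fun h0 => hP0 (Ideal.absNorm_eq_zero_iff.mp h0))
      rw [Finset.prod_insert hPs]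
      refine ⟨mul_ne_zero hne ih1, ?_⟩
      rw [padicValNat.mul hne ih1]
      refine Even.add ?_ ih2
      rw [map_pow, padicValNat.pow]
      by_cases hd : p ∣ Ideal.absNorm P
      · have hpP := bqb_mem P hPp hP0 p hp hd
        obtain ⟨k, hk⟩ := h ⟨P, hPp, hP0⟩ hpP
        refine Even.mul_right ?_ _
        rw [← Ideal.count_associates_factors_eq hI hPp hP0]
        have h3 : (HeightOneSpectrum.valuation F ⟨P, hPp, hP0⟩) (δ : F)
            = (⟨P, hPp, hP0⟩ : HeightOneSpectrum (𝓞 F)).intValuation δ :=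
          HeightOneSpectrum.valuation_of_algebraMap _ δ
        rw [h3, HeightOneSpectrum.intValuation_if_neg _ hδ0, WithZero.exp_inj] at hk
        have h4 : (((Associates.mk P).count (Associates.mk (Ideal.span {δ})).factors : ℕ) : ℤ)
            = 2 * (-k) := by
          linarith
        have h5 : Even (((Associates.mk P).count (Associates.mk (Ideal.span {δ})).factors : ℕ) : ℤ) := by
          rw [h4]; exact even_two_mul _
        exact_mod_cast h5
      · rw [padicValNat.eq_zero_of_not_dvd hd, mul_zero]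
        exact Even.zero
  exact (key _ hP).2

end Pool.Agent.Lib.MP_d0f9e0_co.Arith
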