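import Mathlib

set_option autoImplicit false

/-!
The sign of the norm of a discriminant.
-/

open NumberField

namespace Pool.Agent.Lib.MP_d0f9e0_co.Arith

/-- A real embedding of the base field is negative at the discriminant. -/
private theorem BqC_real_neg {F K : Type*} [Field F] [NumberField F] [Field K] [NumberField K]
    [Algebra F K] (hFK : Module.finrank F K = 2) (hreal : IsEmpty (K →+* ℝ))
    (δ : F) (z : K) (hz : z ^ 2 = algebraMap F K δ) (hzF : ∀ w : F, algebraMap F K w ≠ z)
    (ψ : F →+* ℝ) : ψ δ < 0 := by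
  by_contra hneg
  rw [not_lt] at hneg
  letI : Algebra F ℝ := ψ.toAlgebra
  have hmap : ∀ x : F, algebraMap F ℝ x = ψ x := fun _ => rfl
  haveI : FiniteDimensional F K := Module.finite_of_finrank_pos (by rw [hFK]; norm_num)
  haveI := IntermediateField.isSimpleOrder_of_finrank_prime F K (by rw [hFK]; exact Nat.prime_two)
  have htop : IntermediateField.adjoin F {z} = ⊤ := by
    rcases eq_bot_or_eq_top (IntermediateField.adjoin F {z}) with h | h
    · exfalso
      have h1 : z ∈ (⊥ : IntermediateField F K) := by
        rw [← h]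
        exact IntermediateField.mem_adjoin_simple_self F z
      obtain ⟨w, hw⟩ := IntermediateField.mem_bot.1 h1
      exact hzF w hw
    · exact h
  have hint : IsIntegral F z := Algebra.IsIntegral.isIntegral z
  have hdvd : minpoly F z ∣ (Polynomial.X ^ 2 - Polynomial.C δ : Polynomial F) := by
    apply minpoly.dvd
    simp [hz]
  have hsplit : ((Polynomial.X ^ 2 - Polynomial.C δ : Polynomial F).map (algebraMap F ℝ)).Splits := by
    have e : (Polynomial.X ^ 2 - Polynomial.C δ : Polynomial F).map (algebraMap F ℝ) =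
        (Polynomial.X - Polynomial.C (Real.sqrt (ψ δ))) *
          (Polynomial.X - Polynomial.C (-Real.sqrt (ψ δ))) := by
      rw [Polynomial.map_sub, Polynomial.map_pow, Polynomial.map_X, Polynomial.map_C, hmap]
      have h2 : Polynomial.C (ψ δ) = Polynomial.C (Real.sqrt (ψ δ)) * Polynomial.C (Real.sqrt (ψ δ)) := by
        rw [← Polynomial.C_mul, Real.mul_self_sqrt hneg]
      rw [h2, Polynomial.C_neg]
      ring
    rw [e]
    exact (Polynomial.Splits.X_sub_C _).mul (Polynomial.Splits.X_sub_C _)
  have hne : (Polynomial.X ^ 2 - Polynomial.C δ : Polynomial F) ≠ 0 :=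
    Polynomial.X_pow_sub_C_ne_zero (by norm_num) δ
  have hsplit2 : ((minpoly F z).map (algebraMap F ℝ)).Splits := by
    refine hsplit.of_dvd ?_ (Polynomial.map_dvd _ hdvd)
    exact Polynomial.map_ne_zero hne
  obtain ⟨φ⟩ := IntermediateField.nonempty_algHom_of_adjoin_splits (F := F) (E := K) (K := ℝ)
    (S := {z}) (fun s hs => by
      rw [Set.mem_singleton_iff] at hs
      rw [hs]
      exact ⟨hint, hsplit2⟩) htop
  exact hreal.false φ.toRingHom

/-- Let `[F : ℚ]` be odd and let `K = F(z)`, `z² = δ ∈ F`, be a quadratic extension of `F` without real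
embeddings. Then `N(δ) < 0`.
Proof: `N(δ)` is the product of the `φ δ`, `φ : F →+* ℂ` (`Algebra.norm_eq_prod_embeddings`). The
non-real `φ` come in pairs of conjugates with product `|φ δ|² > 0`; the number of real ones is
odd, and for a real one `φ δ` is real and negative, since otherwise the embedding extends to a real
embedding of `K` (`AdjoinRoot` or `IntermediateField.adjoin` with the real number `√(φ δ)`). -/
theorem norm_neg {F K : Type*} [Field F] [NumberField F] [Field K] [NumberField K] [Algebra F K]
    (hodd : Odd (Module.finrank ℚ F)) (hFK : Module.finrank F K = 2) (hreal : IsEmpty (K →+* ℝ))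
    (δ : F) (z : K) (hz : z ^ 2 = algebraMap F K δ) (hzF : ∀ w : F, algebraMap F K w ≠ z) :
    Algebra.norm ℚ δ < 0 := by
  classical
  have hδ : δ ≠ 0 := by
    rintro rfl
    rw [map_zero] at hz
    have h0 : z = 0 := by
      rcases pow_eq_zero_iff (two_ne_zero) |>.1 hz with h
      exact h
    exact hzF 0 (by rw [map_zero, h0])
  have hprod : ((Algebra.norm ℚ δ : ℚ) : ℂ) = ∏ φ : F →+* ℂ, φ δ := by
    have h1 := Algebra.norm_eq_prod_embeddings ℚ ℂ δ
    rw [eq_ratCast] at h1
    rw [h1]
    exact (Fintype.prod_equiv (RingHom.equivRatAlgHom F ℂ) (fun f => f δ)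
      (fun φ => φ δ) fun _ => by simp [RingHom.equivRatAlgHom_apply]).symm
  have hfib : ∀ w : InfinitePlace F,
      (∏ φ : F →+* ℂ with InfinitePlace.mk φ = w, φ δ) =
        (((if w.IsReal then (-1 : ℝ) else 1) * w δ ^ w.mult : ℝ) : ℂ) := by
    intro w
    have hcard := InfinitePlace.card_filter_mk_eq w
    by_cases hw : w.IsReal
    · rw [InfinitePlace.IsReal.mult_eq_one hw] at hcard
      obtain ⟨φ, hφ⟩ := Finset.card_eq_one.1 hcard
      have hφw : InfinitePlace.mk φ = w := by
        have : φ ∈ ({φ | InfinitePlace.mk φ = w} : Finset (F →+* ℂ)) := by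
          rw [hφ]
          exact Finset.mem_singleton_self _
        exact (Finset.mem_filter.1 this).2
      have hre : ComplexEmbedding.IsReal φ := by
        apply InfinitePlace.isReal_of_mk_isReal
        rw [hφw]
        exact hw
      rw [hφ, Finset.prod_singleton, if_pos hw, InfinitePlace.IsReal.mult_eq_one hw, pow_one]
      have hneg := BqC_real_neg hFK hreal δ z hz hzF hre.embedding
      have h1 : w δ = -(hre.embedding δ) := by
        rw [← hφw, InfinitePlace.apply, ← hre.coe_embedding_apply, Complex.norm_real,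
          Real.norm_eq_abs, abs_of_neg hneg]
      rw [h1, ← hre.coe_embedding_apply]
      push_cast
      ring
    · have hw' : w.IsComplex := InfinitePlace.not_isReal_iff_isComplex.1 hw
      rw [InfinitePlace.IsComplex.mult_eq_two hw'] at hcard
      obtain ⟨φ1, φ2, hne, hφ⟩ := Finset.card_eq_two.1 hcard
      have hm1 : InfinitePlace.mk φ1 = w := by
        have : φ1 ∈ ({φ | InfinitePlace.mk φ = w} : Finset (F →+* ℂ)) := by
          rw [hφ]
          simp
        exact (Finset.mem_filter.1 this).2
      have hm2 : InfinitePlace.mk φ2 = w := by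
        have : φ2 ∈ ({φ | InfinitePlace.mk φ = w} : Finset (F →+* ℂ)) := by
          rw [hφ]
          simp
        exact (Finset.mem_filter.1 this).2
      have hconj : ComplexEmbedding.conjugate φ1 = φ2 := by
        rcases InfinitePlace.mk_eq_iff.1 (hm1.trans hm2.symm) with h | h
        · exact absurd h hne
        · exact h
      rw [hφ, Finset.prod_pair hne, if_neg hw, InfinitePlace.IsComplex.mult_eq_two hw', one_mul,
        ← hconj, ComplexEmbedding.conjugate_coe_eq, Complex.mul_conj, ← hm1, InfinitePlace.apply,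
        Complex.normSq_eq_norm_sq]
  have hsign : (∏ w : InfinitePlace F, (if w.IsReal then (-1 : ℝ) else 1)) = -1 := by
    rw [Finset.prod_ite, Finset.prod_const, Finset.prod_const_one, mul_one]
    have hc : (Finset.univ.filter fun w : InfinitePlace F => w.IsReal).card =
        InfinitePlace.nrRealPlaces F := by
      unfold InfinitePlace.nrRealPlaces
      rw [Fintype.card_subtype]
    have hodd2 : Odd (Finset.univ.filter fun w : InfinitePlace F => w.IsReal).card := by
      rw [hc]
      have h1 := InfinitePlace.card_add_two_mul_card_eq_rank F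
      rw [← h1] at hodd
      rcases Nat.even_or_odd (InfinitePlace.nrRealPlaces F) with h | h
      · exact absurd (h.add (even_two_mul _)) (Nat.not_even_iff_odd.2 hodd)
      · exact h
    exact hodd2.neg_one_pow
  have hreal2 : ((Algebra.norm ℚ δ : ℚ) : ℝ) = -|((Algebra.norm ℚ δ : ℚ) : ℝ)| := by
    have h1 : ((Algebra.norm ℚ δ : ℚ) : ℂ) =
        ((∏ w : InfinitePlace F, ((if w.IsReal then (-1 : ℝ) else 1) * w δ ^ w.mult) : ℝ) : ℂ) := by
      rw [hprod, ← Finset.prod_fiberwise Finset.univ InfinitePlace.mk (fun φ : F →+* ℂ => φ δ)]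
      push_cast [hfib]
      refine Finset.prod_congr rfl fun w _ => ?_
      split_ifs <;> push_cast <;> rfl
    rw [Finset.prod_mul_distrib, hsign, InfinitePlace.prod_eq_abs_norm] at h1
    have h2 : (((Algebra.norm ℚ δ : ℚ) : ℝ) : ℂ) =
        ((-|((Algebra.norm ℚ δ : ℚ) : ℝ)| : ℝ) : ℂ) := by
      rw [Complex.ofReal_ratCast, h1]
      push_cast
      ring
    exact_mod_cast h2
  have hne : ((Algebra.norm ℚ δ : ℚ) : ℝ) ≠ 0 := by
    exact_mod_cast Algebra.norm_ne_zero_iff.2 hδ
  have hlt : ((Algebra.norm ℚ δ : ℚ) : ℝ) < 0 := by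
    rw [hreal2]
    exact neg_neg_of_pos (abs_pos.2 hne)
  exact_mod_cast hlt

end Pool.Agent.Lib.MP_d0f9e0_co.Arith
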