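import Mathlib

set_option autoImplicit false

/-!
The norm of a number represented by `a² - c b²`.
-/

namespace Pool.Agent.Lib.MP_d0f9e0_co.Arith

private lemma bqD_omega (c : ℚ) :
    (QuadraticAlgebra.omega : QuadraticAlgebra ℚ c 0) * QuadraticAlgebra.omega
      = algebraMap ℚ (QuadraticAlgebra ℚ c 0) c := by
  ext <;> simp

private lemma bqD_star_omega (c : ℚ) :
    star (QuadraticAlgebra.omega : QuadraticAlgebra ℚ c 0) = - QuadraticAlgebra.omega := by
  ext <;> simp

private lemma bqD_star_map (c x : ℚ) :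
    star (algebraMap ℚ (QuadraticAlgebra ℚ c 0) x) = algebraMap ℚ (QuadraticAlgebra ℚ c 0) x := by
  ext <;> simp

/-- Knebusch's norm principle for `X² - c Y²`.
Proof: let `M_a`, `M_b` be the matrices of the multiplications by `a`, `b` over `ℚ`. In the commutative
ring `R = QuadraticAlgebra ℚ c 0` put `u + v ω = det (M_a + ω M_b)`; then `u - v ω = det (M_a - ω M_b)`
(conjugation), and the product is `det (M_a² - c M_b²) = N (a² - c b²)`. -/
theorem norm_rep {F : Type*} [Field F] [NumberField F] (c : ℚ) (a b : F) :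
    ∃ u v : ℚ, Algebra.norm ℚ (a ^ 2 - algebraMap ℚ F c * b ^ 2) = u ^ 2 - c * v ^ 2 := by
  classical
  let bs := Module.finBasis ℚ F
  let R := QuadraticAlgebra ℚ c 0
  let φ : ℚ →+* R := algebraMap ℚ R
  let ω : R := QuadraticAlgebra.omega
  let Ma := Algebra.leftMulMatrix bs a
  let Mb := Algebra.leftMulMatrix bs b
  let A := φ.mapMatrix Ma
  let B := φ.mapMatrix Mb
  have hcomm : A * B = B * A := by
    simp only [A, B, Ma, Mb, ← map_mul, mul_comm a b]
  have hω : ω * ω = φ c := bqD_omega c
  have hsω : star ω = -ω := bqD_star_omega c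
  have hsφ : ∀ x : ℚ, star (φ x) = φ x := fun x => bqD_star_map c x
  let D : R := (A + ω • B).det
  have hstar : star D = (A - ω • B).det := by
    have h1 : star D = (starRingEnd R) D := rfl
    rw [h1, RingHom.map_det]
    congr 1
    ext1 i j
    change star (A i j + ω * B i j) = A i j - ω * B i j
    rw [star_add, star_mul, hsω]
    have hA : star (A i j) = A i j := hsφ _
    have hB : star (B i j) = B i j := hsφ _
    rw [hA, hB]
    ring
  have hprod : D * star D = φ (Algebra.norm ℚ (a ^ 2 - algebraMap ℚ F c * b ^ 2)) := by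
    rw [hstar, ← Matrix.det_mul, Algebra.norm_eq_matrix_det bs, RingHom.map_det]
    congr 1
    have e1 : (A + ω • B) * (A - ω • B) = A * A - (ω * ω) • (B * B) := by
      rw [add_mul, mul_sub, mul_sub, Matrix.mul_smul, Matrix.smul_mul, Matrix.smul_mul,
        Matrix.mul_smul, hcomm, smul_smul]
      abel
    rw [e1, hω]
    have e2 : Algebra.leftMulMatrix bs (a ^ 2 - algebraMap ℚ F c * b ^ 2)
        = Ma * Ma - c • (Mb * Mb) := by
      rw [map_sub, map_mul, map_pow, map_pow, AlgHom.commutes, pow_two, pow_two,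
        ← Algebra.smul_def]
    rw [e2, map_sub, map_mul]
    congr 1
    ext1 i j
    change φ c * (B * B) i j = φ (c * (Mb * Mb) i j)
    rw [map_mul]
    congr 1
    have : B * B = φ.mapMatrix (Mb * Mb) := by rw [map_mul]
    rw [this]
    rfl
  refine ⟨D.re, D.im, ?_⟩
  have h2 : φ (QuadraticAlgebra.norm D) = D * star D :=
    QuadraticAlgebra.algebraMap_norm_eq_mul_star D
  rw [hprod] at h2
  have h3 := QuadraticAlgebra.algebraMap_injective h2
  rw [← h3, QuadraticAlgebra.norm_def]
  ring

/-- A rational number which is a square in a number field of odd degree is a square.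
(Take norms.) -/
theorem sq_of_odd_degree {F : Type*} [Field F] [NumberField F]
    (hodd : Odd (Module.finrank ℚ F)) (c : ℚ) (w : F) (h : w ^ 2 = algebraMap ℚ F c) :
    IsSquare c := by
  obtain ⟨m, hm⟩ := hodd
  have h1 : (Algebra.norm ℚ w) ^ 2 = c ^ (2 * m + 1) := by
    rw [← map_pow, h, Algebra.norm_algebraMap, hm]
  rcases eq_or_ne c 0 with rfl | hc
  · exact ⟨0, by simp⟩
  · refine ⟨Algebra.norm ℚ w / c ^ m, ?_⟩
    have hcm : c ^ m ≠ 0 := pow_ne_zero _ hc
    field_simp
    rw [h1]
    ring

end Pool.Agent.Lib.MP_d0f9e0_co.Arith
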