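import Mathlib

set_option autoImplicit false

/-!
The final piece of elementary number theory in the case `d = y²`.
-/

namespace Pool.Agent.Lib.MP_d0f9e0_co.Arith

private lemma sqa_sq8 (a : ℤ) :
    (a % 2 = 0 ∧ (a ^ 2 % 8 = 0 ∨ a ^ 2 % 8 = 4)) ∨ (a % 2 = 1 ∧ a ^ 2 % 8 = 1) := by
  have h : a % 8 = 0 ∨ a % 8 = 1 ∨ a % 8 = 2 ∨ a % 8 = 3 ∨ a % 8 = 4 ∨ a % 8 = 5 ∨ a % 8 = 6 ∨
      a % 8 = 7 := by omega
  have h2 : a ^ 2 % 8 = (a % 8) * (a % 8) % 8 := by rw [sq, Int.mul_emod]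
  rcases h with h | h | h | h | h | h | h | h <;> rw [h] at h2 <;> omega

private lemma sqa_descent (y : ℤ) (hy : y % 2 = 1) (s : ℤ) (hs : s % 8 = 3) :
    ∀ (n : ℕ) (a z d : ℤ), z.natAbs = n → a ^ 2 + s * z ^ 2 = (y ^ 2 + 1) * d ^ 2 → z = 0 := by
  intro n
  induction n using Nat.strong_induction_on with
  | _ n ih =>
    intro a z d hz he
    by_contra hz0
    have hY : (y ^ 2 + 1) % 8 = 2 := by
      rcases sqa_sq8 y with h | h <;> omega
    have e8 : (a ^ 2 + 3 * (z ^ 2 % 8)) % 8 = 2 * (d ^ 2 % 8) % 8 := by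
      have h1 : (s * z ^ 2) % 8 = (3 * (z ^ 2 % 8)) % 8 := by rw [Int.mul_emod, hs]
      have h2 : ((y ^ 2 + 1) * d ^ 2) % 8 = (2 * (d ^ 2 % 8)) % 8 := by rw [Int.mul_emod, hY]
      omega
    have hev : a % 2 = 0 ∧ z % 2 = 0 ∧ d % 2 = 0 := by
      rcases sqa_sq8 a with ha | ha <;> rcases sqa_sq8 z with hz' | hz' <;>
        rcases sqa_sq8 d with hd | hd <;> omega
    obtain ⟨a', rfl⟩ : (2 : ℤ) ∣ a := by omega
    obtain ⟨z', rfl⟩ : (2 : ℤ) ∣ z := by omega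
    obtain ⟨d', rfl⟩ : (2 : ℤ) ∣ d := by omega
    have hz1 : z'.natAbs < n := by omega
    have := ih z'.natAbs hz1 a' z' d' rfl (by nlinarith [he])
    omega

/-- Proof: `-N = s r²` with `s` squarefree (`Nat.sq_mul_squarefree`); `r` is odd and `s = 3 mod 4`; every
prime divisor of `s` divides `y`, so `s ∣ y`. If `s = 3 mod 8`, clear denominators in
`-s r² = u² - (y² + 1) v²`: `u² + s z² = (y² + 1) v²` in integers without common divisor, not all zero,
`y² + 1 = 2 mod 8`. Modulo `8`: `v` odd is impossible (`u² + 3 z² = 2 mod 8` has no solution), so `v` is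
even, `u² + 3 z² = 0 mod 8` forces `u, z` even, a contradiction. -/
theorem square_arith (y : ℕ) (hy : Odd y) (N : ℤ) (hN : N < 0) (h4 : N % 4 = 1)
    (hp : ∀ p : ℕ, p.Prime → ¬ p ∣ y → Even (padicValNat p N.natAbs))
    (u v : ℚ) (huv : (N : ℚ) = u ^ 2 - ((y : ℚ) ^ 2 + 1) * v ^ 2) :
    ∃ s : ℕ, s ∣ y ∧ s % 8 = 7 ∧ ∃ a b : ℚ, (y : ℚ) ^ 2 + 1 = a ^ 2 + s * b ^ 2 := by
  obtain ⟨s, b, hsb, hsq⟩ := Nat.sq_mul_squarefree N.natAbs
  have hn0 : N.natAbs ≠ 0 := by omega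
  have hb0 : b ≠ 0 := by rintro rfl; simp at hsb; omega
  have hs0 : s ≠ 0 := by rintro rfl; simp at hsb; omega
  have hn4 : N.natAbs % 4 = 3 := by omega
  have hbZ := sqa_sq8 (b : ℤ)
  have hbN : b ^ 2 % 4 = 0 ∨ b ^ 2 % 4 = 1 := by
    have : ((b ^ 2 : ℕ) : ℤ) = (b : ℤ) ^ 2 := by push_cast; ring
    rcases hbZ with h | h <;> omega
  have hs4 : s % 4 = 3 := by
    have h1 : (b ^ 2 * s) % 4 = ((b ^ 2 % 4) * (s % 4)) % 4 := Nat.mul_mod _ _ _
    rw [hsb, hn4] at h1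
    rcases hbN with h | h <;> rw [h] at h1 <;> omega
  have hsy : s ∣ y := by
    have hy0 : y ≠ 0 := by rintro rfl; simp at hy
    rw [← Nat.prod_primeFactors_of_squarefree hsq]
    refine dvd_trans ?_ (Nat.prod_primeFactors_dvd y)
    refine Finset.prod_dvd_prod_of_subset _ _ _ ?_
    intro p hps
    have hpp : p.Prime := Nat.prime_of_mem_primeFactors hps
    have hpd : p ∣ s := Nat.dvd_of_mem_primeFactors hps
    rw [Nat.mem_primeFactors]
    refine ⟨hpp, ?_, hy0⟩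
    by_contra hny
    have hev := hp p hpp hny
    have : Fact p.Prime := ⟨hpp⟩
    rw [← hsb, padicValNat.mul (pow_ne_zero 2 hb0) hs0, padicValNat.pow] at hev
    have h1 : padicValNat p s = 1 := by
      have hle : s.factorization p ≤ 1 := hsq.natFactorization_le_one p
      have hge : 1 ≤ padicValNat p s := one_le_padicValNat_of_dvd hs0 hpd
      rw [Nat.factorization_def s hpp] at hle
      omega
    rw [h1] at hev
    rcases hev with ⟨m, hm⟩
    omega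
  have hN'' : (N : ℚ) = -((s : ℚ) * (b : ℚ) ^ 2) := by
    have h1 : (N : ℤ) = -((N.natAbs : ℕ) : ℤ) := by omega
    have h2 : (N : ℚ) = -((N.natAbs : ℕ) : ℚ) := by
      rw [h1]; push_cast; simp
    rw [h2, ← hsb]
    push_cast
    ring
  have hv0 : v ≠ 0 := by
    rintro rfl
    rw [hN''] at huv
    have h1 : (0 : ℚ) < (s : ℚ) * (b : ℚ) ^ 2 := by
      have : (0 : ℚ) < s := by exact_mod_cast Nat.pos_of_ne_zero hs0
      have : (0 : ℚ) < b := by exact_mod_cast Nat.pos_of_ne_zero hb0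
      positivity
    nlinarith [sq_nonneg u]
  refine ⟨s, hsy, ?_, u / v, (b : ℚ) / v, by
    rw [hN''] at huv
    field_simp
    linear_combination huv⟩
  by_contra h7
  have hs8 : s % 8 = 3 := by omega
  -- clear denominators
  have hN' : (N : ℚ) = -((s : ℚ) * (b : ℚ) ^ 2) := by
    have h1 : (N : ℤ) = -((N.natAbs : ℕ) : ℤ) := by omega
    have h2 : (N : ℚ) = -((N.natAbs : ℕ) : ℚ) := by
      rw [h1]; push_cast; simp
    rw [h2, ← hsb]
    push_cast
    ring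
  have hu := Rat.num_div_den u
  have hv := Rat.num_div_den v
  have hud : (u.den : ℚ) ≠ 0 := by exact_mod_cast u.den_nz
  have hvd : (v.den : ℚ) ≠ 0 := by exact_mod_cast v.den_nz
  have key : ((u.num * v.den : ℤ) : ℚ) ^ 2 + (s : ℚ) * ((b * u.den * v.den : ℤ) : ℚ) ^ 2
      = ((y : ℚ) ^ 2 + 1) * ((v.num * u.den : ℤ) : ℚ) ^ 2 := by
    rw [hN', ← hu, ← hv] at huv
    push_cast
    field_simp at huv
    linarith [huv]
  have keyZ : (u.num * v.den) ^ 2 + (s : ℤ) * (b * u.den * v.den : ℤ) ^ 2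
      = ((y : ℤ) ^ 2 + 1) * (v.num * u.den) ^ 2 := by
    exact_mod_cast key
  have hy2 : (y : ℤ) % 2 = 1 := by
    rcases hy with ⟨m, hm⟩
    omega
  have hz := sqa_descent (y : ℤ) hy2 (s : ℤ) (by omega) _ _ _ _ rfl keyZ
  have hud' : (u.den : ℤ) ≠ 0 := by exact_mod_cast u.den_nz
  have hvd' : (v.den : ℤ) ≠ 0 := by exact_mod_cast v.den_nz
  have hbz : (b : ℤ) ≠ 0 := by exact_mod_cast hb0
  exact (mul_ne_zero (mul_ne_zero hbz hud') hvd') hz

end Pool.Agent.Lib.MP_d0f9e0_co.Arith
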