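import Mathlib
import Pool.Agent.Lib.MP_d0f9e0_co.RamifB

set_option autoImplicit false

/-!
Even ramification in the real subfield.
-/

open NumberField IsDedekindDomain

namespace Pool.Agent.Lib.MP_d0f9e0_co.Arith

open Ramif

/-- the odd one of the integers `d`, `d + 1` -/
def oddOne (d : ℕ) : ℕ := if Even d then d + 1 else d

/-- Complex conjugation is trivial on the residue field of every prime containing the relative
different. -/
theorem conj_triv_of_different (K : Subfield ℂ) [NumberField K] (hc : ∀ z ∈ K, star z ∈ K)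
    (Q : Ideal (𝓞 K)) (hQ : differentIdeal (𝓞 (realSub K)) (𝓞 K) ≤ Q) (i : 𝓞 K) :
    RingOfIntegers.mapRingHom (conjHom K hc) i - i ∈ Q :=
  hQ (sub_mem_different K hc i)

/-- `[K : F] = 2`. -/
theorem finrank_two (K : Subfield ℂ) [NumberField K] (hc : ∀ z ∈ K, star z ∈ K)
    (hnr : ∃ w : K, conjHom K hc w ≠ w) : Module.finrank (realSub K) K = 2 := by
  obtain ⟨Z, hZc⟩ := hnr
  have hcc : ∀ w : K, conjHom K hc (conjHom K hc w) = w := fun w => Subtype.ext (by
    rw [conjHom_coe, conjHom_coe, star_star])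
  have hreal : ∀ w : K, conjHom K hc w = w → w ∈ realSub K := by
    intro w hw
    rw [mem_realSub]
    have := congrArg Subtype.val hw
    rwa [conjHom_coe] at this
  have hfix : ∀ w : realSub K, conjHom K hc (w : K) = w := by
    intro w
    have := (mem_realSub K w.1).1 w.2
    exact Subtype.ext (by rw [conjHom_coe]; exact this)
  have hsub : conjHom K hc Z - Z ≠ 0 := sub_ne_zero.2 hZc
  let φ : (realSub K × realSub K) →ₗ[realSub K] K :=
    (LinearMap.toSpanSingleton (realSub K) K 1).coprod (LinearMap.toSpanSingleton (realSub K) K Z)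
  have hφ : ∀ a b : realSub K, φ (a, b) = (a : K) + (b : K) * Z := by
    intro a b
    simp only [φ, LinearMap.coprod_apply, LinearMap.toSpanSingleton_apply]
    change (a : K) * 1 + (b : K) * Z = _
    rw [mul_one]
  have hinj : Function.Injective φ := by
    rw [← LinearMap.ker_eq_bot, LinearMap.ker_eq_bot']
    rintro ⟨a, b⟩ hab
    rw [hφ] at hab
    have h1 := congrArg (conjHom K hc) hab
    rw [map_add, map_mul, hfix, hfix, map_zero] at h1
    have h2 : (b : K) * (conjHom K hc Z - Z) = 0 := by linear_combination h1 - hab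
    have hb : (b : K) = 0 := by
      rcases mul_eq_zero.1 h2 with h | h
      · exact h
      · exact absurd h hsub
    have ha : (a : K) = 0 := by rw [hb, zero_mul, add_zero] at hab; exact hab
    exact Prod.ext (Subtype.ext ha) (Subtype.ext hb)
  have hsurj : Function.Surjective φ := by
    intro w
    set b : K := (conjHom K hc w - w) / (conjHom K hc Z - Z) with hb
    have hbr : b ∈ realSub K := by
      apply hreal
      rw [hb, map_div₀, map_sub, map_sub, hcc, hcc, ← neg_sub w, ← neg_sub Z, neg_div_neg_eq]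
    have har : w - b * Z ∈ realSub K := by
      apply hreal
      have h1 : conjHom K hc b = b := hfix ⟨b, hbr⟩
      rw [map_sub, map_mul, h1]
      have h2 : b * (conjHom K hc Z - Z) = conjHom K hc w - w := by
        rw [hb, div_mul_cancel₀ _ hsub]
      linear_combination (-1 : K) * h2
    refine ⟨(⟨w - b * Z, har⟩, ⟨b, hbr⟩), ?_⟩
    rw [hφ]
    change (w - b * Z) + b * Z = w
    ring
  have e := (LinearEquiv.ofBijective φ ⟨hinj, hsurj⟩).finrank_eq
  rw [← e, Module.finrank_prod, Module.finrank_self]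

private lemma even_exp {a b : WithZero (Multiplicative ℤ)} (n : ℤ) (ha : a ≠ 0)
    (h : a ^ 2 = b) (hb : b = WithZero.exp n) : Even n := by
  have h1 : a = WithZero.exp (WithZero.log a) := (WithZero.exp_log ha).symm
  rw [hb, h1, ← WithZero.exp_nsmul, WithZero.exp_inj] at h
  exact ⟨WithZero.log a, by rw [← h]; simp [two_mul]⟩

private lemma sq_val {K : Type} [Field K] (v : Valuation K (WithZero (Multiplicative ℤ)))
    (m : ℕ) (z : K) (hz : z ^ 2 = (m : K) ∨ z ^ 2 = -(m : K)) :
    v z ^ 2 = v (m : K) := by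
  rw [← map_pow]
  rcases hz with h | h
  · rw [h]
  · rw [h, Valuation.map_neg]

/-- A prime `P` of `F` at which a negative real element `-m` (`m` a rational integer prime to `P`'s
residue characteristic being `2`...) with `z ^ 2 = -m`, `z ∈ K`, has odd valuation is ramified:
if `v_P m` is odd and `z ^ 2 = ± m` with `z ∈ K`, then for the prime `Q` of `K` above `P` the
different is contained in `Q`.
Proof: `2 v_Q z = v_Q m = e(Q|P) v_P m`, so `e(Q|P)` is even, so `P 𝓞 K ≤ Q ^ 2`;
`pow_sub_one_dvd_differentIdeal`. -/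
theorem different_le_of_odd (K : Subfield ℂ) [NumberField K]
    (m : ℕ) (hm : m ≠ 0) (z : K) (hz : z ^ 2 = (m : K) ∨ z ^ 2 = -(m : K))
    (P : HeightOneSpectrum (𝓞 (realSub K))) (Q : HeightOneSpectrum (𝓞 K))
    [Q.asIdeal.LiesOver P.asIdeal]
    (hodd : ∃ k : ℤ, Odd k ∧ P.valuation (realSub K) (m : realSub K) = WithZero.exp k) :
    differentIdeal (𝓞 (realSub K)) (𝓞 K) ≤ Q.asIdeal := by
  obtain ⟨k, hk, hvk⟩ := hodd
  have h1 := HeightOneSpectrum.valuation_liesOver (A := 𝓞 (realSub K)) (K := realSub K)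
    (B := 𝓞 K) K P Q (m : realSub K)
  rw [hvk, ← WithZero.exp_nsmul, map_natCast] at h1
  have hm0 : (m : K) ≠ 0 := by exact_mod_cast hm
  have hz0 : z ≠ 0 := by
    rintro rfl
    rcases hz with h | h
    · rw [zero_pow two_ne_zero] at h
      exact hm0 h.symm
    · rw [zero_pow two_ne_zero] at h
      exact hm0 (neg_eq_zero.1 h.symm)
  have hvz0 : Q.valuation K z ≠ 0 := by simpa using hz0
  have he := even_exp _ hvz0 (sq_val _ m z hz) h1.symm
  set e := P.asIdeal.ramificationIdx' Q.asIdeal with hedef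
  have he' : Even (e : ℤ) := by
    rw [nsmul_eq_mul, Int.even_mul] at he
    rcases he with h | h
    · exact h
    · exact absurd h (Int.not_even_iff_odd.2 hk)
  have he0 : e ≠ 0 := Ideal.IsDedekindDomain.ramificationIdx'_ne_zero_of_liesOver Q.asIdeal P.ne_bot
  have he2 : 2 ≤ e := by
    rcases (Int.even_coe_nat e).1 he' with ⟨j, hj⟩
    omega
  have hle : P.asIdeal.map (algebraMap (𝓞 (realSub K)) (𝓞 K)) ≤ Q.asIdeal ^ e :=
    Ideal.le_pow_ramificationIdx'
  have : P.asIdeal.IsMaximal := P.isMaximal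
  have hdvd := pow_sub_one_dvd_differentIdeal (𝓞 (realSub K)) Q.asIdeal e P.ne_bot
    (Ideal.dvd_iff_le.2 hle)
  refine (Ideal.le_of_dvd hdvd).trans ?_
  exact Ideal.pow_le_self (by omega)

private lemma val_nat (p : ℕ) (hp : p.Prime) (m : ℕ) (hm : m ≠ 0) (v : HeightOneSpectrum ℤ)
    (hv : v.asIdeal = Ideal.span {(p : ℤ)}) :
    v.valuation ℚ (m : ℚ) = WithZero.exp (-(padicValNat p m : ℤ)) := by
  have : Fact p.Prime := ⟨hp⟩
  obtain ⟨n, hn, h2⟩ : ∃ n, ¬ p ∣ n ∧ m = p ^ (padicValNat p m) * n := by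
    refine ⟨m / p ^ (padicValNat p m), ?_, ?_⟩
    · rw [← Nat.factorization_def m hp]
      exact Nat.not_dvd_ordCompl hp hm
    · exact (Nat.mul_div_cancel' pow_padicValNat_dvd).symm
  have h3 : v.intValuation (p : ℤ) = WithZero.exp (-1 : ℤ) :=
    v.intValuation_singleton (by exact_mod_cast hp.ne_zero) hv
  have h4 : v.intValuation (n : ℤ) = 1 := by
    rw [HeightOneSpectrum.intValuation_eq_one_iff, hv, Ideal.mem_span_singleton]
    exact_mod_cast hn
  have h5 : v.intValuation (m : ℤ) = WithZero.exp (-(padicValNat p m : ℤ)) := by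
    conv_lhs => rw [h2]
    push_cast
    rw [map_mul, map_pow, h3, h4, mul_one, ← WithZero.exp_nsmul]
    congr 1
    simp
  have h6 := v.valuation_of_algebraMap (K := ℚ) (m : ℤ)
  rw [h5] at h6
  simpa using h6

/-- Let `d` be not `3 mod 4`, `m` the odd one of `d`, `d + 1`, and `p` a prime with `v_p m` odd.
Then every ramification index of `F = realSub K` over `p` is even.
Proof: `v_P m = e(P|p) v_p m`. `d ≡ 0, 1 mod 4`: `z ^ 2 = m > 0`, so `z` is real, `z ∈ F` and
`v_P m = 2 v_P z`. `d ≡ 2 mod 4`: `z ^ 2 = -(d+1)`; if `v_P (d + 1)` is odd then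
`different_le_of_odd` (take `Q` above `P`) puts `d` into `Q`, but also `d + 1 ∈ Q`. -/
theorem even_ram {d : ℕ} (hd4 : d % 4 ≠ 3) (K : Subfield ℂ) [NumberField K]
    (hc : ∀ z ∈ K, star z ∈ K)
    (hdiff : ((d : ℕ) : 𝓞 K) ∈ differentIdeal (𝓞 (realSub K)) (𝓞 K))
    (hz : ∃ z ∈ K, z ^ 2 = (-1 : ℂ) ^ (d * (d - 1) / 2) * (oddOne d : ℂ))
    (p : ℕ) (hp : p.Prime) (hodd : Odd (padicValNat p (oddOne d)))
    (P : Ideal (𝓞 (realSub K))) (hP : P.IsPrime) (hpP : (p : 𝓞 (realSub K)) ∈ P) :
    Even (Ideal.ramificationIdx' (Ideal.span {(p : ℤ)}) P) := by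
  by_contra hne
  rw [Nat.not_even_iff_odd] at hne
  have hm : oddOne d ≠ 0 := by
    intro h0
    rw [h0] at hodd
    simp at hodd
  have hpm : p ∣ oddOne d := by
    by_contra h
    rw [padicValNat.eq_zero_of_not_dvd h] at hodd
    simp at hodd
  have hpprime : Prime (p : ℤ) := Nat.prime_iff_prime_int.1 hp
  have hp0 : (p : ℤ) ≠ 0 := hpprime.ne_zero
  let v : HeightOneSpectrum ℤ := ⟨Ideal.span {(p : ℤ)},
    (Ideal.span_singleton_prime hp0).2 hpprime, by simpa using hp0⟩
  have hPbot : P ≠ ⊥ := by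
    rintro rfl
    rw [Ideal.mem_bot] at hpP
    exact hp.ne_zero (by exact_mod_cast hpP)
  let P' : HeightOneSpectrum (𝓞 (realSub K)) := ⟨P, hP, hPbot⟩
  have hlies : P'.asIdeal.LiesOver v.asIdeal := by
    constructor
    have hmax : (Ideal.span {(p : ℤ)}).IsMaximal := v.isMaximal
    refine hmax.eq_of_le ?_ ?_
    · exact (Ideal.comap_isPrime (algebraMap ℤ (𝓞 (realSub K))) P).ne_top
    · rw [Ideal.span_le, Set.singleton_subset_iff]
      change algebraMap ℤ (𝓞 (realSub K)) (p : ℤ) ∈ P
      rw [map_natCast]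
      exact hpP
  have h1 := HeightOneSpectrum.valuation_liesOver (A := ℤ) (K := ℚ)
    (B := 𝓞 (realSub K)) (realSub K) v P' ((oddOne d : ℕ) : ℚ)
  rw [val_nat p hp _ hm v rfl, ← WithZero.exp_nsmul, map_natCast] at h1
  change WithZero.exp ((Ideal.ramificationIdx' (Ideal.span {(p : ℤ)}) P) •
    (-(padicValNat p (oddOne d) : ℤ))) = _ at h1
  set n : ℤ := (Ideal.ramificationIdx' (Ideal.span {(p : ℤ)}) P) •
    (-(padicValNat p (oddOne d) : ℤ)) with hn
  have hnodd : Odd n := by
    rw [hn, nsmul_eq_mul]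
    refine Odd.mul ?_ ?_
    · exact_mod_cast hne
    · rw [odd_neg]
      exact_mod_cast hodd
  obtain ⟨z, hzK, hz2⟩ := hz
  -- the two cases
  by_cases hd2 : d % 4 = 2
  · -- negative sign
    have hsign : (-1 : ℂ) ^ (d * (d - 1) / 2) = -1 := by
      apply Odd.neg_one_pow
      obtain ⟨k, hk⟩ : ∃ k, d = 4 * k + 2 := ⟨d / 4, by omega⟩
      have : d * (d - 1) / 2 = (2 * k + 1) * (4 * k + 1) := by
        subst hk
        apply Nat.div_eq_of_eq_mul_left (by norm_num)
        have : 4 * k + 2 - 1 = 4 * k + 1 := by omega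
        rw [this]
        ring
      rw [this]
      exact Odd.mul ⟨k, by ring⟩ ⟨2 * k, by ring⟩
    have hz' : (⟨z, hzK⟩ : K) ^ 2 = -((oddOne d : ℕ) : K) := by
      apply Subtype.ext
      push_cast
      rw [hz2, hsign]
      ring
    have : P'.asIdeal.IsMaximal := P'.isMaximal
    obtain ⟨Q, hQmax, hQP⟩ := Ideal.exists_maximal_ideal_liesOver_of_isIntegral (S := 𝓞 K) P'.asIdeal
    have hQbot : Q ≠ ⊥ := Ideal.ne_bot_of_liesOver_of_ne_bot P'.ne_bot Q
    let Q' : HeightOneSpectrum (𝓞 K) := ⟨Q, hQmax.isPrime, hQbot⟩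
    have : Q'.asIdeal.LiesOver P'.asIdeal := hQP
    have hle := different_le_of_odd K (oddOne d) hm ⟨z, hzK⟩ (Or.inr hz') P' Q' ⟨n, hnodd, h1.symm⟩
    have hdQ : ((d : ℕ) : 𝓞 K) ∈ Q := hle hdiff
    have hpQ : ((p : ℕ) : 𝓞 K) ∈ Q := by
      have hover : P'.asIdeal = Q.comap (algebraMap (𝓞 (realSub K)) (𝓞 K)) := hQP.over
      have : (p : 𝓞 (realSub K)) ∈ Q.comap (algebraMap (𝓞 (realSub K)) (𝓞 K)) := hover ▸ hpP
      rw [Ideal.mem_comap, map_natCast] at this
      exact this
    have hmQ : ((oddOne d : ℕ) : 𝓞 K) ∈ Q := by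
      obtain ⟨c, hc'⟩ := hpm
      rw [hc', Nat.cast_mul]
      exact Q.mul_mem_right _ hpQ
    have hoo : oddOne d = d + 1 := by
      unfold oddOne
      rw [if_pos]
      rw [Nat.even_iff]
      omega
    rw [hoo, Nat.cast_add, Nat.cast_one] at hmQ
    have h1Q : (1 : 𝓞 K) ∈ Q := by
      have := Q.sub_mem hmQ hdQ
      simpa using this
    exact hQmax.ne_top ((Ideal.eq_top_iff_one Q).2 h1Q)
  · have hsign : (-1 : ℂ) ^ (d * (d - 1) / 2) = 1 := by
      apply Even.neg_one_pow
      have h01 : d % 4 = 0 ∨ d % 4 = 1 := by omega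
      rcases h01 with h | h
      · obtain ⟨k, hk⟩ : ∃ k, d = 4 * k := ⟨d / 4, by omega⟩
        have : d * (d - 1) / 2 = 2 * (k * (4 * k - 1)) := by
          subst hk
          apply Nat.div_eq_of_eq_mul_left (by norm_num)
          ring
        rw [this]
        exact even_two_mul _
      · obtain ⟨k, hk⟩ : ∃ k, d = 4 * k + 1 := ⟨d / 4, by omega⟩
        have : d * (d - 1) / 2 = 2 * ((4 * k + 1) * k) := by
          subst hk
          apply Nat.div_eq_of_eq_mul_left (by norm_num)
          have : 4 * k + 1 - 1 = 4 * k := by omega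
          rw [this]
          ring
        rw [this]
        exact even_two_mul _
    rw [hsign, one_mul] at hz2
    have hzreal : star z = z := by
      have h3 : z.re * z.im = 0 := by
        have := congrArg Complex.im hz2
        rw [pow_two, Complex.mul_im, Complex.natCast_im] at this
        linarith
      have h4 : z.re ^ 2 - z.im ^ 2 = (oddOne d : ℝ) := by
        have := congrArg Complex.re hz2
        rw [pow_two, Complex.mul_re, Complex.natCast_re] at this
        nlinarith
      have h5 : z.im = 0 := by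
        rcases mul_eq_zero.1 h3 with h | h
        · exfalso
          rw [h] at h4
          have h6 : (0 : ℝ) < (oddOne d : ℝ) := by exact_mod_cast Nat.pos_of_ne_zero hm
          nlinarith [sq_nonneg z.im]
        · exact h
      exact Complex.conj_eq_iff_im.2 h5
    have hzF : (⟨z, hzK⟩ : K) ∈ realSub K := (mem_realSub K _).2 hzreal
    let w : realSub K := ⟨⟨z, hzK⟩, hzF⟩
    have hw2 : w ^ 2 = ((oddOne d : ℕ) : realSub K) := by
      apply Subtype.ext
      apply Subtype.ext
      push_cast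
      exact hz2
    have hw0 : w ≠ 0 := by
      rintro h
      rw [h, zero_pow two_ne_zero] at hw2
      exact hm (by exact_mod_cast hw2.symm)
    have hvw0 : P'.valuation (realSub K) w ≠ 0 := by simpa using hw0
    have hev := even_exp n hvw0 (sq_val _ (oddOne d) w (Or.inl hw2)) h1.symm
    exact (Int.not_even_iff_odd.2 hnodd) hev

end Pool.Agent.Lib.MP_d0f9e0_co.Arith
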