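import Mathlib
import Pool.Agent.Lib.MP_d0f9e0_co.Arith.Even

set_option autoImplicit false

/-!
A theorem of Bruck-Ryser type: the degree of the field of triple products.
-/

open NumberField IsDedekindDomain

namespace Pool.Agent.Lib.MP_d0f9e0_co.Arith

open Ramif

/-- If `[F : ℚ]` is odd and `p` is a prime number then some prime `P` of `F` over `p` has odd
ramification index and odd residue degree. (`∑ e f = [F : ℚ]`.) -/
theorem exists_odd_prime (F : Type*) [Field F] [NumberField F] (hF : Odd (Module.finrank ℚ F))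
    (p : ℕ) (hp : p.Prime) :
    ∃ P : Ideal (𝓞 F), P.IsPrime ∧ (p : 𝓞 F) ∈ P ∧
      Odd (Ideal.ramificationIdx' (Ideal.span {(p : ℤ)}) P) ∧
      ∃ f : ℕ, Odd f ∧ Nat.card (𝓞 F ⧸ P) = p ^ f := by
  have hpZ : Prime (p : ℤ) := Nat.prime_iff_prime_int.mp hp
  have hp0 : (Ideal.span {(p : ℤ)} : Ideal ℤ) ≠ ⊥ := by
    rw [Ne, Ideal.span_singleton_eq_bot]
    exact hpZ.ne_zero
  have hprime : (Ideal.span {(p : ℤ)} : Ideal ℤ).IsPrime :=
    (Ideal.span_singleton_prime hpZ.ne_zero).2 hpZ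
  haveI hmax : (Ideal.span {(p : ℤ)} : Ideal ℤ).IsMaximal := hprime.isMaximal hp0
  have hsum := Ideal.sum_ramification_inertia (𝓞 F) ℚ F hp0
  rw [← hsum] at hF
  obtain ⟨P, hP, hodd⟩ : ∃ P ∈ IsDedekindDomain.primesOverFinset (Ideal.span {(p : ℤ)}) (𝓞 F),
      Odd (Ideal.ramificationIdx' (Ideal.span {(p : ℤ)}) P *
        Ideal.inertiaDeg' (Ideal.span {(p : ℤ)}) P) := by
    by_contra hcon
    push Not at hcon
    refine (Nat.not_even_iff_odd.2 hF) (even_iff_two_dvd.2 (Finset.dvd_sum fun P hP => ?_))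
    exact even_iff_two_dvd.1 (Nat.not_odd_iff_even.1 (hcon P hP))
  obtain ⟨hPp, hPo⟩ := (IsDedekindDomain.mem_primesOverFinset_iff hp0 _).mp hP
  haveI := hPo
  rw [Nat.odd_mul] at hodd
  refine ⟨P, hPp, ?_, hodd.1, _, hodd.2, ?_⟩
  · have h1 : (p : ℤ) ∈ P.under ℤ := by
      rw [← Ideal.over_def P (Ideal.span {(p : ℤ)})]
      exact Ideal.mem_span_singleton_self _
    rw [Ideal.under_def, Ideal.mem_comap] at h1
    simpa using h1
  · have h2 := Ideal.absNorm_eq_pow_inertiaDeg' P hp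
    rwa [Ideal.absNorm_apply, Submodule.cardQuot_apply] at h2

private theorem Deg_two : ∀ x : ZMod 2, IsSquare x := by
  have h : ∀ x : ZMod 2, x = x * x := by decide
  exact fun x => ⟨x, h x⟩

/-- If `a = ±2` (or any integer) is a square in a field with `p ^ f` elements, `f` odd, then `a` is
a square modulo `p`. -/
theorem isSquare_zmod_of_card (k : Type*) [Field k] [Finite k] (p : ℕ) [Fact p.Prime] (f : ℕ)
    (hf : Odd f) (hk : Nat.card k = p ^ f) (a : ℤ) (ha : IsSquare (a : k)) :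
    IsSquare (a : ZMod p) := by
  classical
  haveI := Fintype.ofFinite k
  have hcard : Fintype.card k = p ^ f := by rw [← Nat.card_eq_fintype_card]; exact hk
  have hp : p.Prime := Fact.out
  rcases hp.eq_two_or_odd' with h2 | hpo
  · subst h2
    exact Deg_two _
  have hchar : CharP k p := by
    obtain ⟨q, hq⟩ := CharP.exists k
    haveI := hq
    obtain ⟨n, hqp, hn⟩ := FiniteField.card k q
    rw [hcard] at hn
    have hf0 : f ≠ 0 := by
      rintro rfl
      exact absurd hf (by decide)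
    have h3 : p = q := by
      have h4 : p ∣ q ^ (n : ℕ) := by
        rw [← hn]
        exact dvd_pow_self p hf0
      exact (Nat.prime_dvd_prime_iff_eq hp hqp).1 (hp.dvd_of_dvd_pow h4)
    rw [h3]
    exact hq
  haveI := hchar
  letI : Algebra (ZMod p) k := ZMod.algebra k p
  have hinj : Function.Injective (algebraMap (ZMod p) k) := (algebraMap (ZMod p) k).injective
  have hcast : algebraMap (ZMod p) k (a : ZMod p) = (a : k) := map_intCast _ a
  by_cases ha0 : (a : ZMod p) = 0
  · rw [ha0]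
    exact IsSquare.zero
  have hak : (a : k) ≠ 0 := by
    rw [← hcast]
    intro h
    exact ha0 (hinj (by rw [h, map_zero]))
  have hck : ringChar k ≠ 2 := by
    rw [ringChar.eq k p]
    rintro rfl
    exact absurd hpo (by decide)
  have hE := (FiniteField.isSquare_iff hck hak).1 ha
  rw [hcard] at hE
  rw [ZMod.euler_criterion p ha0]
  rcases ZMod.pow_div_two_eq_neg_one_or_one p ha0 with h | h
  · exact h
  exfalso
  -- `(p ^ f - 1) / 2 = (p - 1) / 2 * m` with `m` odd
  obtain ⟨m, hm, hmo⟩ : ∃ m, p ^ f / 2 = p / 2 * m ∧ Odd m := by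
    obtain ⟨c, hc⟩ := hpo
    refine ⟨∑ i ∈ Finset.range f, p ^ i, ?_, ?_⟩
    · have h6 : (p - 1) * ∑ i ∈ Finset.range f, p ^ i = p ^ f - 1 := by
        have h9 := mul_geom_sum (p : ℤ) f
        have h10 : ((p - 1 : ℕ) : ℤ) * ∑ i ∈ Finset.range f, (p : ℤ) ^ i = (p : ℤ) ^ f - 1 := by
          rw [Nat.cast_sub hp.one_lt.le, Nat.cast_one]
          exact h9
        have h11 : 1 ≤ p ^ f := Nat.one_le_pow _ _ hp.pos
        zify [h11]
        rw [Nat.cast_sub hp.one_lt.le, Nat.cast_one] at h10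
        rw [Nat.cast_sub hp.one_lt.le, Nat.cast_one]
        exact h10
      have h12 : p / 2 = c := by omega
      have h13 : p - 1 = 2 * c := by omega
      rw [h12]
      rw [h13, mul_assoc] at h6
      have h11 : 1 ≤ p ^ f := Nat.one_le_pow _ _ hp.pos
      have h14 : Odd (p ^ f) := (show Odd p from ⟨c, hc⟩).pow
      obtain ⟨e, he⟩ := h14
      omega
    · rw [Finset.odd_sum_iff_odd_card_odd]
      have h15 : (Finset.range f).filter (fun i => Odd (p ^ i)) = Finset.range f := by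
        refine Finset.filter_true_of_mem fun i _ => ?_
        exact (show Odd p from ⟨c, hc⟩).pow
      rw [h15, Finset.card_range]
      exact hf
  rw [hm, pow_mul, ← hcast, ← map_pow, ← map_pow, h, hmo.neg_one_pow, map_neg, map_one] at hE
  have h2k : (2 : k) = 0 := by linear_combination (-1 : k) * hE
  exact Ring.two_ne_zero hck h2k

/-- At a prime `Q` with trivial action of conjugation the residue fields of `Q` and of the prime
below it in the real subfield are the same, if `2 ∉ Q`. (For `w ∈ 𝓞 K`, `2 w ≡ w + conj w` mod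
`Q`.) -/
theorem card_quot_eq (K : Subfield ℂ) [NumberField K] (hc : ∀ z ∈ K, star z ∈ K)
    (Q : Ideal (𝓞 K)) (hQp : Q.IsPrime) (hQ0 : Q ≠ ⊥)
    (hQ : ∀ i : 𝓞 K, RingOfIntegers.mapRingHom (conjHom K hc) i - i ∈ Q)
    (h2 : (2 : 𝓞 K) ∉ Q) :
    Nat.card (𝓞 (realSub K) ⧸ Q.comap (algebraMap (𝓞 (realSub K)) (𝓞 K)))
      = Nat.card (𝓞 K ⧸ Q) := by
  haveI hmax : Q.IsMaximal := hQp.isMaximal hQ0
  set c : 𝓞 K →+* 𝓞 K := RingOfIntegers.mapRingHom (conjHom K hc) with hcdef
  have hcK : ∀ z : 𝓞 K, algebraMap (𝓞 K) K (c z) = conjHom K hc (algebraMap (𝓞 K) K z) := by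
    intro z
    rfl
  have hcc : ∀ w : K, conjHom K hc (conjHom K hc w) = w := fun w => Subtype.ext (by
    rw [conjHom_coe, conjHom_coe, star_star])
  have hreal : ∀ w : K, conjHom K hc w = w → w ∈ realSub K := by
    intro w hw
    rw [mem_realSub]
    have := congrArg Subtype.val hw
    rwa [conjHom_coe] at this
  -- traces are real
  have htr : ∀ w : 𝓞 K, ∃ t : 𝓞 (realSub K), algebraMap (𝓞 (realSub K)) (𝓞 K) t = w + c w := by
    intro w
    have h1 : algebraMap (𝓞 K) K (w + c w) ∈ realSub K := by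
      apply hreal
      rw [map_add, map_add, hcK, hcc, add_comm]
    have h2 : IsIntegral ℤ (⟨algebraMap (𝓞 K) K (w + c w), h1⟩ : realSub K) := by
      have h3 : IsIntegral ℤ (algebraMap (realSub K) K ⟨algebraMap (𝓞 K) K (w + c w), h1⟩) :=
        RingOfIntegers.isIntegral_coe (w + c w)
      exact (isIntegral_algebraMap_iff (algebraMap (realSub K) K).injective).1 h3
    refine ⟨⟨_, h2⟩, ?_⟩
    apply RingOfIntegers.coe_injective
    rfl
  let φ : (𝓞 (realSub K) ⧸ Q.comap (algebraMap (𝓞 (realSub K)) (𝓞 K))) →+* 𝓞 K ⧸ Q :=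
    Ideal.quotientMap Q (algebraMap (𝓞 (realSub K)) (𝓞 K)) le_rfl
  have hφi : Function.Injective φ := Ideal.quotientMap_injective
  have hφs : Function.Surjective φ := by
    intro y
    letI : Field (𝓞 K ⧸ Q) := Ideal.Quotient.field Q
    have h2' : (2 : 𝓞 K ⧸ Q) ≠ 0 := by
      intro h
      apply h2
      rw [← Ideal.Quotient.eq_zero_iff_mem, map_ofNat]
      exact h
    obtain ⟨w, hw⟩ := Ideal.Quotient.mk_surjective ((2 : 𝓞 K ⧸ Q)⁻¹ * y)
    obtain ⟨t, ht⟩ := htr w
    refine ⟨Ideal.Quotient.mk _ t, ?_⟩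
    have h3 : φ (Ideal.Quotient.mk _ t) = Ideal.Quotient.mk Q (algebraMap (𝓞 (realSub K)) (𝓞 K) t) :=
      Ideal.quotientMap_mk
    rw [h3, ht]
    have h4 : Ideal.Quotient.mk Q (c w) = Ideal.Quotient.mk Q w := by
      rw [Ideal.Quotient.eq]
      exact hQ w
    rw [map_add, h4, hw, ← two_mul, ← mul_assoc, mul_inv_cancel₀ h2', one_mul]
  exact Nat.card_congr (Equiv.ofBijective φ ⟨hφi, hφs⟩)

private lemma deg_isSquare (n : ℕ) (hn : n ≠ 0)
    (h : ∀ p : ℕ, p.Prime → Even (padicValNat p n)) : IsSquare n := by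
  refine ⟨n.factorization.prod fun p k => p ^ (k / 2), ?_⟩
  conv_lhs => rw [← Nat.prod_factorization_pow_eq_self hn]
  rw [Finsupp.prod, Finsupp.prod, ← Finset.prod_mul_distrib]
  refine Finset.prod_congr rfl fun p hp => ?_
  rw [← pow_add]
  congr 1
  have hpp : p.Prime := Nat.prime_of_mem_primeFactors (by simpa using hp)
  have h1 := h p hpp
  rw [← Nat.factorization_def n hpp] at h1
  obtain ⟨k, hk⟩ := h1
  omega

private lemma deg_val_nat (p : ℕ) (hp : p.Prime) (m : ℕ) (hm : m ≠ 0) (v : HeightOneSpectrum ℤ)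
    (hv : v.asIdeal = Ideal.span {(p : ℤ)}) :
    v.valuation ℚ (m : ℚ) = WithZero.exp (-(padicValNat p m : ℤ)) := by
  have : Fact p.Prime := ⟨hp⟩
  obtain ⟨n, hn, h2⟩ : ∃ n, ¬ p ∣ n ∧ m = p ^ (padicValNat p m) * n := by
    refine ⟨m / p ^ (padicValNat p m), ?_, ?_⟩
    · rw [← Nat.factorization_def m hp]
      exact Nat.not_dvd_ordCompl hp hm
    · exact (Nat.mul_div_cancel' pow_padicValNat_dvd).symm
  have h3 : v.intValuation (p : ℤ) = WithZero.exp (-1 : ℤ) :=
    v.intValuation_singleton (by exact_mod_cast hp.ne_zero) hv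
  have h4 : v.intValuation (n : ℤ) = 1 := by
    rw [HeightOneSpectrum.intValuation_eq_one_iff, hv, Ideal.mem_span_singleton]
    exact_mod_cast hn
  have h5 : v.intValuation (m : ℤ) = WithZero.exp (-(padicValNat p m : ℤ)) := by
    conv_lhs => rw [h2]
    push_cast
    rw [map_mul, map_pow, h3, h4, mul_one, ← WithZero.exp_nsmul]
    congr 1
    simp
  have h6 := v.valuation_of_algebraMap (K := ℚ) (m : ℤ)
  rw [h5] at h6
  simpa using h6

/-- The degree theorem. -/
theorem degree {d : ℕ} (hd : 3 ≤ d) (K : Subfield ℂ) [NumberField K]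
    (hc : ∀ z ∈ K, star z ∈ K) (hnr : ∃ w : K, conjHom K hc w ≠ w)
    (hdiff : ((d : ℕ) : 𝓞 K) ∈ differentIdeal (𝓞 (realSub K)) (𝓞 K))
    (hz : ∃ z ∈ K, z ^ 2 = (-1 : ℂ) ^ (d * (d - 1) / 2) * (oddOne d : ℂ))
    (hres : ∀ Q : Ideal (𝓞 K), Q.IsPrime → Q ≠ ⊥ →
      differentIdeal (𝓞 (realSub K)) (𝓞 K) ≤ Q → (2 : 𝓞 K) ∉ Q →
      (d % 8 = 3 → IsSquare (-2 : 𝓞 K ⧸ Q)) ∧ (d % 8 = 7 → IsSquare (2 : 𝓞 K ⧸ Q)))
    (h4 : ¬ 4 ∣ Module.finrank ℚ K) :
    (d % 4 = 0 ∧ IsSquare (d + 1)) ∨ (d % 4 = 1 ∧ IsSquare d) ∨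
    (d % 8 = 3 ∧ ∀ p : ℕ, p.Prime → Odd (padicValNat p d) → p % 8 = 1 ∨ p % 8 = 3) ∨
    (d % 8 = 7 ∧ ∀ p : ℕ, p.Prime → Odd (padicValNat p d) → p % 8 = 1 ∨ p % 8 = 7) := by
  have hF : Odd (Module.finrank ℚ (realSub K)) := by
    have h1 := Module.finrank_mul_finrank ℚ (realSub K) K
    rw [finrank_two K hc hnr] at h1
    rw [← Nat.not_even_iff_odd]
    rintro ⟨j, hj⟩
    apply h4
    exact ⟨j, by omega⟩
  by_cases hd4 : d % 4 = 3
  · -- d = 3 mod 4
    have hood : oddOne d = d := by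
      unfold oddOne
      rw [if_neg]
      rw [Nat.even_iff]
      omega
    obtain ⟨z, hzK, hz2⟩ := hz
    have hsign : (-1 : ℂ) ^ (d * (d - 1) / 2) = -1 := by
      apply Odd.neg_one_pow
      obtain ⟨k, hk⟩ : ∃ k, d = 4 * k + 3 := ⟨d / 4, by omega⟩
      have : d * (d - 1) / 2 = (4 * k + 3) * (2 * k + 1) := by
        subst hk
        apply Nat.div_eq_of_eq_mul_left (by norm_num)
        have : 4 * k + 3 - 1 = 4 * k + 2 := by omega
        rw [this]
        ring
      rw [this]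
      exact Odd.mul ⟨2 * k + 1, by ring⟩ ⟨k, by ring⟩
    have hz' : (⟨z, hzK⟩ : K) ^ 2 = -((d : ℕ) : K) := by
      apply Subtype.ext
      push_cast
      rw [hz2, hsign, hood]
      ring
    have key : ∀ p : ℕ, p.Prime → Odd (padicValNat p d) →
        (d % 8 = 3 → p % 8 = 1 ∨ p % 8 = 3) ∧ (d % 8 = 7 → p % 8 = 1 ∨ p % 8 = 7) := by
      intro p hp hodd
      have : Fact p.Prime := ⟨hp⟩
      have hd0 : d ≠ 0 := by omega
      have hpd : p ∣ d := by
        by_contra h
        rw [padicValNat.eq_zero_of_not_dvd h] at hodd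
        simp at hodd
      have hp2 : p ≠ 2 := by
        rintro rfl
        omega
      obtain ⟨P, hP, hpP, hram, f, hf, hcard⟩ := exists_odd_prime (realSub K) hF p hp
      have hpprime : Prime (p : ℤ) := Nat.prime_iff_prime_int.1 hp
      have hp0 : (p : ℤ) ≠ 0 := hpprime.ne_zero
      let v : HeightOneSpectrum ℤ := ⟨Ideal.span {(p : ℤ)},
        (Ideal.span_singleton_prime hp0).2 hpprime, by simpa using hp0⟩
      have hPbot : P ≠ ⊥ := by
        rintro rfl
        rw [Ideal.mem_bot] at hpP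
        exact hp.ne_zero (by exact_mod_cast hpP)
      let P' : HeightOneSpectrum (𝓞 (realSub K)) := ⟨P, hP, hPbot⟩
      have hlies : P'.asIdeal.LiesOver v.asIdeal := by
        constructor
        have hmax : (Ideal.span {(p : ℤ)}).IsMaximal := v.isMaximal
        refine hmax.eq_of_le ?_ ?_
        · exact (Ideal.comap_isPrime (algebraMap ℤ (𝓞 (realSub K))) P).ne_top
        · rw [Ideal.span_le, Set.singleton_subset_iff]
          change algebraMap ℤ (𝓞 (realSub K)) (p : ℤ) ∈ P
          rw [map_natCast]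
          exact hpP
      have h1 := HeightOneSpectrum.valuation_liesOver (A := ℤ) (K := ℚ)
        (B := 𝓞 (realSub K)) (realSub K) v P' ((d : ℕ) : ℚ)
      rw [deg_val_nat p hp _ hd0 v rfl, ← WithZero.exp_nsmul, map_natCast] at h1
      change WithZero.exp ((Ideal.ramificationIdx' (Ideal.span {(p : ℤ)}) P) •
        (-(padicValNat p d : ℤ))) = _ at h1
      set n : ℤ := (Ideal.ramificationIdx' (Ideal.span {(p : ℤ)}) P) •
        (-(padicValNat p d : ℤ)) with hn
      have hnodd : Odd n := by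
        rw [hn, nsmul_eq_mul]
        refine Odd.mul ?_ ?_
        · exact_mod_cast hram
        · rw [odd_neg]
          exact_mod_cast hodd
      have : P'.asIdeal.IsMaximal := P'.isMaximal
      obtain ⟨Q, hQmax, hQP⟩ :=
        Ideal.exists_maximal_ideal_liesOver_of_isIntegral (S := 𝓞 K) P'.asIdeal
      have hQbot : Q ≠ ⊥ := Ideal.ne_bot_of_liesOver_of_ne_bot P'.ne_bot Q
      let Q' : HeightOneSpectrum (𝓞 K) := ⟨Q, hQmax.isPrime, hQbot⟩
      have : Q'.asIdeal.LiesOver P'.asIdeal := hQP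
      have hle : differentIdeal (𝓞 (realSub K)) (𝓞 K) ≤ Q :=
        different_le_of_odd K d hd0 ⟨z, hzK⟩ (Or.inr hz') P' Q' ⟨n, hnodd, h1.symm⟩
      have hover : P = Q.comap (algebraMap (𝓞 (realSub K)) (𝓞 K)) := hQP.over
      have hpQ : ((p : ℕ) : 𝓞 K) ∈ Q := by
        have : (p : 𝓞 (realSub K)) ∈ Q.comap (algebraMap (𝓞 (realSub K)) (𝓞 K)) := hover ▸ hpP
        rw [Ideal.mem_comap, map_natCast] at this
        exact this
      have h2Q : (2 : 𝓞 K) ∉ Q := by
        intro h2
        apply hQmax.ne_top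
        rw [Ideal.eq_top_iff_one]
        obtain ⟨j, hj⟩ : ∃ j, p = 2 * j + 1 := by
          rcases hp.eq_two_or_odd' with h | ⟨j, hj⟩
          · exact absurd h hp2
          · exact ⟨j, hj⟩
        have h3 : (2 : 𝓞 K) * (j : 𝓞 K) ∈ Q := Q.mul_mem_right _ h2
        have h4 : ((p : ℕ) : 𝓞 K) = 2 * (j : 𝓞 K) + 1 := by
          rw [hj]; push_cast; ring
        rw [h4] at hpQ
        have := Q.sub_mem hpQ h3
        simpa using this
      have hr := hres Q hQmax.isPrime hQbot hle h2Q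
      have hcQ : Nat.card (𝓞 K ⧸ Q) = p ^ f := by
        rw [← card_quot_eq K hc Q hQmax.isPrime hQbot (conj_triv_of_different K hc Q hle) h2Q,
          ← hover, hcard]
      let _ : Field (𝓞 K ⧸ Q) := Ideal.Quotient.field Q
      have hfin : Finite (𝓞 K ⧸ Q) := by
        apply Nat.finite_of_card_ne_zero
        rw [hcQ]
        exact pow_ne_zero _ hp.ne_zero
      constructor
      · intro hd8
        have h5 := isSquare_zmod_of_card (𝓞 K ⧸ Q) p f hf hcQ (-2) (by
          have := hr.1 hd8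
          push_cast
          exact this)
        push_cast at h5
        exact (ZMod.exists_sq_eq_neg_two_iff hp2).1 h5
      · intro hd8
        have h5 := isSquare_zmod_of_card (𝓞 K ⧸ Q) p f hf hcQ 2 (by
          have := hr.2 hd8
          push_cast
          exact this)
        push_cast at h5
        exact (ZMod.exists_sq_eq_two_iff hp2).1 h5
    have h8 : d % 8 = 3 ∨ d % 8 = 7 := by omega
    rcases h8 with h8 | h8
    · exact Or.inr (Or.inr (Or.inl ⟨h8, fun p hp ho => (key p hp ho).1 h8⟩))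
    · exact Or.inr (Or.inr (Or.inr ⟨h8, fun p hp ho => (key p hp ho).2 h8⟩))
  · -- d not 3 mod 4
    have hm : oddOne d ≠ 0 := by
      unfold oddOne
      split_ifs <;> omega
    have hsq : IsSquare (oddOne d) := by
      apply deg_isSquare _ hm
      intro p hp
      by_contra hne
      rw [Nat.not_even_iff_odd] at hne
      obtain ⟨P, hP, hpP, hram, -⟩ := exists_odd_prime (realSub K) hF p hp
      have := even_ram hd4 K hc hdiff hz p hp hne P hP hpP
      exact (Nat.not_even_iff_odd.2 hram) this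
    have h012 : d % 4 = 0 ∨ d % 4 = 1 ∨ d % 4 = 2 := by omega
    rcases h012 with h | h | h
    · have : oddOne d = d + 1 := by
        unfold oddOne
        rw [if_pos]
        rw [Nat.even_iff]
        omega
      rw [this] at hsq
      exact Or.inl ⟨h, hsq⟩
    · have : oddOne d = d := by
        unfold oddOne
        rw [if_neg]
        rw [Nat.even_iff]
        omega
      rw [this] at hsq
      exact Or.inr (Or.inl ⟨h, hsq⟩)
    · exfalso
      have : oddOne d = d + 1 := by
        unfold oddOne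
        rw [if_pos]
        rw [Nat.even_iff]
        omega
      rw [this] at hsq
      obtain ⟨r, hr⟩ := hsq
      have h1 : (d + 1) % 4 = 3 := by omega
      have h2 : (r * r) % 4 = ((r % 4) * (r % 4)) % 4 := Nat.mul_mod r r 4
      have h3 : r % 4 < 4 := Nat.mod_lt _ (by norm_num)
      rw [hr, h2] at h1
      interval_cases h : r % 4 <;> simp_all

end Pool.Agent.Lib.MP_d0f9e0_co.Arith
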