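import Mathlib

set_option autoImplicit false

/-!
Diagonalisation of the simplex form `I + (J - I)/(d+1)` of size `d ^ 2`.
-/

open Matrix

namespace Pool.Agent.Lib.MP_d0f9e0_co.Arith

/-- The matrix with diagonal `1` and off-diagonal `1/(d+1)` of size `d * d` is congruent to the
diagonal matrix with one entry `d` and all others `d/(d+1)`.
Proof: the matrix is `(d I + J)/(d+1)`. With `v = (1/d) 𝟙` (a unit vector, as `card = d * d`),
`w = v - e_o`, `H = 1 - w wᵀ / (1 - 1/d)` is symmetric, `H * H = 1`, `H v = e_o`,
`J = d² v vᵀ`. (For `d = 1` everything is trivial, take `H = 1`.) -/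
theorem simplex_diag {F : Type*} [Field F] [CharZero F] {d : ℕ} (hd : 1 ≤ d)
    (o : Fin d × Fin d) :
    ∃ H : Matrix (Fin d × Fin d) (Fin d × Fin d) F,
      H * (Matrix.of fun p q => if p = q then 1 else 1 / ((d : F) + 1)) * Hᵀ
        = Matrix.diagonal (fun p => if p = o then (d : F) else (d : F) / ((d : F) + 1)) := by
  classical
  have hd1 : ((d : F) + 1) ≠ 0 := by exact_mod_cast Nat.succ_ne_zero d
  have hd0 : (d : F) ≠ 0 := by exact_mod_cast (by omega : d ≠ 0)
  have hM : (Matrix.of fun p q : Fin d × Fin d => if p = q then (1 : F) else 1 / ((d : F) + 1))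
      = ((d : F) / ((d : F) + 1)) • (1 : Matrix (Fin d × Fin d) (Fin d × Fin d) F)
        + (1 / ((d : F) + 1)) • vecMulVec (fun _ => (1 : F)) (fun _ => (1 : F)) := by
    ext p q
    by_cases h : p = q
    · subst h
      simp [vecMulVec_apply]
      field_simp
    · simp [vecMulVec_apply, h]
  rcases Nat.eq_or_lt_of_le hd with h1 | h1
  · -- `d = 1`
    subst h1
    refine ⟨1, ?_⟩
    ext p q
    have hp : p = o := Subsingleton.elim _ _
    have hq : q = o := Subsingleton.elim _ _
    subst hp
    subst hq
    simp
  have hdm : ((d : F) - 1) ≠ 0 := by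
    intro h
    have : (d : F) = 1 := by linear_combination h
    have : d = 1 := by exact_mod_cast this
    omega
  set w : Fin d × Fin d → F := fun p => 1 / (d : F) - (if p = o then 1 else 0) with hw
  set c : F := (d : F) / ((d : F) - 1) with hc
  set H : Matrix (Fin d × Fin d) (Fin d × Fin d) F := 1 - c • vecMulVec w w with hH
  have hcard : (Finset.univ : Finset (Fin d × Fin d)).card = d * d := by
    simp
  have hww : w ⬝ᵥ w = 2 - 2 / (d : F) := by
    have h1 : ∀ p, w p * w p = 1 / ((d : F) * d)
        + (if p = o then (1 - 2 / (d : F)) else 0) := by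
      intro p
      by_cases h : p = o
      · simp only [hw, h, if_true]; field_simp; ring
      · simp only [hw, h, if_false]; field_simp; ring
    rw [dotProduct, Finset.sum_congr rfl (fun p _ => h1 p), Finset.sum_add_distrib,
      Finset.sum_const, Finset.sum_ite_eq' Finset.univ o, hcard]
    simp only [Finset.mem_univ, if_true, nsmul_eq_mul]
    push_cast
    field_simp
    ring
  have hw1 : w ⬝ᵥ (fun _ => (1 : F)) = (d : F) - 1 := by
    rw [dotProduct]
    simp only [hw, mul_one]
    rw [Finset.sum_sub_distrib, Finset.sum_const, Finset.sum_ite_eq' Finset.univ o, hcard]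
    simp only [Finset.mem_univ, if_true, nsmul_eq_mul]
    push_cast
    field_simp
  have hHT : Hᵀ = H := by
    rw [hH, transpose_sub, transpose_one, transpose_smul]
    congr 2
    ext p q
    simp [vecMulVec_apply, mul_comm]
  have hHH : H * H = 1 := by
    have h1 : vecMulVec w w * vecMulVec w w = (w ⬝ᵥ w) • vecMulVec w w := by
      ext p q
      simp only [Matrix.mul_apply, vecMulVec_apply, Matrix.smul_apply, dotProduct, smul_eq_mul,
        Finset.sum_mul]
      refine Finset.sum_congr rfl fun x _ => by ring
    rw [hH, sub_mul, mul_sub, mul_sub, one_mul, mul_one, one_mul, smul_mul_smul_comm, h1, hww,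
      smul_smul]
    have h2 : c * c * (2 - 2 / (d : F)) = c + c := by
      rw [hc]
      field_simp
      ring
    rw [h2, add_smul]
    abel
  have hH1 : H *ᵥ (fun _ => (1 : F)) = fun p => if p = o then (d : F) else 0 := by
    have h1 : vecMulVec w w *ᵥ (fun _ => (1 : F)) = (w ⬝ᵥ (fun _ => (1 : F))) • w := by
      ext p
      simp only [mulVec, vecMulVec_apply, dotProduct, Pi.smul_apply, smul_eq_mul, Finset.sum_mul]
      refine Finset.sum_congr rfl fun x _ => by ring
    rw [hH, sub_mulVec, one_mulVec, smul_mulVec, h1, hw1, smul_smul]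
    ext p
    by_cases h : p = o
    · simp only [Pi.sub_apply, Pi.smul_apply, smul_eq_mul, hw, h, if_true, hc]
      field_simp
      ring
    · simp only [Pi.sub_apply, Pi.smul_apply, smul_eq_mul, hw, h, if_false, hc]
      field_simp
      ring
  refine ⟨H, ?_⟩
  have h3 : H * vecMulVec (fun _ => (1 : F)) (fun _ => (1 : F)) * Hᵀ
      = vecMulVec (H *ᵥ (fun _ => (1 : F))) (H *ᵥ (fun _ => (1 : F))) := by
    rw [mul_vecMulVec, vecMulVec_mul, vecMul_transpose]
  rw [hM, mul_add, add_mul, mul_smul_comm, mul_smul_comm, smul_mul_assoc, smul_mul_assoc, mul_one,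
    h3, hHT, hHH, hH1]
  ext p q
  by_cases h : p = q
  · subst h
    by_cases h' : p = o
    · subst h'
      simp [vecMulVec_apply]
      field_simp
      ring
    · simp [vecMulVec_apply, h']
  · by_cases h' : p = o
    · subst h'
      have : q ≠ p := fun e => h e.symm
      simp [vecMulVec_apply, h, this]
    · simp [vecMulVec_apply, h, h']

end Pool.Agent.Lib.MP_d0f9e0_co.Arith
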