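import Mathlib
import Pool.Agent.Lib.MP_d0f9e0_co.RamifB

set_option autoImplicit false

/-!
Auxiliary facts for `Ram.lean`: squares modulo `Q`, pairs of indices.
-/

open Matrix NumberField IsDedekindDomain

namespace Pool.Agent.Lib.MP_d0f9e0_co.Arith

/-- squares modulo `Q` from valuations -/
theorem sq_of_val {K : Type*} [Field K] [NumberField K] (Q : HeightOneSpectrum (𝓞 K)) (a : ℤ)
    (u t : K) (hu : Q.valuation K u = 1) (ht : Q.valuation K t ≤ 1)
    (h : Q.valuation K ((a : K) * u ^ 2 - t ^ 2) < 1) :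
    IsSquare ((a : ℤ) : 𝓞 K ⧸ Q.asIdeal) := by
  obtain ⟨α, s, hs⟩ := Q.exists_primeCompl_mul_eq_of_integer u hu.le
  obtain ⟨β, s', hs'⟩ := Q.exists_primeCompl_mul_eq_of_integer t ht
  have hvs : Q.valuation K (algebraMap (𝓞 K) K s) = 1 :=
    (Q.valuation_eq_one_iff_notMem).2 s.2
  have hvs' : Q.valuation K (algebraMap (𝓞 K) K s') = 1 :=
    (Q.valuation_eq_one_iff_notMem).2 s'.2
  have hα : (α : 𝓞 K) ∉ Q.asIdeal := by
    rw [← Q.valuation_eq_one_iff_notMem (K := K), ← hs, map_mul, hu, hvs, one_mul]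
  have hmem : (a : 𝓞 K) * α ^ 2 * (s' : 𝓞 K) ^ 2 - β ^ 2 * (s : 𝓞 K) ^ 2 ∈ Q.asIdeal := by
    rw [← Q.valuation_lt_one_iff_mem (K := K)]
    have e : algebraMap (𝓞 K) K ((a : 𝓞 K) * α ^ 2 * (s' : 𝓞 K) ^ 2 - β ^ 2 * (s : 𝓞 K) ^ 2)
        = ((a : K) * u ^ 2 - t ^ 2) * (algebraMap (𝓞 K) K s) ^ 2 *
          (algebraMap (𝓞 K) K s') ^ 2 := by
      simp only [map_sub, map_mul, map_pow, map_intCast]
      rw [← hs, ← hs']
      ring
    change Q.valuation K (algebraMap (𝓞 K) K _) < 1
    rw [e, map_mul, map_mul, map_pow, map_pow, hvs, hvs', one_pow, mul_one, mul_one]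
    exact h
  have : Q.asIdeal.IsMaximal := Q.isPrime.isMaximal Q.ne_bot
  let : Field (𝓞 K ⧸ Q.asIdeal) := Ideal.Quotient.field _
  have h1 : (Ideal.Quotient.mk Q.asIdeal α) ≠ 0 := by
    rwa [Ne, Ideal.Quotient.eq_zero_iff_mem]
  have h2 : (Ideal.Quotient.mk Q.asIdeal (s' : 𝓞 K)) ≠ 0 := by
    rw [Ne, Ideal.Quotient.eq_zero_iff_mem]
    exact s'.2
  have h3 := Ideal.Quotient.eq_zero_iff_mem.2 hmem
  simp only [map_sub, map_mul, map_pow, map_intCast] at h3
  refine ⟨Ideal.Quotient.mk Q.asIdeal β * Ideal.Quotient.mk Q.asIdeal (s : 𝓞 K) /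
    (Ideal.Quotient.mk Q.asIdeal α * Ideal.Quotient.mk Q.asIdeal (s' : 𝓞 K)), ?_⟩
  field_simp
  linear_combination h3

lemma prod_lower_aux {M : Type*} [CommMonoid M] {d : ℕ} (f : Fin d → Fin d → M) :
    ∏ p : {p : Fin d × Fin d // decide (p.2 < p.1) = true}, f p.1.1 p.1.2
      = ∏ i, ∏ j, if j < i then f i j else 1 := by
  rw [← Fintype.prod_prod_type' (fun i j => if j < i then f i j else 1), ← Finset.prod_filter]
  refine (Finset.prod_subtype _ ?_ (fun p : Fin d × Fin d => f p.1 p.2)).symm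
  intro p
  simp

/-- product over the pairs below the diagonal -/
theorem prod_lower' {M : Type*} [CommMonoid M] {d : ℕ} (a : Fin d → M) (b : M) :
    ∏ p : {p : Fin d × Fin d // decide (p.2 < p.1) = true}, (b * a p.1.1 * a p.1.2)
      = b ^ (d * (d - 1) / 2) * (∏ i, a i) ^ (d - 1) := by
  rw [prod_lower_aux (fun i j => b * a i * a j)]
  have h1 : ∀ i j : Fin d, (if j < i then b * a i * a j else 1)
      = (if j < i then b * a i else 1) * (if j < i then a j else 1) := by
    intro i j
    split_ifs <;> simp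
  simp only [h1, Finset.prod_mul_distrib]
  have h2 : ∀ i : Fin d, (∏ j : Fin d, if j < i then b * a i else 1) = (b * a i) ^ (i : ℕ) := by
    intro i
    rw [Finset.prod_ite, Finset.prod_const, Finset.prod_const_one, mul_one,
      Finset.filter_gt_eq_Iio, Fin.card_Iio]
  have h3 : (∏ i : Fin d, ∏ j : Fin d, if j < i then a j else 1)
      = ∏ j : Fin d, a j ^ (d - 1 - (j : ℕ)) := by
    rw [Finset.prod_comm]
    refine Finset.prod_congr rfl fun j _ => ?_
    rw [Finset.prod_ite, Finset.prod_const, Finset.prod_const_one, mul_one,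
      Finset.filter_lt_eq_Ioi, Fin.card_Ioi]
  rw [h3]
  simp only [h2, mul_pow, Finset.prod_mul_distrib]
  rw [mul_assoc, ← Finset.prod_mul_distrib, Finset.prod_pow_eq_pow_sum]
  congr 1
  · congr 1
    rw [Fin.sum_univ_eq_sum_range (fun i => i), Finset.sum_range_id]
  · rw [← Finset.prod_pow]
    refine Finset.prod_congr rfl fun i _ => ?_
    rw [← pow_add]
    congr 1
    have := i.2
    omega

/-- number of the pairs below the diagonal -/
theorem card_lower (d : ℕ) :
    Fintype.card {p : Fin d × Fin d // decide (p.2 < p.1) = true} = d * (d - 1) / 2 := by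
  have h := prod_lower' (M := Multiplicative ℕ) (d := d) (fun _ => 1) (Multiplicative.ofAdd 1)
  simp only [mul_one, Finset.prod_const, one_pow, Finset.card_univ] at h
  have h2 := congrArg Multiplicative.toAdd h
  simpa [toAdd_pow] using h2

/-- number of the other pairs -/
theorem card_upper (d : ℕ) :
    Fintype.card {p : Fin d × Fin d // decide (p.2 < p.1) = false} = d * (d + 1) / 2 := by
  have h1 : Fintype.card {p : Fin d × Fin d // decide (p.2 < p.1) = false}
      = Fintype.card {p : Fin d × Fin d // ¬ (decide (p.2 < p.1) = true)} :=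
    Fintype.card_congr (Equiv.subtypeEquivRight fun p => by simp)
  rw [h1, Fintype.card_subtype_compl, card_lower, Fintype.card_prod, Fintype.card_fin]
  have e : d * (d - 1) + d = d * d := by
    rcases Nat.eq_zero_or_pos d with h | h
    · subst h; rfl
    · obtain ⟨k, rfl⟩ := Nat.exists_eq_succ_of_ne_zero h.ne'
      simp only [Nat.succ_sub_one, Nat.succ_eq_add_one]
      ring
  have e2 : Even (d * (d - 1)) := Nat.even_mul_pred_self d
  obtain ⟨r, hr⟩ := e2
  have e3 : d * (d + 1) = d * d + d := by ring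
  rw [e3, ← e, hr]
  omega

/-- product over the other pairs, `1` on the diagonal -/
theorem prod_upper {M : Type*} [CommMonoid M] {d : ℕ} (a : Fin d → M) (b : M) :
    ∏ p : {p : Fin d × Fin d // decide (p.2 < p.1) = false},
        (if p.1.1 = p.1.2 then 1 else b * a p.1.1 * a p.1.2)
      = b ^ (d * (d - 1) / 2) * (∏ i, a i) ^ (d - 1) := by
  rw [← prod_lower' a b]
  have h1 : ∏ p : {p : Fin d × Fin d // decide (p.2 < p.1) = false},
        (if p.1.1 = p.1.2 then 1 else b * a p.1.1 * a p.1.2)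
      = ∏ p : Fin d × Fin d, if p.1 < p.2 then b * a p.1 * a p.2 else 1 := by
    have h2 : ∏ p : Fin d × Fin d, (if p.1 < p.2 then b * a p.1 * a p.2 else 1)
        = ∏ p ∈ Finset.univ.filter (fun p : Fin d × Fin d => decide (p.2 < p.1) = false),
          (if p.1 = p.2 then 1 else b * a p.1 * a p.2) := by
      rw [Finset.prod_filter]
      refine Finset.prod_congr rfl fun p _ => ?_
      rcases lt_trichotomy p.1 p.2 with h | h | h
      · have h' : ¬ p.2 < p.1 := not_lt.2 h.le
        simp [h, h', h.ne]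
      · simp [h]
      · have h' : ¬ p.1 < p.2 := not_lt.2 h.le
        simp [h, h']
    rw [h2]
    refine (Finset.prod_subtype _ ?_ (fun p : Fin d × Fin d =>
      (if p.1 = p.2 then 1 else b * a p.1 * a p.2))).symm
    intro p
    simp
  rw [h1]
  have h3 : ∏ p : {p : Fin d × Fin d // decide (p.2 < p.1) = true}, (b * a p.1.1 * a p.1.2)
      = ∏ p : Fin d × Fin d, if p.2 < p.1 then b * a p.1 * a p.2 else 1 := by
    rw [prod_lower_aux (fun i j => b * a i * a j),
      ← Fintype.prod_prod_type' (fun i j => if j < i then b * a i * a j else 1)]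
  rw [h3]
  refine Fintype.prod_equiv (Equiv.prodComm _ _) _ _ fun p => ?_
  simp only [Equiv.prodComm_apply, Prod.fst_swap, Prod.snd_swap]
  split_ifs
  · rw [mul_assoc, mul_comm (a p.1), mul_assoc]
  · rfl

end Pool.Agent.Lib.MP_d0f9e0_co.Arith
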