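import Mathlib
import Pool.Agent.Lib.MP_d0f9e0_co.Bridge
import Pool.Agent.Lib.MP_d0f9e0_co.Ramif

set_option autoImplicit false

/-!
The sum of the squares of the triple products through a pair of lines.
-/

namespace Pool.Agent.Lib.MP_d0f9e0_co.Arith

/-- the triple product -/
noncomputable def trip {d : ℕ} {ι : Type*} (x : ι → (Fin d → ℂ)) (i j k : ι) : ℂ :=
  ip (x i) (x j) * ip (x j) (x k) * ip (x k) (x i)

lemma star_trip {d : ℕ} {ι : Type*} (x : ι → (Fin d → ℂ)) (i j k : ι) :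
    star (trip x i j k) = trip x i k j := by
  simp only [trip, star_mul', Ramif.star_ip]
  ring

lemma trip_mul_star {d : ℕ} {x : Fin (d ^ 2) → (Fin d → ℂ)} (hx : IsMaximalETF d x)
    {i j k : Fin (d ^ 2)} (hij : i ≠ j) (hjk : j ≠ k) (hki : k ≠ i) :
    trip x i j k * star (trip x i j k) = 1 / ((d : ℂ) + 1) ^ 3 := by
  rw [star_trip]
  have e1 := Ramif.ip_mul_ip hx.2 hij
  have e2 := Ramif.ip_mul_ip hx.2 hjk
  have e3 := Ramif.ip_mul_ip hx.2 hki
  calc trip x i j k * trip x i k j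
      = (ip (x i) (x j) * ip (x j) (x i)) * (ip (x j) (x k) * ip (x k) (x j))
        * (ip (x k) (x i) * ip (x i) (x k)) := by
        simp only [trip]; ring
    _ = 1 / ((d : ℂ) + 1) ^ 3 := by
        rw [e1, e2, e3]
        have : ((d : ℂ) + 1) ≠ 0 := by exact_mod_cast Nat.succ_ne_zero d
        field_simp

/-- the 2-design identity for the triple products through a pair of lines -/
theorem sum_trip_sq {d : ℕ} {x : Fin (d ^ 2) → (Fin d → ℂ)} (hx : IsMaximalETF d x)
    {i j : Fin (d ^ 2)} (hij : i ≠ j) :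
    ∑ k ∈ (Finset.univ.erase i).erase j, (trip x i j k) ^ 2 = -2 / ((d : ℂ) + 1) ^ 3 := by
  have h := hx.toMaxETF.triple_sum_sq hij.symm
  have hn2 : (Real.sqrt ((d : ℝ) + 1) : ℂ) ^ 2 = (d : ℂ) + 1 := by
    rw [← Complex.ofReal_pow, Real.sq_sqrt (by positivity)]; simp
  have hd1 : ((d : ℂ) + 1) ≠ 0 := by exact_mod_cast (Nat.succ_ne_zero d)
  have e : (Finset.univ.erase j).erase i = (Finset.univ.erase i).erase j :=
    Finset.erase_right_comm
  rw [e] at h
  have h2 : ((d : ℂ) + 1) ^ 3 * ∑ k ∈ (Finset.univ.erase i).erase j, (trip x i j k) ^ 2 = -2 := by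
    rw [← h, Finset.mul_sum]
    refine Finset.sum_congr rfl fun k _ => ?_
    rw [inner_toLp, inner_toLp, inner_toLp, mul_pow, ← pow_mul, mul_comm 3 2, pow_mul, hn2]
    simp only [trip]
    ring
  field_simp
  linear_combination h2

end Pool.Agent.Lib.MP_d0f9e0_co.Arith
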