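import Mathlib
import Pool.Agent.Lib.MP_d0f9e0_co.Arith.Sums

set_option autoImplicit false

/-!
The field of triple products of a maximal ETF has no real embedding.
-/

namespace Pool.Agent.Lib.MP_d0f9e0_co.Arith

/-- Apply the ring homomorphism to `sum_trip_sq`: a sum of squares of real numbers would be
`-2 / (d + 1) ^ 3 < 0`. -/
theorem no_real_embedding {d : ℕ} (hd : 2 ≤ d) {x : Fin (d ^ 2) → (Fin d → ℂ)}
    (hx : IsMaximalETF d x) (K : Subfield ℂ)
    (hT : ∀ i j k, ip (x i) (x j) * ip (x j) (x k) * ip (x k) (x i) ∈ K) :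
    IsEmpty (K →+* ℝ) := by
  classical
  refine ⟨fun φ => ?_⟩
  have hd2 : 2 ≤ d ^ 2 := by nlinarith
  have hij : (⟨0, by omega⟩ : Fin (d ^ 2)) ≠ ⟨1, by omega⟩ := by
    intro h
    have := congrArg Fin.val h
    simp at this
  set i : Fin (d ^ 2) := ⟨0, by omega⟩ with hi
  set j : Fin (d ^ 2) := ⟨1, by omega⟩ with hj
  have h := sum_trip_sq hx hij
  have h2 : (∑ k ∈ (Finset.univ.erase i).erase j, (⟨trip x i j k, hT i j k⟩ : K) ^ 2)
      = -2 / ((d : K) + 1) ^ 3 := by
    apply Subtype.ext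
    push_cast
    exact h
  have h3 := congrArg φ h2
  rw [map_sum, map_div₀, map_neg, map_pow, map_add, map_one, map_natCast, map_ofNat] at h3
  have h4 : (0 : ℝ) ≤ ∑ k ∈ (Finset.univ.erase i).erase j, φ ((⟨trip x i j k, hT i j k⟩ : K) ^ 2) :=
    Finset.sum_nonneg fun k _ => by rw [map_pow]; positivity
  rw [h3] at h4
  have h5 : (0 : ℝ) < ((d : ℝ) + 1) ^ 3 := by positivity
  have h6 : (-2 : ℝ) / ((d : ℝ) + 1) ^ 3 < 0 := div_neg_of_neg_of_pos (by norm_num) h5
  linarith

/-- In particular complex conjugation is not trivial on `K`. -/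
theorem exists_conj_ne {d : ℕ} (hd : 2 ≤ d) {x : Fin (d ^ 2) → (Fin d → ℂ)}
    (hx : IsMaximalETF d x) (K : Subfield ℂ) (hc : ∀ z ∈ K, star z ∈ K)
    (hT : ∀ i j k, ip (x i) (x j) * ip (x j) (x k) * ip (x k) (x i) ∈ K) :
    ∃ w : K, Ramif.conjHom K hc w ≠ w := by
  by_contra hcon
  push Not at hcon
  have hre : ∀ w : K, ((w : ℂ).im = 0) := by
    intro w
    have h := congrArg (Subtype.val) (hcon w)
    have h2 : star (w : ℂ) = (w : ℂ) := h
    exact Complex.conj_eq_iff_im.1 h2
  have := no_real_embedding hd hx K hT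
  refine this.false (?_ : K →+* ℝ)
  exact
    { toFun := fun w => (w : ℂ).re
      map_one' := by simp
      map_zero' := by simp
      map_add' := fun a b => by simp
      map_mul' := fun a b => by
        have h1 := hre a
        have h2 := hre b
        simp [Complex.mul_re, h1, h2] }

end Pool.Agent.Lib.MP_d0f9e0_co.Arith
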