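import Mathlib

set_option autoImplicit false

/-!
Totally isotropic subspaces of diagonal quadratic forms over a field.
-/

namespace Pool.Agent.Lib.MP_d0f9e0_co.Arith

/-- A totally isotropic subspace of a nondegenerate diagonal form has at most half the dimension.
Proof: `u ↦ (c i * u i)` maps `S` injectively into the annihilator of `S` (dual of `ι → k`),
whose dimension is `card ι - finrank S`. -/
theorem iso_le {k ι : Type*} [Field k] [Fintype ι] (c : ι → k) (hc : ∀ i, c i ≠ 0)
    (S : Submodule k (ι → k)) (hS : ∀ u ∈ S, ∀ w ∈ S, ∑ i, c i * u i * w i = 0) :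
    2 * Module.finrank k S ≤ Fintype.card ι := by
  classical
  set B := (Matrix.diagonal c).toBilin' with hB
  have hval : ∀ u w, B u w = ∑ i, c i * u i * w i := by
    intro u w
    rw [hB, Matrix.toBilin'_apply']
    simp only [dotProduct, Matrix.mulVec_diagonal]
    exact Finset.sum_congr rfl fun i _ => by ring
  have hnd : B.Nondegenerate := by
    apply LinearMap.BilinForm.nondegenerate_toBilin'_of_det_ne_zero'
    rw [Matrix.det_diagonal]
    exact Finset.prod_ne_zero_iff.mpr fun i _ => hc i
  have h1 := LinearMap.BilinForm.finrank_orthogonal hnd S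
  have h2 : S ≤ B.orthogonal S := by
    intro w hw
    rw [LinearMap.BilinForm.mem_orthogonal_iff]
    intro u hu
    change B u w = 0
    rw [hval]
    exact hS u hu w hw
  have h3 := Submodule.finrank_mono h2
  have h4 : Module.finrank k (ι → k) = Fintype.card ι := Module.finrank_fintype_fun_eq_card k
  have h5 := Submodule.finrank_le S
  omega

theorem Iso_det_swap {k : Type*} [Field k] (h : ℕ) :
    (Matrix.fromBlocks (0 : Matrix (Fin h) (Fin h) k) (1 : Matrix (Fin h) (Fin h) k)
      (1 : Matrix (Fin h) (Fin h) k) (0 : Matrix (Fin h) (Fin h) k)).det = (-1) ^ h := by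
  have h1 : Matrix.fromBlocks (1 : Matrix (Fin h) (Fin h) k) (1 : Matrix (Fin h) (Fin h) k)
        (0 : Matrix (Fin h) (Fin h) k) (1 : Matrix (Fin h) (Fin h) k) *
      Matrix.fromBlocks (0 : Matrix (Fin h) (Fin h) k) (1 : Matrix (Fin h) (Fin h) k)
        (1 : Matrix (Fin h) (Fin h) k) (0 : Matrix (Fin h) (Fin h) k)
      = Matrix.fromBlocks 1 1 1 0 := by
    rw [Matrix.fromBlocks_multiply]
    simp
  have h2 := congrArg Matrix.det h1
  rw [Matrix.det_mul, Matrix.det_fromBlocks_zero₂₁, Matrix.det_fromBlocks_one₁₁] at h2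
  simpa [Matrix.det_neg] using h2

theorem Iso_det_block {k : Type*} [Field k] (h : ℕ) (X Z Y : Matrix (Fin h) (Fin h) k) :
    (Matrix.fromBlocks 0 X Z Y).det = (-1) ^ h * (X.det * Z.det) := by
  have h1 : Matrix.fromBlocks 0 X Z Y *
      Matrix.fromBlocks (0 : Matrix (Fin h) (Fin h) k) (1 : Matrix (Fin h) (Fin h) k)
        (1 : Matrix (Fin h) (Fin h) k) (0 : Matrix (Fin h) (Fin h) k)
      = Matrix.fromBlocks X 0 Y Z := by
    rw [Matrix.fromBlocks_multiply]
    simp
  have h2 := congrArg Matrix.det h1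
  rw [Matrix.det_mul, Iso_det_swap, Matrix.det_fromBlocks_zero₁₂] at h2
  have h3 : ((-1 : k) ^ h) * (-1) ^ h = 1 := by
    rw [← mul_pow]; simp
  calc (Matrix.fromBlocks 0 X Z Y).det
      = (Matrix.fromBlocks 0 X Z Y).det * (((-1 : k) ^ h) * (-1) ^ h) := by rw [h3, mul_one]
    _ = (-1) ^ h * (X.det * Z.det) := by rw [← mul_assoc, h2]; ring

/-- If a nondegenerate diagonal form has a totally isotropic subspace of half the dimension, then
its signed determinant is a square.
Proof: `card ι = 2 h`, `finrank S = h`. Take a basis of `ι → k` whose first `h` members form a basis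
of `S`; with `E` the matrix of this basis, `E * diagonal c * Eᵀ = fromBlocks 0 X Xᵀ Y`, whose
determinant is `(-1) ^ h * (det X) ^ 2`. -/
theorem iso_det {k ι : Type*} [Field k] [Fintype ι] (c : ι → k) (hc : ∀ i, c i ≠ 0)
    (S : Submodule k (ι → k)) (hS : ∀ u ∈ S, ∀ w ∈ S, ∑ i, c i * u i * w i = 0)
    (hdim : 2 * Module.finrank k S = Fintype.card ι) :
    IsSquare ((-1) ^ (Fintype.card ι / 2) * ∏ i, c i) := by
  classical
  obtain ⟨T, hT⟩ := S.exists_isCompl
  obtain ⟨h, hh⟩ : ∃ h, Module.finrank k S = h := ⟨_, rfl⟩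
  have hsum := Submodule.finrank_add_eq_of_isCompl hT
  have hV : Module.finrank k (ι → k) = Fintype.card ι := Module.finrank_fintype_fun_eq_card k
  have hTh : Module.finrank k T = h := by omega
  have hcard : Fintype.card ι / 2 = h := by omega
  let bS : Module.Basis (Fin h) k S := Module.finBasisOfFinrankEq k S hh
  let bT : Module.Basis (Fin h) k T := Module.finBasisOfFinrankEq k T hTh
  let b : Module.Basis (Fin h ⊕ Fin h) k (ι → k) :=
    (bS.prod bT).map (Submodule.prodEquivOfIsCompl S T hT)
  have hbl : ∀ a, b (Sum.inl a) ∈ S := by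
    intro a
    simp [b]
  have e : (Fin h ⊕ Fin h) ≃ ι := by
    apply Fintype.equivOfCardEq
    simp only [Fintype.card_sum, Fintype.card_fin]
    omega
  let E : Matrix (Fin h ⊕ Fin h) (Fin h ⊕ Fin h) k := Matrix.of fun a i => b a (e i)
  have hE : E.det ≠ 0 := by
    have h1 : LinearIndependent k b := b.linearIndependent
    have h2 : LinearIndependent k (fun a => (LinearEquiv.funCongrLeft k k e) (b a)) :=
      h1.map' _ (LinearEquiv.ker _)
    have h3 : LinearIndependent k E.row := by
      convert h2 using 1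
      ext a i
      simp [E, Matrix.row]
    rw [Matrix.linearIndependent_rows_iff_isUnit, Matrix.isUnit_iff_isUnit_det] at h3
    exact h3.ne_zero
  set G : Matrix (Fin h ⊕ Fin h) (Fin h ⊕ Fin h) k :=
    E * Matrix.diagonal (fun i => c (e i)) * E.transpose with hG
  have hGval : ∀ a a', G a a' = ∑ i, c i * b a i * b a' i := by
    intro a a'
    rw [hG, Matrix.mul_apply, ← Equiv.sum_comp e]
    refine Finset.sum_congr rfl fun i _ => ?_
    rw [Matrix.mul_diagonal, Matrix.transpose_apply]
    simp only [E, Matrix.of_apply]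
    ring
  have h11 : G.toBlocks₁₁ = 0 := by
    ext a a'
    simp only [Matrix.toBlocks₁₁, Matrix.of_apply, Matrix.zero_apply]
    rw [hGval]
    exact hS _ (hbl a) _ (hbl a')
  have h21 : G.toBlocks₂₁ = G.toBlocks₁₂.transpose := by
    ext a a'
    simp only [Matrix.toBlocks₂₁, Matrix.toBlocks₁₂, Matrix.of_apply, Matrix.transpose_apply]
    rw [hGval, hGval]
    exact Finset.sum_congr rfl fun i _ => by ring
  have hdet : G.det = (-1) ^ h * (G.toBlocks₁₂.det * G.toBlocks₁₂.det) := by
    conv_lhs => rw [← Matrix.fromBlocks_toBlocks G, h11, h21]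
    rw [Iso_det_block, Matrix.det_transpose]
  have hdet2 : G.det = E.det * (∏ i, c i) * E.det := by
    rw [hG, Matrix.det_mul, Matrix.det_mul, Matrix.det_diagonal, Matrix.det_transpose,
      Equiv.prod_comp e]
  refine ⟨G.toBlocks₁₂.det / E.det, ?_⟩
  rw [hcard]
  have h3 : ((-1 : k) ^ h) * (-1) ^ h = 1 := by
    rw [← mul_pow]; simp
  field_simp
  calc (-1) ^ h * (∏ i, c i) * E.det ^ 2 = (-1) ^ h * (E.det * (∏ i, c i) * E.det) := by ring
    _ = (-1) ^ h * ((-1) ^ h * (G.toBlocks₁₂.det * G.toBlocks₁₂.det)) := by rw [← hdet2, hdet]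
    _ = ((-1) ^ h * (-1) ^ h) * (G.toBlocks₁₂.det * G.toBlocks₁₂.det) := by ring
    _ = G.toBlocks₁₂.det ^ 2 := by rw [h3]; ring

end Pool.Agent.Lib.MP_d0f9e0_co.Arith
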