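import Mathlib

set_option autoImplicit false

/-!
Primitive (reduced) form of a matrix over a valued field.
-/

open Matrix

namespace Pool.Agent.Lib.MP_d0f9e0_co.Arith

/-- A matrix `M` of full row rank over a valued field can be multiplied from the left by a matrix
`g` such that the result `B` has entries of valuation at most one and contains the identity
matrix as a submatrix.
Proof: choose the column selection `e` (finitely many) with `v (det (M.submatrix id e))` maximal and
put `g = (M.submatrix id e)⁻¹`. By Cramer's rule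
`B i j = det (M.submatrix id (Function.update e i j)) / det (M.submatrix id e)`. -/
theorem exists_primitive {F : Type*} [Field F] {Γ₀ : Type*} [LinearOrderedCommGroupWithZero Γ₀]
    (v : Valuation F Γ₀) {ι κ : Type*} [Fintype ι] [DecidableEq ι] [Fintype κ] (M : Matrix ι κ F)
    (h : ∃ e : ι → κ, (M.submatrix id e).det ≠ 0) :
    ∃ (e : ι → κ) (B : Matrix ι κ F) (g : Matrix ι ι F), B = g * M ∧ B.submatrix id e = 1 ∧
      ∀ i j, v (B i j) ≤ 1 := by
  classical
  obtain ⟨e0, he0⟩ := h
  have : Nonempty (ι → κ) := ⟨e0⟩
  obtain ⟨e, he⟩ := Finite.exists_max (fun e : ι → κ => v (M.submatrix id e).det)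
  set A := M.submatrix id e with hA
  have hdet : A.det ≠ 0 := by
    intro h0
    have h1 := he e0
    rw [h0, map_zero] at h1
    have h2 : v (M.submatrix id e0).det = 0 := le_antisymm h1 zero_le
    exact he0 ((Valuation.zero_iff v).mp h2)
  have hunit : IsUnit A.det := isUnit_iff_ne_zero.mpr hdet
  refine ⟨e, A⁻¹ * M, A⁻¹, rfl, ?_, ?_⟩
  · ext i j
    have h1 : (A⁻¹ * A) i j = (1 : Matrix ι ι F) i j := by
      rw [Matrix.nonsing_inv_mul A hunit]
    rw [← h1, Matrix.submatrix_apply, Matrix.mul_apply, Matrix.mul_apply]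
    rfl
  · intro i j
    have h1 : (A⁻¹ * M) i j = A.det⁻¹ * (M.submatrix id (Function.update e i j)).det := by
      have h2 : (A⁻¹ * M) i j = (A⁻¹ *ᵥ (fun r => M r j)) i := rfl
      rw [h2, Matrix.inv_def, Matrix.smul_mulVec, ← Matrix.cramer_eq_adjugate_mulVec,
        Pi.smul_apply, Matrix.cramer_apply, Ring.inverse_eq_inv', smul_eq_mul]
      congr 2
      ext r s
      rw [Matrix.updateCol_apply, Matrix.submatrix_apply, Function.update_apply]
      split_ifs with hs
      · rfl
      · rfl
    rw [h1, map_mul, map_inv₀]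
    have h3 := he (Function.update e i j)
    have h4 : v A.det ≠ 0 := (Valuation.ne_zero_iff v).mpr hdet
    calc (v A.det)⁻¹ * v (M.submatrix id (Function.update e i j)).det
        ≤ (v A.det)⁻¹ * v A.det := by gcongr
      _ = 1 := inv_mul_cancel₀ h4

end Pool.Agent.Lib.MP_d0f9e0_co.Arith
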