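import Mathlib
import Pool.Agent.Lib.MP_d0f9e0_co.Arith.Iso
import Pool.Agent.Lib.MP_d0f9e0_co.Arith.Prim

set_option autoImplicit false

/-!
A residue form computation (Springer's theorem) for isometric diagonal forms over a valued field.
-/

open Matrix

namespace Pool.Agent.Lib.MP_d0f9e0_co.Arith

theorem Spr_bilin {R : Type*} [CommRing R] {ι κ : Type*} [Fintype ι] [Fintype κ] (B : Matrix ι κ R)
    (C : κ → R) (x y : ι → R) :
    ∑ j, C j * (∑ i, x i * B i j) * (∑ k, y k * B k j)
      = ∑ i, ∑ k, x i * y k * ∑ j, C j * B i j * B k j := by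
  have h1 : ∀ j, C j * (∑ i, x i * B i j) * (∑ k, y k * B k j)
      = ∑ i, ∑ k, x i * y k * (C j * B i j * B k j) := by
    intro j
    rw [mul_assoc, Finset.sum_mul_sum, Finset.mul_sum]
    refine Finset.sum_congr rfl fun i _ => ?_
    rw [Finset.mul_sum]
    exact Finset.sum_congr rfl fun k _ => by ring
  rw [Finset.sum_congr rfl fun j _ => h1 j, Finset.sum_comm]
  refine Finset.sum_congr rfl fun i _ => ?_
  rw [Finset.sum_comm]
  refine Finset.sum_congr rfl fun k _ => ?_
  rw [Finset.mul_sum]

theorem springer_core {R K : Type*} [CommRing R] [IsDomain R] [Field K] (π : R →+* K)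
    (hπ : Function.Surjective π) (ϖ : R) (hϖ0 : ϖ ≠ 0) (hϖ1 : π ϖ = 0)
    (hϖ : ∀ x, π x = 0 → ∃ a, x = ϖ * a) {ι : Type*} [Fintype ι] [DecidableEq ι] (c l : ι → R)
    (hc : ∀ j, π (c j) ≠ 0) (hl : ∀ j, π (l j) ≠ 0) (τ : ι → Bool) (e : ι → ι ⊕ ι)
    (B : Matrix ι (ι ⊕ ι) R) (hB1 : B.submatrix id e = 1)
    (hB : ∀ i k, ∑ j, (if τ j then ϖ * c j else c j) * B i (Sum.inl j) * B k (Sum.inl j)
      = ϖ * ∑ j, l j * B i (Sum.inr j) * B k (Sum.inr j)) :
    ∃ S : Submodule K ({j // τ j = false} → K),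
      (∀ u ∈ S, ∀ w ∈ S, ∑ j : {j // τ j = false}, π (c j) * u j * w j = 0) ∧
      2 * Module.finrank K S = Fintype.card {j // τ j = false} := by
  classical
  -- combination of rows
  let cb : (ι → R) → (ι ⊕ ι) → R := fun x j => ∑ i, x i * B i j
  let φ : (ι → K) →ₗ[K] ((ι ⊕ ι) → K) :=
    { toFun := fun x j => ∑ i, x i * π (B i j)
      map_add' := by
        intro x y
        funext j
        simp [add_mul, Finset.sum_add_distrib]
      map_smul' := by
        intro a x
        funext j
        simp [Finset.mul_sum, mul_assoc] }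
  have hφ : ∀ x j, φ x j = ∑ i, x i * π (B i j) := fun _ _ => rfl
  have hπcb : ∀ (x : ι → R) (j : ι ⊕ ι), π (cb x j) = φ (fun i => π (x i)) j := by
    intro x j
    rw [hφ]
    simp [cb, map_sum]
  have hinj : ∀ x, φ x = 0 → x = 0 := by
    intro x hx
    funext k
    have h1 := congrFun hx (e k)
    rw [hφ] at h1
    have h2 : ∀ i, π (B i (e k)) = if i = k then 1 else 0 := by
      intro i
      have h3 : B i (e k) = (1 : Matrix ι ι R) i k := by
        rw [← hB1]; rfl
      rw [h3, Matrix.one_apply]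
      split_ifs <;> simp
    simp only [h2] at h1
    simpa using h1
  let p0 : ((ι ⊕ ι) → K) →ₗ[K] ({j // τ j = false} → K) :=
    LinearMap.funLeft K K (fun j => Sum.inl j.1)
  let p1 : ((ι ⊕ ι) → K) →ₗ[K] (({j // ¬ τ j = false} ⊕ ι) → K) :=
    LinearMap.funLeft K K (Sum.elim (fun j => Sum.inl j.1) (fun j => Sum.inr j))
  let S : Submodule K ({j // τ j = false} → K) := LinearMap.range (p0 ∘ₗ φ)
  let N : Submodule K (ι → K) := LinearMap.ker (p0 ∘ₗ φ)
  let T : Submodule K (({j // ¬ τ j = false} ⊕ ι) → K) := N.map (p1 ∘ₗ φ)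
  have hid : ∀ x y : ι → R,
      (∑ j : {j // τ j = false}, c j * cb x (Sum.inl j) * cb y (Sum.inl j))
      + ϖ * (∑ j : {j // ¬ τ j = false}, c j * cb x (Sum.inl j) * cb y (Sum.inl j))
      = ϖ * ∑ j, l j * cb x (Sum.inr j) * cb y (Sum.inr j) := by
    intro x y
    have h1 := Spr_bilin (fun i j => B i (Sum.inl j)) (fun j => if τ j then ϖ * c j else c j) x y
    have h2 := Spr_bilin (fun i j => B i (Sum.inr j)) l x y
    have h3 : ∑ j, (if τ j then ϖ * c j else c j) * cb x (Sum.inl j) * cb y (Sum.inl j)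
        = ϖ * ∑ j, l j * cb x (Sum.inr j) * cb y (Sum.inr j) := by
      have h4 : ∑ j, l j * cb x (Sum.inr j) * cb y (Sum.inr j)
          = ∑ i, ∑ k, x i * y k * ∑ j, l j * B i (Sum.inr j) * B k (Sum.inr j) := h2
      have h5 : ∑ j, (if τ j then ϖ * c j else c j) * cb x (Sum.inl j) * cb y (Sum.inl j)
          = ∑ i, ∑ k, x i * y k *
            ∑ j, (if τ j then ϖ * c j else c j) * B i (Sum.inl j) * B k (Sum.inl j) := h1
      rw [h4, h5, Finset.mul_sum]
      refine Finset.sum_congr rfl fun i _ => ?_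
      rw [Finset.mul_sum]
      refine Finset.sum_congr rfl fun k _ => ?_
      rw [hB]
      ring
    rw [← h3, ← Fintype.sum_subtype_add_sum_subtype (fun j => τ j = false), Finset.mul_sum]
    congr 1
    · refine Finset.sum_congr rfl fun j _ => ?_
      have := j.2
      simp [this]
    · refine Finset.sum_congr rfl fun j _ => ?_
      have h6 : τ j.1 = true := by
        have := j.2
        simpa using this
      simp [h6]
      ring
  have hlift : ∀ x : ι → K, ∃ x' : ι → R, (fun i => π (x' i)) = x := by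
    intro x
    choose x' hx' using fun i => hπ (x i)
    exact ⟨x', funext hx'⟩
  have hSiso : ∀ u ∈ S, ∀ w ∈ S, ∑ j : {j // τ j = false}, π (c j) * u j * w j = 0 := by
    rintro u ⟨x, rfl⟩ w ⟨y, rfl⟩
    obtain ⟨x', rfl⟩ := hlift x
    obtain ⟨y', rfl⟩ := hlift y
    have h1 := congrArg π (hid x' y')
    rw [map_add, map_mul, map_mul, hϖ1, zero_mul, zero_mul, add_zero, map_sum] at h1
    rw [← h1]
    refine Finset.sum_congr rfl fun j _ => ?_
    rw [map_mul, map_mul, hπcb, hπcb]
    rfl
  let c' : ({j // ¬ τ j = false} ⊕ ι) → K := Sum.elim (fun j => π (c j)) (fun j => - π (l j))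
  have hc' : ∀ j, c' j ≠ 0 := by
    rintro (j | j)
    · exact hc j
    · exact neg_ne_zero.mpr (hl j)
  have hTiso : ∀ u ∈ T, ∀ w ∈ T, ∑ j, c' j * u j * w j = 0 := by
    rintro u ⟨x, hx, rfl⟩ w ⟨y, hy, rfl⟩
    obtain ⟨x', rfl⟩ := hlift x
    obtain ⟨y', rfl⟩ := hlift y
    have hx1 : ∀ j : {j // τ j = false}, ∃ a, cb x' (Sum.inl j) = ϖ * a := by
      intro j
      apply hϖ
      rw [hπcb]
      exact congrFun (LinearMap.mem_ker.mp hx) j
    have hy1 : ∀ j : {j // τ j = false}, ∃ a, cb y' (Sum.inl j) = ϖ * a := by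
      intro j
      apply hϖ
      rw [hπcb]
      exact congrFun (LinearMap.mem_ker.mp hy) j
    choose a ha using hx1
    choose b hb using hy1
    have h1 := hid x' y'
    have h2 : ∑ j : {j // τ j = false}, c j * cb x' (Sum.inl j) * cb y' (Sum.inl j)
        = ϖ * (ϖ * ∑ j : {j // τ j = false}, c j * a j * b j) := by
      rw [Finset.mul_sum, Finset.mul_sum]
      refine Finset.sum_congr rfl fun j _ => ?_
      rw [ha, hb]
      ring
    rw [h2, ← mul_add] at h1
    have h3 := mul_left_cancel₀ hϖ0 h1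
    have h4 := congrArg π h3
    rw [map_add, map_mul, hϖ1, zero_mul, zero_add, map_sum, map_sum] at h4
    rw [Fintype.sum_sum_type]
    have h5 : ∑ j : {j // ¬ τ j = false}, c' (Sum.inl j) * (p1 ∘ₗ φ) (fun i => π (x' i)) (Sum.inl j)
        * (p1 ∘ₗ φ) (fun i => π (y' i)) (Sum.inl j)
        = ∑ j : {j // ¬ τ j = false}, π (c j * cb x' (Sum.inl j) * cb y' (Sum.inl j)) := by
      refine Finset.sum_congr rfl fun j _ => ?_
      rw [map_mul, map_mul, hπcb, hπcb]
      rfl
    have h6 : ∑ j : ι, c' (Sum.inr j) * (p1 ∘ₗ φ) (fun i => π (x' i)) (Sum.inr j)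
        * (p1 ∘ₗ φ) (fun i => π (y' i)) (Sum.inr j)
        = - ∑ j : ι, π (l j * cb x' (Sum.inr j) * cb y' (Sum.inr j)) := by
      rw [← Finset.sum_neg_distrib]
      refine Finset.sum_congr rfl fun j _ => ?_
      rw [map_mul, map_mul, hπcb, hπcb]
      change (- π (l j)) * _ * _ = _
      rw [neg_mul, neg_mul]
      rfl
    rw [h5, h6, h4, add_neg_cancel]
  have hS := iso_le (fun j : {j // τ j = false} => π (c j)) (fun j => hc j) S hSiso
  have hT := iso_le c' hc' T hTiso
  have hrk := LinearMap.finrank_range_add_finrank_ker (p0 ∘ₗ φ)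
  have hTN : Module.finrank K T = Module.finrank K N := by
    have h1 : Function.Injective ((p1 ∘ₗ φ).domRestrict N) := by
      rw [← LinearMap.ker_eq_bot, LinearMap.ker_eq_bot']
      rintro ⟨x, hx⟩ h0
      rw [Submodule.mk_eq_zero]
      apply hinj
      funext j
      have hx' : (p0 ∘ₗ φ) x = 0 := LinearMap.mem_ker.mp hx
      have h0' : (p1 ∘ₗ φ) x = 0 := h0
      rcases j with j | j
      · by_cases hj : τ j = false
        · exact congrFun hx' ⟨j, hj⟩
        · exact congrFun h0' (Sum.inl ⟨j, hj⟩)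
      · exact congrFun h0' (Sum.inr j)
    have h2 := LinearMap.finrank_range_of_inj h1
    rw [← h2]
    have h3 : T = LinearMap.range ((p1 ∘ₗ φ).domRestrict N) := by
      rw [LinearMap.range_domRestrict]
    rw [h3]
  rw [Module.finrank_fintype_fun_eq_card] at hrk
  have hcard := Fintype.card_subtype_compl (fun j : ι => τ j = false)
  have hle := Fintype.card_subtype_le (fun j : ι => τ j = false)
  rw [Fintype.card_sum] at hT
  refine ⟨S, hSiso, ?_⟩
  change Module.finrank K S + Module.finrank K N = _ at hrk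
  omega

/-- Let `v` be a valuation of `F` such that `ϖ` generates its maximal ideal. Let the diagonal form
with entries `c j` (`τ j = false`) and `ϖ * c j` (`τ j = true`), `c j` units, be equivalent to a
diagonal form all of whose entries are `ϖ` times a unit. Then the number of `j` with `τ j = false`
is even and the signed determinant of the form `(c j)`, `τ j = false`, is a square modulo `v`. -/
theorem springer {F : Type*} [Field F] {Γ₀ : Type*} [LinearOrderedCommGroupWithZero Γ₀]
    (v : Valuation F Γ₀) (ϖ : F) (hϖ0 : ϖ ≠ 0) (hϖ1 : v ϖ < 1) (hϖ : ∀ x, v x < 1 → v x ≤ v ϖ)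
    {ι : Type*} [Fintype ι] [DecidableEq ι] (c l : ι → F) (hc : ∀ j, v (c j) = 1)
    (hl : ∀ j, v (l j) = 1) (τ : ι → Bool) (W : Matrix ι ι F)
    (hW : W * Matrix.diagonal (fun j => if τ j then ϖ * c j else c j) * Wᵀ
      = Matrix.diagonal (fun i => ϖ * l i)) :
    Even (Fintype.card {j // τ j = false}) ∧
      ∃ t, v t ≤ 1 ∧ v ((-1) ^ (Fintype.card {j // τ j = false} / 2)
        * (∏ j : {j // τ j = false}, c j) - t ^ 2) < 1 := by
  classical
  let M : Matrix ι (ι ⊕ ι) F := Matrix.fromCols W 1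
  obtain ⟨e, B, g, hBg, hBe, hBv⟩ := exists_primitive v M
    ⟨Sum.inr, by
      have : M.submatrix id Sum.inr = 1 := by
        ext i j
        rfl
      rw [this, Matrix.det_one]
      exact one_ne_zero⟩
  let R := v.valuationSubring
  have hmem : ∀ x, x ∈ R ↔ v x ≤ 1 := fun x => Valuation.mem_valuationSubring_iff v x
  let π : R →+* IsLocalRing.ResidueField R := IsLocalRing.residue R
  have hπ0 : ∀ x : R, π x = 0 ↔ v (x : F) < 1 := by
    intro x
    rw [IsLocalRing.residue_eq_zero_iff, IsLocalRing.mem_maximalIdeal, mem_nonunits_iff,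
      (Valuation.valuationSubring.integers (v := v)).isUnit_iff_valuation_eq_one]
    have h1 : v (x : F) ≤ 1 := (hmem x).mp x.2
    constructor
    · intro h
      exact lt_of_le_of_ne h1 h
    · intro h
      exact ne_of_lt h
  let C : (ι ⊕ ι) → F := Sum.elim (fun j => if τ j then ϖ * c j else c j) (fun j => - (ϖ * l j))
  have hM : M * Matrix.diagonal C * Mᵀ = 0 := by
    ext i k
    have h1 := congrFun (congrFun hW i) k
    rw [Matrix.mul_apply] at h1 ⊢
    rw [Fintype.sum_sum_type]
    have h2 : ∑ j, (M * Matrix.diagonal C) i (Sum.inl j) * Mᵀ (Sum.inl j) k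
        = Matrix.diagonal (fun i => ϖ * l i) i k := by
      rw [← h1]
      refine Finset.sum_congr rfl fun j _ => ?_
      rw [Matrix.mul_diagonal, Matrix.mul_diagonal]
      rfl
    have h3 : ∑ j, (M * Matrix.diagonal C) i (Sum.inr j) * Mᵀ (Sum.inr j) k
        = - Matrix.diagonal (fun i => ϖ * l i) i k := by
      have h4 : ∀ j, (M * Matrix.diagonal C) i (Sum.inr j) * Mᵀ (Sum.inr j) k
          = (1 : Matrix ι ι F) i j * (-(ϖ * l j)) * (1 : Matrix ι ι F) k j := by
        intro j
        rw [Matrix.mul_diagonal]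
        rfl
      simp only [h4, Matrix.one_apply, Matrix.diagonal_apply]
      by_cases hik : i = k
      · subst hik
        simp
      · simp [hik]
    rw [h2, h3, add_neg_cancel, Matrix.zero_apply]
  have hBC : B * Matrix.diagonal C * Bᵀ = 0 := by
    rw [hBg, Matrix.transpose_mul]
    calc g * M * Matrix.diagonal C * (Mᵀ * gᵀ) = g * (M * Matrix.diagonal C * Mᵀ) * gᵀ := by
          simp only [Matrix.mul_assoc]
      _ = 0 := by rw [hM, Matrix.mul_zero, Matrix.zero_mul]
  let cR : ι → R := fun j => ⟨c j, (hmem _).mpr (hc j).le⟩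
  let lR : ι → R := fun j => ⟨l j, (hmem _).mpr (hl j).le⟩
  let pR : R := ⟨ϖ, (hmem _).mpr hϖ1.le⟩
  let BR : Matrix ι (ι ⊕ ι) R := fun i j => ⟨B i j, (hmem _).mpr (hBv i j)⟩
  obtain ⟨S, hS, hdim⟩ := springer_core π IsLocalRing.residue_surjective pR
    (fun h => hϖ0 (congrArg Subtype.val h)) ((hπ0 _).mpr hϖ1)
    (by
      intro x hx
      have h1 := hϖ x ((hπ0 x).mp hx)
      have h2 : v ((x : F) / ϖ) ≤ 1 := by
        rw [map_div₀]
        exact div_le_one_of_le₀ h1 zero_le
      refine ⟨⟨(x : F) / ϖ, (hmem _).mpr h2⟩, ?_⟩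
      apply Subtype.ext
      change (x : F) = ϖ * ((x : F) / ϖ)
      field_simp)
    cR lR
    (by
      intro j h
      have := (hπ0 _).mp h
      rw [hc j] at this
      exact lt_irrefl _ this)
    (by
      intro j h
      have := (hπ0 _).mp h
      rw [hl j] at this
      exact lt_irrefl _ this)
    τ e BR
    (by
      ext i j
      have h1 := congrFun (congrFun hBe i) j
      rw [Matrix.submatrix_apply] at h1 ⊢
      change B i (e j) = _
      have h2 : B (id i) (e j) = B i (e j) := rfl
      rw [← h2, h1, Matrix.one_apply, Matrix.one_apply]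
      split_ifs <;> rfl)
    (by
      intro i k
      have h1 := congrFun (congrFun hBC i) k
      rw [Matrix.mul_apply, Fintype.sum_sum_type, Matrix.zero_apply] at h1
      apply Subtype.ext
      have h2 : ((∑ j, (if τ j then pR * cR j else cR j) * BR i (Sum.inl j) * BR k (Sum.inl j) : R) : F)
          = ∑ j, (B * Matrix.diagonal C) i (Sum.inl j) * Bᵀ (Sum.inl j) k := by
        rw [← ValuationSubring.subtype_apply, map_sum]
        refine Finset.sum_congr rfl fun j _ => ?_
        rw [Matrix.mul_diagonal, map_mul, map_mul]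
        have h3 : (ValuationSubring.subtype R) (if τ j then pR * cR j else cR j) = C (Sum.inl j) := by
          change _ = if τ j then ϖ * c j else c j
          split_ifs <;> rfl
        rw [h3]
        change C (Sum.inl j) * B i (Sum.inl j) * B k (Sum.inl j) = _
        rw [Matrix.transpose_apply]
        ring
      have h4 : ((pR * ∑ j, lR j * BR i (Sum.inr j) * BR k (Sum.inr j) : R) : F)
          = - ∑ j, (B * Matrix.diagonal C) i (Sum.inr j) * Bᵀ (Sum.inr j) k := by
        rw [← ValuationSubring.subtype_apply, map_mul, map_sum, Finset.mul_sum,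
          ← Finset.sum_neg_distrib]
        refine Finset.sum_congr rfl fun j _ => ?_
        rw [Matrix.mul_diagonal, map_mul, map_mul]
        change ϖ * (l j * B i (Sum.inr j) * B k (Sum.inr j)) = - (B i (Sum.inr j) * (-(ϖ * l j)) * B k (Sum.inr j))
        ring
      rw [h2, h4]
      exact eq_neg_of_add_eq_zero_left h1)
  have hsq := iso_det (fun j : {j // τ j = false} => π (cR j)) (fun j h => by
      have := (hπ0 _).mp h
      rw [hc j] at this
      exact lt_irrefl _ this) S hS hdim
  refine ⟨⟨Module.finrank (IsLocalRing.ResidueField R) S, by omega⟩, ?_⟩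
  obtain ⟨t, ht⟩ := hsq
  obtain ⟨t', rfl⟩ := IsLocalRing.residue_surjective (R := R) t
  refine ⟨t', (hmem _).mp t'.2, ?_⟩
  have h1 : π ((-1) ^ (Fintype.card {j // τ j = false} / 2)
        * (∏ j : {j // τ j = false}, cR j) - t' ^ 2) = 0 := by
    rw [map_sub, map_mul, map_pow, map_neg, map_one, map_prod, ht, map_pow]
    change π t' * π t' - π t' ^ 2 = 0
    ring
  have h2 := (hπ0 _).mp h1
  have h3 : (((-1) ^ (Fintype.card {j // τ j = false} / 2)
        * (∏ j : {j // τ j = false}, cR j) - t' ^ 2 : R) : F)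
      = (-1) ^ (Fintype.card {j // τ j = false} / 2)
        * (∏ j : {j // τ j = false}, c j) - (t' : F) ^ 2 := by
    rw [← ValuationSubring.subtype_apply, map_sub, map_mul, map_pow, map_neg, map_one, map_prod,
      map_pow]
    rfl
  rw [h3] at h2
  exact h2

end Pool.Agent.Lib.MP_d0f9e0_co.Arith
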