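import Mathlib
import Pool.Agent.Lib.MP_d0f9e0_co.Bridge

set_option autoImplicit false

/-!
Orthogonal bases of `ℂ^d` adapted to the field of triple products.
-/

namespace Pool.Agent.Lib.MP_d0f9e0_co.Arith

private lemma o_smul_left {d : ℕ} (c : ℂ) (u v : Fin d → ℂ) : ip (c • u) v = c * ip u v := by
  simp only [ip, Pi.smul_apply, smul_eq_mul, Finset.mul_sum]
  exact Finset.sum_congr rfl fun k _ => by ring

private lemma o_smul_right {d : ℕ} (c : ℂ) (u v : Fin d → ℂ) : ip u (c • v) = star c * ip u v := by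
  simp only [ip, Pi.smul_apply, smul_eq_mul, Finset.mul_sum, star_mul']
  exact Finset.sum_congr rfl fun k _ => by ring

private lemma o_add_left {d : ℕ} (u u' v : Fin d → ℂ) : ip (u + u') v = ip u v + ip u' v := by
  simp only [ip, Pi.add_apply, add_mul, Finset.sum_add_distrib]

private lemma o_add_right {d : ℕ} (u v v' : Fin d → ℂ) : ip u (v + v') = ip u v + ip u v' := by
  simp only [ip, Pi.add_apply, star_add, mul_add, Finset.sum_add_distrib]

private lemma o_zero_left {d : ℕ} (v : Fin d → ℂ) : ip 0 v = 0 := by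
  simp [ip]

private lemma o_zero_right {d : ℕ} (v : Fin d → ℂ) : ip v 0 = 0 := by
  simp [ip]

private lemma o_star {d : ℕ} (u w : Fin d → ℂ) : star (ip u w) = ip w u := by
  simp only [ip, star_sum, star_mul', star_star]
  exact Finset.sum_congr rfl fun k _ => by ring

/-- Gram-Schmidt over the field of triple products: if the vectors `y i` span `ℂ^d`, no two of them
are orthogonal, and `K` contains all triple products, then there is an orthogonal basis `e` of
`ℂ^d` such that `⟨y i, e a⟩ ⟨e b, y i⟩` and `⟨e a, e a⟩` lie in `K`.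
Proof: fix `o`, put `y' i = y i / ⟨y i, y o⟩`; then `⟨y' i, y' j⟩ =
⟨y o, y i⟩⟨y i, y j⟩⟨y j, y o⟩ / (|⟨y i, y o⟩|² |⟨y j, y o⟩|²)` lies in `K`
(`|⟨y i, y o⟩|² ∈ K` is the triple product `(o, i, o)` divided by `⟨y o, y o⟩ = 1`).
Choose `d` linearly independent vectors among the `y' i` and apply
`gramSchmidt`: every member lies in the `K`-span `V` of the `y' i`, and inner products of two
elements of `V` lie in `K`. Finally `⟨y i, e a⟩⟨e b, y i⟩ = |⟨y i, y o⟩|² ⟨y' i, e a⟩⟨e b, y' i⟩`. -/
theorem exists_orth {d : ℕ} {ι : Type*} (y : ι → (Fin d → ℂ)) (o : ι)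
    (hspan : Submodule.span ℂ (Set.range y) = ⊤)
    (h1 : ∀ i, ip (y i) (y i) = 1) (h0 : ∀ i, ip (y i) (y o) ≠ 0)
    (K : Subfield ℂ) (hc : ∀ z ∈ K, star z ∈ K)
    (hT : ∀ i j k, ip (y i) (y j) * ip (y j) (y k) * ip (y k) (y i) ∈ K) :
    ∃ e : Fin d → (Fin d → ℂ), (∀ a b, a ≠ b → ip (e a) (e b) = 0) ∧
      (∀ a, ip (e a) (e a) ≠ 0) ∧ (∀ a, ip (e a) (e a) ∈ K) ∧
      (∀ i a b, ip (y i) (e a) * ip (e b) (y i) ∈ K) := by
  classical
  have hoo : ∀ i, ip (y o) (y i) * ip (y i) (y o) ∈ K := by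
    intro i
    have := hT o i o
    rwa [h1 o, mul_one] at this
  have h0' : ∀ i, ip (y o) (y i) ≠ 0 := by
    intro i h
    apply h0 i
    rw [← o_star, h, star_zero]
  set y' : ι → (Fin d → ℂ) := fun i => (ip (y i) (y o))⁻¹ • y i with hy'
  have hyy : ∀ i j, ip (y' i) (y' j) ∈ K := by
    intro i j
    have e1 : ip (y' i) (y' j) = (ip (y o) (y i) * ip (y i) (y j) * ip (y j) (y o))
        / ((ip (y o) (y i) * ip (y i) (y o)) * (ip (y o) (y j) * ip (y j) (y o))) := by
      have a1 := h0 i
      have a2 := h0 j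
      have a3 := h0' i
      have a4 := h0' j
      simp only [hy', o_smul_left, o_smul_right, star_inv₀, o_star]
      field_simp
    rw [e1]
    exact K.div_mem (hT o i j) (K.mul_mem (hoo i) (hoo j))
  set V : Submodule K (Fin d → ℂ) := Submodule.span K (Set.range y') with hV
  have hVV : ∀ u ∈ V, ∀ w ∈ V, ip u w ∈ K := by
    intro u hu w hw
    induction hu using Submodule.span_induction with
    | mem u hu =>
      obtain ⟨i, rfl⟩ := hu
      induction hw using Submodule.span_induction with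
      | mem w hw =>
        obtain ⟨j, rfl⟩ := hw
        exact hyy i j
      | zero => rw [o_zero_right]; exact K.zero_mem
      | add w w' _ _ h h' => rw [o_add_right]; exact K.add_mem h h'
      | smul c w _ h =>
        rw [Subfield.smul_def, o_smul_right]
        exact K.mul_mem (hc _ c.2) h
    | zero => rw [o_zero_left]; exact K.zero_mem
    | add u u' _ _ h h' => rw [o_add_left]; exact K.add_mem h h'
    | smul c u _ h =>
      rw [Subfield.smul_def, o_smul_left]
      exact K.mul_mem c.2 h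
  have hy'V : ∀ i, y' i ∈ V := fun i => Submodule.subset_span ⟨i, rfl⟩
  -- the span of `y'`
  have hspan' : Submodule.span ℂ (Set.range y') = ⊤ := by
    rw [eq_top_iff, ← hspan, Submodule.span_le]
    rintro _ ⟨i, rfl⟩
    have : y i = ip (y i) (y o) • y' i := by
      simp only [hy', smul_smul]
      rw [mul_inv_cancel₀ (h0 i), one_smul]
    rw [this]
    exact Submodule.smul_mem _ _ (Submodule.subset_span ⟨i, rfl⟩)
  obtain ⟨b, hb1, hb2, hb3⟩ := exists_linearIndependent ℂ (Set.range y')
  rw [hspan'] at hb2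
  let B : Module.Basis b ℂ (Fin d → ℂ) := Module.Basis.mk hb3 (by
    rw [Subtype.range_coe_subtype, Set.ofPred_mem_eq, hb2])
  let _ : Fintype b := FiniteDimensional.fintypeBasisIndex B
  have hcard : Fintype.card b = Fintype.card (Fin d) := by
    rw [← Module.finrank_eq_card_basis B, Module.finrank_fintype_fun_eq_card]
  let ε : Fin d ≃ b := (Fintype.equivOfCardEq hcard).symm
  let f : Fin d → EuclideanSpace ℂ (Fin d) := fun a => WithLp.toLp 2 ((ε a : b) : Fin d → ℂ)
  have hf : LinearIndependent ℂ f := by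
    have h1 : LinearIndependent ℂ (fun a => ((ε a : b) : Fin d → ℂ)) := hb3.comp ε ε.injective
    have h2 := h1.map' (WithLp.linearEquiv 2 ℂ (Fin d → ℂ)).symm.toLinearMap
      (LinearEquiv.ker _)
    exact h2
  have hfV : ∀ a, (WithLp.ofLp (f a)) ∈ V := by
    intro a
    obtain ⟨i, hi⟩ := hb1 (ε a).2
    change ((ε a : b) : Fin d → ℂ) ∈ V
    rw [← hi]
    exact hy'V i
  set g := InnerProductSpace.gramSchmidt ℂ f with hg
  have hinner : ∀ u v : EuclideanSpace ℂ (Fin d), (inner ℂ u v : ℂ) = ip (WithLp.ofLp v) (WithLp.ofLp u) :=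
    fun u v => inner_toLp (WithLp.ofLp u) (WithLp.ofLp v)
  have hgV : ∀ a, (WithLp.ofLp (g a)) ∈ V := by
    intro a
    induction a using WellFoundedLT.induction with
    | ind a ih =>
      have h1 := InnerProductSpace.gramSchmidt_def'' ℂ f a
      have h2 : g a = f a - ∑ i ∈ Finset.Iio a,
          ((inner ℂ (g i) (f a) : ℂ) / ((‖g i‖ : ℂ) ^ 2)) • g i := by
        rw [eq_sub_iff_add_eq]
        exact h1.symm
      rw [h2, WithLp.ofLp_sub, WithLp.ofLp_sum]
      refine V.sub_mem (hfV a) (V.sum_mem fun i hi => ?_)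
      have hi' : i < a := Finset.mem_Iio.1 hi
      have h3 : ((inner ℂ (g i) (f a) : ℂ) / ((‖g i‖ : ℂ) ^ 2)) ∈ K := by
        refine K.div_mem ?_ ?_
        · rw [hinner]
          exact hVV _ (hfV a) _ (ih i hi')
        · have : ((‖g i‖ : ℂ) ^ 2) = inner ℂ (g i) (g i) := (inner_self_eq_norm_sq_to_K (𝕜 := ℂ) (g i)).symm
          rw [this, hinner]
          exact hVV _ (ih i hi') _ (ih i hi')
      rw [WithLp.ofLp_smul]
      exact V.smul_mem (⟨_, h3⟩ : K) (ih i hi')
  refine ⟨fun a => WithLp.ofLp (g a), ?_, ?_, ?_, ?_⟩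
  · intro a b hab
    rw [← hinner]
    exact InnerProductSpace.gramSchmidt_orthogonal ℂ f (Ne.symm hab)
  · intro a
    rw [← hinner]
    intro h
    exact (InnerProductSpace.gramSchmidt_ne_zero a hf) (inner_self_eq_zero.1 h)
  · intro a
    exact hVV _ (hgV a) _ (hgV a)
  · intro i a b
    have e1 : y i = ip (y i) (y o) • y' i := by
      simp only [hy', smul_smul]
      rw [mul_inv_cancel₀ (h0 i), one_smul]
    have e2 : ip (y i) (WithLp.ofLp (g a)) * ip (WithLp.ofLp (g b)) (y i)
        = (ip (y o) (y i) * ip (y i) (y o)) * (ip (y' i) (WithLp.ofLp (g a))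
          * ip (WithLp.ofLp (g b)) (y' i)) := by
      have e3 : ip (y i) (WithLp.ofLp (g a)) = ip (y i) (y o) * ip (y' i) (WithLp.ofLp (g a)) := by
        conv_lhs => rw [e1]
        rw [o_smul_left]
      have e4 : ip (WithLp.ofLp (g b)) (y i) = ip (y o) (y i) * ip (WithLp.ofLp (g b)) (y' i) := by
        conv_lhs => rw [e1]
        rw [o_smul_right, o_star]
      rw [e3, e4]
      ring
    rw [e2]
    exact K.mul_mem (hoo i) (K.mul_mem (hVV _ (hy'V i) _ (hgV a)) (hVV _ (hgV b) _ (hy'V i)))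

/-- Parseval for an orthogonal basis. -/
theorem parseval {d : ℕ} (e : Fin d → (Fin d → ℂ)) (h0 : ∀ a b, a ≠ b → ip (e a) (e b) = 0)
    (h1 : ∀ a, ip (e a) (e a) ≠ 0) (u w : Fin d → ℂ) :
    ip u w = ∑ a, ip u (e a) * ip (e a) w / ip (e a) (e a) := by
  classical
  set E : Matrix (Fin d) (Fin d) ℂ := Matrix.of e with hE
  have h2 : E * (E.conjTranspose * Matrix.diagonal (fun a => (ip (e a) (e a))⁻¹)) = 1 := by
    rw [← Matrix.mul_assoc]
    have h3 : E * E.conjTranspose = Matrix.diagonal (fun a => ip (e a) (e a)) := by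
      ext a b
      by_cases h : a = b
      · subst h
        simp [Matrix.mul_apply, hE, ip]
      · rw [Matrix.diagonal_apply_ne _ h, ← h0 a b h]
        simp [Matrix.mul_apply, hE, ip]
    rw [h3, Matrix.diagonal_mul_diagonal, ← Matrix.diagonal_one]
    congr 1
    funext a
    exact mul_inv_cancel₀ (h1 a)
  have h4 := mul_eq_one_comm.1 h2
  have h5 : ∀ k l, ∑ a, star (e a k) * (ip (e a) (e a))⁻¹ * e a l = if k = l then 1 else 0 := by
    intro k l
    have := congrFun (congrFun h4 k) l
    rw [Matrix.mul_apply, Matrix.one_apply] at this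
    rw [← this]
    refine Finset.sum_congr rfl fun a _ => ?_
    rw [Matrix.mul_diagonal, Matrix.conjTranspose_apply]
    rfl
  calc ip u w = ∑ k, ∑ l, u k * (if k = l then (1 : ℂ) else 0) * star (w l) := by
        simp [ip]
    _ = ∑ k, ∑ l, ∑ a, u k * (star (e a k) * (ip (e a) (e a))⁻¹ * e a l) * star (w l) := by
        refine Finset.sum_congr rfl fun k _ => Finset.sum_congr rfl fun l _ => ?_
        rw [← h5 k l, Finset.mul_sum, Finset.sum_mul]
    _ = ∑ a, ∑ k, ∑ l, u k * (star (e a k) * (ip (e a) (e a))⁻¹ * e a l) * star (w l) := by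
        refine (Finset.sum_congr rfl fun k _ => Finset.sum_comm).trans ?_
        exact Finset.sum_comm
    _ = ∑ a, ip u (e a) * ip (e a) w / ip (e a) (e a) := by
        refine Finset.sum_congr rfl fun a _ => ?_
        have e1 : ip u (e a) * ip (e a) w = ∑ k, ∑ l, (u k * star (e a k)) * (e a l * star (w l)) := by
          rw [ip, ip, Finset.sum_mul_sum]
        rw [e1, Finset.sum_div]
        refine Finset.sum_congr rfl fun k _ => ?_
        rw [Finset.sum_div]
        refine Finset.sum_congr rfl fun l _ => ?_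
        rw [div_eq_mul_inv]
        ring

end Pool.Agent.Lib.MP_d0f9e0_co.Arith
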