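import Mathlib
import Pool.Agent.Lib.MP_d0f9e0_co.RamifB
import Pool.Agent.Lib.MP_d0f9e0_co.Arith.Orth

set_option autoImplicit false

/-!
The trace form of the Hermitian matrices over `K`, as a diagonal form over the real subfield.
-/

open Matrix

namespace Pool.Agent.Lib.MP_d0f9e0_co.Arith

open Ramif

/-- the diagonal entries of the trace form of the Hermitian matrices -/
def trEntry {F : Type*} [Field F] {d : ℕ} (D : F) (a : Fin d → F) (p : Fin d × Fin d) : F :=
  if p.1 = p.2 then 1 else if p.1 < p.2 then 2 * a p.1 * a p.2 else D * (2 * a p.1 * a p.2)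

private theorem struct_sum_swap {d : ℕ} (f g : Fin d × Fin d → ℂ)
    (h : ∀ p, f p + f p.swap = g p + g p.swap) : ∑ p, f p = ∑ p, g p := by
  have h1 : ∀ f : Fin d × Fin d → ℂ, ∑ p : Fin d × Fin d, f p.swap = ∑ p, f p := fun f =>
    Fintype.sum_equiv (Equiv.prodComm (Fin d) (Fin d)) _ _ fun p => rfl
  have h2 : ∀ f : Fin d × Fin d → ℂ, ∑ p : Fin d × Fin d, (f p + f p.swap) = 2 * ∑ p, f p := by
    intro f
    rw [Finset.sum_add_distrib, h1]
    ring
  have h3 := h2 f
  rw [Finset.sum_congr rfl fun p _ => h p, h2 g] at h3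
  exact (mul_left_cancel₀ two_ne_zero h3).symm

private theorem struct_star_ip {d : ℕ} (u v : Fin d → ℂ) : star (ip u v) = ip v u := by
  unfold ip
  rw [star_sum]
  refine Finset.sum_congr rfl fun k _ => ?_
  rw [star_mul', star_star, mul_comm]

/-- Let `e` be an orthogonal basis as in `exists_orth`, `z` a nonzero purely imaginary element of
`K`, `D = -z ^ 2`. Then the Gram matrix `|⟨y i, y j⟩|²` is `W * diagonal (trEntry D a) * Wᵀ` over the
real subfield, `a i = ⟨e i, e i⟩`.
Proof: with `c i p = ⟨y i, e p.1⟩ ⟨e p.2, y i⟩ / (a p.1 * a p.2)` (in `K`, `c i p.swap = conj (c i p)`)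
one has `|⟨y i, y j⟩|² = ∑ p, a p.1 * a p.2 * c i p * c j p.swap` (Parseval twice). Put
`W i (a,a) = a a * c i (a,a)`, `W i (a,b) = (c i (a,b) + conj)/2` for `a < b` and
`W i (b,a) = (c i (a,b) - conj)/(2 z)` for `a < b`. -/
theorem exists_W {d : ℕ} (y : Fin d × Fin d → (Fin d → ℂ))
    (K : Subfield ℂ) (hc : ∀ z ∈ K, star z ∈ K)
    (e : Fin d → (Fin d → ℂ)) (he : ∀ a b, a ≠ b → ip (e a) (e b) = 0)
    (he0 : ∀ a, ip (e a) (e a) ≠ 0) (heK : ∀ a, ip (e a) (e a) ∈ K)
    (hye : ∀ i a b, ip (y i) (e a) * ip (e b) (y i) ∈ K)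
    (z : K) (hz : conjHom K hc z = -z) (hz0 : z ≠ 0)
    (a : Fin d → realSub K) (ha : ∀ i, ((a i : K) : ℂ) = ip (e i) (e i))
    (D : realSub K) (hD : (D : K) = -z ^ 2)
    (M : Matrix (Fin d × Fin d) (Fin d × Fin d) (realSub K))
    (hM : ∀ p q, ((M p q : K) : ℂ) = ip (y p) (y q) * ip (y q) (y p)) :
    ∃ W : Matrix (Fin d × Fin d) (Fin d × Fin d) (realSub K),
      W * Matrix.diagonal (trEntry D a) * Wᵀ = M := by
  classical
  -- notation
  set α : Fin d → ℂ := fun k => ip (e k) (e k) with hα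
  have hα0 : ∀ k, α k ≠ 0 := he0
  have hαr : ∀ k, star (α k) = α k := fun k => struct_star_ip _ _
  have hzc : star (z : ℂ) = -(z : ℂ) := by
    have h := congrArg (fun w : K => (w : ℂ)) hz
    exact h
  have hzc0 : (z : ℂ) ≠ 0 := by
    intro h
    exact hz0 (Subtype.ext h)
  obtain ⟨c, hcd⟩ : ∃ c : Fin d × Fin d → Fin d × Fin d → ℂ, ∀ i p, c i p =
      ip (y i) (e p.1) * ip (e p.2) (y i) / (α p.1 * α p.2) := ⟨_, fun _ _ => rfl⟩
  have hcK : ∀ i p, c i p ∈ K := fun i p => by
    rw [hcd]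
    exact K.div_mem (hye i p.1 p.2) (K.mul_mem (heK _) (heK _))
  have hcs : ∀ i p, star (c i p) = c i p.swap := fun i p => by
    rw [hcd, hcd, star_div₀, star_mul', star_mul', hαr, hαr, struct_star_ip, struct_star_ip]
    simp only [Prod.fst_swap, Prod.snd_swap]
    ring
  obtain ⟨Wc, hWc⟩ : ∃ Wc : Fin d × Fin d → Fin d × Fin d → ℂ, ∀ i p, Wc i p =
      if p.1 = p.2 then α p.1 * c i p else if p.1 < p.2 then (c i p + c i p.swap) / 2
      else (c i p.swap - c i p) / (2 * (z : ℂ)) := ⟨_, fun _ _ => rfl⟩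
  have h2K : (2 : ℂ) ∈ K := by
    have := natCast_mem K 2
    simpa using this
  have hWK : ∀ i p, Wc i p ∈ K := by
    intro i p
    rw [hWc]
    split_ifs
    · exact K.mul_mem (heK _) (hcK i p)
    · exact K.div_mem (K.add_mem (hcK _ _) (hcK _ _)) h2K
    · exact K.div_mem (K.sub_mem (hcK _ _) (hcK _ _)) (K.mul_mem h2K z.2)
  have hWs : ∀ i p, star (Wc i p) = Wc i p := by
    intro i p
    rw [hWc]
    split_ifs with h1 h2
    · have h3 : p.swap = p := Prod.ext h1.symm h1
      rw [star_mul', hαr, hcs, h3]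
    · rw [star_div₀, star_add, hcs, hcs, Prod.swap_swap, add_comm]
      congr 1
      exact Complex.conj_ofNat 2
    · rw [star_div₀, star_sub, hcs, hcs, Prod.swap_swap, star_mul', hzc]
      have h3 : star (2 : ℂ) = 2 := Complex.conj_ofNat 2
      rw [h3, mul_neg, div_neg, ← neg_div, neg_sub]
  set W : Matrix (Fin d × Fin d) (Fin d × Fin d) (realSub K) := fun i p =>
    ⟨⟨Wc i p, hWK i p⟩, (mem_realSub K _).2 (hWs i p)⟩ with hW
  refine ⟨W, ?_⟩
  set φ : realSub K →+* ℂ := (K.subtype).comp (realSub K).subtype with hφ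
  have hφi : Function.Injective φ := (K.subtype).injective.comp (realSub K).subtype.injective
  have hφW : ∀ i p, φ (W i p) = Wc i p := fun i p => rfl
  have hφM : ∀ i j, φ (M i j) = ip (y i) (y j) * ip (y j) (y i) := fun i j => hM i j
  have hφa : ∀ k, φ (a k) = α k := fun k => ha k
  have hφD : φ D = -(z : ℂ) ^ 2 := by
    have := congrArg (fun w : K => (w : ℂ)) hD
    simpa [hφ] using this
  have hφt : ∀ p, φ (trEntry D a p) = if p.1 = p.2 then 1 else if p.1 < p.2 then
      2 * α p.1 * α p.2 else -(z : ℂ) ^ 2 * (2 * α p.1 * α p.2) := by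
    intro p
    unfold trEntry
    split_ifs
    · exact map_one φ
    · rw [map_mul, map_mul, hφa, hφa, map_ofNat]
    · rw [map_mul, map_mul, map_mul, hφa, hφa, map_ofNat, hφD]
  refine Matrix.ext fun i j => hφi ?_
  rw [Matrix.mul_apply, map_sum, hφM]
  have h1 : ∀ p, φ ((W * Matrix.diagonal (trEntry D a)) i p * Wᵀ p j) =
      Wc i p * φ (trEntry D a p) * Wc j p := by
    intro p
    rw [Matrix.mul_diagonal, Matrix.transpose_apply, map_mul, map_mul, hφW, hφW]
  rw [Finset.sum_congr rfl fun p _ => h1 p]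
  -- Parseval
  have hP1 := parseval e he he0 (y i) (y j)
  have hP2 := parseval e he he0 (y j) (y i)
  rw [hP1, hP2, Finset.sum_mul_sum, ← Finset.sum_product', Finset.univ_product_univ]
  refine struct_sum_swap _ _ ?_
  -- pointwise identity
  have key : ∀ p : Fin d × Fin d, p.1 ≤ p.2 →
      Wc i p * φ (trEntry D a p) * Wc j p + Wc i p.swap * φ (trEntry D a p.swap) * Wc j p.swap =
      ip (y i) (e p.1) * ip (e p.1) (y j) / ip (e p.1) (e p.1) *
          (ip (y j) (e p.2) * ip (e p.2) (y i) / ip (e p.2) (e p.2)) +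
        ip (y i) (e p.swap.1) * ip (e p.swap.1) (y j) / ip (e p.swap.1) (e p.swap.1) *
          (ip (y j) (e p.swap.2) * ip (e p.swap.2) (y i) / ip (e p.swap.2) (e p.swap.2)) := by
    intro p hp
    have hg : ∀ q : Fin d × Fin d, ip (y i) (e q.1) * ip (e q.1) (y j) / ip (e q.1) (e q.1) *
          (ip (y j) (e q.2) * ip (e q.2) (y i) / ip (e q.2) (e q.2)) =
          α q.1 * α q.2 * c i q * c j q.swap := by
      intro q
      rw [hcd, hcd]
      simp only [Prod.fst_swap, Prod.snd_swap]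
      have e1 := hα0 q.1
      have e2 := hα0 q.2
      show ip (y i) (e q.1) * ip (e q.1) (y j) / α q.1 * (ip (y j) (e q.2) * ip (e q.2) (y i) / α q.2) = _
      field_simp
    rw [hg p, hg p.swap, Prod.swap_swap]
    rcases eq_or_lt_of_le hp with h2 | h2
    · have h3 : p.swap = p := Prod.ext h2.symm h2
      rw [h3, hφt, if_pos h2, hWc, hWc, if_pos h2, if_pos h2, ← h2]
      ring
    · have h3 : ¬ p.1 = p.2 := h2.ne
      have h4 : ¬ p.swap.1 = p.swap.2 := h2.ne'
      have h5 : ¬ p.swap.1 < p.swap.2 := not_lt.2 h2.le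
      rw [hφt, hφt, hWc, hWc, hWc, hWc, if_neg h3, if_neg h3, if_neg h3, if_pos h2, if_pos h2, if_pos h2,
        if_neg h4, if_neg h4, if_neg h4, if_neg h5, if_neg h5, if_neg h5, Prod.swap_swap]
      simp only [Prod.fst_swap, Prod.snd_swap]
      field_simp
      ring
  intro p
  rcases le_total p.1 p.2 with h2 | h2
  · exact key p h2
  · have h3 := key p.swap h2
    rw [Prod.swap_swap] at h3
    rw [add_comm, h3, add_comm]

end Pool.Agent.Lib.MP_d0f9e0_co.Arith
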