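import Mathlib
import Pool.Agent.Lib.MP_d0f9e0_co.RamifB

set_option autoImplicit false

/-!
Primes at which complex conjugation acts trivially on the residue field (ramified primes).
-/

open NumberField IsDedekindDomain

namespace Pool.Agent.Lib.MP_d0f9e0_co.Arith

open Ramif

variable (K : Subfield ℂ) [NumberField K]

/-- If conjugation acts trivially modulo `Q`, then it does so on the whole valuation ring of `Q`.
(The argument is at the end of `Ramif.mem_conjIdeal`.) -/
theorem conj_close (hc : ∀ z ∈ K, star z ∈ K) (Q : HeightOneSpectrum (𝓞 K))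
    (hQ : ∀ i : 𝓞 K, RingOfIntegers.mapRingHom (conjHom K hc) i - i ∈ Q.asIdeal)
    (w : K) (hw : Q.valuation K w ≤ 1) : Q.valuation K (conjHom K hc w - w) < 1 := by
  set c : 𝓞 K →+* 𝓞 K := RingOfIntegers.mapRingHom (conjHom K hc) with hcdef
  have hmem : ∀ z : 𝓞 K, Q.valuation K (algebraMap (𝓞 K) K (c z - z)) < 1 := by
    intro z
    exact (Q.valuation_lt_one_iff_mem _).2 (hQ z)
  have hcK : ∀ z : 𝓞 K, algebraMap (𝓞 K) K (c z) = conjHom K hc (algebraMap (𝓞 K) K z) := by
    intro z
    rfl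
  obtain ⟨a, s, has⟩ := Q.exists_primeCompl_mul_eq_of_integer w hw
  have hvs : Q.valuation K (algebraMap (𝓞 K) K s) = 1 :=
    (Q.valuation_eq_one_iff_notMem).2 s.2
  have hvcs : Q.valuation K (algebraMap (𝓞 K) K (c s)) = 1 := by
    have e : algebraMap (𝓞 K) K (c s) = algebraMap (𝓞 K) K s
        + algebraMap (𝓞 K) K (c s - s) := by
      rw [map_sub]
      ring
    rw [e, Valuation.map_add_eq_of_lt_left, hvs]
    rw [hvs]
    exact hmem s
  have hvs' : Q.valuation K (algebraMap (𝓞 K) K s * algebraMap (𝓞 K) K (c s)) = 1 := by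
    rw [map_mul, hvs, hvcs, one_mul]
  have key : (conjHom K hc w - w) * (algebraMap (𝓞 K) K s * algebraMap (𝓞 K) K (c s))
      = algebraMap (𝓞 K) K (c a - a) * algebraMap (𝓞 K) K s
        - algebraMap (𝓞 K) K a * algebraMap (𝓞 K) K (c s - s) := by
    have h2 : conjHom K hc w * algebraMap (𝓞 K) K (c s) = algebraMap (𝓞 K) K (c a) := by
      rw [hcK, hcK, ← map_mul, has]
    rw [map_sub, map_sub, ← h2, ← has]
    ring
  have h3 : Q.valuation K ((conjHom K hc w - w)
      * (algebraMap (𝓞 K) K s * algebraMap (𝓞 K) K (c s))) < 1 := by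
    rw [key]
    refine Valuation.map_sub_lt _ ?_ ?_
    · rw [map_mul, hvs, mul_one]
      exact hmem a
    · rw [map_mul]
      calc Q.valuation K (algebraMap (𝓞 K) K a) * Q.valuation K (algebraMap (𝓞 K) K (c s - s))
          ≤ 1 * Q.valuation K (algebraMap (𝓞 K) K (c s - s)) :=
            mul_le_mul_left (Q.valuation_le_one a) _
        _ = Q.valuation K (algebraMap (𝓞 K) K (c s - s)) := one_mul _
        _ < 1 := hmem s
  rwa [map_mul, hvs', mul_one] at h3

omit [NumberField K] in
private theorem conj_conj' (hc : ∀ z ∈ K, star z ∈ K) (z : K) :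
    conjHom K hc (conjHom K hc z) = z :=
  Subtype.ext (by rw [conjHom_coe, conjHom_coe, star_star])

private theorem conj_val_aux (hc : ∀ z ∈ K, star z ∈ K) (Q : HeightOneSpectrum (𝓞 K))
    (hQ : ∀ i : 𝓞 K, RingOfIntegers.mapRingHom (conjHom K hc) i - i ∈ Q.asIdeal) (u : K)
    (hu : Q.valuation K u < 1) (hu0 : u ≠ 0) (hcu : conjHom K hc u = u⁻¹) : False := by
  have h1 := conj_close K hc Q hQ u hu.le
  have h0 : Q.valuation K u ≠ 0 := by simpa using hu0
  have h2 : 1 < Q.valuation K (conjHom K hc u) := by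
    rw [hcu, map_inv₀]
    exact (one_lt_inv₀ (zero_lt_iff.2 h0)).2 hu
  rw [Valuation.map_sub_eq_of_lt_left _ (hu.trans h2)] at h1
  exact absurd h1 (not_lt.2 h2.le)

/-- `v (conj w) = v w`. -/
theorem conj_val (hc : ∀ z ∈ K, star z ∈ K) (Q : HeightOneSpectrum (𝓞 K))
    (hQ : ∀ i : 𝓞 K, RingOfIntegers.mapRingHom (conjHom K hc) i - i ∈ Q.asIdeal) (w : K) :
    Q.valuation K (conjHom K hc w) = Q.valuation K w := by
  by_cases hw : w = 0
  · subst hw
    rw [map_zero]
  have hcw : conjHom K hc w ≠ 0 := fun h => hw (by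
    have := conj_conj' K hc w
    rw [h, map_zero] at this
    exact this.symm)
  have hv : Q.valuation K w ≠ 0 := by simpa using hw
  have hvc : Q.valuation K (conjHom K hc w) ≠ 0 := by simpa using hcw
  rcases lt_trichotomy (Q.valuation K (conjHom K hc w)) (Q.valuation K w) with h | h | h
  · exfalso
    refine conj_val_aux K hc Q hQ (conjHom K hc w / w) ?_ (div_ne_zero hcw hw) ?_
    · rw [map_div₀]
      exact (div_lt_one₀ (zero_lt_iff.2 hv)).2 h
    · rw [map_div₀, conj_conj', inv_div]
  · exact h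
  · exfalso
    refine conj_val_aux K hc Q hQ (w / conjHom K hc w) ?_ (div_ne_zero hw hcw) ?_
    · rw [map_div₀]
      exact (div_lt_one₀ (zero_lt_iff.2 hvc)).2 h
    · rw [map_div₀, conj_conj', inv_div]

private theorem imag_ne_real (hc : ∀ z ∈ K, star z ∈ K) (Q : HeightOneSpectrum (𝓞 K))
    (hQ : ∀ i : 𝓞 K, RingOfIntegers.mapRingHom (conjHom K hc) i - i ∈ Q.asIdeal)
    (h2 : (2 : 𝓞 K) ∉ Q.asIdeal) (z t : K) (hz0 : z ≠ 0) (hz : conjHom K hc z = -z)
    (ht : conjHom K hc t = t) : Q.valuation K z ≠ Q.valuation K t := by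
  intro h
  have hv : Q.valuation K z ≠ 0 := by simpa using hz0
  have hvt : Q.valuation K t ≠ 0 := h ▸ hv
  have hv2 : Q.valuation K (2 : K) = 1 := by
    have h := (Q.valuation_eq_one_iff_notMem (K := K)).2 h2
    rwa [map_ofNat] at h
  have hu : Q.valuation K (z / t) = 1 := by
    rw [map_div₀, h, div_self hvt]
  have h1 := conj_close K hc Q hQ (z / t) hu.le
  have e : conjHom K hc (z / t) - z / t = -(2 * (z / t)) := by
    rw [map_div₀, hz, ht]
    ring
  rw [e, Valuation.map_neg, map_mul, hv2, hu, one_mul] at h1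
  exact lt_irrefl _ h1

/-- At a prime `Q` not above `2` with trivial action of conjugation there is a purely imaginary
uniformizer `z`; the valuations of the nonzero real elements are the integral powers of `v (z ^ 2)`,
and `-z ^ 2` generates the maximal ideal of the real valuation ring.
Proof: (a) `v z₀ ≠ v t` for `z₀ ≠ 0` purely imaginary and `t` real, otherwise `u = z₀ / t` is a unit
with `conj u - u = -2 u` a unit, against `conj_close`. (b) for a uniformizer `π` write
`π = f + g`, `f = (π + conj π)/2` real, `g = (π - conj π)/2` purely imaginary; `v f ≠ v g` (if both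
are nonzero), so `v π = max (v f) (v g)`; if `v f = v π` then every valuation is the valuation of a
real element (a power of `f`), contradiction with (a) for a nonzero purely imaginary element
(it exists by `hreal`). So `z = g` works. (c) a real `x` with `v x = v z ^ m`, `m` odd, is excluded by
(a) since `z ^ m` is purely imaginary. -/
theorem exists_unif (hc : ∀ z ∈ K, star z ∈ K) (Q : HeightOneSpectrum (𝓞 K))
    (hreal : ∃ w : K, conjHom K hc w ≠ w)
    (hQ : ∀ i : 𝓞 K, RingOfIntegers.mapRingHom (conjHom K hc) i - i ∈ Q.asIdeal)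
    (h2 : (2 : 𝓞 K) ∉ Q.asIdeal) :
    ∃ z : K, conjHom K hc z = -z ∧ z ≠ 0 ∧ Q.valuation K z < 1 ∧
      (∀ x : K, conjHom K hc x = x → Q.valuation K x < 1 →
        Q.valuation K x ≤ Q.valuation K (z ^ 2)) ∧
      (∀ x : K, conjHom K hc x = x → x ≠ 0 →
        ∃ k : ℤ, Q.valuation K x = Q.valuation K (z ^ 2) ^ k) := by
  obtain ⟨w, hw⟩ := hreal
  obtain ⟨π, hπ⟩ := Q.valuation_exists_uniformizer K
  have h2K : (2 : K) ≠ 0 := two_ne_zero
  have hc2 : conjHom K hc (2 : K) = 2 := map_ofNat _ 2
  set z0 : K := w - conjHom K hc w with hz0def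
  have hz0 : z0 ≠ 0 := sub_ne_zero.2 (Ne.symm hw)
  have hz0c : conjHom K hc z0 = -z0 := by
    rw [hz0def, map_sub, conj_conj']
    ring
  set f : K := (π + conjHom K hc π) / 2 with hf
  set g : K := (π - conjHom K hc π) / 2 with hg
  have hfc : conjHom K hc f = f := by
    rw [hf, map_div₀, map_add, conj_conj', hc2, add_comm]
  have hgc : conjHom K hc g = -g := by
    rw [hg, map_div₀, map_sub, conj_conj', hc2]
    ring
  have hfg : π = f + g := by
    rw [hf, hg]
    ring
  -- `v f ≠ exp (-1)`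
  have hfne : Q.valuation K f ≠ WithZero.exp (-1 : ℤ) := by
    intro h
    have hv : Q.valuation K z0 ≠ 0 := by simpa using hz0
    obtain ⟨k, hk⟩ : ∃ k : ℤ, Q.valuation K z0 = WithZero.exp k :=
      ⟨_, (WithZero.exp_log hv).symm⟩
    refine imag_ne_real K hc Q hQ h2 z0 (f ^ (-k)) hz0 hz0c ?_ ?_
    · rw [map_zpow₀, hfc]
    · rw [map_zpow₀, h, hk, ← WithZero.exp_zsmul]
      simp
  have hgv : Q.valuation K g = WithZero.exp (-1 : ℤ) := by
    by_cases hg0 : g = 0
    · exfalso
      apply hfne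
      rw [← hπ, hfg, hg0, add_zero]
    · have hne := imag_ne_real K hc Q hQ h2 g f hg0 hgc hfc
      have hmax := Valuation.map_add_of_distinct_val (Q.valuation K) (Ne.symm hne)
      rw [← hfg, hπ] at hmax
      rcases le_total (Q.valuation K f) (Q.valuation K g) with h | h
      · rw [max_eq_right h] at hmax
        exact hmax.symm
      · rw [max_eq_left h] at hmax
        exact absurd hmax.symm hfne
  have hg0 : g ≠ 0 := by
    intro h
    rw [h, map_zero] at hgv
    exact WithZero.exp_ne_zero hgv.symm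
  have hodd : ∀ x : K, conjHom K hc x = x → x ≠ 0 →
      ∃ m : ℤ, Q.valuation K x = WithZero.exp (-(2 * m)) := by
    intro x hx hx0
    have hv : Q.valuation K x ≠ 0 := by simpa using hx0
    obtain ⟨k, hk⟩ : ∃ k : ℤ, Q.valuation K x = WithZero.exp k :=
      ⟨_, (WithZero.exp_log hv).symm⟩
    rcases Int.even_or_odd (-k) with ⟨m, hm⟩ | hko
    · refine ⟨m, ?_⟩
      rw [hk]
      congr 1
      omega
    · exfalso
      refine imag_ne_real K hc Q hQ h2 (g ^ (-k)) x (zpow_ne_zero _ hg0) ?_ hx ?_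
      · rw [map_zpow₀, hgc, hko.neg_zpow]
      · rw [map_zpow₀, hgv, hk, ← WithZero.exp_zsmul]
        simp
  have hg2 : Q.valuation K (g ^ 2) = WithZero.exp (-2 : ℤ) := by
    rw [map_pow, hgv, ← WithZero.exp_nsmul]
    norm_num
  refine ⟨g, hgc, hg0, ?_, ?_, ?_⟩
  · rw [hgv, ← WithZero.exp_zero, WithZero.exp_lt_exp]
    norm_num
  · intro x hx hx1
    rw [hg2]
    by_cases hx0 : x = 0
    · rw [hx0, map_zero]
      exact zero_le
    · obtain ⟨m, hm⟩ := hodd x hx hx0
      rw [hm, ← WithZero.exp_zero, WithZero.exp_lt_exp] at hx1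
      rw [hm, WithZero.exp_le_exp]
      omega
  · intro x hx hx0
    obtain ⟨m, hm⟩ := hodd x hx hx0
    refine ⟨m, ?_⟩
    rw [hg2, hm, ← WithZero.exp_zsmul]
    congr 1
    rw [smul_eq_mul]
    ring

end Pool.Agent.Lib.MP_d0f9e0_co.Arith
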