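import Mathlib
import Pool.Agent.Lib.MP_d0f9e0_co.LevelC
import Pool.Agent.Lib.MP_d0f9e0_co.Arith.Springer
import Pool.Agent.Lib.MP_d0f9e0_co.Arith.Hous
import Pool.Agent.Lib.MP_d0f9e0_co.Arith.Unif
import Pool.Agent.Lib.MP_d0f9e0_co.Arith.Struct
import Pool.Agent.Lib.MP_d0f9e0_co.Arith.Real
import Pool.Agent.Lib.MP_d0f9e0_co.Arith.RamA

set_option autoImplicit false

/-!
Residue fields of the ramified primes in odd dimension.
-/

open Matrix NumberField IsDedekindDomain

namespace Pool.Agent.Lib.MP_d0f9e0_co.Arith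

open Ramif

lemma ip_smul_smul {d : ℕ} (s t : ℂ) (u w : Fin d → ℂ) :
    ip (s • u) (t • w) = s * star t * ip u w := by
  simp only [ip, Pi.smul_apply, smul_eq_mul, star_mul', Finset.mul_sum]
  refine Finset.sum_congr rfl fun k _ => ?_
  ring

lemma ip_smul_left' {d : ℕ} (s : ℂ) (u w : Fin d → ℂ) : ip (s • u) w = s * ip u w := by
  simp only [ip, Pi.smul_apply, smul_eq_mul, Finset.mul_sum]
  refine Finset.sum_congr rfl fun k _ => ?_
  ring

lemma ip_smul_right' {d : ℕ} (t : ℂ) (u w : Fin d → ℂ) : ip u (t • w) = star t * ip u w := by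
  simp only [ip, Pi.smul_apply, smul_eq_mul, star_mul', Finset.mul_sum]
  refine Finset.sum_congr rfl fun k _ => ?_
  ring

/-- the structure matrix with unit entries -/
theorem exists_unit_structure {d : ℕ} (hd : 1 ≤ d) (y : Fin d × Fin d → (Fin d → ℂ))
    (h1 : ∀ i, ip (y i) (y i) = 1)
    (h2 : ∀ i j, i ≠ j → ip (y i) (y j) * ip (y j) (y i) = 1 / ((d : ℂ) + 1))
    (K : Subfield ℂ) [NumberField K] (hc : ∀ z ∈ K, star z ∈ K)
    (hT : ∀ i j k, ip (y i) (y j) * ip (y j) (y k) * ip (y k) (y i) ∈ K)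
    (Q : HeightOneSpectrum (𝓞 K)) (z : K) (hz : conjHom K hc z = -z) (hz0 : z ≠ 0)
    (hpow : ∀ x : K, conjHom K hc x = x → x ≠ 0 →
        ∃ k : ℤ, Q.valuation K x = Q.valuation K (z ^ 2) ^ k)
    (D : realSub K) (hD : (D : K) = -z ^ 2) :
    ∃ (a : Fin d → realSub K) (W : Matrix (Fin d × Fin d) (Fin d × Fin d) (realSub K)),
      (∀ i, Q.valuation K (a i : K) = 1) ∧
      W * Matrix.diagonal (trEntry D a) * Wᵀ
        = Matrix.of fun p q => if p = q then 1 else 1 / ((d : realSub K) + 1) := by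
  have hd0 : (d : ℂ) ≠ 0 := by exact_mod_cast (show d ≠ 0 by omega)
  have hd1 : (d : ℂ) + 1 ≠ 0 := by exact_mod_cast (show d + 1 ≠ 0 by omega)
  have hn : ∀ a b, ip (y a) (y b) * ip (y b) (y a) = if a = b then 1 else 1 / ((d : ℂ) + 1) := by
    intro a b
    split_ifs with h
    · subst h; rw [h1, one_mul]
    · exact h2 a b h
  have hnz : ∀ a b, ip (y a) (y b) ≠ 0 := by
    intro a b h
    have := hn a b
    rw [h, zero_mul] at this
    split_ifs at this
    · exact one_ne_zero this.symm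
    · exact (one_div_ne_zero hd1) this.symm
  have hM : (Matrix.of fun p q => FieldDisc.ipp (y p) (y q) * FieldDisc.ipp (y q) (y p)).det
      = ((d : ℂ) / (d + 1)) ^ (d * d) * ((d : ℂ) + 1) := by
    have : (Matrix.of fun p q => FieldDisc.ipp (y p) (y q) * FieldDisc.ipp (y q) (y p))
        = Matrix.of fun p q : Fin d × Fin d =>
          if p = q then (d : ℂ) / (d + 1) + 1 / (d + 1) else 1 / ((d : ℂ) + 1) := by
      ext p q
      simp only [Matrix.of_apply]
      refine (hn p q).trans ?_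
      split_ifs
      · field_simp
      · rfl
    rw [this, FieldDisc.det_simplex _ _ (div_ne_zero hd0 hd1)]
    rw [Fintype.card_prod, Fintype.card_fin]
    congr 1
    push_cast
    field_simp
    ring
  have hne : (FieldDisc.projMat y).det ≠ 0 := by
    intro h
    have hsq := FieldDisc.det_projMat_sq y
    rw [hM, h] at hsq
    have : (-1 : ℂ) ^ (d * (d - 1) / 2) * (((d : ℂ) / (d + 1)) ^ (d * d) * ((d : ℂ) + 1)) ≠ 0 :=
      mul_ne_zero (pow_ne_zero _ (by norm_num))
        (mul_ne_zero (pow_ne_zero _ (div_ne_zero hd0 hd1)) hd1)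
    exact this (by rw [← hsq]; ring)
  obtain ⟨κ, hli⟩ := FieldDisc.exists_basis y hne
  have hspan : Submodule.span ℂ (Set.range y) = ⊤ := by
    have h := hli.span_eq_top_of_card_eq_finrank' (by simp)
    rw [eq_top_iff, ← h]
    refine Submodule.span_mono ?_
    rintro _ ⟨i, rfl⟩
    exact ⟨κ i, rfl⟩
  obtain ⟨e, he, he0, heK, hye⟩ := exists_orth y (⟨0, hd⟩, ⟨0, hd⟩) hspan h1 (fun i => hnz _ _)
    K hc hT
  have hr : ∀ i, conjHom K hc (⟨ip (e i) (e i), heK i⟩ : K) = ⟨ip (e i) (e i), heK i⟩ := by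
    intro i
    apply Subtype.ext
    rw [conjHom_coe]
    exact star_ip _ _
  have hr0 : ∀ i, (⟨ip (e i) (e i), heK i⟩ : K) ≠ 0 := by
    intro i h
    exact he0 i (congrArg Subtype.val h)
  choose k hk using fun i => hpow _ (hr i) (hr0 i)
  have hvz : Q.valuation K z ≠ 0 := by simpa using hz0
  have hzc : (z : ℂ) ≠ 0 := fun h => hz0 (Subtype.ext h)
  have hsz : star (z : ℂ) = -(z : ℂ) := by
    have := congrArg Subtype.val hz
    rwa [conjHom_coe] at this
  have hs0 : ∀ i, (z : ℂ) ^ (-k i) ≠ 0 := fun i => zpow_ne_zero _ hzc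
  have hsK : ∀ i, (z : ℂ) ^ (-k i) ∈ K := fun i => zpow_mem z.2 _
  have hssK : ∀ i, star ((z : ℂ) ^ (-k i)) ∈ K := fun i => hc _ (hsK i)
  let e' : Fin d → (Fin d → ℂ) := fun i => (z : ℂ) ^ (-k i) • e i
  have hee : ∀ i j, ip (e' i) (e' j) = (z : ℂ) ^ (-k i) * star ((z : ℂ) ^ (-k j)) * ip (e i) (e j) :=
    fun i j => ip_smul_smul _ _ _ _
  have heK' : ∀ i, ip (e' i) (e' i) ∈ K := by
    intro i
    rw [hee]
    exact mul_mem (mul_mem (hsK i) (hssK i)) (heK i)
  have hreal : ∀ i, (⟨ip (e' i) (e' i), heK' i⟩ : K) ∈ realSub K := by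
    intro i
    rw [mem_realSub]
    exact star_ip _ _
  let a : Fin d → realSub K := fun i => ⟨⟨ip (e' i) (e' i), heK' i⟩, hreal i⟩
  have hva : ∀ i, Q.valuation K (a i : K) = 1 := by
    intro i
    have e1 : (a i : K) = z ^ (-k i) * (-z) ^ (-k i) * ⟨ip (e i) (e i), heK i⟩ := by
      apply Subtype.ext
      have e2 : ((a i : K) : ℂ) = ip (e' i) (e' i) := rfl
      have e3 : ((z ^ (-k i) * (-z) ^ (-k i) * ⟨ip (e i) (e i), heK i⟩ : K) : ℂ)
          = (z : ℂ) ^ (-k i) * (-(z : ℂ)) ^ (-k i) * ip (e i) (e i) := by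
        rw [MulMemClass.coe_mul, MulMemClass.coe_mul]
        rfl
      rw [e2, e3, hee, star_zpow₀, hsz]
    have hvz2 : Q.valuation K z * Q.valuation K z ≠ 0 := mul_ne_zero hvz hvz
    rw [e1, map_mul, map_mul, map_zpow₀, map_zpow₀, Valuation.map_neg, hk i, map_pow, ← mul_zpow,
      sq, ← zpow_add₀ hvz2, neg_add_cancel, zpow_zero]
  obtain ⟨W, hW⟩ := exists_W y K hc e' (fun a b hab => by rw [hee, he a b hab, mul_zero])
    (fun i => by
      rw [hee]
      exact mul_ne_zero (mul_ne_zero (hs0 i) (star_ne_zero.2 (hs0 i))) (he0 i))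
    heK' (fun i a b => by
      change ip (y i) ((z : ℂ) ^ (-k a) • e a) * ip ((z : ℂ) ^ (-k b) • e b) (y i) ∈ K
      rw [ip_smul_left', ip_smul_right']
      have : star ((z : ℂ) ^ (-k a)) * ip (y i) (e a) * ((z : ℂ) ^ (-k b) * ip (e b) (y i))
          = star ((z : ℂ) ^ (-k a)) * (z : ℂ) ^ (-k b) * (ip (y i) (e a) * ip (e b) (y i)) := by
        ring
      rw [this]
      exact mul_mem (mul_mem (hssK a) (hsK b)) (hye i a b))
    z hz hz0 a (fun i => rfl) D hD
    (Matrix.of fun p q => if p = q then 1 else 1 / ((d : realSub K) + 1)) (fun p q => by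
      rw [hn]
      simp only [Matrix.of_apply]
      split_ifs
      · rfl
      · push_cast
        rfl)
  exact ⟨a, W, hva, hW⟩


/-- the unit part of the entries of the trace form -/
def unitEntry {F : Type*} [Field F] {d : ℕ} (a : Fin d → F) (p : Fin d × Fin d) : F :=
  if p.1 = p.2 then 1 else 2 * a p.1 * a p.2

lemma trEntry_eq {F : Type*} [Field F] {d : ℕ} (D : F) (a : Fin d → F) (p : Fin d × Fin d) :
    trEntry D a p = if decide (p.2 < p.1) then D * unitEntry a p else unitEntry a p := by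
  unfold trEntry unitEntry
  rcases lt_trichotomy p.1 p.2 with h | h | h
  · have h' : ¬ p.2 < p.1 := not_lt.2 h.le
    simp [h, h', h.ne]
  · simp [h]
  · have h' : ¬ p.1 < p.2 := not_lt.2 h.le
    simp [h, h', h.ne']

section core

variable {F : Type*} [Field F] [CharZero F] {Γ₀ : Type*} [LinearOrderedCommGroupWithZero Γ₀]
    (v : Valuation F Γ₀) (ϖ : F) (hϖ0 : ϖ ≠ 0) (hϖ1 : v ϖ < 1) (hϖ : ∀ x, v x < 1 → v x ≤ v ϖ)
    {d : ℕ} (hd : 1 ≤ d) (a : Fin d → F) (ha : ∀ i, v (a i) = 1) (h2 : v 2 = 1)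
    (W : Matrix (Fin d × Fin d) (Fin d × Fin d) F)
    (hW : W * Matrix.diagonal (trEntry ϖ a) * Wᵀ
        = Matrix.of fun p q => if p = q then 1 else 1 / ((d : F) + 1))
    (k : ℤ) (hk : v (d : F) = v ϖ ^ k) (hd1 : v ((d : F) + 1) = 1)

include ha h2 in
omit [CharZero F] in
lemma val_unitEntry (p : Fin d × Fin d) : v (unitEntry a p) = 1 := by
  unfold unitEntry
  split_ifs
  · exact map_one v
  · rw [map_mul, map_mul, h2, ha, ha, one_mul, one_mul]

include hϖ0 hk hd1 in
omit [CharZero F] in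
lemma val_l (o p : Fin d × Fin d) :
    v (ϖ ^ (-k) * (if p = o then (d : F) else (d : F) / ((d : F) + 1))) = 1 := by
  have hv0 : v ϖ ≠ 0 := (Valuation.ne_zero_iff v).2 hϖ0
  have : v (if p = o then (d : F) else (d : F) / ((d : F) + 1)) = v ϖ ^ k := by
    split_ifs
    · exact hk
    · rw [map_div₀, hd1, div_one, hk]
  rw [map_mul, this, map_zpow₀, ← zpow_add₀ hv0, neg_add_cancel, zpow_zero]

include hϖ0 hϖ1 hϖ hd ha h2 hW hk hd1 in
theorem core_odd (j : ℤ) (hj : k = 2 * j + 1) :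
    Even (d * (d + 1) / 2) ∧ ∃ t, v t ≤ 1 ∧
      v ((-1) ^ (d * (d + 1) / 2 / 2) * (2 ^ (d * (d - 1) / 2) * (∏ i, a i) ^ (d - 1))
        - t ^ 2) < 1 := by
  obtain ⟨H, hH⟩ := simplex_diag (F := F) hd ((⟨0, hd⟩, ⟨0, hd⟩) : Fin d × Fin d)
  have key := springer v ϖ hϖ0 hϖ1 hϖ (unitEntry a)
    (fun p => ϖ ^ (-k) * (if p = ((⟨0, hd⟩, ⟨0, hd⟩) : Fin d × Fin d) then (d : F)
      else (d : F) / ((d : F) + 1))) (val_unitEntry v a ha h2) (val_l v ϖ hϖ0 k hk hd1 _)
    (fun p => decide (p.2 < p.1)) (ϖ ^ (-j) • (H * W)) (by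
      have e1 : (fun p : Fin d × Fin d => if decide (p.2 < p.1) = true then ϖ * unitEntry a p
          else unitEntry a p) = trEntry ϖ a := by
        funext p
        exact (trEntry_eq ϖ a p).symm
      have e2 : (ϖ ^ (-j) • (H * W)) * Matrix.diagonal (trEntry ϖ a) * (ϖ ^ (-j) • (H * W))ᵀ
          = (ϖ ^ (-j) * ϖ ^ (-j)) • (H * (W * Matrix.diagonal (trEntry ϖ a) * Wᵀ) * Hᵀ) := by
        simp only [Matrix.transpose_smul, Matrix.transpose_mul, Matrix.smul_mul, Matrix.mul_smul,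
          smul_smul, Matrix.mul_assoc]
      rw [e1, e2, hW, hH, ← Matrix.diagonal_smul]
      congr 1
      funext p
      simp only [Pi.smul_apply, smul_eq_mul]
      rw [← mul_assoc, ← zpow_one_add₀ hϖ0, ← zpow_add₀ hϖ0]
      congr 2
      rw [hj]
      ring)
  have e3 : ∏ p : {p : Fin d × Fin d // decide (p.2 < p.1) = false}, unitEntry a p
      = 2 ^ (d * (d - 1) / 2) * (∏ i, a i) ^ (d - 1) := prod_upper a 2
  rw [card_upper, e3] at key
  exact key

include hϖ0 hϖ1 hϖ hd ha h2 hW hk hd1 in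
theorem core_even (j : ℤ) (hj : k = 2 * j) :
    Even (d * (d - 1) / 2) ∧ ∃ t, v t ≤ 1 ∧
      v ((-1) ^ (d * (d - 1) / 2 / 2) * (2 ^ (d * (d - 1) / 2) * (∏ i, a i) ^ (d - 1))
        - t ^ 2) < 1 := by
  obtain ⟨H, hH⟩ := simplex_diag (F := F) hd ((⟨0, hd⟩, ⟨0, hd⟩) : Fin d × Fin d)
  have key := springer v ϖ hϖ0 hϖ1 hϖ (unitEntry a)
    (fun p => ϖ ^ (-k) * (if p = ((⟨0, hd⟩, ⟨0, hd⟩) : Fin d × Fin d) then (d : F)
      else (d : F) / ((d : F) + 1))) (val_unitEntry v a ha h2) (val_l v ϖ hϖ0 k hk hd1 _)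
    (fun p => !decide (p.2 < p.1))
    (ϖ ^ (-j) • (H * (W * Matrix.diagonal (fun p => if decide (p.2 < p.1) then ϖ else 1)))) (by
      have e1 : Matrix.diagonal (fun p : Fin d × Fin d => if decide (p.2 < p.1) then ϖ else (1 : F))
          * (Matrix.diagonal (fun p : Fin d × Fin d =>
            if (!decide (p.2 < p.1)) = true then ϖ * unitEntry a p else unitEntry a p)
          * Matrix.diagonal (fun p : Fin d × Fin d => if decide (p.2 < p.1) then ϖ else (1 : F)))
          = ϖ • Matrix.diagonal (trEntry ϖ a) := by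
        rw [Matrix.diagonal_mul_diagonal, Matrix.diagonal_mul_diagonal, ← Matrix.diagonal_smul]
        congr 1
        funext p
        simp only [Pi.smul_apply, smul_eq_mul]
        rw [trEntry_eq]
        by_cases h : p.2 < p.1
        · simp [h]
          exact Or.inl (mul_comm _ _)
        · simp [h]
      have e2 : (ϖ ^ (-j) • (H * (W * Matrix.diagonal (fun p : Fin d × Fin d =>
            if decide (p.2 < p.1) then ϖ else (1 : F)))))
          * Matrix.diagonal (fun p : Fin d × Fin d =>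
            if (!decide (p.2 < p.1)) = true then ϖ * unitEntry a p else unitEntry a p)
          * (ϖ ^ (-j) • (H * (W * Matrix.diagonal (fun p : Fin d × Fin d =>
            if decide (p.2 < p.1) then ϖ else (1 : F)))))ᵀ
          = (ϖ ^ (-j) * ϖ ^ (-j) * ϖ) • (H * (W * Matrix.diagonal (trEntry ϖ a) * Wᵀ) * Hᵀ) := by
        rw [mul_smul (ϖ ^ (-j) * ϖ ^ (-j)) ϖ]
        have : ϖ • (H * (W * Matrix.diagonal (trEntry ϖ a) * Wᵀ) * Hᵀ)
            = H * (W * (ϖ • Matrix.diagonal (trEntry ϖ a)) * Wᵀ) * Hᵀ := by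
          simp only [Matrix.smul_mul, Matrix.mul_smul]
        rw [this, ← e1]
        simp only [Matrix.transpose_smul, Matrix.transpose_mul, Matrix.smul_mul, Matrix.mul_smul,
          smul_smul, Matrix.mul_assoc, Matrix.diagonal_transpose]
      rw [e2, hW, hH, ← Matrix.diagonal_smul]
      congr 1
      funext p
      simp only [Pi.smul_apply, smul_eq_mul]
      rw [← mul_assoc, mul_comm _ ϖ]
      congr 2
      rw [← zpow_add₀ hϖ0]
      congr 1
      rw [hj]
      ring)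
  have e4 : Fintype.card {p : Fin d × Fin d // (!decide (p.2 < p.1)) = false}
      = d * (d - 1) / 2 := by
    rw [← card_lower d]
    exact Fintype.card_congr (Equiv.subtypeEquivRight fun p => by simp)
  have e3 : ∏ p : {p : Fin d × Fin d // (!decide (p.2 < p.1)) = false}, unitEntry a p
      = 2 ^ (d * (d - 1) / 2) * (∏ i, a i) ^ (d - 1) := by
    rw [← prod_lower' a 2]
    refine Fintype.prod_equiv (Equiv.subtypeEquivRight fun p => by simp) _ _ fun p => ?_
    have hp : p.1.2 < p.1.1 := by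
      have := p.2
      simpa using this
    simp only [unitEntry, if_neg hp.ne', Equiv.subtypeEquivRight_apply_coe]
  rw [e4, e3] at key
  exact key

end core

theorem ram_residue {d : ℕ} (hd : 3 ≤ d) {x : Fin (d ^ 2) → (Fin d → ℂ)}
    (hx : IsMaximalETF d x) (K : Subfield ℂ) [NumberField K] (hc : ∀ z ∈ K, star z ∈ K)
    (hT : ∀ i j k, ip (x i) (x j) * ip (x j) (x k) * ip (x k) (x i) ∈ K)
    (Q : Ideal (𝓞 K)) (hQp : Q.IsPrime) (hQ0 : Q ≠ ⊥)
    (hQ : ∀ i : 𝓞 K, RingOfIntegers.mapRingHom (conjHom K hc) i - i ∈ Q)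
    (h2 : (2 : 𝓞 K) ∉ Q) (hdQ : ((d : ℕ) : 𝓞 K) ∈ Q) :
    (d % 8 = 3 → IsSquare (-2 : 𝓞 K ⧸ Q)) ∧ (d % 8 = 5 → IsSquare (-1 : 𝓞 K ⧸ Q)) ∧
      (d % 8 = 7 → IsSquare (2 : 𝓞 K ⧸ Q)) := by
  obtain ⟨v, hv⟩ : ∃ v : HeightOneSpectrum (𝓞 K), v.asIdeal = Q := ⟨⟨Q, hQp, hQ0⟩, rfl⟩
  subst hv
  obtain ⟨z, hz, hz0, hz1, hzmax, hzpow⟩ :=
    exists_unif K hc v (exists_conj_ne (by omega) hx K hc hT) hQ h2
  have hcard : Fintype.card (Fin d × Fin d) = Fintype.card (Fin (d ^ 2)) := by
    simp [sq]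
  let e : Fin d × Fin d ≃ Fin (d ^ 2) := Fintype.equivOfCardEq hcard
  have hDr : (-z ^ 2 : K) ∈ realSub K := by
    rw [mem_realSub]
    have h := congrArg Subtype.val hz
    rw [conjHom_coe] at h
    have e1 : ((-z ^ 2 : K) : ℂ) = -(z : ℂ) ^ 2 := rfl
    rw [e1, star_neg, star_pow, h]
    have e2 : ((-z : K) : ℂ) = -(z : ℂ) := rfl
    rw [e2]
    ring
  let D : realSub K := ⟨-z ^ 2, hDr⟩
  obtain ⟨a, W, ha, hW⟩ := exists_unit_structure (by omega) (fun p => x (e p))
    (fun p => hx.1 _) (fun p q hpq => ip_mul_ip hx.2 (fun h => hpq (e.injective h)))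
    K hc (fun i j k => hT _ _ _) v z hz hz0 hzpow D rfl
  let v' : Valuation (realSub K) _ := (v.valuation K).comap (algebraMap (realSub K) K)
  have hv' : ∀ y : realSub K, v' y = v.valuation K (y : K) := fun y => rfl
  have hconj : ∀ y : realSub K, conjHom K hc (y : K) = (y : K) := by
    intro y
    apply Subtype.ext
    rw [conjHom_coe]
    exact (mem_realSub K _).1 y.2
  have hD0 : D ≠ 0 := by
    intro h
    have h' := congrArg Subtype.val h
    have h'' : -z ^ 2 = 0 := h'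
    exact hz0 (by simpa using h'')
  have hvD : v' D = v.valuation K (z ^ 2) := by
    rw [hv']
    exact Valuation.map_neg _ _
  have hD1 : v' D < 1 := by
    rw [hvD, map_pow]
    exact pow_lt_one₀ zero_le hz1 two_ne_zero
  have hDmax : ∀ y, v' y < 1 → v' y ≤ v' D := by
    intro y hy
    rw [hvD]
    exact hzmax y (hconj y) hy
  have hv2 : v' 2 = 1 := by
    rw [hv']
    have := (v.valuation_eq_one_iff_notMem (K := K) (r := 2)).2 h2
    rw [map_ofNat] at this
    exact this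
  have hdF : (d : realSub K) ≠ 0 := by
    exact_mod_cast (show d ≠ 0 by omega)
  have hdK : (d : K) ≠ 0 := by
    exact_mod_cast (show d ≠ 0 by omega)
  have hvd : v.valuation K (d : K) < 1 := by
    have := (v.valuation_lt_one_iff_mem (K := K) (d : 𝓞 K)).2 hdQ
    have e0 : algebraMap (𝓞 K) K (d : 𝓞 K) = (d : K) := map_natCast _ _
    rw [← e0]
    exact this
  have hd1 : v' ((d : realSub K) + 1) = 1 := by
    rw [hv']
    have e1 : (((d : realSub K) + 1 : realSub K) : K) = (d : K) + 1 := by push_cast; rfl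
    rw [e1, Valuation.map_add_eq_of_lt_right (v.valuation K) (x := (d : K)) (y := 1) (by
      rw [map_one]; exact hvd), map_one]
  obtain ⟨k, hk⟩ := hzpow (d : K) (by rw [map_natCast]) hdK
  have hk' : v' (d : realSub K) = v' D ^ k := by
    rw [hvD, ← hk, hv']
    congr 1
  -- transfer of the conclusion
  have fin : ∀ (s : ℤ) (n : ℕ) (t : realSub K), v' t ≤ 1 →
      v' ((s : realSub K) * (2 ^ n * (∏ i, a i) ^ ((d - 1) / 2)) ^ 2 - t ^ 2) < 1 →
      IsSquare ((s : ℤ) : 𝓞 K ⧸ v.asIdeal) := by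
    intro s n t ht h
    refine sq_of_val v s ((2 ^ n * (∏ i, a i) ^ ((d - 1) / 2) : realSub K) : K) (t : K) ?_ ?_ ?_
    · rw [← hv', map_mul, map_pow, map_pow, map_prod, hv2, one_pow, one_mul]
      rw [Finset.prod_congr rfl fun i _ => (hv' (a i)).trans (ha i), Finset.prod_const_one,
        one_pow]
    · exact ht
    · have e1 : ((s : K) * ((2 ^ n * (∏ i, a i) ^ ((d - 1) / 2) : realSub K) : K) ^ 2 - (t : K) ^ 2)
          = (((s : realSub K) * (2 ^ n * (∏ i, a i) ^ ((d - 1) / 2)) ^ 2 - t ^ 2 : realSub K) : K)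
          := by
        push_cast
        rfl
      rw [e1]
      exact h
  have hpar : k = 2 * (k / 2) + 1 ∨ k = 2 * (k / 2) := by omega
  have half : ∀ n m : ℕ, n = 2 * m → n / 2 = m := by omega
  rcases hpar with hj | hj
  · obtain ⟨hev, t, ht1, ht⟩ := core_odd v' D hD0 hD1 hDmax (by omega) a ha hv2 W hW k hk' hd1 _ hj
    refine ⟨fun h8 => ?_, fun h8 => ?_, fun h8 => ?_⟩
    · obtain ⟨r, hr⟩ : ∃ r, d = 8 * r + 3 := ⟨d / 8, by omega⟩
      have e1 : d * (d + 1) / 2 = 2 * ((8 * r + 3) * (2 * r + 1)) := half _ _ (by rw [hr]; ring)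
      have e2 : d * (d - 1) / 2 = 2 * (16 * r ^ 2 + 10 * r + 1) + 1 := by
        refine half _ _ ?_
        have : d - 1 = 8 * r + 2 := by omega
        rw [this, hr]; ring
      have e3 : d - 1 = 2 * ((d - 1) / 2) := by omega
      have := fin (-2) (16 * r ^ 2 + 10 * r + 1) t ht1 (by
        rw [half _ _ e1, e2] at ht
        convert ht using 3
        rw [Odd.neg_one_pow ((show Odd (8 * r + 3) from ⟨4 * r + 1, by ring⟩).mul
          (show Odd (2 * r + 1) from ⟨r, rfl⟩)), e3, Nat.mul_div_cancel_left _ (by norm_num)]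
        push_cast
        ring)
      simpa using this
    · exfalso
      obtain ⟨r, hr⟩ : ∃ r, d = 8 * r + 5 := ⟨d / 8, by omega⟩
      have e1 : d * (d + 1) / 2 = 2 * (16 * r ^ 2 + 22 * r + 7) + 1 :=
        half _ _ (by rw [hr]; ring)
      rw [e1] at hev
      exact (Nat.not_even_iff_odd.2 ⟨_, rfl⟩) hev
    · obtain ⟨r, hr⟩ : ∃ r, d = 8 * r + 7 := ⟨d / 8, by omega⟩
      have e1 : d * (d + 1) / 2 = 2 * ((8 * r + 7) * (2 * (r + 1))) :=
        half _ _ (by rw [hr]; ring)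
      have e2 : d * (d - 1) / 2 = 2 * (16 * r ^ 2 + 26 * r + 10) + 1 := by
        refine half _ _ ?_
        have : d - 1 = 8 * r + 6 := by omega
        rw [this, hr]; ring
      have e3 : d - 1 = 2 * ((d - 1) / 2) := by omega
      have := fin 2 (16 * r ^ 2 + 26 * r + 10) t ht1 (by
        rw [half _ _ e1, e2] at ht
        convert ht using 3
        rw [Even.neg_one_pow ((even_two_mul (r + 1)).mul_left _), e3,
          Nat.mul_div_cancel_left _ (by norm_num)]
        push_cast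
        ring)
      simpa using this
  · obtain ⟨hev, t, ht1, ht⟩ := core_even v' D hD0 hD1 hDmax (by omega) a ha hv2 W hW k hk' hd1 _ hj
    refine ⟨fun h8 => ?_, fun h8 => ?_, fun h8 => ?_⟩
    · exfalso
      obtain ⟨r, hr⟩ : ∃ r, d = 8 * r + 3 := ⟨d / 8, by omega⟩
      have e2 : d * (d - 1) / 2 = 2 * (16 * r ^ 2 + 10 * r + 1) + 1 := by
        refine half _ _ ?_
        have : d - 1 = 8 * r + 2 := by omega
        rw [this, hr]; ring
      rw [e2] at hev
      exact (Nat.not_even_iff_odd.2 ⟨_, rfl⟩) hev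
    · obtain ⟨r, hr⟩ : ∃ r, d = 8 * r + 5 := ⟨d / 8, by omega⟩
      have e2 : d * (d - 1) / 2 = 2 * ((8 * r + 5) * (2 * r + 1)) := by
        refine half _ _ ?_
        have : d - 1 = 8 * r + 4 := by omega
        rw [this, hr]; ring
      have e3 : d - 1 = 2 * ((d - 1) / 2) := by omega
      have := fin (-1) ((8 * r + 5) * (2 * r + 1)) t ht1 (by
        rw [half _ _ e2, e2] at ht
        convert ht using 3
        rw [Odd.neg_one_pow ((show Odd (8 * r + 5) from ⟨4 * r + 2, by ring⟩).mul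
          (show Odd (2 * r + 1) from ⟨r, rfl⟩)), e3, Nat.mul_div_cancel_left _ (by norm_num)]
        push_cast
        ring)
      simpa using this
    · exfalso
      obtain ⟨r, hr⟩ : ∃ r, d = 8 * r + 7 := ⟨d / 8, by omega⟩
      have e2 : d * (d - 1) / 2 = 2 * (16 * r ^ 2 + 26 * r + 10) + 1 := by
        refine half _ _ ?_
        have : d - 1 = 8 * r + 6 := by omega
        rw [this, hr]; ring
      rw [e2] at hev
      exact (Nat.not_even_iff_odd.2 ⟨_, rfl⟩) hev

end Pool.Agent.Lib.MP_d0f9e0_co.Arith
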