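import Mathlib
import Pool.Agent.Lib.MP_d0f9e0_co.RamifB
import Pool.Agent.Lib.MP_d0f9e0_co.Arith.Sums

set_option autoImplicit false

/-!
No prime of the real subfield with three residue classes is inert.
-/

open NumberField IsDedekindDomain

namespace Pool.Agent.Lib.MP_d0f9e0_co.Arith

open Ramif

private lemma t_card3 {R : Type*} [CommRing R] (h : Nat.card R = 3) :
    (3 : R) = 0 ∧ ∀ t : R, t = 0 ∨ t = 1 ∨ t = -1 := by
  have hfin : Finite R := Nat.finite_of_card_ne_zero (by omega)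
  have := Fintype.ofFinite R
  rw [Nat.card_eq_fintype_card] at h
  let e := ZMod.ringEquivOfPrime R Nat.prime_three h
  have h3 : (3 : R) = 0 := by
    have h1 : e (3 : ZMod 3) = (3 : R) := map_ofNat e 3
    have h2 : (3 : ZMod 3) = 0 := by decide
    rw [← h1, h2, map_zero]
  refine ⟨h3, fun t => ?_⟩
  have h4 : ∀ n : ZMod 3, n = 0 ∨ n = 1 ∨ n = -1 := by decide
  obtain ⟨n, rfl⟩ := e.surjective t
  rcases h4 n with h | h | h
  · left; rw [h, map_zero]
  · right; left; rw [h, map_one]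
  · right; right; rw [h, map_neg, map_one]

private lemma t_res (K : Subfield ℂ) [NumberField K] (hc : ∀ z ∈ K, star z ∈ K)
    (P : Ideal (𝓞 (realSub K))) (hP : Nat.card (𝓞 (realSub K) ⧸ P) = 3) (y : 𝓞 K) :
    y + RingOfIntegers.mapRingHom (conjHom K hc) y ∈ P.map (algebraMap (𝓞 (realSub K)) (𝓞 K)) ∨
    y + RingOfIntegers.mapRingHom (conjHom K hc) y - 1
      ∈ P.map (algebraMap (𝓞 (realSub K)) (𝓞 K)) ∨
    y + RingOfIntegers.mapRingHom (conjHom K hc) y + 1
      ∈ P.map (algebraMap (𝓞 (realSub K)) (𝓞 K)) := by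
  set c : 𝓞 K →+* 𝓞 K := RingOfIntegers.mapRingHom (conjHom K hc) with hcdef
  have hcc : ∀ w : K, conjHom K hc (conjHom K hc w) = w := fun w => Subtype.ext (by
    rw [conjHom_coe, conjHom_coe, star_star])
  have hreal : ∀ w : K, conjHom K hc w = w → w ∈ realSub K := by
    intro w hw
    rw [mem_realSub]
    have := congrArg Subtype.val hw
    rwa [conjHom_coe] at this
  obtain ⟨t, ht⟩ : ∃ t : 𝓞 (realSub K), algebraMap (𝓞 (realSub K)) (𝓞 K) t = y + c y := by
    have h1 : algebraMap (𝓞 K) K (y + c y) ∈ realSub K := by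
      apply hreal
      rw [map_add]
      change conjHom K hc (algebraMap (𝓞 K) K y + conjHom K hc (algebraMap (𝓞 K) K y)) = _
      rw [map_add, hcc, add_comm]
      rfl
    have h2 : IsIntegral ℤ (⟨_, h1⟩ : realSub K) := by
      have h3 : IsIntegral ℤ (algebraMap (realSub K) K (⟨_, h1⟩ : realSub K)) :=
        RingOfIntegers.isIntegral_coe (y + c y)
      exact (isIntegral_algebraMap_iff (algebraMap (realSub K) K).injective).1 h3
    refine ⟨⟨⟨_, h1⟩, h2⟩, ?_⟩
    apply RingOfIntegers.coe_injective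
    rfl
  obtain ⟨-, h3⟩ := t_card3 hP
  rcases h3 (Ideal.Quotient.mk P t) with h | h | h
  · left
    rw [← ht]
    exact Ideal.mem_map_of_mem _ (Ideal.Quotient.eq_zero_iff_mem.1 h)
  · right; left
    rw [← ht, ← map_one (algebraMap (𝓞 (realSub K)) (𝓞 K)), ← map_sub]
    refine Ideal.mem_map_of_mem _ (Ideal.Quotient.eq_zero_iff_mem.1 ?_)
    rw [map_sub, h, map_one, sub_self]
  · right; right
    rw [← ht, ← map_one (algebraMap (𝓞 (realSub K)) (𝓞 K)), ← map_add]
    refine Ideal.mem_map_of_mem _ (Ideal.Quotient.eq_zero_iff_mem.1 ?_)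
    rw [map_add, h, map_one, neg_add_cancel]

/-- If `d ≡ 1 mod 3` then no prime `P` of the real subfield `F` with `|𝓞 F / P| = 3` is inert in `K`.
Proof: let `Q = P 𝓞 K` be prime; it is stable under conjugation `c` (generated by real elements),
`k = 𝓞 K / Q` is a field of characteristic 3, `c` acts on `k`. Every `y ∈ k` satisfies
`y + c y`, `y * c y ∈ {0, 1, -1}` (images of elements of `𝓞 F`); if `c y = y` then `2 y ∈ {0, 1, -1}`,
so `y ^ 2 ∈ {0, 1}`; if `c y ≠ y` then `c y = y ^ 3` (both `y ^ 3` and ... are roots of the quadratic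
polynomial `X ^ 2 - t X + n` over the prime field). The triple products `B` with three different
indices satisfy `v_Q B = 0` (as `Q` is conjugation stable and `d + 1` is a unit at `Q`), and
`B * c B = (d + 1) ^ (-3) = -1` in `k`; so `c B ≠ B`, `B ^ 4 = -1` and `c (B ^ 2) = -B ^ 2`.
Hence `s = ∑ B ^ 2` satisfies `c s = -s`; but `s = -2 / (d + 1) ^ 3 = -1` (`sum_trip_sq`), so
`-1 = 1` in characteristic 3, a contradiction. -/
theorem three {d : ℕ} (hd : 3 ≤ d) (hd3 : d % 3 = 1) {x : Fin (d ^ 2) → (Fin d → ℂ)}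
    (hx : IsMaximalETF d x) (K : Subfield ℂ) [NumberField K] (hc : ∀ z ∈ K, star z ∈ K)
    (hT : ∀ i j k, ip (x i) (x j) * ip (x j) (x k) * ip (x k) (x i) ∈ K)
    (P : Ideal (𝓞 (realSub K))) (hP : Nat.card (𝓞 (realSub K) ⧸ P) = 3) :
    ¬ (P.map (algebraMap (𝓞 (realSub K)) (𝓞 K))).IsPrime := by
  classical
  intro hQ
  have hres := t_res K hc P hP
  set Q : Ideal (𝓞 K) := P.map (algebraMap (𝓞 (realSub K)) (𝓞 K)) with hQdef
  set c : 𝓞 K →+* 𝓞 K := RingOfIntegers.mapRingHom (conjHom K hc) with hcdef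
  have hcK : ∀ z : 𝓞 K, algebraMap (𝓞 K) K (c z) = conjHom K hc (algebraMap (𝓞 K) K z) := by
    intro z
    rfl
  have hcc : ∀ w : K, conjHom K hc (conjHom K hc w) = w := fun w => Subtype.ext (by
    rw [conjHom_coe, conjHom_coe, star_star])
  have hccO : ∀ z : 𝓞 K, c (c z) = z := by
    intro z
    apply RingOfIntegers.coe_injective
    change algebraMap (𝓞 K) K _ = algebraMap (𝓞 K) K _
    rw [hcK, hcK, hcc]
  have hcQ : ∀ z ∈ Q, c z ∈ Q := by
    intro z hz
    have h1 : Q.map c = Q := by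
      rw [hQdef, Ideal.map_map]
      congr 1
      ext t
      have := (mem_realSub K (algebraMap (𝓞 (realSub K)) (realSub K) t).1).1
        (algebraMap (𝓞 (realSub K)) (realSub K) t).2
      exact this
    rw [← h1]
    exact Ideal.mem_map_of_mem _ hz
  have h3Q : (3 : 𝓞 K) ∈ Q := by
    have h1 := (t_card3 hP).1
    have h2 : (3 : 𝓞 (realSub K)) ∈ P := by
      refine Ideal.Quotient.eq_zero_iff_mem.1 ?_
      rw [map_ofNat]
      exact h1
    have := Ideal.mem_map_of_mem (algebraMap (𝓞 (realSub K)) (𝓞 K)) h2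
    rwa [map_ofNat] at this
  have hQbot : Q ≠ ⊥ := by
    intro h
    rw [h, Ideal.mem_bot] at h3Q
    norm_num at h3Q
  have h1Q : (1 : 𝓞 K) ∉ Q := (Ideal.ne_top_iff_one _).1 hQ.ne_top
  have hQmax : Q.IsMaximal := hQ.isMaximal hQbot
  let q : HeightOneSpectrum (𝓞 K) := ⟨Q, hQ, hQbot⟩
  set v := q.valuation K with hv
  have hvQ : ∀ z : 𝓞 K, v (algebraMap (𝓞 K) K z) < 1 ↔ z ∈ Q := fun z =>
    q.valuation_lt_one_iff_mem z
  have hvle : ∀ z : 𝓞 K, v (algebraMap (𝓞 K) K z) ≤ 1 := fun z => q.valuation_le_one z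
  have hv1 : ∀ z : 𝓞 K, z ∉ Q → v (algebraMap (𝓞 K) K z) = 1 := fun z hz =>
    (q.valuation_eq_one_iff_notMem).2 hz
  -- conjugation and the valuation
  have hfrac : ∀ w : K, v w ≤ 1 → ∃ a s : 𝓞 K, s ∉ Q ∧ w * algebraMap (𝓞 K) K s
      = algebraMap (𝓞 K) K a := by
    intro w hw
    obtain ⟨a, s, has⟩ := q.exists_primeCompl_mul_eq_of_integer w hw
    exact ⟨a, s, s.2, has⟩
  have hcs : ∀ s : 𝓞 K, s ∉ Q → c s ∉ Q := by
    intro s hs h
    apply hs
    rw [← hccO s]
    exact hcQ _ h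
  have hvc : ∀ w : K, v w ≤ 1 → v (conjHom K hc w) ≤ 1 := by
    intro w hw
    obtain ⟨a, s, hs, has⟩ := hfrac w hw
    have h1 := congrArg (conjHom K hc) has
    rw [map_mul, ← hcK, ← hcK] at h1
    have h2 := congrArg v h1
    rw [map_mul, hv1 _ (hcs s hs), mul_one] at h2
    rw [h2]
    exact hvle _
  have hvc' : ∀ w : K, v w < 1 → v (conjHom K hc w) < 1 := by
    intro w hw
    obtain ⟨a, s, hs, has⟩ := hfrac w hw.le
    have h0 := congrArg v has
    rw [map_mul, hv1 _ hs, mul_one] at h0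
    have h1 := congrArg (conjHom K hc) has
    rw [map_mul, ← hcK, ← hcK] at h1
    have h2 := congrArg v h1
    rw [map_mul, hv1 _ (hcs s hs), mul_one] at h2
    rw [h2, hvQ]
    refine hcQ _ ?_
    rw [← hvQ, ← h0]
    exact hw
  have happ : ∀ w : K, v w ≤ 1 → ∃ y : 𝓞 K, v (w - algebraMap (𝓞 K) K y) < 1 := by
    intro w hw
    obtain ⟨a, s, hs, has⟩ := hfrac w hw
    obtain ⟨s', i, hi, hsi⟩ := hQmax.exists_inv hs
    refine ⟨a * s', ?_⟩
    have h1 : w - algebraMap (𝓞 K) K (a * s') = w * algebraMap (𝓞 K) K i := by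
      have h2 := congrArg (algebraMap (𝓞 K) K) hsi
      rw [map_add, map_mul, map_one] at h2
      rw [map_mul, ← has]
      linear_combination (-w) * h2
    rw [h1, map_mul, mul_comm]
    exact mul_lt_one_of_lt_of_le ((hvQ i).2 hi) hw
  -- `d + 1` is a unit
  obtain ⟨m, hm⟩ : ∃ m : ℕ, d = 3 * m + 1 := ⟨d / 3, by omega⟩
  have hDQ : (((d : 𝓞 K) + 1) ^ 3 + 1) ∈ Q := by
    have : (((d : 𝓞 K) + 1) ^ 3 + 1) = 3 * (9 * (m : 𝓞 K) ^ 3 + 18 * (m : 𝓞 K) ^ 2
        + 12 * (m : 𝓞 K) + 3) := by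
      rw [hm]; push_cast; ring
    rw [this]
    exact Q.mul_mem_right _ h3Q
  have hD1 : ((d : 𝓞 K) + 1) ∉ Q := by
    intro h
    apply h1Q
    have h1 : (((d : 𝓞 K) + 1) ^ 3) ∈ Q := Ideal.pow_mem_of_mem _ h _ (by norm_num)
    have := Q.sub_mem hDQ h1
    simpa using this
  have hd1 : ((d : ℂ) + 1) ≠ 0 := by exact_mod_cast (Nat.succ_ne_zero d)
  have hd1K : ((d : K) + 1) ≠ 0 := by exact_mod_cast (Nat.succ_ne_zero d)
  have hvd : v ((d : K) + 1) = 1 := by
    have := hv1 _ hD1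
    rwa [map_add, map_one, map_natCast] at this
  -- indices
  have hd2 : 2 ≤ d ^ 2 := by nlinarith
  have hij : (⟨0, by omega⟩ : Fin (d ^ 2)) ≠ ⟨1, by omega⟩ := by
    intro h
    have := congrArg Fin.val h
    simp at this
  set i : Fin (d ^ 2) := ⟨0, by omega⟩ with hi
  set j : Fin (d ^ 2) := ⟨1, by omega⟩ with hj
  set S := ((Finset.univ.erase i).erase j) with hS
  let B : Fin (d ^ 2) → K := fun k => ⟨trip x i j k, hT i j k⟩
  have hBB : ∀ k ∈ S, ((d : K) + 1) ^ 3 * (B k * conjHom K hc (B k)) = 1 := by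
    intro k hk
    have hkj : j ≠ k := (Finset.ne_of_mem_erase hk).symm
    have hki : k ≠ i := Finset.ne_of_mem_erase (Finset.mem_of_mem_erase hk)
    have h := trip_mul_star hx hij hkj hki
    apply Subtype.ext
    push_cast
    rw [conjHom_coe]
    change ((d : ℂ) + 1) ^ 3 * (trip x i j k * star (trip x i j k)) = 1
    rw [h]
    field_simp
  have hsum : ((d : K) + 1) ^ 3 * ∑ k ∈ S, (B k) ^ 2 = -2 := by
    apply Subtype.ext
    push_cast
    change ((d : ℂ) + 1) ^ 3 * ∑ k ∈ S, (trip x i j k) ^ 2 = -2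
    rw [hS, sum_trip_sq hx hij]
    field_simp
  have hvB : ∀ k ∈ S, v (B k) ≤ 1 := by
    intro k hk
    by_contra hlt
    push Not at hlt
    have h1 := congrArg v (hBB k hk)
    rw [map_mul, map_pow, hvd, one_pow, one_mul, map_mul, map_one] at h1
    have h2 : v (conjHom K hc (B k)) ≤ 1 := by
      by_contra hlt2
      push Not at hlt2
      have := one_lt_mul'' hlt hlt2
      rw [h1] at this
      exact lt_irrefl _ this
    have h3 := hvc _ h2
    rw [hcc] at h3
    exact absurd h3 (not_le.2 hlt)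
  -- integral approximations
  have hex : ∀ k, ∃ y : 𝓞 K, k ∈ S → v (B k - algebraMap (𝓞 K) K y) < 1 := by
    intro k
    by_cases hk : k ∈ S
    · obtain ⟨y, hy⟩ := happ _ (hvB k hk)
      exact ⟨y, fun _ => hy⟩
    · exact ⟨0, fun h => absurd h hk⟩
  choose b hb using hex
  have hprod : ∀ k ∈ S, ((d : 𝓞 K) + 1) ^ 3 * (b k * c (b k)) - 1 ∈ Q := by
    intro k hk
    rw [← hvQ]
    have e1 : algebraMap (𝓞 K) K (((d : 𝓞 K) + 1) ^ 3 * (b k * c (b k)) - 1)
        = ((d : K) + 1) ^ 3 * (-(B k - algebraMap (𝓞 K) K (b k)) * algebraMap (𝓞 K) K (c (b k))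
          - B k * conjHom K hc (B k - algebraMap (𝓞 K) K (b k))) := by
      have h1 := hBB k hk
      rw [map_sub, map_mul, map_mul, map_pow, map_add, map_one, map_natCast, map_sub, ← hcK]
      linear_combination h1
    rw [e1, map_mul, map_pow, hvd, one_pow, one_mul]
    refine Valuation.map_sub_lt _ ?_ ?_
    · rw [map_mul, Valuation.map_neg]
      exact mul_lt_one_of_lt_of_le (hb k hk) (hvle _)
    · rw [map_mul, mul_comm]
      exact mul_lt_one_of_lt_of_le (hvc' _ (hb k hk)) (hvB k hk)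
  have hsumQ : ((d : 𝓞 K) + 1) ^ 3 * ∑ k ∈ S, (b k) ^ 2 + 2 ∈ Q := by
    rw [← hvQ]
    have e1 : algebraMap (𝓞 K) K (((d : 𝓞 K) + 1) ^ 3 * ∑ k ∈ S, (b k) ^ 2 + 2)
        = ((d : K) + 1) ^ 3 * (∑ k ∈ S, ((algebraMap (𝓞 K) K (b k)) ^ 2 - (B k) ^ 2)) := by
      rw [Finset.sum_sub_distrib, mul_sub, hsum, map_add, map_mul, map_pow, map_add, map_one,
        map_natCast, map_sum, map_ofNat]
      simp only [map_pow]
      ring
    rw [e1, map_mul, map_pow, hvd, one_pow, one_mul]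
    refine Valuation.map_sum_lt _ one_ne_zero fun k hk => ?_
    have e2 : (algebraMap (𝓞 K) K (b k)) ^ 2 - (B k) ^ 2
        = -(B k - algebraMap (𝓞 K) K (b k)) * (B k + algebraMap (𝓞 K) K (b k)) := by ring
    rw [e2, map_mul, Valuation.map_neg]
    exact mul_lt_one_of_lt_of_le (hb k hk) (v.map_add_le (hvB k hk) (hvle _))
  -- work in the residue field
  set ρ := Ideal.Quotient.mk Q with hρ
  have hρ0 : ∀ z, ρ z = 0 ↔ z ∈ Q := fun z => Ideal.Quotient.eq_zero_iff_mem
  have h30 : (3 : 𝓞 K ⧸ Q) = 0 := by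
    have := (hρ0 3).2 h3Q
    rwa [map_ofNat] at this
  have h10 : (1 : 𝓞 K ⧸ Q) ≠ 0 := by
    intro h
    exact h1Q ((hρ0 1).1 (by rw [map_one]; exact h))
  have hD : ρ (((d : 𝓞 K) + 1) ^ 3) = -1 := by
    have := (hρ0 _).2 hDQ
    rw [map_add, map_one] at this
    exact eq_neg_of_add_eq_zero_left this
  have key : ∀ k ∈ S, ρ (b k) ^ 2 + ρ (c (b k)) ^ 2 = 0 := by
    intro k hk
    have h1 : ρ (b k) * ρ (c (b k)) = -1 := by
      have := (hρ0 _).2 (hprod k hk)
      rw [map_sub, map_mul, hD, map_one, map_mul] at this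
      linear_combination (-1 : 𝓞 K ⧸ Q) * this
    rcases hres (b k) with h | h | h
    · exfalso
      have h2 := (hρ0 _).2 h
      rw [map_add] at h2
      have h3 : (ρ (b k) - 1) * (ρ (b k) + 1) = 0 := by
        linear_combination ρ (b k) * h2 - h1
      have h4 : ρ (c (b k)) = ρ (b k) := by
        rcases mul_eq_zero.1 h3 with h5 | h5
        · have h6 : b k - 1 ∈ Q := (hρ0 _).1 (by rw [map_sub, map_one]; exact h5)
          have h7 := hcQ _ h6
          rw [map_sub, map_one, ← hρ0, map_sub, map_one] at h7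
          linear_combination h7 - h5
        · have h6 : b k + 1 ∈ Q := (hρ0 _).1 (by rw [map_add, map_one]; exact h5)
          have h7 := hcQ _ h6
          rw [map_add, map_one, ← hρ0, map_add, map_one] at h7
          linear_combination h7 - h5
      rw [h4] at h1 h2
      apply h10
      linear_combination h30 + ρ (b k) * h2 - (2 : 𝓞 K ⧸ Q) * h1
    · have h2 := (hρ0 _).2 h
      rw [map_sub, map_add, map_one] at h2
      linear_combination h30 + (ρ (b k) + ρ (c (b k)) + 1) * h2 - (2 : 𝓞 K ⧸ Q) * h1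
    · have h2 := (hρ0 _).2 h
      rw [map_add, map_add, map_one] at h2
      linear_combination h30 + (ρ (b k) + ρ (c (b k)) - 1) * h2 - (2 : 𝓞 K ⧸ Q) * h1
  have hs1 : (∑ k ∈ S, (b k) ^ 2) + 1 ∈ Q := by
    rw [← hρ0, map_add, map_one]
    have := (hρ0 _).2 hsumQ
    rw [map_add, map_mul, hD, map_ofNat] at this
    linear_combination h30 - this
  have hs2 : (∑ k ∈ S, (c (b k)) ^ 2) + 1 ∈ Q := by
    have := hcQ _ hs1
    rw [map_add, map_one, map_sum] at this
    simpa only [map_pow] using this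
  have hs3 : ρ (∑ k ∈ S, (b k) ^ 2) + ρ (∑ k ∈ S, (c (b k)) ^ 2) = 0 := by
    rw [map_sum, map_sum, ← Finset.sum_add_distrib]
    refine Finset.sum_eq_zero fun k hk => ?_
    rw [map_pow, map_pow]
    exact key k hk
  have h5 := (hρ0 _).2 hs1
  have h6 := (hρ0 _).2 hs2
  rw [map_add, map_one] at h5 h6
  apply h10
  linear_combination h30 + hs3 - h5 - h6

end Pool.Agent.Lib.MP_d0f9e0_co.Arith
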