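import Mathlib
import Pool.Agent.Lib.MP_d0f9e0_co.Bridge
import Pool.Agent.Lib.MP_d0f9e0_co.FieldDisc
import Pool.Agent.Lib.MP_d0f9e0_co.LevelC
import Pool.Agent.Lib.MP_d0f9e0_co.Arith.Ram
import Pool.Agent.Lib.MP_d0f9e0_co.Arith.Three
import Pool.Agent.Lib.MP_d0f9e0_co.Arith.Deg

set_option autoImplicit false

/-!
Arithmetic of maximal ETFs: the final theorem.
-/

open NumberField IsDedekindDomain

namespace Pool.Agent.Lib.MP_d0f9e0_co.Arith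

open Ramif

theorem final (d : ℕ) (hd : 3 ≤ d) (x : Fin (d ^ 2) → (Fin d → ℂ)) (hx : IsMaximalETF d x)
    (K : Subfield ℂ) [NumberField K] (hc : ∀ z ∈ K, star z ∈ K)
    (hT : ∀ i j k, ip (x i) (x j) * ip (x j) (x k) * ip (x k) (x i) ∈ K) :
    -- (1) Bruck-Ryser type theorem
    (¬ 4 ∣ Module.finrank ℚ K →
      (d % 4 = 0 ∧ IsSquare (d + 1)) ∨ (d % 4 = 1 ∧ IsSquare d) ∨
      (d % 8 = 3 ∧ ∀ p : ℕ, p.Prime → Odd (padicValNat p d) → p % 8 = 1 ∨ p % 8 = 3) ∨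
      (d % 8 = 7 ∧ ∀ p : ℕ, p.Prime → Odd (padicValNat p d) → p % 8 = 1 ∨ p % 8 = 7)) ∧
    -- (2) square roots
    (∃ z ∈ K, z ^ 2 = (-1 : ℂ) ^ (d * (d - 1) / 2) * (oddOne d : ℂ)) ∧
    -- (3) ramification only at `d`
    ((d : 𝓞 K) ∈ differentIdeal (𝓞 (realSub K)) (𝓞 K)) ∧
    -- (4) residue fields of the ramified primes
    (Odd d → ∀ Q : Ideal (𝓞 K), Q.IsPrime → differentIdeal (𝓞 (realSub K)) (𝓞 K) ≤ Q →
      (2 : 𝓞 K) ∉ Q →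
      (d % 8 = 3 → IsSquare (-2 : 𝓞 K ⧸ Q)) ∧ (d % 8 = 5 → IsSquare (-1 : 𝓞 K ⧸ Q)) ∧
        (d % 8 = 7 → IsSquare (2 : 𝓞 K ⧸ Q))) ∧
    -- (5) even ramification in the real subfield
    (d % 4 ≠ 3 → ∀ p : ℕ, p.Prime → Odd (padicValNat p (oddOne d)) →
      ∀ P : Ideal (𝓞 (realSub K)), P.IsPrime → (p : 𝓞 (realSub K)) ∈ P →
        Even (Ideal.ramificationIdx' (Ideal.span {(p : ℤ)}) P)) ∧
    -- (6) real embeddings and sums of two squares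
    IsEmpty (K →+* ℝ) ∧
    (d % 8 ∈ ({3, 4, 5, 6} : Finset ℕ) → ∃ a ∈ K, ∃ b ∈ K, a ^ 2 + b ^ 2 = (-1 : ℂ)) ∧
    -- (7) the prime three
    (d % 3 = 1 → ∀ P : Ideal (𝓞 (realSub K)), Nat.card (𝓞 (realSub K) ⧸ P) = 3 →
      ¬ (P.map (algebraMap (𝓞 (realSub K)) (𝓞 K))).IsPrime) := by
  have hcard : Fintype.card (Fin d × Fin d) = Fintype.card (Fin (d ^ 2)) := by
    simp [sq]
  let e : Fin d × Fin d ≃ Fin (d ^ 2) := Fintype.equivOfCardEq hcard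
  have h2 : ∀ i j : Fin d × Fin d, i ≠ j →
      ip (x (e i)) (x (e j)) * ip (x (e j)) (x (e i)) = 1 / ((d : ℂ) + 1) :=
    fun i j hij => ip_mul_ip hx.2 (fun h => hij (e.injective h))
  have hsq : ∃ z ∈ K, z ^ 2 = (-1 : ℂ) ^ (d * (d - 1) / 2) * (oddOne d : ℂ) := by
    obtain ⟨z, hz, h⟩ := FieldDisc.main_pairs (by omega) (fun p => x (e p)) (fun i => hx.1 _) h2 K
      (fun i j k => hT _ _ _)
    refine ⟨z, hz, h.trans ?_⟩
    congr 1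
    unfold oddOne
    split_ifs <;> push_cast <;> rfl
  have hN : d * (d + 1) / 2 + 3 ≤ d ^ 2 := by
    obtain ⟨r, rfl⟩ : ∃ r, d = r + 3 := ⟨d - 3, by omega⟩
    have : (r + 3) * (r + 3 + 1) / 2 ≤ (r + 3) ^ 2 - 3 := by
      apply Nat.div_le_of_le_mul
      have h9 : 3 ≤ (r + 3) ^ 2 := by nlinarith
      zify [h9]
      nlinarith
    have h9 : 3 ≤ (r + 3) ^ 2 := by nlinarith
    omega
  have hdiff : (d : 𝓞 K) ∈ differentIdeal (𝓞 (realSub K)) (𝓞 K) :=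
    Ramif.mem_different K hN hx.1 hx.2 hc hT
  have hnr := exists_conj_ne (by omega) hx K hc hT
  have hd0 : (d : 𝓞 K) ≠ 0 := by exact_mod_cast (show d ≠ 0 by omega)
  have hres : ∀ Q : Ideal (𝓞 K), Q.IsPrime → differentIdeal (𝓞 (realSub K)) (𝓞 K) ≤ Q →
      (2 : 𝓞 K) ∉ Q →
      (d % 8 = 3 → IsSquare (-2 : 𝓞 K ⧸ Q)) ∧ (d % 8 = 5 → IsSquare (-1 : 𝓞 K ⧸ Q)) ∧
        (d % 8 = 7 → IsSquare (2 : 𝓞 K ⧸ Q)) := by
    intro Q hQp hQ h2Q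
    have hdQ := hQ hdiff
    have hQ0 : Q ≠ ⊥ := by
      rintro rfl
      exact hd0 ((Submodule.mem_bot _).1 hdQ)
    exact ram_residue hd hx K hc hT Q hQp hQ0
      (fun i => conj_triv_of_different K hc Q hQ i) h2Q hdQ
  refine ⟨fun h4 => ?_, hsq, hdiff, fun _ => hres, fun hd4 p hp hodd P hP hpP => ?_,
    no_real_embedding (by omega) hx K hT, fun hmod => ?_, fun hd3 P hP => ?_⟩
  · exact degree hd K hc hnr hdiff hsq
      (fun Q h1 _ h3 h4 => ⟨(hres Q h1 h3 h4).1, (hres Q h1 h3 h4).2.2⟩) h4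
  · exact even_ram hd4 K hc hdiff hsq p hp hodd P hP hpP
  · have hmod' : d % 8 = 3 ∨ d % 8 = 4 ∨ d % 8 = 5 ∨ d % 8 = 6 := by
      simpa using hmod
    exact Level.main_level (by omega) (fun p => x (e p)) (fun i => hx.1 _) h2 K
      (fun i j k => hT _ _ _) hmod'
  · exact three hd hd3 hx K hc hT P hP

end Pool.Agent.Lib.MP_d0f9e0_co.Arith
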