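import Mathlib

set_option autoImplicit false

/-!
Integers represented by `a² + 2 b²` and by `2 a² - b²`.
-/

namespace Pool.Agent.Lib.MP_d0f9e0_co.Arith

/-- Multiplicative induction for sets of integers containing the squares. -/
private lemma repInduct (S : ℕ → Prop) (Q : ℕ → Prop) (h1 : S 1)
    (hmul : ∀ a b, S a → S b → S (a * b)) (hsq : ∀ a, S (a ^ 2))
    (hpr : ∀ p : ℕ, p.Prime → Q p → S p) (n : ℕ) :
    n ≠ 0 → (∀ p : ℕ, p.Prime → Odd (padicValNat p n) → Q p) → S n := by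
  induction n using Nat.recOnPosPrimePosCoprime with
  | prime_pow p k hp hk =>
    intro _ h
    have : Fact p.Prime := ⟨hp⟩
    have hv : padicValNat p (p ^ k) = k := by simp
    rcases Nat.even_or_odd k with he | ho
    · obtain ⟨r, rfl⟩ := he
      have : p ^ (r + r) = (p ^ r) ^ 2 := by ring
      rw [this]; exact hsq _
    · have hQ := h p hp (by rw [hv]; exact ho)
      obtain ⟨r, rfl⟩ := ho
      have : p ^ (2 * r + 1) = (p ^ r) ^ 2 * p := by ring
      rw [this]; exact hmul _ _ (hsq _) (hpr p hp hQ)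
  | zero => intro h0; exact absurd rfl h0
  | one => intro _ _; exact h1
  | coprime a b ha hb hab iha ihb =>
    intro _ h
    have ha0 : a ≠ 0 := by omega
    have hb0 : b ≠ 0 := by omega
    refine hmul _ _ (iha ha0 ?_) (ihb hb0 ?_)
    · intro p hp ho
      have : Fact p.Prime := ⟨hp⟩
      refine h p hp ?_
      have hpa : p ∣ a := by
        by_contra hna
        rw [padicValNat.eq_zero_of_not_dvd hna] at ho
        exact absurd ho (by decide)
      have hpb : ¬ p ∣ b := fun hpb =>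
        hp.one_lt.ne' (Nat.eq_one_of_dvd_coprimes hab hpa hpb)
      rw [padicValNat.mul ha0 hb0, padicValNat.eq_zero_of_not_dvd hpb, add_zero]
      exact ho
    · intro p hp ho
      have : Fact p.Prime := ⟨hp⟩
      refine h p hp ?_
      have hpb : p ∣ b := by
        by_contra hna
        rw [padicValNat.eq_zero_of_not_dvd hna] at ho
        exact absurd ho (by decide)
      have hpa : ¬ p ∣ a := fun hpa =>
        hp.one_lt.ne' (Nat.eq_one_of_dvd_coprimes hab hpa hpb)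
      rw [padicValNat.mul ha0 hb0, padicValNat.eq_zero_of_not_dvd hpa, zero_add]
      exact ho

/-- Thue's lemma. -/
private lemma repThue (p : ℕ) (hp : p.Prime) (x : ZMod p) :
    ∃ a b : ℤ, (a ≠ 0 ∨ b ≠ 0) ∧ a ^ 2 < p ∧ b ^ 2 < p ∧ (a : ZMod p) = x * (b : ZMod p) := by
  have : Fact p.Prime := ⟨hp⟩
  set k := Nat.sqrt p with hk
  have hk1 : p < (k + 1) * (k + 1) := Nat.lt_succ_sqrt p
  have hk2 : k * k < p := by
    rcases lt_or_eq_of_le (Nat.sqrt_le p) with h | h
    · exact h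
    · exfalso
      have h' : k * k = p := h
      have h2 : ¬ (k * k).Prime := by
        intro hpr
        rcases Nat.prime_mul_iff.mp hpr with ⟨h3, h4⟩ | ⟨h3, h4⟩
        · rw [h4] at h3; exact absurd h3 (by decide)
        · rw [h4] at h3; exact absurd h3 (by decide)
      exact h2 (h' ▸ hp)
  let f : ℕ × ℕ → ZMod p := fun ij => (ij.1 : ZMod p) - x * (ij.2 : ZMod p)
  have hcard : (Finset.univ : Finset (ZMod p)).card <
      (Finset.range (k + 1) ×ˢ Finset.range (k + 1)).card := by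
    rw [Finset.card_univ, ZMod.card, Finset.card_product, Finset.card_range]
    exact hk1
  obtain ⟨u, hu, v, hv, huv, hf⟩ := Finset.exists_ne_map_eq_of_card_lt_of_maps_to
    (f := f) hcard (fun _ _ => Finset.mem_univ _)
  obtain ⟨u1, u2⟩ := u
  obtain ⟨v1, v2⟩ := v
  simp only [Finset.mem_product, Finset.mem_range] at hu hv
  refine ⟨(u1 : ℤ) - v1, (u2 : ℤ) - v2, ?_, ?_, ?_, ?_⟩
  · by_contra hcon
    push Not at hcon
    apply huv
    have e1 : u1 = v1 := by have := hcon.1; omega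
    have e2 : u2 = v2 := by have := hcon.2; omega
    rw [e1, e2]
  · have h1 : |(u1 : ℤ) - v1| ≤ k := by rw [abs_le]; constructor <;> omega
    have h2 : ((u1 : ℤ) - v1) ^ 2 ≤ (k : ℤ) ^ 2 := by
      rw [← sq_abs]; exact pow_le_pow_left₀ (abs_nonneg _) h1 2
    have h3 : ((k : ℤ)) ^ 2 < p := by rw [sq]; exact_mod_cast hk2
    linarith
  · have h1 : |(u2 : ℤ) - v2| ≤ k := by rw [abs_le]; constructor <;> omega
    have h2 : ((u2 : ℤ) - v2) ^ 2 ≤ (k : ℤ) ^ 2 := by
      rw [← sq_abs]; exact pow_le_pow_left₀ (abs_nonneg _) h1 2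
    have h3 : ((k : ℤ)) ^ 2 < p := by rw [sq]; exact_mod_cast hk2
    linarith
  · have hf' : (u1 : ZMod p) - x * (u2 : ZMod p) = (v1 : ZMod p) - x * (v2 : ZMod p) := hf
    push_cast
    linear_combination hf'

private lemma repPrimeAdd (p : ℕ) (hp : p.Prime) (h8 : p % 8 = 1 ∨ p % 8 = 3) :
    ∃ a b : ℤ, (p : ℤ) = a ^ 2 + 2 * b ^ 2 := by
  have : Fact p.Prime := ⟨hp⟩
  have hp2 : p ≠ 2 := by rintro rfl; rcases h8 with h | h <;> exact absurd h (by decide)
  obtain ⟨x, hx⟩ := (ZMod.exists_sq_eq_neg_two_iff hp2).mpr h8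
  obtain ⟨a, b, hab, ha, hb, hc⟩ := repThue p hp x
  have hdvd : (p : ℤ) ∣ a ^ 2 + 2 * b ^ 2 := by
    rw [← ZMod.intCast_zmod_eq_zero_iff_dvd]
    push_cast
    rw [hc]
    linear_combination (-(b : ZMod p) ^ 2) * hx
  obtain ⟨c, hc'⟩ := hdvd
  have hp0 : (0 : ℤ) < p := by exact_mod_cast hp.pos
  have hpos : 0 < a ^ 2 + 2 * b ^ 2 := by
    rcases hab with h | h
    · have := sq_nonneg b; have : 0 < a ^ 2 := by positivity
      linarith [sq_nonneg b]
    · have : 0 < b ^ 2 := by positivity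
      linarith [sq_nonneg a]
  have hc1 : 0 < c := by
    by_contra hcon
    have : (p : ℤ) * c ≤ 0 := mul_nonpos_of_nonneg_of_nonpos hp0.le (by linarith)
    linarith
  have hc3 : c < 3 := by
    by_contra hcon
    have : (p : ℤ) * 3 ≤ p * c := mul_le_mul_of_nonneg_left (by linarith) hp0.le
    linarith
  have hc2 : c = 1 ∨ c = 2 := by omega
  rcases hc2 with rfl | rfl
  · exact ⟨a, b, by linarith⟩
  · have hev : Even (a ^ 2) := by
      refine ⟨p - b ^ 2, by linarith⟩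
    have hev' : Even a := by
      rw [Int.even_pow] at hev; exact hev.1
    obtain ⟨d, rfl⟩ := hev'
    exact ⟨b, d, by nlinarith⟩

/-- Proof: multiplicativity (Brahmagupta), squares, and for a prime `p = 1, 3 mod 8` Thue's lemma with a
square root of `-2` (`ZMod.exists_sq_eq_neg_two_iff`): `0 < a² + 2 b² < 3 p` is divisible by `p`. -/
theorem rep_add_two (n : ℕ) (hn : n ≠ 0)
    (h : ∀ p : ℕ, p.Prime → Odd (padicValNat p n) → p % 8 = 1 ∨ p % 8 = 3) :
    ∃ a b : ℤ, (n : ℤ) = a ^ 2 + 2 * b ^ 2 := by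
  refine repInduct (fun n => ∃ a b : ℤ, (n : ℤ) = a ^ 2 + 2 * b ^ 2)
    (fun p => p % 8 = 1 ∨ p % 8 = 3) ⟨1, 0, by norm_num⟩ ?_ ?_ repPrimeAdd n hn h
  · rintro m k ⟨a, b, h1⟩ ⟨c, d, h2⟩
    refine ⟨a * c - 2 * b * d, a * d + b * c, ?_⟩
    push_cast
    rw [h1, h2]; ring
  · intro a
    exact ⟨a, 0, by push_cast; ring⟩

private theorem s_thue (p : ℕ) (hp : p.Prime) (r : ZMod p) :
    ∃ x y : ℤ, (x ≠ 0 ∨ y ≠ 0) ∧ x ^ 2 < p ∧ y ^ 2 < p ∧ (x : ZMod p) = r * (y : ZMod p) := by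
  classical
  have : Fact p.Prime := ⟨hp⟩
  set K := Nat.sqrt p with hK
  have h1 : p < (K + 1) * (K + 1) := Nat.lt_succ_sqrt p
  have h2 : K * K < p := by
    refine lt_of_le_of_ne (Nat.sqrt_le p) ?_
    intro h
    have h3 : K ∣ p := ⟨K, h.symm⟩
    rcases (Nat.dvd_prime hp).1 h3 with h4 | h4
    · rw [h4] at h
      have := hp.one_lt
      omega
    · rw [h4] at h
      have := hp.one_lt
      nlinarith
  have hcard : Fintype.card (ZMod p) < Fintype.card (Fin (K + 1) × Fin (K + 1)) := by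
    rw [ZMod.card, Fintype.card_prod, Fintype.card_fin]
    exact h1
  obtain ⟨u, v, huv, he⟩ := Fintype.exists_ne_map_eq_of_card_lt
    (fun z : Fin (K + 1) × Fin (K + 1) => ((z.1 : ℕ) : ZMod p) - r * ((z.2 : ℕ) : ZMod p)) hcard
  have hK2 : (K : ℤ) ^ 2 < p := by
    rw [sq]; exact_mod_cast h2
  have hb : ∀ i j : Fin (K + 1), (((i : ℕ) : ℤ) - ((j : ℕ) : ℤ)) ^ 2 < p := by
    intro i j
    have hi : ((i : ℕ) : ℤ) ≤ K := by exact_mod_cast Nat.lt_succ_iff.1 i.2
    have hj : ((j : ℕ) : ℤ) ≤ K := by exact_mod_cast Nat.lt_succ_iff.1 j.2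
    have hi0 : (0 : ℤ) ≤ ((i : ℕ) : ℤ) := by positivity
    have hj0 : (0 : ℤ) ≤ ((j : ℕ) : ℤ) := by positivity
    have : (((i : ℕ) : ℤ) - ((j : ℕ) : ℤ)) ^ 2 ≤ (K : ℤ) ^ 2 := by
      apply sq_le_sq'
      · linarith
      · linarith
    linarith
  refine ⟨((u.1 : ℕ) : ℤ) - ((v.1 : ℕ) : ℤ), ((u.2 : ℕ) : ℤ) - ((v.2 : ℕ) : ℤ), ?_, hb _ _, hb _ _, ?_⟩
  · by_contra hcon
    push Not at hcon
    apply huv
    apply Prod.ext
    · apply Fin.ext
      have := hcon.1
      omega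
    · apply Fin.ext
      have := hcon.2
      omega
  · push_cast
    linear_combination he

private theorem s_irr (x y : ℤ) (h : x ^ 2 = 2 * y ^ 2) : x = 0 ∧ y = 0 := by
  by_cases hy : y = 0
  · subst hy
    constructor
    · have : x ^ 2 = 0 := by rw [h]; ring
      exact pow_eq_zero_iff (two_ne_zero) |>.1 this
    · rfl
  · exfalso
    have h2 : Irrational (Real.sqrt 2) := irrational_sqrt_two
    have hy' : (y : ℝ) ≠ 0 := by exact_mod_cast hy
    have h3 : ((x : ℝ) / y) ^ 2 = 2 := by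
      rw [div_pow, div_eq_iff (pow_ne_zero 2 hy')]
      exact_mod_cast h
    have h4 : |(x : ℝ) / y| = Real.sqrt 2 := by
      rw [← h3, Real.sqrt_sq_eq_abs]
    apply h2
    refine ⟨|(x : ℚ) / y|, ?_⟩
    rw [← h4]
    push_cast
    rfl

private theorem s_prime (p : ℕ) (hp : p.Prime) (h : p % 8 = 1 ∨ p % 8 = 7) :
    ∃ x y : ℤ, (p : ℤ) = x ^ 2 - 2 * y ^ 2 := by
  have : Fact p.Prime := ⟨hp⟩
  have hp2 : p ≠ 2 := by rintro rfl; omega
  obtain ⟨r, hr⟩ := (ZMod.exists_sq_eq_two_iff hp2).2 h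
  obtain ⟨x, y, h0, hx, hy, hxy⟩ := s_thue p hp r
  have hd : (p : ℤ) ∣ x ^ 2 - 2 * y ^ 2 := by
    rw [← ZMod.intCast_zmod_eq_zero_iff_dvd]
    push_cast
    rw [hxy, hr]
    ring
  obtain ⟨c, hc⟩ := hd
  have hx0 : 0 ≤ x ^ 2 := sq_nonneg x
  have hy0 : 0 ≤ y ^ 2 := sq_nonneg y
  have hp0 : (0 : ℤ) < p := by exact_mod_cast hp.pos
  have hc1 : c < 1 := by
    by_contra hcon
    push Not at hcon
    nlinarith
  have hc2 : -2 < c := by
    by_contra hcon
    push Not at hcon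
    nlinarith
  have hc0 : c ≠ 0 := by
    rintro rfl
    have := s_irr x y (by linarith)
    rcases h0 with h0 | h0
    · exact h0 this.1
    · exact h0 this.2
  have hcm : c = -1 := by omega
  subst hcm
  refine ⟨2 * y - x, x - y, ?_⟩
  linear_combination hc

private theorem s_comp (s : ℕ) : s ≠ 0 → (∀ p : ℕ, p.Prime → p ∣ s → p % 8 = 1 ∨ p % 8 = 7) →
    ∃ x y : ℤ, (s : ℤ) = x ^ 2 - 2 * y ^ 2 := by
  induction s using induction_on_primes with
  | zero => intro h; exact absurd rfl h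
  | one => intro _ _; exact ⟨1, 0, by norm_num⟩
  | prime_mul p a hp ih =>
    intro h0 h1
    have ha : a ≠ 0 := by rintro rfl; simp at h0
    obtain ⟨x, y, hxy⟩ := ih ha (fun q hq hqa => h1 q hq (hqa.mul_left p))
    obtain ⟨u, v, huv⟩ := s_prime p hp (h1 p hp (dvd_mul_right p a))
    refine ⟨x * u + 2 * (y * v), x * v + y * u, ?_⟩
    push_cast
    rw [hxy, huv]
    ring

/-- Proof: multiplicativity (`(2 a² - b²)` times `(2 c² - e²)` is of the form `x² - 2 y²`, which is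
`2 u² - w²` with `u = x + y`, `w = x + 2 y`), squares, and for a prime `p = 1, 7 mod 8` Thue's lemma
with a square root of `2`: `-2 p < a² - 2 b² < p`, nonzero and divisible by `p`. -/
theorem rep_two_sub (n : ℕ) (hn : n ≠ 0)
    (h : ∀ p : ℕ, p.Prime → Odd (padicValNat p n) → p % 8 = 1 ∨ p % 8 = 7) :
    ∃ a b : ℤ, (n : ℤ) = 2 * a ^ 2 - b ^ 2 := by
  obtain ⟨s, m, hm, hs⟩ := Nat.sq_mul_squarefree n
  have hm0 : m ≠ 0 := by rintro rfl; apply hn; rw [← hm]; ring
  have hs0 : s ≠ 0 := by rintro rfl; apply hn; rw [← hm]; ring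
  obtain ⟨x, y, hxy⟩ := s_comp s hs0 (by
    intro p hp hps
    have : Fact p.Prime := ⟨hp⟩
    apply h p hp
    rw [← hm, padicValNat.mul (pow_ne_zero 2 hm0) hs0, padicValNat.pow m 2]
    have h1 : padicValNat p s = 1 := by
      apply le_antisymm
      · rw [← Nat.factorization_def s hp]
        exact (Nat.squarefree_iff_factorization_le_one hs0).1 hs p
      · exact one_le_padicValNat_of_dvd hs0 hps
    rw [h1]
    exact ⟨padicValNat p m, rfl⟩)
  refine ⟨m * (x + y), m * (x + 2 * y), ?_⟩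
  rw [← hm]
  push_cast
  rw [hxy]
  ring

end Pool.Agent.Lib.MP_d0f9e0_co.Arith
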