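import Mathlib
import Pool.Agent.Lib.MP_d0f9e0_co.Arith.Deg

set_option autoImplicit false

/-!
The local form of the degree theorem.
-/

open NumberField IsDedekindDomain

namespace Pool.Agent.Lib.MP_d0f9e0_co.Arith

open Ramif

private lemma ld_isSquare (n : ℕ) (hn : n ≠ 0)
    (h : ∀ p : ℕ, p.Prime → Even (padicValNat p n)) : IsSquare n := by
  refine ⟨n.factorization.prod fun p k => p ^ (k / 2), ?_⟩
  conv_lhs => rw [← Nat.prod_factorization_pow_eq_self hn]
  rw [Finsupp.prod, Finsupp.prod, ← Finset.prod_mul_distrib]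
  refine Finset.prod_congr rfl fun p hp => ?_
  rw [← pow_add]
  congr 1
  have hpp : p.Prime := Nat.prime_of_mem_primeFactors (by simpa using hp)
  have h1 := h p hpp
  rw [← Nat.factorization_def n hpp] at h1
  obtain ⟨k, hk⟩ := h1
  omega

private lemma ld_val_nat (p : ℕ) (hp : p.Prime) (m : ℕ) (hm : m ≠ 0) (v : HeightOneSpectrum ℤ)
    (hv : v.asIdeal = Ideal.span {(p : ℤ)}) :
    v.valuation ℚ (m : ℚ) = WithZero.exp (-(padicValNat p m : ℤ)) := by
  have : Fact p.Prime := ⟨hp⟩
  obtain ⟨n, hn, h2⟩ : ∃ n, ¬ p ∣ n ∧ m = p ^ (padicValNat p m) * n := by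
    refine ⟨m / p ^ (padicValNat p m), ?_, ?_⟩
    · rw [← Nat.factorization_def m hp]
      exact Nat.not_dvd_ordCompl hp hm
    · exact (Nat.mul_div_cancel' pow_padicValNat_dvd).symm
  have h3 : v.intValuation (p : ℤ) = WithZero.exp (-1 : ℤ) :=
    v.intValuation_singleton (by exact_mod_cast hp.ne_zero) hv
  have h4 : v.intValuation (n : ℤ) = 1 := by
    rw [HeightOneSpectrum.intValuation_eq_one_iff, hv, Ideal.mem_span_singleton]
    exact_mod_cast hn
  have h5 : v.intValuation (m : ℤ) = WithZero.exp (-(padicValNat p m : ℤ)) := by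
    conv_lhs => rw [h2]
    push_cast
    rw [map_mul, map_pow, h3, h4, mul_one, ← WithZero.exp_nsmul]
    congr 1
    simp
  have h6 := v.valuation_of_algebraMap (K := ℚ) (m : ℤ)
  rw [h5] at h6
  simpa using h6

/-- A prime `P` of the real subfield of odd local degree over a prime `p` which divides the odd one of
`d`, `d + 1` to an odd power exists only in the two exceptional cases. -/
theorem local_degree {d : ℕ} (hd : 3 ≤ d) (K : Subfield ℂ) [NumberField K]
    (hc : ∀ z ∈ K, star z ∈ K)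
    (hdiff : ((d : ℕ) : 𝓞 K) ∈ differentIdeal (𝓞 (realSub K)) (𝓞 K))
    (hz : ∃ z ∈ K, z ^ 2 = (-1 : ℂ) ^ (d * (d - 1) / 2) * (oddOne d : ℂ))
    (hres : ∀ Q : Ideal (𝓞 K), Q.IsPrime → Q ≠ ⊥ →
      differentIdeal (𝓞 (realSub K)) (𝓞 K) ≤ Q → (2 : 𝓞 K) ∉ Q →
      (d % 8 = 3 → IsSquare (-2 : 𝓞 K ⧸ Q)) ∧ (d % 8 = 7 → IsSquare (2 : 𝓞 K ⧸ Q)))
    (p : ℕ) (hp : p.Prime) (hodd' : Odd (padicValNat p (oddOne d)))
    (P : Ideal (𝓞 (realSub K))) (hP : P.IsPrime) (hpP : (p : 𝓞 (realSub K)) ∈ P)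
    (hram : Odd (Ideal.ramificationIdx' (Ideal.span {(p : ℤ)}) P))
    (f : ℕ) (hf : Odd f) (hcard : Nat.card (𝓞 (realSub K) ⧸ P) = p ^ f) :
    (d % 8 = 3 ∧ (p % 8 = 1 ∨ p % 8 = 3)) ∨ (d % 8 = 7 ∧ (p % 8 = 1 ∨ p % 8 = 7)) := by
  by_cases hd4 : d % 4 = 3
  · -- d = 3 mod 4
    have hood : oddOne d = d := by
      unfold oddOne
      rw [if_neg]
      rw [Nat.even_iff]
      omega
    obtain ⟨z, hzK, hz2⟩ := hz
    have hsign : (-1 : ℂ) ^ (d * (d - 1) / 2) = -1 := by
      apply Odd.neg_one_pow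
      obtain ⟨k, hk⟩ : ∃ k, d = 4 * k + 3 := ⟨d / 4, by omega⟩
      have : d * (d - 1) / 2 = (4 * k + 3) * (2 * k + 1) := by
        subst hk
        apply Nat.div_eq_of_eq_mul_left (by norm_num)
        have : 4 * k + 3 - 1 = 4 * k + 2 := by omega
        rw [this]
        ring
      rw [this]
      exact Odd.mul ⟨2 * k + 1, by ring⟩ ⟨k, by ring⟩
    have hz' : (⟨z, hzK⟩ : K) ^ 2 = -((d : ℕ) : K) := by
      apply Subtype.ext
      push_cast
      rw [hz2, hsign, hood]
      ring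
    have hodd : Odd (padicValNat p d) := hood ▸ hodd'
    have key : (d % 8 = 3 → p % 8 = 1 ∨ p % 8 = 3) ∧ (d % 8 = 7 → p % 8 = 1 ∨ p % 8 = 7) := by
      have : Fact p.Prime := ⟨hp⟩
      have hd0 : d ≠ 0 := by omega
      have hpd : p ∣ d := by
        by_contra h
        rw [padicValNat.eq_zero_of_not_dvd h] at hodd
        simp at hodd
      have hp2 : p ≠ 2 := by
        rintro rfl
        omega
      have hpprime : Prime (p : ℤ) := Nat.prime_iff_prime_int.1 hp
      have hp0 : (p : ℤ) ≠ 0 := hpprime.ne_zero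
      let v : HeightOneSpectrum ℤ := ⟨Ideal.span {(p : ℤ)},
        (Ideal.span_singleton_prime hp0).2 hpprime, by simpa using hp0⟩
      have hPbot : P ≠ ⊥ := by
        rintro rfl
        rw [Ideal.mem_bot] at hpP
        exact hp.ne_zero (by exact_mod_cast hpP)
      let P' : HeightOneSpectrum (𝓞 (realSub K)) := ⟨P, hP, hPbot⟩
      have hlies : P'.asIdeal.LiesOver v.asIdeal := by
        constructor
        have hmax : (Ideal.span {(p : ℤ)}).IsMaximal := v.isMaximal
        refine hmax.eq_of_le ?_ ?_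
        · exact (Ideal.comap_isPrime (algebraMap ℤ (𝓞 (realSub K))) P).ne_top
        · rw [Ideal.span_le, Set.singleton_subset_iff]
          change algebraMap ℤ (𝓞 (realSub K)) (p : ℤ) ∈ P
          rw [map_natCast]
          exact hpP
      have h1 := HeightOneSpectrum.valuation_liesOver (A := ℤ) (K := ℚ)
        (B := 𝓞 (realSub K)) (realSub K) v P' ((d : ℕ) : ℚ)
      rw [ld_val_nat p hp _ hd0 v rfl, ← WithZero.exp_nsmul, map_natCast] at h1
      change WithZero.exp ((Ideal.ramificationIdx' (Ideal.span {(p : ℤ)}) P) •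
        (-(padicValNat p d : ℤ))) = _ at h1
      set n : ℤ := (Ideal.ramificationIdx' (Ideal.span {(p : ℤ)}) P) •
        (-(padicValNat p d : ℤ)) with hn
      have hnodd : Odd n := by
        rw [hn, nsmul_eq_mul]
        refine Odd.mul ?_ ?_
        · exact_mod_cast hram
        · rw [odd_neg]
          exact_mod_cast hodd
      have : P'.asIdeal.IsMaximal := P'.isMaximal
      obtain ⟨Q, hQmax, hQP⟩ :=
        Ideal.exists_maximal_ideal_liesOver_of_isIntegral (S := 𝓞 K) P'.asIdeal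
      have hQbot : Q ≠ ⊥ := Ideal.ne_bot_of_liesOver_of_ne_bot P'.ne_bot Q
      let Q' : HeightOneSpectrum (𝓞 K) := ⟨Q, hQmax.isPrime, hQbot⟩
      have : Q'.asIdeal.LiesOver P'.asIdeal := hQP
      have hle : differentIdeal (𝓞 (realSub K)) (𝓞 K) ≤ Q :=
        different_le_of_odd K d hd0 ⟨z, hzK⟩ (Or.inr hz') P' Q' ⟨n, hnodd, h1.symm⟩
      have hover : P = Q.comap (algebraMap (𝓞 (realSub K)) (𝓞 K)) := hQP.over
      have hpQ : ((p : ℕ) : 𝓞 K) ∈ Q := by
        have : (p : 𝓞 (realSub K)) ∈ Q.comap (algebraMap (𝓞 (realSub K)) (𝓞 K)) := hover ▸ hpP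
        rw [Ideal.mem_comap, map_natCast] at this
        exact this
      have h2Q : (2 : 𝓞 K) ∉ Q := by
        intro h2
        apply hQmax.ne_top
        rw [Ideal.eq_top_iff_one]
        obtain ⟨j, hj⟩ : ∃ j, p = 2 * j + 1 := by
          rcases hp.eq_two_or_odd' with h | ⟨j, hj⟩
          · exact absurd h hp2
          · exact ⟨j, hj⟩
        have h3 : (2 : 𝓞 K) * (j : 𝓞 K) ∈ Q := Q.mul_mem_right _ h2
        have h4 : ((p : ℕ) : 𝓞 K) = 2 * (j : 𝓞 K) + 1 := by
          rw [hj]; push_cast; ring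
        rw [h4] at hpQ
        have := Q.sub_mem hpQ h3
        simpa using this
      have hr := hres Q hQmax.isPrime hQbot hle h2Q
      have hcQ : Nat.card (𝓞 K ⧸ Q) = p ^ f := by
        rw [← card_quot_eq K hc Q hQmax.isPrime hQbot (conj_triv_of_different K hc Q hle) h2Q,
          ← hover, hcard]
      let _ : Field (𝓞 K ⧸ Q) := Ideal.Quotient.field Q
      have hfin : Finite (𝓞 K ⧸ Q) := by
        apply Nat.finite_of_card_ne_zero
        rw [hcQ]
        exact pow_ne_zero _ hp.ne_zero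
      constructor
      · intro hd8
        have h5 := isSquare_zmod_of_card (𝓞 K ⧸ Q) p f hf hcQ (-2) (by
          have := hr.1 hd8
          push_cast
          exact this)
        push_cast at h5
        exact (ZMod.exists_sq_eq_neg_two_iff hp2).1 h5
      · intro hd8
        have h5 := isSquare_zmod_of_card (𝓞 K ⧸ Q) p f hf hcQ 2 (by
          have := hr.2 hd8
          push_cast
          exact this)
        push_cast at h5
        exact (ZMod.exists_sq_eq_two_iff hp2).1 h5
    have h8 : d % 8 = 3 ∨ d % 8 = 7 := by omega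
    rcases h8 with h8 | h8
    · exact Or.inl ⟨h8, key.1 h8⟩
    · exact Or.inr ⟨h8, key.2 h8⟩
  · exfalso
    have := even_ram hd4 K hc hdiff hz p hp hodd' P hP hpP
    exact (Nat.not_even_iff_odd.2 hram) this

end Pool.Agent.Lib.MP_d0f9e0_co.Arith
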