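import Mathlib
import Pool.Agent.Lib.MP_d0f9e0_co.Arith.Final
import Pool.Agent.Lib.MP_d0f9e0_co.Arith.LocalDeg
import Pool.Agent.Lib.MP_d0f9e0_co.Arith.Forms

set_option autoImplicit false

/-!
The degree theorem for maximal ETFs.
-/

open NumberField IsDedekindDomain

namespace Pool.Agent.Lib.MP_d0f9e0_co.Arith

open Ramif

private lemma fd_isSquare (n : ℕ) (hn : n ≠ 0)
    (h : ∀ p : ℕ, p.Prime → Even (padicValNat p n)) : IsSquare n := by
  refine ⟨n.factorization.prod fun p k => p ^ (k / 2), ?_⟩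
  conv_lhs => rw [← Nat.prod_factorization_pow_eq_self hn]
  rw [Finsupp.prod, Finsupp.prod, ← Finset.prod_mul_distrib]
  refine Finset.prod_congr rfl fun p hp => ?_
  rw [← pow_add]
  congr 1
  have hpp : p.Prime := Nat.prime_of_mem_primeFactors (by simpa using hp)
  have h1 := h p hpp
  rw [← Nat.factorization_def n hpp] at h1
  obtain ⟨k, hk⟩ := h1
  omega

lemma sq_mod_eight (r : ℕ) (h : (r * r) % 2 = 1) : (r * r) % 8 = 1 := by
  have h1 : (r * r) % 8 = ((r % 8) * (r % 8)) % 8 := Nat.mul_mod r r 8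
  have h2 : (r * r) % 2 = ((r % 8) * (r % 8)) % 2 := by
    rw [← Nat.mod_mod_of_dvd (r * r) (show 2 ∣ 8 by norm_num), h1,
      Nat.mod_mod_of_dvd _ (show 2 ∣ 8 by norm_num)]
  have h3 : r % 8 < 8 := Nat.mod_lt _ (by norm_num)
  rw [h2] at h
  rw [h1]
  interval_cases h4 : r % 8 <;> simp_all

/-- elementary number theory at the end -/
theorem dimension_forms {d : ℕ} (hd : 3 ≤ d)
    (hloc : ∀ p : ℕ, p.Prime → Odd (padicValNat p (oddOne d)) →
      (d % 8 = 3 ∧ (p % 8 = 1 ∨ p % 8 = 3)) ∨ (d % 8 = 7 ∧ (p % 8 = 1 ∨ p % 8 = 7))) :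
    (d % 8 = 0 ∧ IsSquare (d + 1)) ∨ (d % 8 = 1 ∧ IsSquare d) ∨
    (d % 8 = 3 ∧ ∃ a b : ℤ, (d : ℤ) = a ^ 2 + 2 * b ^ 2) ∨
    (d % 8 = 7 ∧ ∃ a b : ℤ, (d : ℤ) = 2 * a ^ 2 - b ^ 2) := by
  by_cases h3 : d % 8 = 3
  · have hood : oddOne d = d := by
      unfold oddOne
      rw [if_neg]
      rw [Nat.even_iff]
      omega
    refine Or.inr (Or.inr (Or.inl ⟨h3, rep_add_two d (by omega) fun p hp hodd => ?_⟩))
    rcases hloc p hp (hood.symm ▸ hodd) with h | h
    · exact h.2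
    · omega
  by_cases h7 : d % 8 = 7
  · have hood : oddOne d = d := by
      unfold oddOne
      rw [if_neg]
      rw [Nat.even_iff]
      omega
    refine Or.inr (Or.inr (Or.inr ⟨h7, rep_two_sub d (by omega) fun p hp hodd => ?_⟩))
    rcases hloc p hp (hood.symm ▸ hodd) with h | h
    · omega
    · exact h.2
  have hm : oddOne d ≠ 0 := by
    unfold oddOne
    split_ifs <;> omega
  have hsq : IsSquare (oddOne d) := by
    apply fd_isSquare _ hm
    intro p hp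
    by_contra hne
    rw [Nat.not_even_iff_odd] at hne
    rcases hloc p hp hne with h | h <;> omega
  unfold oddOne at hsq
  split_ifs at hsq with hev
  · obtain ⟨r, hr⟩ := hsq
    have h1 : (r * r) % 8 = 1 := sq_mod_eight r (by
      rw [← hr]
      rw [Nat.even_iff] at hev
      omega)
    rw [← hr] at h1
    exact Or.inl ⟨by omega, r, hr⟩
  · obtain ⟨r, hr⟩ := hsq
    rw [Nat.not_even_iff_odd, Nat.odd_iff] at hev
    have h1 : (r * r) % 8 = 1 := sq_mod_eight r (by rw [← hr]; exact hev)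
    rw [← hr] at h1
    exact Or.inr (Or.inl ⟨h1, r, hr⟩)

/-- the local theorem for maximal ETFs -/
theorem local_degree_etf (d : ℕ) (hd : 3 ≤ d) (x : Fin (d ^ 2) → (Fin d → ℂ))
    (hx : IsMaximalETF d x) (K : Subfield ℂ) [NumberField K] (hc : ∀ z ∈ K, star z ∈ K)
    (hT : ∀ i j k, ip (x i) (x j) * ip (x j) (x k) * ip (x k) (x i) ∈ K)
    (p : ℕ) (hp : p.Prime) (hodd : Odd (padicValNat p (oddOne d)))
    (P : Ideal (𝓞 (realSub K))) (hP : P.IsPrime) (hpP : (p : 𝓞 (realSub K)) ∈ P)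
    (hram : Odd (Ideal.ramificationIdx' (Ideal.span {(p : ℤ)}) P))
    (f : ℕ) (hf : Odd f) (hcard : Nat.card (𝓞 (realSub K) ⧸ P) = p ^ f) :
    (d % 8 = 3 ∧ (p % 8 = 1 ∨ p % 8 = 3)) ∨ (d % 8 = 7 ∧ (p % 8 = 1 ∨ p % 8 = 7)) := by
  obtain ⟨-, hz, hdiff, hres, -, -, -, -⟩ := final d hd x hx K hc hT
  refine local_degree hd K hc hdiff hz (fun Q h1 _ h3 h4 => ⟨fun h8 => ?_, fun h8 => ?_⟩)
    p hp hodd P hP hpP hram f hf hcard
  · exact (hres (by rw [Nat.odd_iff]; omega) Q h1 h3 h4).1 h8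
  · exact (hres (by rw [Nat.odd_iff]; omega) Q h1 h3 h4).2.2 h8

/-- the degree theorem -/
theorem degree_etf (d : ℕ) (hd : 3 ≤ d) (x : Fin (d ^ 2) → (Fin d → ℂ))
    (hx : IsMaximalETF d x) (K : Subfield ℂ) [NumberField K] (hc : ∀ z ∈ K, star z ∈ K)
    (hT : ∀ i j k, ip (x i) (x j) * ip (x j) (x k) * ip (x k) (x i) ∈ K)
    (h4 : ¬ 4 ∣ Module.finrank ℚ K ∨ ∀ p : ℕ, p.Prime → p ∣ d * (d + 1) →
      ∃ P : Ideal (𝓞 (realSub K)), P.IsPrime ∧ (p : 𝓞 (realSub K)) ∈ P ∧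
        Odd (Ideal.ramificationIdx' (Ideal.span {(p : ℤ)}) P) ∧
        Odd (Ideal.inertiaDeg' (Ideal.span {(p : ℤ)}) P)) :
    (d % 8 = 0 ∧ IsSquare (d + 1)) ∨ (d % 8 = 1 ∧ IsSquare d) ∨
    (d % 8 = 3 ∧ ∃ a b : ℤ, (d : ℤ) = a ^ 2 + 2 * b ^ 2) ∨
    (d % 8 = 7 ∧ ∃ a b : ℤ, (d : ℤ) = 2 * a ^ 2 - b ^ 2) := by
  have hnr := exists_conj_ne (by omega) hx K hc hT
  refine dimension_forms hd fun p hp hodd => ?_
  rcases h4 with h4 | h4
  · have hF : Odd (Module.finrank ℚ (realSub K)) := by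
      have h1 := Module.finrank_mul_finrank ℚ (realSub K) K
      rw [finrank_two K hc hnr] at h1
      rw [← Nat.not_even_iff_odd]
      rintro ⟨j, hj⟩
      apply h4
      exact ⟨j, by omega⟩
    obtain ⟨P, hP, hpP, hram, f, hf, hcard⟩ := exists_odd_prime (realSub K) hF p hp
    exact local_degree_etf d hd x hx K hc hT p hp hodd P hP hpP hram f hf hcard
  · have hpm : p ∣ oddOne d := by
      by_contra h
      rw [padicValNat.eq_zero_of_not_dvd h] at hodd
      simp at hodd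
    have hpd : p ∣ d * (d + 1) := by
      unfold oddOne at hpm
      split_ifs at hpm
      · exact hpm.mul_left _
      · exact hpm.mul_right _
    obtain ⟨P, hP, hpP, hram, hf⟩ := h4 p hp hpd
    have hpZ : Prime (p : ℤ) := Nat.prime_iff_prime_int.mp hp
    have hprime : (Ideal.span {(p : ℤ)} : Ideal ℤ).IsPrime :=
      (Ideal.span_singleton_prime hpZ.ne_zero).2 hpZ
    have hmax : (Ideal.span {(p : ℤ)} : Ideal ℤ).IsMaximal :=
      hprime.isMaximal (by
        rw [Ne, Ideal.span_singleton_eq_bot]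
        exact hpZ.ne_zero)
    have hover : P.LiesOver (Ideal.span {(p : ℤ)}) := by
      constructor
      refine hmax.eq_of_le (Ideal.comap_isPrime (algebraMap ℤ (𝓞 (realSub K))) P).ne_top ?_
      rw [Ideal.span_le, Set.singleton_subset_iff]
      change algebraMap ℤ (𝓞 (realSub K)) (p : ℤ) ∈ P
      rw [map_natCast]
      exact hpP
    have hcard := Ideal.absNorm_eq_pow_inertiaDeg' P hp
    rw [Ideal.absNorm_apply, Submodule.cardQuot_apply] at hcard
    exact local_degree_etf d hd x hx K hc hT p hp hodd P hP hpP hram _ hf hcard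

end Pool.Agent.Lib.MP_d0f9e0_co.Arith
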