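import Mathlib
import Pool.Agent.Lib.MP_d0f9e0_co.Arith.FinalD
import Pool.Agent.Lib.MP_d0f9e0_co.Arith.BqA
import Pool.Agent.Lib.MP_d0f9e0_co.Arith.BqB
import Pool.Agent.Lib.MP_d0f9e0_co.Arith.BqC
import Pool.Agent.Lib.MP_d0f9e0_co.Arith.BqD
import Pool.Agent.Lib.MP_d0f9e0_co.Arith.BqE

set_option autoImplicit false

/-!
The case `d = y²` of the degree theorem.
-/

open NumberField IsDedekindDomain

namespace Pool.Agent.Lib.MP_d0f9e0_co.Arith

open Ramif

lemma card_bound {d : ℕ} (hd : 3 ≤ d) : d * (d + 1) / 2 + 3 ≤ d ^ 2 := by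
  obtain ⟨r, rfl⟩ : ∃ r, d = r + 3 := ⟨d - 3, by omega⟩
  have : (r + 3) * (r + 3 + 1) / 2 ≤ (r + 3) ^ 2 - 3 := by
    apply Nat.div_le_of_le_mul
    have h9 : 3 ≤ (r + 3) ^ 2 := by nlinarith
    zify [h9]
    nlinarith
  have h9 : 3 ≤ (r + 3) ^ 2 := by nlinarith
  omega

/-- `d + 1` is a norm from `K` to the real subfield -/
theorem exists_norm {d : ℕ} (hd : 3 ≤ d) {x : Fin (d ^ 2) → (Fin d → ℂ)}
    (hx : IsMaximalETF d x) (K : Subfield ℂ) (hc : ∀ z ∈ K, star z ∈ K)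
    (hT : ∀ i j k, ip (x i) (x j) * ip (x j) (x k) * ip (x k) (x i) ∈ K) :
    ∃ w : K, w * conjHom K hc w = (d : K) + 1 := by
  have h9 : 3 ≤ d ^ 2 := by nlinarith
  let i : Fin (d ^ 2) := ⟨0, by omega⟩
  let j : Fin (d ^ 2) := ⟨1, by omega⟩
  let k : Fin (d ^ 2) := ⟨2, by omega⟩
  have h := trip_mul_star hx (i := i) (j := j) (k := k) (by simp [i, j]) (by simp [j, k])
    (by simp [k, i])
  have hd1 : ((d : ℂ) + 1) ≠ 0 := by exact_mod_cast (Nat.succ_ne_zero d)
  refine ⟨((d : K) + 1) ^ 2 * ⟨trip x i j k, hT i j k⟩, ?_⟩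
  apply Subtype.ext
  have e1 : ((((d : K) + 1) ^ 2 * (⟨trip x i j k, hT i j k⟩ : K) *
      conjHom K hc (((d : K) + 1) ^ 2 * ⟨trip x i j k, hT i j k⟩) : K) : ℂ)
      = ((d : ℂ) + 1) ^ 2 * trip x i j k * star (((d : ℂ) + 1) ^ 2 * trip x i j k) := by
    rw [MulMemClass.coe_mul, conjHom_coe]
    rfl
  rw [e1]
  have e2 : star (((d : ℂ) + 1) ^ 2 * trip x i j k) = ((d : ℂ) + 1) ^ 2 * star (trip x i j k) := by
    simp
  rw [e2]
  have e3 : ((((d : K) + 1 : K)) : ℂ) = (d : ℂ) + 1 := by push_cast; rfl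
  rw [e3]
  calc ((d : ℂ) + 1) ^ 2 * trip x i j k * (((d : ℂ) + 1) ^ 2 * star (trip x i j k))
      = ((d : ℂ) + 1) ^ 4 * (trip x i j k * star (trip x i j k)) := by ring
    _ = (d : ℂ) + 1 := by
        rw [h]
        field_simp

theorem square_case {d y : ℕ} (hd : 3 ≤ d) (hdy : d = y ^ 2) (hy : Odd y)
    {x : Fin (d ^ 2) → (Fin d → ℂ)}
    (hx : IsMaximalETF d x) (K : Subfield ℂ) [NumberField K] (hc : ∀ z ∈ K, star z ∈ K)
    (hT : ∀ i j k, ip (x i) (x j) * ip (x j) (x k) * ip (x k) (x i) ∈ K)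
    (hF : Odd (Module.finrank ℚ (realSub K))) :
    ∃ s : ℕ, s ∣ y ∧ s % 8 = 7 ∧ ∃ u v : ℚ, (d : ℚ) + 1 = u ^ 2 + s * v ^ 2 := by
  have hdodd : Odd d := by rw [hdy]; exact hy.pow
  have hI : ((d : ℕ) : 𝓞 K) ∈ conjIdeal K hc :=
    mem_conjIdeal K (card_bound hd) hx.1 hx.2 hc hT
  obtain ⟨θ, δ, b, n, hδ, hbn, hδ0, h2⟩ := exists_theta_two K hc d hdodd hI
  have h4 := norm_mod_four δ b n hbn hδ0 h2
  have hnr := exists_conj_ne (by omega) hx K hc hT
  set c : 𝓞 K →+* 𝓞 K := RingOfIntegers.mapRingHom (conjHom K hc) with hcdef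
  have hcK : ∀ z : 𝓞 K, algebraMap (𝓞 K) K (c z) = conjHom K hc (algebraMap (𝓞 K) K z) := by
    intro z
    rfl
  have hcc : ∀ w : K, conjHom K hc (conjHom K hc w) = w := fun w => Subtype.ext (by
    rw [conjHom_coe, conjHom_coe, star_star])
  have hfix : ∀ w : realSub K, conjHom K hc (w : K) = w := by
    intro w
    have := (mem_realSub K w.1).1 w.2
    exact Subtype.ext (by rw [conjHom_coe]; exact this)
  have hreal : ∀ w : K, conjHom K hc w = w → w ∈ realSub K := by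
    intro w hw
    rw [mem_realSub]
    have := congrArg Subtype.val hw
    rwa [conjHom_coe] at this
  -- the imaginary element
  let z : K := algebraMap (𝓞 K) K (c θ - θ)
  have hz : z ^ 2 = algebraMap (realSub K) K (δ : realSub K) := by
    have := congrArg (algebraMap (𝓞 K) K) hδ
    rw [map_pow] at this
    exact this.symm
  have hzc : conjHom K hc z = -z := by
    change conjHom K hc (algebraMap (𝓞 K) K (c θ - θ)) = -algebraMap (𝓞 K) K (c θ - θ)
    rw [map_sub, map_sub, hcK, hcc]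
    ring
  have hδF : (δ : realSub K) ≠ 0 := by
    intro h
    exact hδ0 (RingOfIntegers.coe_injective (h.trans (map_zero _).symm))
  have hz0 : z ≠ 0 := by
    intro h
    rw [h, zero_pow two_ne_zero] at hz
    exact hδF ((algebraMap (realSub K) K).injective (by rw [← hz, map_zero]))
  have h2K : (2 : K) ≠ 0 := two_ne_zero
  have hzF : ∀ w : realSub K, algebraMap (realSub K) K w ≠ z := by
    intro w hw
    have h1 := hfix w
    have h3 : (w : K) = z := hw
    rw [h3, hzc] at h1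
    apply hz0
    have : 2 * z = 0 := by linear_combination -h1
    exact (mul_eq_zero.1 this).resolve_left h2K
  have hneg : Algebra.norm ℚ (δ : realSub K) < 0 :=
    norm_neg hF (finrank_two K hc hnr) (no_real_embedding (by omega) hx K hT) _ z hz hzF
  have hcast : ((Algebra.norm ℤ δ : ℤ) : ℚ) = Algebra.norm ℚ (δ : realSub K) :=
    Algebra.coe_norm_int δ
  have hN : Algebra.norm ℤ δ < 0 := by
    have : ((Algebra.norm ℤ δ : ℤ) : ℚ) < 0 := by rw [hcast]; exact hneg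
    exact_mod_cast this
  -- the norm condition
  obtain ⟨w, hw⟩ := exists_norm hd hx K hc hT
  have hw1 : (w + conjHom K hc w) / 2 ∈ realSub K := by
    apply hreal
    rw [map_div₀, map_add, hcc, map_ofNat, add_comm]
  have hw2 : (w - conjHom K hc w) / (2 * z) ∈ realSub K := by
    apply hreal
    rw [map_div₀, map_sub, hcc, map_mul, map_ofNat, hzc]
    field_simp
    ring
  set w1 : realSub K := ⟨_, hw1⟩ with hw1d
  set w2 : realSub K := ⟨_, hw2⟩ with hw2d
  have hrel : w1 ^ 2 - w2 ^ 2 * (δ : realSub K) = (d : realSub K) + 1 := by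
    apply (algebraMap (realSub K) K).injective
    rw [map_sub, map_mul, map_pow, map_pow, ← hz]
    have e1 : algebraMap (realSub K) K w1 = (w + conjHom K hc w) / 2 := rfl
    have e2 : algebraMap (realSub K) K w2 = (w - conjHom K hc w) / (2 * z) := rfl
    rw [e1, e2, map_add, map_natCast, map_one, ← hw]
    field_simp
    ring
  have hy1 : 1 ≤ y := hy.pos
  have hw20 : w2 ≠ 0 := by
    intro h0
    rw [h0] at hrel
    have h3 : w1 ^ 2 = algebraMap ℚ (realSub K) ((d : ℚ) + 1) := by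
      rw [map_add, map_natCast, map_one]
      linear_combination hrel
    have h5 := sq_of_odd_degree hF _ w1 h3
    have h6 : IsSquare ((d + 1 : ℕ) : ℚ) := by push_cast; exact h5
    rw [Rat.isSquare_natCast_iff] at h6
    obtain ⟨r, hr⟩ := h6
    rw [hdy] at hr
    have h7 : y < r := by nlinarith
    have h8 : r < y + 1 := by nlinarith
    omega
  obtain ⟨u, v, huv⟩ := norm_rep (F := realSub K) ((d : ℚ) + 1) (w1 / w2) (1 / w2)
  have hδeq : (w1 / w2) ^ 2 - algebraMap ℚ (realSub K) ((d : ℚ) + 1) * (1 / w2) ^ 2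
      = (δ : realSub K) := by
    rw [map_add, map_natCast, map_one, ← hrel]
    field_simp
    ring
  rw [hδeq, ← hcast] at huv
  have hdq : (d : ℚ) = (y : ℚ) ^ 2 := by rw [hdy]; push_cast; ring
  rw [hdq]
  refine square_arith y hy (Algebra.norm ℤ δ) hN h4 (fun p hp hpy => ?_) u v (by
    rw [huv, hdy]
    push_cast
    ring)
  refine norm_val_even δ hδ0 p hp fun P hpP => even_val_disc K hc d hI θ δ hδ hδ0 P ?_
  intro hdP
  apply P.isPrime.ne_top
  rw [Ideal.eq_top_iff_one]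
  have hcop : Nat.Coprime p d := by
    rw [hdy]
    exact Nat.Coprime.pow_right 2 ((Nat.Prime.coprime_iff_not_dvd hp).2 hpy)
  have hbez := Nat.isCoprime_iff_coprime.2 hcop
  obtain ⟨r, s, hrs⟩ := hbez
  have h1 : (1 : 𝓞 (realSub K)) = (r : 𝓞 (realSub K)) * (p : 𝓞 (realSub K))
      + (s : 𝓞 (realSub K)) * (d : 𝓞 (realSub K)) := by
    have := congrArg (fun t : ℤ => (t : 𝓞 (realSub K))) hrs
    push_cast at this
    exact this.symm
  rw [h1]
  exact P.asIdeal.add_mem (P.asIdeal.mul_mem_left _ hpP) (P.asIdeal.mul_mem_left _ hdP)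

/-- the degree theorem, final form -/
theorem degree_etf' (d : ℕ) (hd : 3 ≤ d) (x : Fin (d ^ 2) → (Fin d → ℂ))
    (hx : IsMaximalETF d x) (K : Subfield ℂ) [NumberField K] (hc : ∀ z ∈ K, star z ∈ K)
    (hT : ∀ i j k, ip (x i) (x j) * ip (x j) (x k) * ip (x k) (x i) ∈ K)
    (h4 : ¬ 4 ∣ Module.finrank ℚ K) :
    (d % 8 = 0 ∧ IsSquare (d + 1)) ∨
    (d % 8 = 1 ∧ ∃ y s : ℕ, d = y ^ 2 ∧ s ∣ y ∧ s % 8 = 7 ∧
      ∃ u v : ℚ, (d : ℚ) + 1 = u ^ 2 + s * v ^ 2) ∨
    (d % 8 = 3 ∧ ∃ a b : ℤ, (d : ℤ) = a ^ 2 + 2 * b ^ 2) ∨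
    (d % 8 = 7 ∧ ∃ a b : ℤ, (d : ℤ) = 2 * a ^ 2 - b ^ 2) := by
  rcases degree_etf d hd x hx K hc hT (Or.inl h4) with h | ⟨h1, y, hy⟩ | h | h
  · exact Or.inl h
  · refine Or.inr (Or.inl ⟨h1, y, ?_⟩)
    have hdy : d = y ^ 2 := by rw [hy, sq]
    have hyo : Odd y := by
      by_contra hne
      rw [Nat.not_odd_iff_even] at hne
      have : Even d := by rw [hy]; exact hne.mul_right y
      rw [Nat.even_iff] at this
      omega
    have hnr := exists_conj_ne (by omega) hx K hc hT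
    have hF : Odd (Module.finrank ℚ (realSub K)) := by
      have h1 := Module.finrank_mul_finrank ℚ (realSub K) K
      rw [finrank_two K hc hnr] at h1
      rw [← Nat.not_even_iff_odd]
      rintro ⟨j, hj⟩
      apply h4
      exact ⟨j, by omega⟩
    obtain ⟨s, hs1, hs2⟩ := square_case hd hdy hyo hx K hc hT hF
    exact ⟨s, hdy, hs1, hs2⟩
  · exact Or.inr (Or.inr (Or.inl h))
  · exact Or.inr (Or.inr (Or.inr h))

end Pool.Agent.Lib.MP_d0f9e0_co.Arith
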