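import Mathlib
import Pool.Agent.Lib.MP_d0f9e0_co.Level

set_option autoImplicit false

/-!
Diagonal quadratic forms, given by the multiset of their coefficients, with a totally isotropic
subspace of half the dimension.
-/

namespace Pool.Agent.Lib.MP_d0f9e0_co.Arith

open Level

variable {F : Type} [Field F]

/-- the diagonal form whose coefficients are the members of the multiset `s` has a totally isotropic
subspace of at least half the dimension -/
def HM (s : Multiset F) : Prop :=
  ∃ (ι : Type) (_ : Fintype ι) (w : ι → F), (Finset.univ : Finset ι).val.map w = s ∧ HasLag w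

theorem HM.of {ι : Type} [Fintype ι] {w : ι → F} (h : HasLag w) :
    HM ((Finset.univ : Finset ι).val.map w) :=
  ⟨ι, _, w, rfl, h⟩

omit [Field F] in
/-- two families with the same multiset of values -/
private lemma WittA_equiv {ι ι' : Type} [Fintype ι] [Fintype ι'] (w : ι → F) (w' : ι' → F)
    (h : (Finset.univ : Finset ι).val.map w = (Finset.univ : Finset ι').val.map w') :
    ∃ e : ι ≃ ι', ∀ i, w' (e i) = w i := by
  classical
  have h1 : ∀ v : F, Fintype.card {i // w i = v} = Fintype.card {i // w' i = v} := by
    intro v
    have h2 := congrArg (Multiset.count v) h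
    rw [Multiset.count_map, Multiset.count_map] at h2
    rw [Fintype.card_subtype, Fintype.card_subtype]
    simp only [eq_comm (a := v)] at h2
    exact h2
  refine ⟨(Equiv.sigmaFiberEquiv w).symm.trans
    ((Equiv.sigmaCongrRight fun v => Fintype.equivOfCardEq (h1 v)).trans (Equiv.sigmaFiberEquiv w')),
    fun i => ?_⟩
  exact (Fintype.equivOfCardEq (h1 (w i)) ⟨i, rfl⟩).2

omit [Field F] in
private lemma WittA_sum {ι ι' : Type} [Fintype ι] [Fintype ι'] (w : ι → F) (w' : ι' → F) :
    (Finset.univ : Finset (ι ⊕ ι')).val.map (Sum.elim w w') =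
      (Finset.univ : Finset ι).val.map w + (Finset.univ : Finset ι').val.map w' := by
  rw [← Finset.univ_disjSum_univ, Finset.val_disjSum, Multiset.disjSum, Multiset.map_add,
    Multiset.map_map, Multiset.map_map]
  rfl

omit [Field F] in
private lemma WittA_const (ι : Type) [Fintype ι] (a : F) :
    (Finset.univ : Finset ι).val.map (fun _ => a) = Multiset.replicate (Fintype.card ι) a := by
  rw [Multiset.map_const']
  rfl

omit [Field F] in
private lemma WittA_exists (s : Multiset F) :
    ∃ (m : ℕ) (u : Fin m → F), (Finset.univ : Finset (Fin m)).val.map u = s := by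
  induction s using Quotient.inductionOn with
  | h l =>
    refine ⟨l.length, l.get, ?_⟩
    rw [Fin.univ_val_map, List.ofFn_get]
    rfl

/-- Any index type can be used. (Two families with the same multiset of values differ by a
bijection of the index types; `HasLag.reindex`.) -/
theorem HM.hasLag {s : Multiset F} (h : HM s) {ι : Type} [Fintype ι] (w : ι → F)
    (hw : (Finset.univ : Finset ι).val.map w = s) : HasLag w := by
  obtain ⟨ι₀, _, w₀, h₀, hL⟩ := h
  obtain ⟨e, he⟩ := WittA_equiv w₀ w (h₀.trans hw.symm)
  exact hL.reindex e he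

/-- Replace a block of coefficients by an isometric one. -/
theorem HM.block {n : ℕ} {s : Multiset F} (w w' : Fin n → F) (T : (Fin n → F) →ₗ[F] (Fin n → F))
    (hT : Function.Injective T) (hw : ∀ x, ∑ i, w' i * (T x i) ^ 2 = ∑ i, w i * (x i) ^ 2)
    (h : HM ((Finset.univ : Finset (Fin n)).val.map w + s)) :
    HM ((Finset.univ : Finset (Fin n)).val.map w' + s) := by
  obtain ⟨m, u, rfl⟩ := WittA_exists s
  rw [← WittA_sum] at h ⊢
  have hL := h.hasLag (Sum.elim w u) rfl
  refine HM.of ?_
  let T' : ((Fin n ⊕ Fin m) → F) →ₗ[F] ((Fin n ⊕ Fin m) → F) :=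
    { toFun := fun x => Sum.elim (T (fun i => x (Sum.inl i))) (fun i => x (Sum.inr i))
      map_add' := by
        intro x y
        have h1 : (fun i => (x + y) (Sum.inl i)) = (fun i => x (Sum.inl i)) + (fun i => y (Sum.inl i)) := rfl
        funext i
        rcases i with i | i
        · show T (fun i => (x + y) (Sum.inl i)) i = _
          rw [h1, map_add]
          rfl
        · rfl
      map_smul' := by
        intro c x
        have h1 : (fun i => (c • x) (Sum.inl i)) = c • (fun i => x (Sum.inl i)) := rfl
        funext i
        rcases i with i | i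
        · show T (fun i => (c • x) (Sum.inl i)) i = _
          rw [h1, map_smul]
          rfl
        · rfl }
  refine hL.map T' ?_ ?_ le_rfl
  · intro x y hxy
    have h1 : T (fun i => x (Sum.inl i)) = T (fun i => y (Sum.inl i)) := by
      funext i
      exact congrFun hxy (Sum.inl i)
    have h2 := hT h1
    funext i
    rcases i with i | i
    · exact congrFun h2 i
    · exact congrFun hxy (Sum.inr i)
  · intro x
    rw [Fintype.sum_sum_type, Fintype.sum_sum_type]
    have h1 := hw (fun i => x (Sum.inl i))
    simp only [Sum.elim_inl, Sum.elim_inr]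
    rw [← h1]
    rfl

theorem HM.scaleN {s : Multiset F} {a : F} (n : ℕ) (h : HM (Multiset.replicate n a + s))
    (b t : F) (ht : t ≠ 0) (hb : b * t ^ 2 = a) : HM (Multiset.replicate n b + s) := by
  have e1 : ∀ c : F, (Finset.univ : Finset (Fin n)).val.map (fun _ => c) = Multiset.replicate n c := by
    intro c
    rw [WittA_const, Fintype.card_fin]
  rw [← e1] at h ⊢
  refine HM.block (fun _ => a) (fun _ => b) (t • LinearMap.id) ?_ ?_ h
  · intro x y hxy
    funext i
    have h1 := congrFun hxy i
    simp only [LinearMap.smul_apply, LinearMap.id_apply, Pi.smul_apply, smul_eq_mul] at h1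
    exact mul_left_cancel₀ ht h1
  · intro x
    refine Finset.sum_congr rfl fun i _ => ?_
    simp only [LinearMap.smul_apply, LinearMap.id_apply, Pi.smul_apply, smul_eq_mul]
    rw [← hb]
    ring

theorem HM.scale {s : Multiset F} {a : F} (h : HM (a ::ₘ s)) (b t : F) (ht : t ≠ 0)
    (hb : b * t ^ 2 = a) : HM (b ::ₘ s) := by
  have h1 : HM (Multiset.replicate 1 a + s) := by
    rwa [Multiset.replicate_one, Multiset.singleton_add]
  have h2 := h1.scaleN 1 b t ht hb
  rwa [Multiset.replicate_one, Multiset.singleton_add] at h2

theorem HM.hypN {s : Multiset F} (n : ℕ) (h : HM s) (a : F) :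
    HM (Multiset.replicate n a + Multiset.replicate n (-a) + s) := by
  obtain ⟨m, u, rfl⟩ := WittA_exists s
  have hL := HasLag.add (ρ := Fin n) (h.hasLag u rfl) a
  have h2 := HM.of hL
  rw [WittA_sum, WittA_sum, WittA_const, WittA_const, Fintype.card_fin] at h2
  rwa [add_comm] at h2

/-- add a hyperbolic plane -/
theorem HM.hyp {s : Multiset F} (h : HM s) (a : F) : HM (a ::ₘ -a ::ₘ s) := by
  have h1 := h.hypN 1 a
  rwa [Multiset.replicate_one, Multiset.replicate_one, add_assoc, Multiset.singleton_add,
    Multiset.singleton_add] at h1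

end Pool.Agent.Lib.MP_d0f9e0_co.Arith
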