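import Mathlib
import Pool.Agent.Lib.MP_d0f9e0_co.Arith.WittA
import Pool.Agent.Lib.MP_d0f9e0_co.Arith.Iso

set_option autoImplicit false

/-!
The discriminant of a Hermitian form whose trace form is hyperbolic is a norm.
-/

open Matrix

namespace Pool.Agent.Lib.MP_d0f9e0_co.Arith

open Level

section HL

open Module

variable {F : Type} [Field F] {κ : Type} [Fintype κ]

/-- the quadratic extension `F(√-D)` -/
private abbrev HLK (D : F) : Type := QuadraticAlgebra F (-D) 0

/-- the real part of the Hermitian form -/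
private noncomputable def HLB (D : F) (a : κ → F) : LinearMap.BilinForm F (κ → HLK D) :=
  LinearMap.mk₂ F (fun x y => ∑ i, a i * ((x i).re * (y i).re + D * (x i).im * (y i).im))
    (by
      intro x x' y
      rw [← Finset.sum_add_distrib]
      refine Finset.sum_congr rfl fun i _ => ?_
      rw [Pi.add_apply, QuadraticAlgebra.re_add, QuadraticAlgebra.im_add]
      ring)
    (by
      intro c x y
      rw [smul_eq_mul, Finset.mul_sum]
      refine Finset.sum_congr rfl fun i _ => ?_
      rw [Pi.smul_apply, QuadraticAlgebra.re_smul, QuadraticAlgebra.im_smul, smul_eq_mul,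
        smul_eq_mul]
      ring)
    (by
      intro x y y'
      rw [← Finset.sum_add_distrib]
      refine Finset.sum_congr rfl fun i _ => ?_
      rw [Pi.add_apply, QuadraticAlgebra.re_add, QuadraticAlgebra.im_add]
      ring)
    (by
      intro c x y
      rw [smul_eq_mul, Finset.mul_sum]
      refine Finset.sum_congr rfl fun i _ => ?_
      rw [Pi.smul_apply, QuadraticAlgebra.re_smul, QuadraticAlgebra.im_smul, smul_eq_mul,
        smul_eq_mul]
      ring)

private lemma HLB_apply (D : F) (a : κ → F) (x y : κ → HLK D) :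
    HLB D a x y = ∑ i, a i * ((x i).re * (y i).re + D * (x i).im * (y i).im) := rfl

private lemma HLB_symm (D : F) (a : κ → F) (x y : κ → HLK D) : HLB D a x y = HLB D a y x := by
  rw [HLB_apply, HLB_apply]
  refine Finset.sum_congr rfl fun i _ => ?_
  ring

private lemma HLB_smul (D : F) (a : κ → F) (q : HLK D) (x y : κ → HLK D) :
    HLB D a (q • x) y = HLB D a x (star q • y) := by
  rw [HLB_apply, HLB_apply]
  refine Finset.sum_congr rfl fun i _ => ?_
  congr 1
  simp only [Pi.smul_apply, smul_eq_mul, QuadraticAlgebra.re_mul, QuadraticAlgebra.im_mul,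
    QuadraticAlgebra.re_star, QuadraticAlgebra.im_star]
  ring

private lemma HLB_smul_smul (D : F) (a : κ → F) (q : HLK D) (x : κ → HLK D) :
    HLB D a (q • x) (q • x) = (q.re ^ 2 + D * q.im ^ 2) * HLB D a x x := by
  rw [HLB_apply, HLB_apply, Finset.mul_sum]
  refine Finset.sum_congr rfl fun i _ => ?_
  simp only [Pi.smul_apply, smul_eq_mul, QuadraticAlgebra.re_mul, QuadraticAlgebra.im_mul]
  ring

private lemma HLB_refl (D : F) (a : κ → F) : (HLB D a).IsRefl := by
  intro x y h
  rw [HLB_symm]
  exact h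

private lemma HL_anis {D : F} (hD : ∀ x : F, x ^ 2 ≠ -D) (z : HLK D)
    (hz : z.re * z.re + D * z.im * z.im = 0) : z = 0 := by
  have him : z.im = 0 := by
    by_contra h
    apply hD (z.re / z.im)
    field_simp
    linear_combination hz
  have hre : z.re = 0 := by
    rw [him] at hz
    simpa using hz
  exact QuadraticAlgebra.ext hre him

private lemma HLB_nondeg {D : F} (hD : ∀ x : F, x ^ 2 ≠ -D) (a : κ → F) (ha : ∀ i, a i ≠ 0) :
    (HLB D a).Nondegenerate := by
  classical
  have key : ∀ x, (∀ y, HLB D a x y = 0) → x = 0 := by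
    intro x hx
    funext i
    have h1 := hx (Pi.single i (x i))
    rw [HLB_apply, Finset.sum_eq_single i] at h1
    · rw [Pi.single_eq_same] at h1
      exact HL_anis hD _ ((mul_eq_zero.1 h1).resolve_left (ha i))
    · intro j _ hj
      rw [Pi.single_eq_of_ne hj]
      simp
    · intro hi
      exact absurd (Finset.mem_univ i) hi
  refine ⟨key, fun y hy => key y fun x => ?_⟩
  rw [HLB_symm]
  exact hy x

/-- a maximal totally isotropic `K'`-subspace has half the dimension -/
private theorem HL_max {D : F} (h2 : (2 : F) ≠ 0) (hD : ∀ x : F, x ^ 2 ≠ -D)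
    [Fact (∀ r : F, r ^ 2 ≠ -D + 0 * r)] (a : κ → F) (ha : ∀ i, a i ≠ 0)
    (L : Submodule F (κ → HLK D)) (hL : ∀ x ∈ L, HLB D a x x = 0)
    (hdim : Fintype.card κ ≤ finrank F L) :
    ∃ W : Submodule (HLK D) (κ → HLK D), (∀ x ∈ W, ∀ y ∈ W, HLB D a x y = 0) ∧
      2 * finrank (HLK D) W = Fintype.card κ := by
  classical
  have hnd := HLB_nondeg hD a ha
  have hrf := HLB_refl D a
  have hV : finrank F (κ → HLK D) = 2 * Fintype.card κ := by
    rw [Module.finrank_pi_fintype]
    simp [QuadraticAlgebra.finrank_eq_two, mul_comm]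
  -- polarisation
  have pol : ∀ (M : Submodule F (κ → HLK D)), (∀ x ∈ M, HLB D a x x = 0) →
      ∀ x ∈ M, ∀ y ∈ M, HLB D a x y = 0 := by
    intro M hM x hx y hy
    have h1 := hM (x + y) (M.add_mem hx hy)
    rw [map_add, LinearMap.map_add₂, LinearMap.map_add₂, hM x hx, hM y hy, HLB_symm D a y x] at h1
    have h3 : 2 * HLB D a x y = 0 := by linear_combination h1
    exact (mul_eq_zero.1 h3).resolve_left h2
  let S : Set (Submodule (HLK D) (κ → HLK D)) := {W | ∀ x ∈ W, HLB D a x x = 0}
  have hS : S.Nonempty := ⟨⊥, by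
    intro x hx
    rw [Submodule.mem_bot] at hx
    subst hx
    simp⟩
  have hfin : ∀ W : Submodule (HLK D) (κ → HLK D),
      finrank F (W.restrictScalars F) ≤ 2 * Fintype.card κ := by
    intro W
    rw [← hV]
    exact Submodule.finrank_le _
  obtain ⟨W, hWS, hWmax⟩ : ∃ W ∈ S, ∀ W' ∈ S, W ≤ W' → W' = W := by
    obtain ⟨n, hn⟩ : ∃ n, (∃ W ∈ S, finrank F (W.restrictScalars F) = n) ∧
        ∀ m, (∃ W ∈ S, finrank F (W.restrictScalars F) = m) → m ≤ n := by
      have hbd : ∃ b, ∀ m, (∃ W ∈ S, finrank F (W.restrictScalars F) = m) → m ≤ b :=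
        ⟨2 * Fintype.card κ, by rintro m ⟨W, -, rfl⟩; exact hfin W⟩
      have hne : ∃ m, ∃ W ∈ S, finrank F (W.restrictScalars F) = m :=
        ⟨_, hS.choose, hS.choose_spec, rfl⟩
      obtain ⟨b, hb⟩ := hbd
      exact ⟨Nat.findGreatest (fun m => ∃ W ∈ S, finrank F (W.restrictScalars F) = m) b,
        Nat.findGreatest_spec (P := fun m => ∃ W ∈ S, finrank F (W.restrictScalars F) = m)
          (hb _ hne.choose_spec) hne.choose_spec,
        fun m hm => Nat.le_findGreatest (hb m hm) hm⟩
    obtain ⟨⟨W, hW, hWn⟩, hmax⟩ := hn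
    refine ⟨W, hW, fun W' hW' hle => ?_⟩
    have h1 : W.restrictScalars F ≤ W'.restrictScalars F := hle
    have h3 := hmax _ ⟨W', hW', rfl⟩
    have h4 : W.restrictScalars F = W'.restrictScalars F :=
      Submodule.eq_of_le_of_finrank_le h1 (by rw [hWn]; exact h3)
    ext x
    have := SetLike.ext_iff.1 h4 x
    simpa using this.symm
  set W' := W.restrictScalars F with hW'
  have hWiso : ∀ x ∈ W', HLB D a x x = 0 := hWS
  have hWpol := pol W' hWiso
  -- isotropic vectors orthogonal to W lie in W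
  have hmem : ∀ x ∈ (HLB D a).orthogonal W', HLB D a x x = 0 → x ∈ W' := by
    intro x hx hxx
    have hx' : ∀ w ∈ W, HLB D a w x = 0 := fun w hw => hx w hw
    have h1 : W ⊔ Submodule.span (HLK D) {x} ∈ S := by
      intro z hz
      obtain ⟨w, hw, u, hu, rfl⟩ := Submodule.mem_sup.1 hz
      obtain ⟨q, rfl⟩ := Submodule.mem_span_singleton.1 hu
      have e1 : HLB D a w (q • x) = 0 := by
        rw [HLB_symm, HLB_smul, HLB_symm]
        exact hx' _ (W.smul_mem _ hw)
      rw [map_add, LinearMap.map_add₂, LinearMap.map_add₂, hWS w hw, HLB_smul_smul, hxx,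
        HLB_symm D a (q • x) w, e1]
      ring
    have h3 := hWmax _ h1 le_sup_left
    have : x ∈ W ⊔ Submodule.span (HLK D) {x} :=
      Submodule.mem_sup_right (Submodule.mem_span_singleton_self x)
    rw [h3] at this
    exact this
  -- dimension count
  have hLpol := pol L hL
  have h3 : L ⊓ (HLB D a).orthogonal W' = L ⊓ W' := by
    apply le_antisymm
    · intro x hx
      exact ⟨hx.1, hmem x hx.2 (hL x hx.1)⟩
    · intro x hx
      exact ⟨hx.1, fun w hw => hWpol w hw x hx.2⟩
  have h4 : L ⊔ (HLB D a).orthogonal W' ≤ (HLB D a).orthogonal (L ⊓ W') := by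
    refine sup_le (fun x hx y hy => hLpol y hy.1 x hx) (fun x hx y hy => hx y hy.2)
  have h5 := Submodule.finrank_sup_add_finrank_inf_eq L ((HLB D a).orthogonal W')
  have h6 := Submodule.finrank_mono h4
  have h7 := LinearMap.BilinForm.finrank_orthogonal hnd (L ⊓ W')
  have h8 := LinearMap.BilinForm.finrank_orthogonal hnd W'
  have h9 : finrank F (L ⊓ W' : Submodule F _) ≤ finrank F (κ → HLK D) := Submodule.finrank_le _
  have h10 : finrank F W' ≤ finrank F (κ → HLK D) := Submodule.finrank_le _
  have h11 : W' ≤ (HLB D a).orthogonal W' := fun x hx y hy => hWpol y hy x hx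
  have h12 := Submodule.finrank_mono h11
  have h13 : finrank F (HLK D) * finrank (HLK D) W = finrank F W :=
    Module.finrank_mul_finrank F (HLK D) W
  rw [QuadraticAlgebra.finrank_eq_two] at h13
  have h14 : finrank F W = finrank F W' := rfl
  rw [h3] at h5
  rw [hV] at h7 h8 h9 h10
  refine ⟨W, fun x hx y hy => hWpol x hx y hy, ?_⟩
  omega

/-- the coefficients as elements of `K'` -/
private noncomputable def HLc (D : F) (c : κ → F) (i : κ) : HLK D := ⟨c i, 0⟩

/-- the Hermitian form vanishes on `W` -/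
private theorem HL_herm {D : F} (hD : ∀ x : F, x ^ 2 ≠ -D) (c : κ → F)
    (W : Submodule (HLK D) (κ → HLK D)) (hW : ∀ x ∈ W, ∀ y ∈ W, HLB D c x y = 0)
    (x y : κ → HLK D) (hx : x ∈ W) (hy : y ∈ W) :
    ∑ i, HLc D c i * x i * star (y i) = 0 := by
  have hD0 : D ≠ 0 := by
    intro h
    apply hD 0
    rw [h]; simp
  have hre : ∀ z : κ → HLK D, (∑ i, z i).re = ∑ i, (z i).re := by
    intro z
    exact map_sum (⟨⟨fun q : HLK D => q.re, rfl⟩, fun _ _ => rfl⟩ : HLK D →+ F) z _
  have him : ∀ z : κ → HLK D, (∑ i, z i).im = ∑ i, (z i).im := by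
    intro z
    exact map_sum (⟨⟨fun q : HLK D => q.im, rfl⟩, fun _ _ => rfl⟩ : HLK D →+ F) z _
  have h1 := hW x hx y hy
  rw [HLB_apply] at h1
  have h2 := hW (((⟨0, 1⟩ : HLK D)) • x) (W.smul_mem _ hx) y hy
  rw [HLB_apply] at h2
  apply QuadraticAlgebra.ext
  · rw [hre, QuadraticAlgebra.re_zero]
    refine Eq.trans (Finset.sum_congr rfl fun i _ => ?_) h1
    simp only [HLc, QuadraticAlgebra.re_mul, QuadraticAlgebra.im_mul,
      QuadraticAlgebra.re_star, QuadraticAlgebra.im_star]
    ring
  · rw [him, QuadraticAlgebra.im_zero]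
    have h3 : D * ∑ i, (HLc D c i * x i * star (y i)).im = 0 := by
      rw [Finset.mul_sum, ← neg_eq_zero, ← Finset.sum_neg_distrib]
      refine Eq.trans (Finset.sum_congr rfl fun i _ => ?_) h2
      simp only [HLc, Pi.smul_apply, smul_eq_mul, QuadraticAlgebra.re_mul,
        QuadraticAlgebra.im_mul, QuadraticAlgebra.re_star, QuadraticAlgebra.im_star]
      ring
    exact (mul_eq_zero.1 h3).resolve_left hD0

private theorem HL_det {D : F} [Fact (∀ r : F, r ^ 2 ≠ -D + 0 * r)] (c : κ → F)
    (S : Submodule (HLK D) (κ → HLK D))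
    (hS : ∀ x ∈ S, ∀ y ∈ S, ∑ i, HLc D c i * x i * star (y i) = 0)
    (hdim : 2 * finrank (HLK D) S = Fintype.card κ) :
    ∃ z w : HLK D, w ≠ 0 ∧
      z * star z = w * star w * ((-1) ^ (Fintype.card κ / 2) * ∏ i, HLc D c i) := by
  classical
  obtain ⟨T, hT⟩ := S.exists_isCompl
  obtain ⟨h, hh⟩ : ∃ h, Module.finrank (HLK D) S = h := ⟨_, rfl⟩
  have hsum := Submodule.finrank_add_eq_of_isCompl hT
  have hV : Module.finrank (HLK D) (κ → HLK D) = Fintype.card κ :=
    Module.finrank_fintype_fun_eq_card (HLK D)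
  have hTh : Module.finrank (HLK D) T = h := by omega
  have hcard : Fintype.card κ / 2 = h := by omega
  let bS : Module.Basis (Fin h) (HLK D) S := Module.finBasisOfFinrankEq (HLK D) S hh
  let bT : Module.Basis (Fin h) (HLK D) T := Module.finBasisOfFinrankEq (HLK D) T hTh
  let b : Module.Basis (Fin h ⊕ Fin h) (HLK D) (κ → HLK D) :=
    (bS.prod bT).map (Submodule.prodEquivOfIsCompl S T hT)
  have hbl : ∀ a, b (Sum.inl a) ∈ S := by
    intro a
    simp [b]
  have e : (Fin h ⊕ Fin h) ≃ κ := by
    apply Fintype.equivOfCardEq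
    simp only [Fintype.card_sum, Fintype.card_fin]
    omega
  let E : Matrix (Fin h ⊕ Fin h) (Fin h ⊕ Fin h) (HLK D) := Matrix.of fun a i => b a (e i)
  have hE : E.det ≠ 0 := by
    have h1 : LinearIndependent (HLK D) b := b.linearIndependent
    have h2 : LinearIndependent (HLK D)
        (fun a => (LinearEquiv.funCongrLeft (HLK D) (HLK D) e) (b a)) :=
      h1.map' _ (LinearEquiv.ker _)
    have h3 : LinearIndependent (HLK D) E.row := by
      convert h2 using 1
      ext a i <;> simp [E, Matrix.row]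
    rw [Matrix.linearIndependent_rows_iff_isUnit, Matrix.isUnit_iff_isUnit_det] at h3
    exact h3.ne_zero
  set G : Matrix (Fin h ⊕ Fin h) (Fin h ⊕ Fin h) (HLK D) :=
    E * Matrix.diagonal (fun i => HLc D c (e i)) * E.conjTranspose with hG
  have hGval : ∀ a a', G a a' = ∑ i, HLc D c i * b a i * star (b a' i) := by
    intro a a'
    rw [hG, Matrix.mul_apply, ← Equiv.sum_comp e]
    refine Finset.sum_congr rfl fun i _ => ?_
    rw [Matrix.mul_diagonal, Matrix.conjTranspose_apply]
    simp only [E, Matrix.of_apply]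
    ring
  have hstar : ∀ i, star (HLc D c i) = HLc D c i := by
    intro i
    apply QuadraticAlgebra.ext <;> simp [HLc]
  have h11 : G.toBlocks₁₁ = 0 := by
    ext1 a a'
    simp only [Matrix.toBlocks₁₁, Matrix.of_apply, Matrix.zero_apply]
    rw [hGval]
    exact hS _ (hbl a) _ (hbl a')
  have h21 : G.toBlocks₂₁ = G.toBlocks₁₂.conjTranspose := by
    ext1 a a'
    simp only [Matrix.toBlocks₂₁, Matrix.toBlocks₁₂, Matrix.of_apply, Matrix.conjTranspose_apply]
    rw [hGval, hGval, star_sum]
    refine Finset.sum_congr rfl fun i _ => ?_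
    rw [star_mul, star_mul, star_star, hstar]
    ring
  have hdet : G.det = (-1) ^ h * (G.toBlocks₁₂.det * star G.toBlocks₁₂.det) := by
    conv_lhs => rw [← Matrix.fromBlocks_toBlocks G, h11, h21]
    rw [Iso_det_block, Matrix.det_conjTranspose]
  have hdet2 : G.det = E.det * (∏ i, HLc D c i) * star E.det := by
    rw [hG, Matrix.det_mul, Matrix.det_mul, Matrix.det_diagonal, Matrix.det_conjTranspose,
      Equiv.prod_comp e]
  refine ⟨G.toBlocks₁₂.det, E.det, hE, ?_⟩
  rw [hcard]
  have h3 : ((-1 : HLK D) ^ h) * (-1) ^ h = 1 := by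
    rw [← mul_pow]; simp
  calc G.toBlocks₁₂.det * star G.toBlocks₁₂.det
      = ((-1) ^ h * (-1) ^ h) * (G.toBlocks₁₂.det * star G.toBlocks₁₂.det) := by rw [h3, one_mul]
    _ = (-1) ^ h * G.det := by rw [hdet]; ring
    _ = E.det * star E.det * ((-1) ^ h * ∏ i, HLc D c i) := by rw [hdet2]; ring

end HL

/-- Let `-D` be no square in `F`, `K' = F(√-D)`. If the trace form of the diagonal Hermitian form
`⟨c i⟩` over `K'` has an `F`-subspace of half the dimension which is totally isotropic, then the
number of the `c i` is even and the signed discriminant is a norm from `K'`.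
Proof: on `V = κ → K'` (`K' = QuadraticAlgebra F (-D) 0`, a field) let
`h x y = ∑ c i * x i * star (y i)`, `B = Re h`. Let `W` be a maximal `K'`-subspace with `h x x = 0` on
`W`. As in `Level.even_card` the vectors `x` of the `B`-orthogonal space of `W` with `h x x = 0` lie in
`W`, and a dimension count gives `finrank F L ≤ finrank F W`, so that `2 * finrank K' W = card κ`.
Take a basis of `V` containing a basis of `W`, `E` the matrix of its members; then
`E * diagonal c * Eᴴ = fromBlocks 0 X Xᴴ Y` has determinant `(-1) ^ (card κ / 2) * norm (det X)`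
(compare `iso_det` in `Arith/Iso.lean`). -/
theorem norm_of_lag {F : Type} [Field F] (h2 : (2 : F) ≠ 0) (D : F) (hD : ∀ x : F, x ^ 2 ≠ -D)
    {κ : Type} [Fintype κ] (c : κ → F) (hc : ∀ i, c i ≠ 0)
    (h : HasLag (fun p : κ × Bool => if p.2 then D * c p.1 else c p.1)) :
    Even (Fintype.card κ) ∧
      ∃ x y : F, (-1) ^ (Fintype.card κ / 2) * ∏ i, c i = x ^ 2 + D * y ^ 2 := by
  classical
  have hfact : Fact (∀ r : F, r ^ 2 ≠ -D + 0 * r) := ⟨fun r => by
    rw [zero_mul, add_zero]
    exact hD r⟩
  obtain ⟨E, _, _, _, f, hf, hd, h0⟩ := h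
  let g : E →ₗ[F] (κ → HLK D) :=
    { toFun := fun v i => ⟨f v (i, false), f v (i, true)⟩
      map_add' := by
        intro v v'
        funext i
        apply QuadraticAlgebra.ext <;> simp
      map_smul' := by
        intro a v
        funext i
        apply QuadraticAlgebra.ext <;> simp }
  have hg : Function.Injective g := by
    intro v v' hv
    apply hf
    funext p
    obtain ⟨i, b⟩ := p
    have h1 := congrFun hv i
    cases b
    · exact congrArg QuadraticAlgebra.re h1
    · exact congrArg QuadraticAlgebra.im h1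
  have hL : ∀ x ∈ LinearMap.range g, HLB D c x x = 0 := by
    rintro _ ⟨v, rfl⟩
    have h1 := h0 v
    rw [Fintype.sum_prod_type] at h1
    rw [HLB_apply]
    refine Eq.trans (Finset.sum_congr rfl fun i _ => ?_) h1
    rw [Fintype.sum_bool]
    simp only [g, LinearMap.coe_mk, AddHom.coe_mk, if_true, if_false, Bool.false_eq_true]
    ring
  have hdim : Fintype.card κ ≤ Module.finrank F (LinearMap.range g) := by
    rw [LinearMap.finrank_range_of_inj hg]
    rw [Fintype.card_prod, Fintype.card_bool] at hd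
    omega
  obtain ⟨W, hW, hWd⟩ := HL_max h2 hD c hc (LinearMap.range g) hL hdim
  obtain ⟨z, w, hw, hzw⟩ := HL_det c W (fun x hx y hy => HL_herm hD c W hW x y hx hy) hWd
  refine ⟨⟨Module.finrank (HLK D) W, by omega⟩, ?_⟩
  have hprod : (-1 : HLK D) ^ (Fintype.card κ / 2) * ∏ i, HLc D c i =
      (⟨(-1) ^ (Fintype.card κ / 2) * ∏ i, c i, 0⟩ : HLK D) := by
    have e1 : ∀ a : F, (⟨a, 0⟩ : HLK D) = algebraMap F (HLK D) a := by
      intro a
      apply QuadraticAlgebra.ext <;> simp
    have e2 : ∀ i, HLc D c i = algebraMap F (HLK D) (c i) := fun i => e1 (c i)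
    rw [e1, map_mul, map_pow, map_neg, map_one, map_prod]
    simp only [e2]
  rw [hprod] at hzw
  have hre := congrArg QuadraticAlgebra.re hzw
  simp only [QuadraticAlgebra.re_mul, QuadraticAlgebra.im_mul, QuadraticAlgebra.re_star,
    QuadraticAlgebra.im_star, zero_mul, add_zero] at hre
  set δ := (-1) ^ (Fintype.card κ / 2) * ∏ i, c i with hδ
  have hN : w.re * w.re + D * w.im * w.im ≠ 0 := fun h => hw (HL_anis hD w h)
  have hN' : w.re ^ 2 + D * w.im ^ 2 ≠ 0 := by
    intro h
    apply hN
    linear_combination h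
  have hmain : z.re ^ 2 + D * z.im ^ 2 = (w.re ^ 2 + D * w.im ^ 2) * δ := by
    linear_combination hre
  refine ⟨(z.re * w.re + D * z.im * w.im) / (w.re ^ 2 + D * w.im ^ 2),
    (z.im * w.re - z.re * w.im) / (w.re ^ 2 + D * w.im ^ 2), ?_⟩
  have h3 : δ = (z.re ^ 2 + D * z.im ^ 2) / (w.re ^ 2 + D * w.im ^ 2) := by
    rw [hmain]
    field_simp
  rw [h3]
  field_simp
  ring

/-- the version for multisets -/
theorem HM.norm {F : Type} [Field F] (h2 : (2 : F) ≠ 0) (D : F) (hD : ∀ x : F, x ^ 2 ≠ -D)
    {s : Multiset F} (hs : (0 : F) ∉ s) (h : HM (s + s.map (D * ·))) :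
    Even s.card ∧ ∃ x y : F, (-1) ^ (s.card / 2) * s.prod = x ^ 2 + D * y ^ 2 := by
  classical
  set c : Fin s.card → F := fun i => s.toList.get (i.cast (Multiset.length_toList s).symm) with hc
  have hmap : (Finset.univ : Finset (Fin s.card)).val.map c = s := by
    have h1 : List.ofFn c = s.toList := by
      apply List.ext_get
      · simp
      · intro n h1 h2
        simp [hc]
    have h3 : (Finset.univ : Finset (Fin s.card)).val.map c = (List.ofFn c : Multiset F) := by
      rw [← Fin.univ_val_map]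
    rw [h3, h1, Multiset.coe_toList]
  have hlag : HasLag (Sum.elim c (fun i => D * c i)) := by
    apply h.hasLag
    rw [← Finset.univ_disjSum_univ, Finset.val_disjSum, Multiset.disjSum, Multiset.map_add,
      Multiset.map_map, Multiset.map_map]
    have e1 : (Finset.univ : Finset (Fin s.card)).val.map
        (Sum.elim c (fun i => D * c i) ∘ Sum.inl) = s := by
      exact hmap
    have e2 : (Finset.univ : Finset (Fin s.card)).val.map
        (Sum.elim c (fun i => D * c i) ∘ Sum.inr) = s.map (D * ·) := by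
      conv_rhs => rw [← hmap, Multiset.map_map]
      rfl
    rw [e1, e2]
  have hlag2 : HasLag (fun p : Fin s.card × Bool => if p.2 then D * c p.1 else c p.1) := by
    refine hlag.reindex ((Equiv.boolProdEquivSum (Fin s.card)).symm.trans (Equiv.prodComm _ _)) ?_
    rintro (i | i) <;> simp
  have hc0 : ∀ i, c i ≠ 0 := by
    intro i hi
    apply hs
    rw [← hi, ← Multiset.mem_toList]
    exact List.get_mem _ _
  obtain ⟨h3, x, y, h4⟩ := norm_of_lag h2 D hD c hc0 hlag2
  rw [Fintype.card_fin] at h3 h4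
  refine ⟨h3, x, y, ?_⟩
  rw [← h4]
  congr 1
  conv_lhs => rw [← hmap]
  rfl

end Pool.Agent.Lib.MP_d0f9e0_co.Arith
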