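import Mathlib
import Pool.Agent.Lib.MP_d0f9e0_co.Arith.WittA

set_option autoImplicit false

/-!
Multiples of sums of squares.
-/

namespace Pool.Agent.Lib.MP_d0f9e0_co.Arith

variable {F : Type} [Field F]

private lemma wb_two {s : Multiset F} {a : F} (m x y : F) (hm : m = x ^ 2 + y ^ 2)
    (hm0 : m ≠ 0) (h : HM (Multiset.replicate 2 a + s)) :
    HM (Multiset.replicate 2 (m * a) + s) := by
  let T : (Fin 2 → F) →ₗ[F] (Fin 2 → F) :=
    { toFun := fun v => ![(x * v 0 + y * v 1) / m, (y * v 0 - x * v 1) / m]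
      map_add' := by
        intro v w
        funext i
        fin_cases i
        · simp; ring
        · simp; ring
      map_smul' := by
        intro c v
        funext i
        fin_cases i
        · simp; ring
        · simp; ring }
  have hT0 : ∀ v, T v 0 = (x * v 0 + y * v 1) / m := fun v => rfl
  have hT1 : ∀ v, T v 1 = (y * v 0 - x * v 1) / m := fun v => rfl
  have hinj : Function.Injective T := by
    have k0 : ∀ v : Fin 2 → F, v 0 = x * T v 0 + y * T v 1 := by
      intro v
      rw [hT0, hT1]
      field_simp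
      rw [hm]; ring
    have k1 : ∀ v : Fin 2 → F, v 1 = y * T v 0 - x * T v 1 := by
      intro v
      rw [hT0, hT1]
      field_simp
      rw [hm]; ring
    intro v w hvw
    funext i
    fin_cases i
    · change v 0 = w 0
      rw [k0 v, k0 w, hvw]
    · change v 1 = w 1
      rw [k1 v, k1 w, hvw]
  have key := HM.block (s := s) ![a, a] ![m * a, m * a] T hinj (by
    intro v
    simp only [Fin.sum_univ_two, hT0, hT1, Matrix.cons_val_zero, Matrix.cons_val_one]
    field_simp
    rw [hm]; ring)
  have e : ∀ c : F, (Finset.univ : Finset (Fin 2)).val.map ![c, c] = Multiset.replicate 2 c := by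
    intro c
    rw [Fin.univ_val_map]
    simp only [List.ofFn_succ, List.ofFn_zero]
    rfl
  rw [e, e] at key
  exact key h

private lemma wb_four {s : Multiset F} {a : F} (m x y z w : F)
    (hm : m = x ^ 2 + y ^ 2 + z ^ 2 + w ^ 2)
    (hm0 : m ≠ 0) (h : HM (Multiset.replicate 4 a + s)) :
    HM (Multiset.replicate 4 (m * a) + s) := by
  let T : (Fin 4 → F) →ₗ[F] (Fin 4 → F) :=
    { toFun := fun v => ![(x * v 0 - y * v 1 - z * v 2 - w * v 3) / m,
        (x * v 1 + y * v 0 + z * v 3 - w * v 2) / m,
        (x * v 2 - y * v 3 + z * v 0 + w * v 1) / m,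
        (x * v 3 + y * v 2 - z * v 1 + w * v 0) / m]
      map_add' := by
        intro v w
        funext i
        fin_cases i
        · simp; ring
        · simp; ring
        · simp; ring
        · simp; ring
      map_smul' := by
        intro c v
        funext i
        fin_cases i
        · simp; ring
        · simp; ring
        · simp; ring
        · simp; ring }
  have hT0 : ∀ v, T v 0 = (x * v 0 - y * v 1 - z * v 2 - w * v 3) / m := fun v => rfl
  have hT1 : ∀ v, T v 1 = (x * v 1 + y * v 0 + z * v 3 - w * v 2) / m := fun v => rfl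
  have hT2 : ∀ v, T v 2 = (x * v 2 - y * v 3 + z * v 0 + w * v 1) / m := fun v => rfl
  have hT3 : ∀ v, T v 3 = (x * v 3 + y * v 2 - z * v 1 + w * v 0) / m := fun v => rfl
  have hinj : Function.Injective T := by
    have k0 : ∀ v : Fin 4 → F, v 0 = x * T v 0 + y * T v 1 + z * T v 2 + w * T v 3 := by
      intro v
      rw [hT0, hT1, hT2, hT3]
      field_simp
      rw [hm]; ring
    have k1 : ∀ v : Fin 4 → F, v 1 = x * T v 1 - y * T v 0 - z * T v 3 + w * T v 2 := by
      intro v
      rw [hT0, hT1, hT2, hT3]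
      field_simp
      rw [hm]; ring
    have k2 : ∀ v : Fin 4 → F, v 2 = x * T v 2 + y * T v 3 - z * T v 0 - w * T v 1 := by
      intro v
      rw [hT0, hT1, hT2, hT3]
      field_simp
      rw [hm]; ring
    have k3 : ∀ v : Fin 4 → F, v 3 = x * T v 3 - y * T v 2 + z * T v 1 - w * T v 0 := by
      intro v
      rw [hT0, hT1, hT2, hT3]
      field_simp
      rw [hm]; ring
    intro v v' hvw
    funext i
    fin_cases i
    · change v 0 = v' 0
      rw [k0 v, k0 v', hvw]
    · change v 1 = v' 1
      rw [k1 v, k1 v', hvw]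
    · change v 2 = v' 2
      rw [k2 v, k2 v', hvw]
    · change v 3 = v' 3
      rw [k3 v, k3 v', hvw]
  have key := HM.block (s := s) ![a, a, a, a] ![m * a, m * a, m * a, m * a] T hinj (by
    intro v
    have c2 : ∀ p q r t : F, (![p, q, r, t] : Fin 4 → F) 2 = r := fun _ _ _ _ => rfl
    have c3 : ∀ p q r t : F, (![p, q, r, t] : Fin 4 → F) 3 = t := fun _ _ _ _ => rfl
    simp only [Fin.sum_univ_four, hT0, hT1, hT2, hT3, Matrix.cons_val_zero, Matrix.cons_val_one,
      c2, c3]
    field_simp
    rw [hm]; ring)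
  have e : ∀ c : F, (Finset.univ : Finset (Fin 4)).val.map ![c, c, c, c] = Multiset.replicate 4 c := by
    intro c
    rw [Fin.univ_val_map]
    simp only [List.ofFn_succ, List.ofFn_zero]
    rfl
  rw [e, e] at key
  exact key h

private lemma wb_three {s : Multiset F} {a : F} (D p q r u : F)
    (hD : D = p ^ 2 + q ^ 2 + r ^ 2) (hu : u = p ^ 2 + q ^ 2) (hD0 : D ≠ 0) (hu0 : u ≠ 0)
    (h : HM (Multiset.replicate 4 a + s)) :
    HM (a ::ₘ (D * a) ::ₘ (u * a) ::ₘ (D * (u * a)) ::ₘ s) := by
  let T : (Fin 4 → F) →ₗ[F] (Fin 4 → F) :=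
    { toFun := fun v => ![v 3, (p * v 0 + q * v 1 + r * v 2) / D, (q * v 0 - p * v 1) / u,
        (p * r * v 0 + q * r * v 1 - u * v 2) / (u * D)]
      map_add' := by
        intro v w
        funext i
        fin_cases i
        · simp
        · simp; ring
        · simp; ring
        · simp; ring
      map_smul' := by
        intro c v
        funext i
        fin_cases i
        · simp
        · simp; ring
        · simp; ring
        · simp; ring }
  have hT0 : ∀ v, T v 0 = v 3 := fun v => rfl
  have hT1 : ∀ v, T v 1 = (p * v 0 + q * v 1 + r * v 2) / D := fun v => rfl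
  have hT2 : ∀ v, T v 2 = (q * v 0 - p * v 1) / u := fun v => rfl
  have hT3 : ∀ v, T v 3 = (p * r * v 0 + q * r * v 1 - u * v 2) / (u * D) := fun v => rfl
  have hDu : D = u + r ^ 2 := by rw [hD, hu]
  have hinj : Function.Injective T := by
    have k0 : ∀ v : Fin 4 → F, v 0 = p * T v 1 + q * T v 2 + p * r * T v 3 := by
      intro v
      rw [hT1, hT2, hT3]
      field_simp
      rw [hD, hu]; ring
    have k1 : ∀ v : Fin 4 → F, v 1 = q * T v 1 - p * T v 2 + q * r * T v 3 := by
      intro v
      rw [hT1, hT2, hT3]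
      field_simp
      rw [hD, hu]; ring
    have k2 : ∀ v : Fin 4 → F, v 2 = r * T v 1 - u * T v 3 := by
      intro v
      rw [hT1, hT3]
      field_simp
      rw [hDu]; ring
    intro v v' hvw
    funext i
    fin_cases i
    · change v 0 = v' 0
      rw [k0 v, k0 v', hvw]
    · change v 1 = v' 1
      rw [k1 v, k1 v', hvw]
    · change v 2 = v' 2
      rw [k2 v, k2 v', hvw]
    · change v 3 = v' 3
      rw [← hT0 v, ← hT0 v', hvw]
  have key := HM.block (s := s) ![a, a, a, a] ![a, D * a, u * a, D * (u * a)] T hinj (by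
    intro v
    have c2 : ∀ p q r t : F, (![p, q, r, t] : Fin 4 → F) 2 = r := fun _ _ _ _ => rfl
    have c3 : ∀ p q r t : F, (![p, q, r, t] : Fin 4 → F) 3 = t := fun _ _ _ _ => rfl
    simp only [Fin.sum_univ_four, hT0, hT1, hT2, hT3, Matrix.cons_val_zero, Matrix.cons_val_one,
      c2, c3]
    field_simp
    rw [hD, hu]; ring)
  have e : ∀ c c1 c2 c3 : F, (Finset.univ : Finset (Fin 4)).val.map ![c, c1, c2, c3] =
      ((([c, c1, c2, c3] : List F)) : Multiset F) := by
    intro c c1 c2 c3
    rw [Fin.univ_val_map]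
    simp only [List.ofFn_succ, List.ofFn_zero]
    rfl
  rw [e, e] at key
  have h5 := key h
  have e5 : ((([a, D * a, u * a, D * (u * a)] : List F)) : Multiset F) + s =
      a ::ₘ (D * a) ::ₘ (u * a) ::ₘ (D * (u * a)) ::ₘ s := by
    rw [show ((([a, D * a, u * a, D * (u * a)] : List F)) : Multiset F) =
      a ::ₘ (D * a) ::ₘ (u * a) ::ₘ (D * (u * a)) ::ₘ 0 from rfl]
    simp only [Multiset.cons_add, zero_add]
  rw [e5] at h5
  exact h5

/-- `m` a sum of two squares: `⟨a, a⟩ = ⟨m a, m a⟩` -/
theorem HM.twoN {s : Multiset F} {a : F} (n : ℕ) (m x y : F) (hm : m = x ^ 2 + y ^ 2)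
    (hm0 : m ≠ 0) (h : HM (Multiset.replicate (2 * n) a + s)) :
    HM (Multiset.replicate (2 * n) (m * a) + s) := by
  induction n generalizing s with
  | zero => simpa using h
  | succ n ih =>
    have e : ∀ c : F, Multiset.replicate (2 * (n + 1)) c + s =
        Multiset.replicate 2 c + (Multiset.replicate (2 * n) c + s) := by
      intro c
      rw [show 2 * (n + 1) = 2 + 2 * n by ring, Multiset.replicate_add, add_assoc]
    rw [e] at h
    have h1 := wb_two m x y hm hm0 h
    rw [add_left_comm] at h1
    have h2 := ih h1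
    rw [add_left_comm] at h2
    rw [e]
    exact h2

/-- `m` a sum of four squares: `4⟨a⟩ = 4⟨m a⟩` -/
theorem HM.fourN {s : Multiset F} {a : F} (n : ℕ) (m x y z w : F)
    (hm : m = x ^ 2 + y ^ 2 + z ^ 2 + w ^ 2)
    (hm0 : m ≠ 0) (h : HM (Multiset.replicate (4 * n) a + s)) :
    HM (Multiset.replicate (4 * n) (m * a) + s) := by
  induction n generalizing s with
  | zero => simpa using h
  | succ n ih =>
    have e : ∀ c : F, Multiset.replicate (4 * (n + 1)) c + s =
        Multiset.replicate 4 c + (Multiset.replicate (4 * n) c + s) := by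
      intro c
      rw [show 4 * (n + 1) = 4 + 4 * n by ring, Multiset.replicate_add, add_assoc]
    rw [e] at h
    have h1 := wb_four m x y z w hm hm0 h
    rw [add_left_comm] at h1
    have h2 := ih h1
    rw [add_left_comm] at h2
    rw [e]
    exact h2

/-- The same for a positive rational integer `m` (Lagrange's theorem `Nat.sum_four_squares`). -/
theorem HM.fourN_nat [CharZero F] {s : Multiset F} {a : F} (n : ℕ) (m : ℕ) (hm0 : m ≠ 0)
    (h : HM (Multiset.replicate (4 * n) a + s)) :
    HM (Multiset.replicate (4 * n) ((m : F) * a) + s) := by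
  obtain ⟨x, y, z, w, hxyzw⟩ := Nat.sum_four_squares m
  refine HM.fourN n (m : F) x y z w ?_ (Nat.cast_ne_zero.2 hm0) h
  rw [← hxyzw]
  push_cast
  ring

/-- `D = p² + q² + r²`, `u = p² + q²`: `4⟨a⟩ = ⟨a, D a, u a, D u a⟩`. The isometry is
`y₀ = x₃`, `y₁ = (p x₀ + q x₁ + r x₂) / D`, `y₂ = (q x₀ - p x₁) / u`,
`y₃ = (p r x₀ + q r x₁ - u x₂) / (u D)`. -/
theorem HM.threeN {s : Multiset F} {a : F} (n : ℕ) (D p q r u : F)
    (hD : D = p ^ 2 + q ^ 2 + r ^ 2) (hu : u = p ^ 2 + q ^ 2) (hD0 : D ≠ 0) (hu0 : u ≠ 0)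
    (h : HM (Multiset.replicate (4 * n) a + s)) :
    HM (Multiset.replicate n a + Multiset.replicate n (D * a) +
      Multiset.replicate n (u * a) + Multiset.replicate n (D * (u * a)) + s) := by
  induction n generalizing s with
  | zero => simpa using h
  | succ n ih =>
    have e : Multiset.replicate (4 * (n + 1)) a + s =
        Multiset.replicate 4 a + (Multiset.replicate (4 * n) a + s) := by
      rw [show 4 * (n + 1) = 4 + 4 * n by ring, Multiset.replicate_add, add_assoc]
    rw [e] at h
    have h1 := wb_three D p q r u hD hu hD0 hu0 h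
    have e1 : a ::ₘ (D * a) ::ₘ (u * a) ::ₘ (D * (u * a)) ::ₘ (Multiset.replicate (4 * n) a + s) =
        Multiset.replicate (4 * n) a + (a ::ₘ (D * a) ::ₘ (u * a) ::ₘ (D * (u * a)) ::ₘ s) := by
      simp only [← Multiset.singleton_add]
      abel
    rw [e1] at h1
    have h2 := ih h1
    have e2 : Multiset.replicate (n + 1) a + Multiset.replicate (n + 1) (D * a) +
        Multiset.replicate (n + 1) (u * a) + Multiset.replicate (n + 1) (D * (u * a)) + s =
        Multiset.replicate n a + Multiset.replicate n (D * a) +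
        Multiset.replicate n (u * a) + Multiset.replicate n (D * (u * a)) +
          (a ::ₘ (D * a) ::ₘ (u * a) ::ₘ (D * (u * a)) ::ₘ s) := by
      simp only [Multiset.replicate_succ, ← Multiset.singleton_add]
      abel
    rw [e2]
    exact h2

end Pool.Agent.Lib.MP_d0f9e0_co.Arith
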