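import Mathlib
import Pool.Agent.Lib.MP_d0f9e0_co.Arith.WittB
import Pool.Agent.Lib.MP_d0f9e0_co.Arith.HermLag

set_option autoImplicit false

/-!
The case `d = 3 mod 8`.
-/

namespace Pool.Agent.Lib.MP_d0f9e0_co.Arith

/-- Elementary algebra. Proof: if `t² = 2` then `s = r = 0` and `d = p² + 2 (q / t)²`. Otherwise
`w = 2 - t²` satisfies `d w = s² + 2 r²`, `u w = s² + (r t)²`, so `w` is a sum of two squares
`α² + β²`. Then `w = x² + 2 y²` is solvable: in `F(√w)` the elements `-1` and `2` are norms,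
`-α² = β² - w`, `2 (t+1)² = (t+2)² - w`, so `-2 = P² - w R²` is solvable (if `α = 0` or `t = -1` then `w`
is a square), `R ≠ 0`, `w = (P/R)² + 2 (1/R)²`. Finally `d = (s² + 2 r²) / w`. -/
theorem alg3 {F : Type} [Field F] [CharZero F] (φ : F →+* ℝ) (d p q r s t : F)
    (hd0 : 0 < φ d) (hd : d = p ^ 2 + q ^ 2 + r ^ 2) (hu : p ^ 2 + q ^ 2 ≠ 0)
    (h : 2 * (p ^ 2 + q ^ 2) = s ^ 2 + d * t ^ 2) :
    ∃ x y : F, d = x ^ 2 + 2 * y ^ 2 := by
  have hinj : Function.Injective φ := φ.injective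
  by_cases ht : t ^ 2 = 2
  · have h1 : s ^ 2 + 2 * r ^ 2 = 0 := by
      rw [ht] at h
      linear_combination (-1 : F) * h - 2 * hd
    have h2 := congrArg φ h1
    rw [map_add, map_mul, map_pow, map_pow, map_zero, map_ofNat] at h2
    have hr : φ r = 0 := by nlinarith [sq_nonneg (φ s), sq_nonneg (φ r)]
    have hr0 : r = 0 := hinj (by rw [hr, map_zero])
    have ht0 : t ≠ 0 := by
      rintro rfl
      norm_num at ht
    refine ⟨p, q / t, ?_⟩
    rw [div_pow, ht, hd, hr0]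
    field_simp
    ring
  · obtain ⟨w, hw⟩ : ∃ w : F, w = 2 - t ^ 2 := ⟨_, rfl⟩
    have hw0 : w ≠ 0 := by
      rw [hw, sub_ne_zero]
      exact fun h' => ht h'.symm
    have hdw : d * w = s ^ 2 + 2 * r ^ 2 := by
      rw [hw]
      linear_combination (2 : F) * hd + h
    obtain ⟨u, hu'⟩ : ∃ u : F, u = p ^ 2 + q ^ 2 := ⟨_, rfl⟩
    have hu0 : u ≠ 0 := by rw [hu']; exact hu
    have huw : u * w = s ^ 2 + (r * t) ^ 2 := by
      rw [hw, hu']
      linear_combination h + t ^ 2 * hd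
    -- w = α² + β²
    obtain ⟨α, hα⟩ : ∃ α : F, α = (s * p - r * t * q) / u := ⟨_, rfl⟩
    obtain ⟨β, hβ⟩ : ∃ β : F, β = (s * q + r * t * p) / u := ⟨_, rfl⟩
    have hab : w = α ^ 2 + β ^ 2 := by
      have h3 : (α ^ 2 + β ^ 2) * u ^ 2 = (s ^ 2 + (r * t) ^ 2) * u := by
        rw [hα, hβ, div_pow, div_pow, ← add_div, div_mul_cancel₀ _ (pow_ne_zero 2 hu0), hu']
        ring
      rw [← huw] at h3
      have h4 : (α ^ 2 + β ^ 2 - w) * u ^ 2 = 0 := by linear_combination h3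
      rcases mul_eq_zero.1 h4 with h5 | h5
      · exact (sub_eq_zero.1 h5).symm
      · exact absurd h5 (pow_ne_zero 2 hu0)
    have hwxy : ∃ x y : F, w = x ^ 2 + 2 * y ^ 2 := by
      by_cases hα0 : α = 0
      · exact ⟨β, 0, by rw [hab, hα0]; ring⟩
      · by_cases ht1 : t + 1 = 0
        · refine ⟨1, 0, ?_⟩
          have : t = -1 := by linear_combination ht1
          rw [hw, this]
          ring
        · have hk : (β * (t + 2) + w) ^ 2 - w * (β + (t + 2)) ^ 2 = -2 * (α * (t + 1)) ^ 2 := by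
            have e1 : β ^ 2 - w = -α ^ 2 := by rw [hab]; ring
            have e2 : (t + 2) ^ 2 - w = 2 * (t + 1) ^ 2 := by rw [hw]; ring
            have e3 : (β * (t + 2) + w) ^ 2 - w * (β + (t + 2)) ^ 2 = (β ^ 2 - w) * ((t + 2) ^ 2 - w) := by
              ring
            rw [e3, e1, e2]
            ring
          have hR : β + (t + 2) ≠ 0 := by
            intro h0
            rw [h0] at hk
            have h5 : (β * (t + 2) + w) ^ 2 + 2 * (α * (t + 1)) ^ 2 = 0 := by linear_combination hk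
            have h6 := congrArg φ h5
            rw [map_add, map_mul, map_pow, map_pow, map_zero, map_ofNat] at h6
            have h7 : φ (α * (t + 1)) = 0 := by
              nlinarith [sq_nonneg (φ (β * (t + 2) + w)), sq_nonneg (φ (α * (t + 1)))]
            have h8 : α * (t + 1) = 0 := hinj (by rw [h7, map_zero])
            exact (mul_ne_zero hα0 ht1) h8
          refine ⟨(β * (t + 2) + w) / (β + (t + 2)), (α * (t + 1)) / (β + (t + 2)), ?_⟩
          rw [div_pow, div_pow, mul_div_assoc', ← add_div, eq_div_iff (pow_ne_zero 2 hR)]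
          linear_combination (-1 : F) * hk
    obtain ⟨x, y, hxy⟩ := hwxy
    refine ⟨(s * x - 2 * r * y) / w, (s * y + r * x) / w, ?_⟩
    rw [div_pow, div_pow, mul_div_assoc', ← add_div, eq_div_iff (pow_ne_zero 2 hw0)]
    calc d * w ^ 2 = (d * w) * w := by ring
      _ = (s ^ 2 + 2 * r ^ 2) * (x ^ 2 + 2 * y ^ 2) := by rw [hdw, ← hxy]
      _ = _ := by ring

private theorem Repr3_nonneg {F : Type} [Field F] (φ : F →+* ℝ) (x : F) : 0 ≤ φ (x ^ 2) := by
  rw [map_pow]
  exact sq_nonneg _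

/-- Proof: `d² = 8 k + 1`, `d + 1 = 4 j`, `j` odd, `d = p² + q² + r²`, `u = p² + q²` (if `u = 0` then
`p = q = 0` and we are done). Change `4 k` of the `⟨d⟩` to `⟨1⟩` (`fourN_nat`, `m = d`, and `scaleN`),
change `4 j ⟨-(d+1)⟩` to `4 j ⟨-1⟩` and `2 (j-1)` of these to `⟨-d⟩`, the last four to
`⟨-1, -d, -u, -d u⟩` (`threeN`). The whole multiset is then `s + s.map (d * ·)` with
`s = {1} + replicate (4 k) 1 + replicate (2 (j-1)) (-1) + {-1, -u} + P`. `HM.norm` gives
`2 u (d + 1) (square) = x² + d y²`, so `2 u = s² + d t²` (as `d + 1 = 1² + d 1²`); use `alg3`. -/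
theorem repr3 {d : ℕ} (hd : d % 8 = 3) {F : Type} [Field F] [CharZero F] (φ : F →+* ℝ) (A : F)
    (hA : A ≠ 0) (P : Multiset F) (hP0 : (0 : F) ∉ P) (hPc : P.card = d * (d - 1) / 2)
    (hPp : P.prod = (-((d : F) + 1) * 2) ^ (d * (d - 1) / 2) * A ^ (d - 1))
    (h3 : ∃ p q r : F, (d : F) = p ^ 2 + q ^ 2 + r ^ 2)
    (h : HM (Multiset.replicate (d ^ 2) (d : F) + {1} +
      Multiset.replicate (d + 1) (-((d : F) + 1)) + P + P.map ((d : F) * ·))) :
    ∃ x y : F, (d : F) = x ^ 2 + 2 * y ^ 2 := by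
  obtain ⟨p, q, r, hpqr⟩ := h3
  by_cases hu : p ^ 2 + q ^ 2 = 0
  · refine ⟨r, 0, ?_⟩
    rw [hpqr, hu]
    ring
  obtain ⟨a, ha⟩ : ∃ a, d = 8 * a + 3 := ⟨d / 8, by omega⟩
  obtain ⟨k, hk⟩ : ∃ k, k = 8 * a ^ 2 + 6 * a + 1 := ⟨_, rfl⟩
  obtain ⟨b, hb⟩ : ∃ b, b = 16 * a ^ 2 + 10 * a + 1 := ⟨_, rfl⟩
  have hd2 : d ^ 2 = 4 * k + (4 * k + 1) := by rw [ha, hk]; ring
  have hd1 : d + 1 = 4 * (2 * a + 1) := by omega
  have hM : d * (d - 1) / 2 = 2 * b + 1 := by
    have e1 : d * (d - 1) = 2 * (2 * b + 1) := by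
      rw [ha, hb]
      have : 8 * a + 3 - 1 = 8 * a + 2 := by omega
      rw [this]
      ring
    rw [e1, Nat.mul_div_cancel_left _ (by norm_num)]
  have hdm : d - 1 = 2 * (4 * a + 1) := by omega
  rw [hM] at hPc hPp
  rw [hdm] at hPp
  have hdn : d ≠ 0 := by omega
  set δ : F := (d : F) with hδ
  have hδ0 : δ ≠ 0 := by rw [hδ]; exact_mod_cast hdn
  have hδ1 : δ + 1 ≠ 0 := by
    rw [hδ]
    exact_mod_cast (Nat.succ_ne_zero d)
  set u : F := p ^ 2 + q ^ 2 with hu'
  -- first change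
  have h1 : HM (Multiset.replicate (4 * k) δ + (Multiset.replicate (4 * k) δ + {δ} + {1} +
      Multiset.replicate (4 * (2 * a + 1)) (-(δ + 1)) + P + P.map (δ * ·))) := by
    have e1 : Multiset.replicate (d ^ 2) δ = Multiset.replicate (4 * k) δ +
        (Multiset.replicate (4 * k) δ + {δ}) := by
      rw [hd2, Multiset.replicate_add, Multiset.replicate_add, Multiset.replicate_one]
    rw [e1, hd1] at h
    convert h using 1
    abel
  have h2 := HM.fourN_nat k d hdn h1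
  have h3 := HM.scaleN (4 * k) h2 1 δ hδ0 (by rw [hδ]; ring)
  -- second change
  have h4 : HM (Multiset.replicate (4 * (2 * a + 1)) (-(δ + 1)) + (Multiset.replicate (4 * k) 1 +
      Multiset.replicate (4 * k) δ + {δ} + {1} + P + P.map (δ * ·))) := by
    convert h3 using 1
    abel
  have h5 := HM.fourN_nat (2 * a + 1) (d + 1) (Nat.succ_ne_zero d) h4
  have h6 := HM.scaleN (4 * (2 * a + 1)) h5 (-1) (δ + 1) hδ1 (by rw [hδ]; push_cast; ring)
  have h7 : HM (Multiset.replicate (4 * a) (-1 : F) + (Multiset.replicate (4 * a) (-1 : F) +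
      Multiset.replicate (4 * 1) (-1 : F) + (Multiset.replicate (4 * k) 1 +
      Multiset.replicate (4 * k) δ + {δ} + {1} + P + P.map (δ * ·)))) := by
    have e1 : Multiset.replicate (4 * (2 * a + 1)) (-1 : F) = Multiset.replicate (4 * a) (-1 : F) +
        (Multiset.replicate (4 * a) (-1 : F) + Multiset.replicate (4 * 1) (-1 : F)) := by
      rw [← Multiset.replicate_add, ← Multiset.replicate_add]
      congr 1
      ring
    rw [e1] at h6
    convert h6 using 1
    abel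
  have h8 := HM.fourN_nat a d hdn h7
  have h9 : HM (Multiset.replicate (4 * 1) (-1 : F) + (Multiset.replicate (4 * a) (-1 : F) +
      Multiset.replicate (4 * a) (δ * -1) + (Multiset.replicate (4 * k) 1 +
      Multiset.replicate (4 * k) δ + {δ} + {1} + P + P.map (δ * ·)))) := by
    convert h8 using 1
    rw [hδ]
    abel
  have h10 := HM.threeN 1 δ p q r u hpqr hu' hδ0 hu h9
  obtain ⟨s, hs⟩ : ∃ s : Multiset F, s = {1} + Multiset.replicate (4 * k) (1 : F) +
      Multiset.replicate (4 * a) (-1 : F) + {-1} + {u * -1} + P := ⟨_, rfl⟩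
  have h11 : HM (s + s.map (δ * ·)) := by
    have e1 : s.map (δ * ·) = {δ} + Multiset.replicate (4 * k) δ +
        Multiset.replicate (4 * a) (δ * -1) + {δ * -1} + {δ * (u * -1)} + P.map (δ * ·) := by
      rw [hs]
      simp only [Multiset.map_add, Multiset.map_singleton, Multiset.map_replicate, mul_one]
    rw [e1, hs]
    convert h10 using 1
    simp only [Multiset.replicate_one]
    abel
  have hφδ : 0 < φ δ := by
    rw [hδ, map_natCast]
    exact_mod_cast Nat.pos_of_ne_zero hdn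
  have hDsq : ∀ x : F, x ^ 2 ≠ -δ := by
    intro x hx
    have e1 := Repr3_nonneg φ x
    rw [hx, map_neg] at e1
    linarith
  have hs0 : (0 : F) ∉ s := by
    rw [hs]
    simp only [Multiset.mem_add, Multiset.mem_singleton, Multiset.mem_replicate]
    rintro (((((e | e) | e) | e) | e) | e)
    · exact zero_ne_one e
    · exact zero_ne_one e.2
    · exact (neg_ne_zero.2 one_ne_zero) e.2.symm
    · exact (neg_ne_zero.2 one_ne_zero) e.symm
    · rw [mul_neg, mul_one] at e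
      exact (neg_ne_zero.2 hu) e.symm
    · exact hP0 e
  obtain ⟨_, x, y, hxy⟩ := HM.norm (two_ne_zero) δ hDsq hs0 h11
  have hcard : s.card / 2 = 2 * (k + a + 1 + 8 * a ^ 2 + 5 * a) + 1 := by
    rw [hs]
    simp only [Multiset.card_add, Multiset.card_singleton, Multiset.card_replicate, hPc]
    rw [hb]
    omega
  have hprod : s.prod = u * P.prod := by
    rw [hs]
    simp only [Multiset.prod_add, Multiset.prod_singleton, Multiset.prod_replicate, one_pow]
    have e1 : (-1 : F) ^ (4 * a) = 1 := by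
      rw [pow_mul]
      norm_num
    rw [e1]
    ring
  obtain ⟨Q, hQ⟩ : ∃ Q : F, Q = (2 * (δ + 1)) ^ b * A ^ (4 * a + 1) := ⟨_, rfl⟩
  have hQ0 : Q ≠ 0 := by
    rw [hQ]
    exact mul_ne_zero (pow_ne_zero _ (mul_ne_zero two_ne_zero hδ1)) (pow_ne_zero _ hA)
  have hPQ : P.prod = -(2 * (δ + 1)) * Q ^ 2 := by
    have e1 : (-(δ + 1) * 2) ^ (2 * b + 1) = -(2 * (δ + 1)) ^ (2 * b + 1) := by
      have e2 : -(δ + 1) * 2 = -(2 * (δ + 1)) := by ring
      rw [e2, Odd.neg_pow ⟨b, rfl⟩]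
    have e3 : ((2 * (δ + 1)) ^ b * A ^ (4 * a + 1)) ^ 2 =
        (2 * (δ + 1)) ^ (2 * b) * A ^ (2 * (4 * a + 1)) := by
      rw [mul_pow, ← pow_mul, ← pow_mul, mul_comm b 2, mul_comm (4 * a + 1) 2]
    rw [hPp, e1, hQ, e3, pow_succ]
    ring
  have hkey : 2 * u * (δ + 1) * Q ^ 2 = x ^ 2 + δ * y ^ 2 := by
    rw [← hxy, hcard, hprod, hPQ, Odd.neg_one_pow ⟨_, rfl⟩]
    ring
  refine alg3 φ δ p q r ((x - δ * y) / ((δ + 1) * Q)) ((x + y) / ((δ + 1) * Q)) hφδ hpqr hu ?_
  rw [div_pow, div_pow, mul_div_assoc', ← add_div,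
    eq_div_iff (pow_ne_zero 2 (mul_ne_zero hδ1 hQ0))]
  linear_combination (δ + 1) * hkey

end Pool.Agent.Lib.MP_d0f9e0_co.Arith
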