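import Mathlib
import Pool.Agent.Lib.MP_d0f9e0_co.Arith.WittB
import Pool.Agent.Lib.MP_d0f9e0_co.Arith.HermLag

set_option autoImplicit false

/-!
The case `d = 5 mod 8`.
-/

namespace Pool.Agent.Lib.MP_d0f9e0_co.Arith

/-- Elementary algebra. Proof: if `t² = 1` then `s = r = 0` and `D = p² + q²`; otherwise
`w = 1 - t²` satisfies `D w = s² + r²`, `u w = s² + (r t)²`, so `w`, and then `D`, is a sum of two
squares. -/
theorem alg5 {F : Type} [Field F] [CharZero F] (φ : F →+* ℝ) (D p q r s t : F)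
    (hD0 : 0 < φ D) (hD : D = p ^ 2 + q ^ 2 + r ^ 2) (hu : p ^ 2 + q ^ 2 ≠ 0)
    (h : p ^ 2 + q ^ 2 = s ^ 2 + D * t ^ 2) :
    ∃ x y : F, D = x ^ 2 + y ^ 2 := by
  have h1 : D * (1 - t ^ 2) = s ^ 2 + r ^ 2 := by
    linear_combination hD + h
  have h2 : (p ^ 2 + q ^ 2) * (1 - t ^ 2) = s ^ 2 + (r * t) ^ 2 := by
    linear_combination h + t ^ 2 * hD
  by_cases hw : 1 - t ^ 2 = 0
  · rw [hw, mul_zero] at h1
    have h3 : φ s ^ 2 + φ r ^ 2 = 0 := by
      rw [← map_pow, ← map_pow, ← map_add, ← h1, map_zero]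
    have h4 : φ r = 0 := by nlinarith [sq_nonneg (φ s), sq_nonneg (φ r)]
    have h5 : r = 0 := by
      rw [← map_zero φ] at h4
      exact φ.injective h4
    refine ⟨p, q, ?_⟩
    rw [hD, h5]
    ring
  · obtain ⟨α, hα⟩ : ∃ α : F, α = (p * s - q * (r * t)) / (p ^ 2 + q ^ 2) := ⟨_, rfl⟩
    obtain ⟨β, hβ⟩ : ∃ β : F, β = (p * (r * t) + q * s) / (p ^ 2 + q ^ 2) := ⟨_, rfl⟩
    have h3 : 1 - t ^ 2 = α ^ 2 + β ^ 2 := by
      rw [hα, hβ, div_pow, div_pow, ← add_div, eq_div_iff (pow_ne_zero 2 hu)]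
      linear_combination (p ^ 2 + q ^ 2) * h2
    refine ⟨(s * α - r * β) / (1 - t ^ 2), (s * β + r * α) / (1 - t ^ 2), ?_⟩
    rw [div_pow, div_pow, ← add_div, eq_div_iff (pow_ne_zero 2 hw)]
    linear_combination (1 - t ^ 2) * h1 + (s ^ 2 + r ^ 2) * h3

/-- Proof: `D = p² + q² + r²`, `u = p² + q²` (if `u = 0` then `p = q = 0` and we are done). Change all
`⟨d⟩` to `⟨1⟩` (`scaleN`, `f² = d`), change `(d + 1) ⟨-(d+1)⟩` to `(d + 1) ⟨-1⟩` (`twoN`, `d + 1 = f² + 1²`),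
add `⟨1, -1, 1, -1⟩`: this gives `4 a ⟨1⟩ + 4 b ⟨-1⟩ + P + P.map (D * ·)` with
`4 a = d² + 3`, `4 b = d + 3`, `a` odd and `b` even. `threeN` turns it into `s + s.map (D * ·)` with
`s = replicate a 1 + replicate a u + replicate b (-1) + replicate b (-u) + P`. `HM.norm` gives
`u (square) = x² + D y²`; use `alg5`. -/
theorem repr5 {d : ℕ} (hd : d % 8 = 5) {F : Type} [Field F] [CharZero F] (φ : F →+* ℝ) (A : F)
    (hA : A ≠ 0) (D : F) (hD0 : 0 < φ D) (f : F) (hf : f ^ 2 = (d : F))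
    (P : Multiset F) (hP0 : (0 : F) ∉ P) (hPc : P.card = d * (d - 1) / 2)
    (hPp : P.prod = (-((d : F) + 1) * 2) ^ (d * (d - 1) / 2) * A ^ (d - 1))
    (h3 : ∃ p q r : F, D = p ^ 2 + q ^ 2 + r ^ 2)
    (h : HM (Multiset.replicate (d ^ 2) (d : F) + {1} +
      Multiset.replicate (d + 1) (-((d : F) + 1)) + P + P.map (D * ·))) :
    ∃ x y : F, D = x ^ 2 + y ^ 2 := by
  obtain ⟨m, hm⟩ : ∃ m : ℕ, d = 8 * m + 5 := ⟨d / 8, by omega⟩
  obtain ⟨p, q, r, hpqr⟩ := h3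
  have hDne : D ≠ 0 := by
    rintro rfl
    rw [map_zero] at hD0
    exact lt_irrefl _ hD0
  by_cases hu : p ^ 2 + q ^ 2 = 0
  · exact ⟨r, 0, by rw [hpqr, hu]; ring⟩
  obtain ⟨u, hudef⟩ : ∃ u : F, u = p ^ 2 + q ^ 2 := ⟨_, rfl⟩
  have hu0 : u ≠ 0 := by rw [hudef]; exact hu
  have hd0 : (d : F) ≠ 0 := by
    have : d ≠ 0 := by omega
    exact_mod_cast this
  have hf0 : f ≠ 0 := by
    rintro rfl
    rw [zero_pow two_ne_zero] at hf
    exact hd0 hf.symm
  have hd1 : (d : F) + 1 ≠ 0 := by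
    have : d + 1 ≠ 0 := by omega
    exact_mod_cast this
  -- the counts
  obtain ⟨a, ha⟩ : ∃ a : ℕ, a = 16 * m ^ 2 + 20 * m + 7 := ⟨_, rfl⟩
  obtain ⟨b, hb⟩ : ∃ b : ℕ, b = 2 * m + 2 := ⟨_, rfl⟩
  have h4a : 4 * a = 2 + (d ^ 2 + 1) := by rw [ha, hm]; ring
  have h4b : 4 * b = 2 + (d + 1) := by rw [hb, hm]; ring
  have hdd : d * (d - 1) / 2 = 2 * ((8 * m + 5) * (2 * m + 1)) := by
    have e1 : d * (d - 1) = 2 * (2 * ((8 * m + 5) * (2 * m + 1))) := by
      have e2 : d - 1 = 8 * m + 4 := by omega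
      rw [e2, hm]
      ring
    rw [e1, Nat.mul_div_cancel_left _ (by norm_num)]
  -- step 1
  have h5 : HM (Multiset.replicate (d ^ 2) (1 : F) + ({1} +
      Multiset.replicate (d + 1) (-((d : F) + 1)) + P + P.map (D * ·))) := by
    refine HM.scaleN (d ^ 2) (a := (d : F)) ?_ 1 f hf0 (by rw [hf, one_mul])
    convert h using 1
    abel
  -- step 2
  have h6 : HM (Multiset.replicate (2 * (4 * m + 3)) (((d : F) + 1) * (-((d : F) + 1))) +
      (Multiset.replicate (d ^ 2) (1 : F) + {1} + P + P.map (D * ·))) := by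
    refine HM.twoN (4 * m + 3) ((d : F) + 1) f 1 (by rw [hf]; ring) hd1 ?_
    have e1 : 2 * (4 * m + 3) = d + 1 := by omega
    rw [e1]
    convert h5 using 1
    abel
  have h7 : HM (Multiset.replicate (d + 1) (-1 : F) +
      (Multiset.replicate (d ^ 2) (1 : F) + {1} + P + P.map (D * ·))) := by
    have e1 : 2 * (4 * m + 3) = d + 1 := by omega
    rw [e1] at h6
    exact HM.scaleN (d + 1) h6 (-1) ((d : F) + 1) hd1 (by ring)
  -- step 3
  have h8 : HM (Multiset.replicate (4 * a) (1 : F) +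
      (Multiset.replicate (4 * b) (-1 : F) + P + P.map (D * ·))) := by
    have h9 := HM.hypN 2 h7 (1 : F)
    convert h9 using 1
    rw [h4a, h4b, Multiset.replicate_add, Multiset.replicate_add, Multiset.replicate_add 2 (d + 1),
      Multiset.replicate_one]
    abel
  -- step 4
  have h9 := HM.threeN a D p q r u hpqr hudef hDne hu0 h8
  have h10 : HM (Multiset.replicate (4 * b) (-1 : F) + (Multiset.replicate a (1 : F) +
      Multiset.replicate a (D * 1) + Multiset.replicate a (u * 1) + Multiset.replicate a (D * (u * 1)) +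
      P + P.map (D * ·))) := by
    convert h9 using 1
    abel
  have h11 := HM.threeN b D p q r u hpqr hudef hDne hu0 h10
  obtain ⟨s, hs⟩ : ∃ s : Multiset F, s = Multiset.replicate a 1 + Multiset.replicate a u +
    Multiset.replicate b (-1) + Multiset.replicate b (u * (-1)) + P := ⟨_, rfl⟩
  have h12 : HM (s + s.map (D * ·)) := by
    convert h11 using 1
    rw [hs]
    simp only [Multiset.map_add, Multiset.map_replicate, mul_one]
    abel
  have hs0 : (0 : F) ∉ s := by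
    rw [hs]
    simp only [Multiset.mem_add, Multiset.mem_replicate, not_or, not_and]
    refine ⟨⟨⟨⟨fun _ => zero_ne_one, fun _ => hu0.symm⟩, fun _ => ?_⟩, fun _ => ?_⟩, hP0⟩
    · simp
    · simp [hu0.symm]
      exact fun h => hu0 h
  have hnsq : ∀ x : F, x ^ 2 ≠ -D := by
    intro x hx
    have e1 := congrArg φ hx
    rw [map_pow, map_neg] at e1
    nlinarith [sq_nonneg (φ x)]
  obtain ⟨-, x, y, hxy⟩ := HM.norm two_ne_zero D hnsq hs0 h12
  have hcard : s.card = 2 * (2 * (8 * m ^ 2 + 10 * m + 3 + (m + 1) + (8 * m ^ 2 + 9 * m + 3))) := by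
    rw [hs]
    simp only [Multiset.card_add, Multiset.card_replicate, hPc, hdd]
    rw [ha, hb]
    ring
  rw [hcard, Nat.mul_div_cancel_left _ (by norm_num), pow_mul, neg_one_sq, one_pow, one_mul] at hxy
  obtain ⟨n₁, hn₁⟩ : ∃ n₁ : ℕ, a + b = 2 * n₁ + 1 := ⟨8 * m ^ 2 + 11 * m + 4, by rw [ha, hb]; ring⟩
  obtain ⟨Z, hZ⟩ : ∃ Z : F, Z = u ^ n₁ * ((-((d : F) + 1) * 2) ^ ((8 * m + 5) * (2 * m + 1)) *
    A ^ (4 * m + 2)) := ⟨_, rfl⟩
  have hprod : s.prod = u * Z ^ 2 := by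
    rw [hs]
    simp only [Multiset.prod_add, Multiset.prod_replicate, one_pow, one_mul, hPp, hdd]
    have e1 : d - 1 = 2 * (4 * m + 2) := by omega
    have e2 : u ^ a * (-1) ^ b * (u * -1) ^ b = u * (u ^ n₁) ^ 2 := by
      rw [mul_pow, ← pow_mul, mul_comm n₁ 2, ← pow_succ', ← hn₁, pow_add]
      have e3 : ((-1 : F)) ^ b * (-1) ^ b = 1 := by
        rw [← mul_pow]
        simp
      calc u ^ a * (-1) ^ b * (u ^ b * (-1) ^ b) = u ^ a * u ^ b * ((-1) ^ b * (-1) ^ b) := by ring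
        _ = u ^ a * u ^ b := by rw [e3, mul_one]
    rw [e1, e2, hZ, pow_mul', pow_mul' A]
    ring
  have hZ0 : Z ≠ 0 := by
    rw [hZ]
    refine mul_ne_zero (pow_ne_zero _ hu0) (mul_ne_zero (pow_ne_zero _ ?_) (pow_ne_zero _ hA))
    exact mul_ne_zero (neg_ne_zero.2 hd1) two_ne_zero
  rw [hprod] at hxy
  refine alg5 φ D p q r (x / Z) (y / Z) hD0 hpqr hu ?_
  rw [← hudef]
  field_simp
  exact hxy

end Pool.Agent.Lib.MP_d0f9e0_co.Arith
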