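import Mathlib
import Pool.Agent.Lib.MP_d0f9e0_co.Arith.WittB
import Pool.Agent.Lib.MP_d0f9e0_co.Arith.HermLag

set_option autoImplicit false

/-!
The case `d = 7 mod 8`.
-/

namespace Pool.Agent.Lib.MP_d0f9e0_co.Arith

/-- Proof: `d² = 8 k + 1`, `d + 1 = 8 j`. Change `4 k` of the `⟨d⟩` to `⟨1⟩` (`fourN_nat`, `m = d`, and
`scaleN`), change `8 j ⟨-(d+1)⟩` to `8 j ⟨-1⟩` and `4 j` of these to `⟨-d⟩`. The whole multiset is then
`s + s.map (d * ·)` with `s = {1} + replicate (4 k) 1 + replicate (4 j) (-1) + P`. `HM.norm`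
(`D = d`; `x ^ 2 ≠ -d` because of `φ`) gives `2 (d + 1) (square) = x² + d y²` (the signs cancel:
`M = d (d-1) / 2` is odd and `(M + 1) / 2` is odd), so, since `d + 1 = 1² + d 1²`, `2 = x² + d y²` with
new `x, y`; if `y ≠ 0` divide by `y²`; if `y = 0` then `2` is a square and the equation is easy. -/
theorem repr7 {d : ℕ} (hd : d % 8 = 7) {F : Type} [Field F] [CharZero F] (φ : F →+* ℝ) (A : F)
    (hA : A ≠ 0) (P : Multiset F) (hP0 : (0 : F) ∉ P) (hPc : P.card = d * (d - 1) / 2)
    (hPp : P.prod = (-((d : F) + 1) * 2) ^ (d * (d - 1) / 2) * A ^ (d - 1))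
    (h : HM (Multiset.replicate (d ^ 2) (d : F) + {1} +
      Multiset.replicate (d + 1) (-((d : F) + 1)) + P + P.map ((d : F) * ·))) :
    ∃ x y : F, (d : F) = 2 * x ^ 2 - y ^ 2 := by
  obtain ⟨j, hj⟩ : ∃ j, d + 1 = 8 * j := ⟨(d + 1) / 8, by omega⟩
  have hj1 : 1 ≤ j := by omega
  set M : ℕ := d * (d - 1) / 2 with hMdef
  obtain ⟨i, rfl⟩ : ∃ i, j = i + 1 := ⟨j - 1, by omega⟩
  have hd' : d = 8 * i + 7 := by omega
  -- the numbers
  have hM : M = 2 * (16 * i ^ 2 + 26 * i + 10) + 1 := by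
    have h1 : d * (d - 1) = 2 * (2 * (16 * i ^ 2 + 26 * i + 10) + 1) := by
      rw [hd', show 8 * i + 7 - 1 = 8 * i + 6 by omega]
      ring
    rw [hMdef, h1]
    omega
  set k : ℕ := 8 * i ^ 2 + 14 * i + 6 with hk
  have hdd : d ^ 2 = 4 * k + (4 * k + 1) := by
    rw [hd', hk]
    ring
  have hd1 : d + 1 = 4 * (i + 1) + 4 * (i + 1) := by omega
  have hdF : (d : F) ≠ 0 := by
    have : d ≠ 0 := by omega
    exact_mod_cast this
  have hd1F : (d : F) + 1 ≠ 0 := by
    have : ((d + 1 : ℕ) : F) ≠ 0 := by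
      rw [Nat.cast_ne_zero]
      omega
    push_cast at this
    exact this
  -- change of the form
  have h1 : HM (Multiset.replicate (4 * k) (1 : F) + (Multiset.replicate (4 * k + 1) (d : F) + {1} +
      Multiset.replicate (d + 1) (-((d : F) + 1)) + P + P.map ((d : F) * ·))) := by
    rw [hdd, Multiset.replicate_add] at h
    have h' : HM (Multiset.replicate (4 * k) (d : F) + (Multiset.replicate (4 * k + 1) (d : F) + {1} +
        Multiset.replicate (d + 1) (-((d : F) + 1)) + P + P.map ((d : F) * ·))) := by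
      simpa only [add_assoc] using h
    have h2 := HM.fourN_nat k d (by omega) h'
    exact HM.scaleN (4 * k) h2 1 (d : F) hdF (by ring)
  have h2 : HM (Multiset.replicate (d + 1) (-1 : F) + (Multiset.replicate (4 * k) (1 : F) +
      Multiset.replicate (4 * k + 1) (d : F) + {1} + P + P.map ((d : F) * ·))) := by
    have h' : HM (Multiset.replicate (4 * (2 * (i + 1))) (-((d : F) + 1)) + (Multiset.replicate (4 * k) (1 : F) +
        Multiset.replicate (4 * k + 1) (d : F) + {1} + P + P.map ((d : F) * ·))) := by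
      rw [show 4 * (2 * (i + 1)) = d + 1 by omega]
      convert h1 using 1
      ac_rfl
    have h3 := HM.fourN_nat (2 * (i + 1)) (d + 1) (by omega) h'
    have h4 := HM.scaleN _ h3 (-1) ((d : F) + 1) hd1F (by push_cast; ring)
    rwa [show 4 * (2 * (i + 1)) = d + 1 by omega] at h4
  have h3 : HM (Multiset.replicate (4 * (i + 1)) ((d : F) * (-1)) + (Multiset.replicate (4 * (i + 1)) (-1 : F) +
      (Multiset.replicate (4 * k) (1 : F) +
      Multiset.replicate (4 * k + 1) (d : F) + {1} + P + P.map ((d : F) * ·)))) := by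
    rw [hd1, Multiset.replicate_add, add_assoc] at h2
    exact HM.fourN_nat (i + 1) d (by omega) h2
  set s : Multiset F := {1} + Multiset.replicate (4 * k) 1 + Multiset.replicate (4 * (i + 1)) (-1) + P with hs
  have h4 : HM (s + s.map ((d : F) * ·)) := by
    have h5 : s.map ((d : F) * ·) = {(d : F)} + Multiset.replicate (4 * k) (d : F) +
        Multiset.replicate (4 * (i + 1)) ((d : F) * (-1)) + P.map ((d : F) * ·) := by
      rw [hs]
      simp only [Multiset.map_add, Multiset.map_singleton, Multiset.map_replicate, mul_one]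
    rw [h5, hs]
    have h6 : Multiset.replicate (4 * k + 1) (d : F) = {(d : F)} + Multiset.replicate (4 * k) (d : F) := by
      rw [Multiset.replicate_succ]
      rfl
    rw [h6] at h3
    convert h3 using 1
    ac_rfl
  -- the norm
  have hD : ∀ x : F, x ^ 2 ≠ -(d : F) := by
    intro x hx
    have h5 := congrArg φ hx
    rw [map_pow, map_neg, map_natCast] at h5
    have h6 : (0 : ℝ) < d := by
      have : 0 < d := by omega
      exact_mod_cast this
    nlinarith [sq_nonneg (φ x)]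
  have h0s : (0 : F) ∉ s := by
    rw [hs]
    intro h5
    simp only [Multiset.mem_add, Multiset.mem_singleton, Multiset.mem_replicate] at h5
    rcases h5 with ((h5 | h5) | h5) | h5
    · exact zero_ne_one h5
    · exact zero_ne_one h5.2
    · have := h5.2
      rw [zero_eq_neg] at this
      exact one_ne_zero this
    · exact hP0 h5
  obtain ⟨_, x, y, hxy⟩ := HM.norm two_ne_zero (d : F) hD h0s h4
  have hcard : s.card / 2 = 2 * (k + (i + 1) + (8 * i ^ 2 + 13 * i + 5)) + 1 := by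
    have h5 : s.card = 1 + 4 * k + 4 * (i + 1) + M := by
      rw [hs]
      simp only [Multiset.card_add, Multiset.card_singleton, Multiset.card_replicate, hPc]
    rw [h5, hM]
    have h6 : 1 + 4 * k + 4 * (i + 1) + (2 * (16 * i ^ 2 + 26 * i + 10) + 1) =
        2 * (2 * (k + (i + 1) + (8 * i ^ 2 + 13 * i + 5)) + 1) := by ring
    rw [h6]
    omega
  have hprod : s.prod = -(2 * ((d : F) + 1) * ((2 * ((d : F) + 1)) ^ (16 * i ^ 2 + 26 * i + 10) *
      A ^ (4 * i + 3)) ^ 2) := by
    rw [hs]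
    simp only [Multiset.prod_add, Multiset.prod_singleton, Multiset.prod_replicate, one_pow, one_mul]
    rw [hPp, hM]
    have h5 : ((-1 : F)) ^ (4 * (i + 1)) = 1 := by
      rw [show 4 * (i + 1) = 2 * (2 * (i + 1)) by ring, pow_mul]
      norm_num
    have h6 : (-((d : F) + 1) * 2) ^ (2 * (16 * i ^ 2 + 26 * i + 10) + 1) =
        -(2 * ((d : F) + 1) * ((2 * ((d : F) + 1)) ^ (16 * i ^ 2 + 26 * i + 10)) ^ 2) := by
      rw [show -((d : F) + 1) * 2 = -(2 * ((d : F) + 1)) by ring, Odd.neg_pow ⟨_, rfl⟩, pow_succ, pow_mul,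
        ← pow_mul, ← pow_mul]
      ring
    have h7 : A ^ (d - 1) = (A ^ (4 * i + 3)) ^ 2 := by
      rw [← pow_mul]
      congr 1
      omega
    rw [h5, h6, h7]
    ring
  set E : F := (2 * ((d : F) + 1)) ^ (16 * i ^ 2 + 26 * i + 10) * A ^ (4 * i + 3) with hE
  have hE0 : E ≠ 0 := by
    rw [hE]
    exact mul_ne_zero (pow_ne_zero _ (mul_ne_zero two_ne_zero hd1F)) (pow_ne_zero _ hA)
  have hxy2 : 2 * ((d : F) + 1) * E ^ 2 = x ^ 2 + d * y ^ 2 := by
    have h5 : ((-1 : F)) ^ (2 * (k + (i + 1) + (8 * i ^ 2 + 13 * i + 5)) + 1) = -1 := Odd.neg_one_pow ⟨_, rfl⟩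
    rw [← hxy, hcard, hprod, h5]
    ring
  -- `2` is a norm
  obtain ⟨X, Y, hXY⟩ : ∃ X Y : F, 2 = X ^ 2 + d * Y ^ 2 := by
    refine ⟨(x + d * y) / ((1 + d) * E), (y - x) / ((1 + d) * E), ?_⟩
    have h5 : (1 : F) + d ≠ 0 := by rwa [add_comm] at hd1F
    field_simp
    linear_combination (1 + (d : F)) * hxy2
  by_cases hY : Y = 0
  · rw [hY] at hXY
    have h5 : X ≠ 0 := by
      intro h6
      rw [h6] at hXY
      norm_num at hXY
    refine ⟨((d : F) + 1) / (2 * X), ((d : F) - 1) / 2, ?_⟩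
    have h6 : X ^ 2 = 2 := by rw [hXY]; ring
    field_simp
    rw [h6]
    ring
  · refine ⟨1 / Y, X / Y, ?_⟩
    field_simp
    linear_combination -hXY

end Pool.Agent.Lib.MP_d0f9e0_co.Arith
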