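import Mathlib
import Pool.Agent.Lib.MP_d0f9e0_co.RamifB

set_option autoImplicit false

/-!
The real subfield.
-/

namespace Pool.Agent.Lib.MP_d0f9e0_co.Arith

open Ramif

/-- the embedding of the real subfield into the real numbers -/
theorem exists_embedding (K : Subfield ℂ) :
    ∃ φ : realSub K →+* ℝ, ∀ x : realSub K, ((φ x : ℝ) : ℂ) = ((x : K) : ℂ) := by
  have hre : ∀ x : realSub K, ((((x : K) : ℂ).re : ℝ) : ℂ) = ((x : K) : ℂ) := by
    intro x
    have h1 := (mem_realSub K x.1).1 x.2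
    exact Complex.conj_eq_iff_re.1 h1
  refine ⟨{ toFun := fun x => ((x : K) : ℂ).re
            map_one' := by simp
            map_zero' := by simp
            map_add' := fun x y => by simp
            map_mul' := fun x y => ?_ }, hre⟩
  apply Complex.ofReal_injective
  rw [Complex.ofReal_mul, hre, hre, hre]
  simp

/-- If `-1` is a sum of two squares in `K = F(z)`, `z² = -D`, then `D` is a sum of three squares in
`F`. Proof: write the squares as those of `a₁ + a₂ z`, `b₁ + b₂ z`; then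
`D (a₂² + b₂²) = 1 + a₁² + b₁²`, `a₁ a₂ + b₁ b₂ = 0`, so
`D (a₂² + b₂²)² = a₂² + b₂² + (a₁ b₂ - a₂ b₁)²`, and `a₂² + b₂² ≠ 0`. -/
theorem three_squares (K : Subfield ℂ) (hc : ∀ z ∈ K, star z ∈ K) (z : K)
    (hz : conjHom K hc z = -z) (hz0 : z ≠ 0) (D : realSub K) (hD : (D : K) = -z ^ 2)
    (h : ∃ a ∈ K, ∃ b ∈ K, a ^ 2 + b ^ 2 = (-1 : ℂ)) :
    ∃ p q r : realSub K, D = p ^ 2 + q ^ 2 + r ^ 2 := by
  obtain ⟨a, ha, b, hb, hab⟩ := h
  set c := conjHom K hc with hcdef
  have hcc : ∀ w : K, c (c w) = w := fun w => Subtype.ext (by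
    rw [hcdef, conjHom_coe, conjHom_coe, star_star])
  have hreal : ∀ w : K, c w = w → w ∈ realSub K := by
    intro w hw
    rw [mem_realSub]
    have := congrArg Subtype.val hw
    rwa [hcdef, conjHom_coe] at this
  set a' : K := ⟨a, ha⟩ with ha'
  set b' : K := ⟨b, hb⟩ with hb'
  have h1 : a' ^ 2 + b' ^ 2 = -1 := Subtype.ext (by simpa [ha', hb'] using hab)
  have h2 : (c a') ^ 2 + (c b') ^ 2 = -1 := by
    have := congrArg c h1
    simpa using this
  have h20 : (2 : K) ≠ 0 := two_ne_zero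
  have hA1 : (a' + c a') / 2 ∈ realSub K := by
    apply hreal
    rw [map_div₀, map_add, hcc, map_ofNat, add_comm]
  have hB1 : (b' + c b') / 2 ∈ realSub K := by
    apply hreal
    rw [map_div₀, map_add, hcc, map_ofNat, add_comm]
  have hA2 : (a' - c a') / (2 * z) ∈ realSub K := by
    apply hreal
    rw [map_div₀, map_sub, hcc, map_mul, map_ofNat, hz]
    field_simp
    ring
  have hB2 : (b' - c b') / (2 * z) ∈ realSub K := by
    apply hreal
    rw [map_div₀, map_sub, hcc, map_mul, map_ofNat, hz]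
    field_simp
    ring
  set A1 : realSub K := ⟨_, hA1⟩ with hA1d
  set B1 : realSub K := ⟨_, hB1⟩ with hB1d
  set A2 : realSub K := ⟨_, hA2⟩ with hA2d
  set B2 : realSub K := ⟨_, hB2⟩ with hB2d
  have k1 : A1 * A2 + B1 * B2 = 0 := by
    apply Subtype.ext
    show (a' + c a') / 2 * ((a' - c a') / (2 * z)) + (b' + c b') / 2 * ((b' - c b') / (2 * z)) = 0
    field_simp
    linear_combination h1 - h2
  have k2 : 1 + A1 ^ 2 + B1 ^ 2 = D * (A2 ^ 2 + B2 ^ 2) := by
    apply Subtype.ext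
    show 1 + ((a' + c a') / 2) ^ 2 + ((b' + c b') / 2) ^ 2 =
      (D : K) * (((a' - c a') / (2 * z)) ^ 2 + ((b' - c b') / (2 * z)) ^ 2)
    rw [hD]
    field_simp
    linear_combination 2 * h1 + 2 * h2
  obtain ⟨φ, -⟩ := exists_embedding K
  have hN : A2 ^ 2 + B2 ^ 2 ≠ 0 := by
    intro h0
    rw [h0, mul_zero] at k2
    have h3 := congrArg φ k2
    rw [map_add, map_add, map_pow, map_pow, map_one, map_zero] at h3
    nlinarith [sq_nonneg (φ A1), sq_nonneg (φ B1)]
  refine ⟨A2 / (A2 ^ 2 + B2 ^ 2), B2 / (A2 ^ 2 + B2 ^ 2),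
    (A1 * B2 - A2 * B1) / (A2 ^ 2 + B2 ^ 2), ?_⟩
  rw [div_pow, div_pow, div_pow, ← add_div, ← add_div, eq_div_iff (pow_ne_zero 2 hN)]
  linear_combination (-(A2 ^ 2 + B2 ^ 2)) * k2 + (A1 * A2 + B1 * B2) * k1

end Pool.Agent.Lib.MP_d0f9e0_co.Arith
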