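import Mathlib
import Pool.Agent.Lib.MP_d0f9e0_co.Arith.WittA
import Pool.Agent.Lib.MP_d0f9e0_co.Arith.Struct
import Pool.Agent.Lib.MP_d0f9e0_co.Arith.RamA

set_option autoImplicit false

/-!
The basic relation between the simplex form and the trace form.
-/

open Matrix

namespace Pool.Agent.Lib.MP_d0f9e0_co.Arith

open Level

private theorem starHM_sum {α β F : Type} [Fintype α] [Fintype β] (f : α ⊕ β → F) :
    (Finset.univ : Finset (α ⊕ β)).val.map f =
      (Finset.univ : Finset α).val.map (fun i => f (Sum.inl i)) +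
        (Finset.univ : Finset β).val.map (fun i => f (Sum.inr i)) := by
  rw [← Finset.univ_disjSum_univ, Finset.val_disjSum, Multiset.disjSum, Multiset.map_add,
    Multiset.map_map, Multiset.map_map]
  rfl

private theorem starHM_const {α F : Type} [Fintype α] (c : F) :
    (Finset.univ : Finset α).val.map (fun _ => c) = Multiset.replicate (Fintype.card α) c := by
  rw [Multiset.map_const']
  rfl

/-- the pairs below the diagonal -/
private abbrev StarL (d : ℕ) : Type := {p : Fin d × Fin d // decide (p.2 < p.1) = true}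

private def starHM_fun (d : ℕ) : Fin d ⊕ (StarL d ⊕ StarL d) → Fin d × Fin d
  | Sum.inl i => (i, i)
  | Sum.inr (Sum.inl p) => p.1.swap
  | Sum.inr (Sum.inr p) => p.1

private theorem starHM_bij (d : ℕ) : Function.Bijective (starHM_fun d) := by
  constructor
  · rintro (i | ⟨p, hp⟩ | ⟨p, hp⟩) (j | ⟨q, hq⟩ | ⟨q, hq⟩) h
    · have h1 := congrArg Prod.fst h
      exact congrArg Sum.inl h1
    · exfalso
      have h1 : (i, i) = q.swap := h
      have h2 : i = q.2 := congrArg Prod.fst h1
      have h3 : i = q.1 := congrArg Prod.snd h1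
      have h4 := of_decide_eq_true hq
      rw [← h2, ← h3] at h4
      exact lt_irrefl _ h4
    · exfalso
      have h1 : (i, i) = q := h
      have h2 : i = q.1 := congrArg Prod.fst h1
      have h3 : i = q.2 := congrArg Prod.snd h1
      have h4 := of_decide_eq_true hq
      rw [← h2, ← h3] at h4
      exact lt_irrefl _ h4
    · exfalso
      have h1 : p.swap = (j, j) := h
      have h2 : p.2 = j := congrArg Prod.fst h1
      have h3 : p.1 = j := congrArg Prod.snd h1
      have h4 := of_decide_eq_true hp
      rw [h2, h3] at h4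
      exact lt_irrefl _ h4
    · have h1 : p.swap = q.swap := h
      have h2 : p = q := Prod.swap_injective h1
      subst h2
      rfl
    · exfalso
      have h1 : p.swap = q := h
      have h4 := of_decide_eq_true hp
      have h5 := of_decide_eq_true hq
      rw [← h1] at h5
      exact lt_asymm h4 h5
    · exfalso
      have h1 : p = (j, j) := h
      have h4 := of_decide_eq_true hp
      rw [h1] at h4
      exact lt_irrefl _ h4
    · exfalso
      have h1 : p = q.swap := h
      have h4 := of_decide_eq_true hp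
      have h5 := of_decide_eq_true hq
      rw [h1] at h4
      exact lt_asymm h4 h5
    · have h1 : p = q := h
      subst h1
      rfl
  · rintro ⟨i, j⟩
    rcases lt_trichotomy i j with h | h | h
    · exact ⟨Sum.inr (Sum.inl ⟨(j, i), decide_eq_true h⟩), rfl⟩
    · subst h
      exact ⟨Sum.inl i, rfl⟩
    · exact ⟨Sum.inr (Sum.inr ⟨(i, j), decide_eq_true h⟩), rfl⟩

private noncomputable def starHM_equiv (d : ℕ) : Fin d ⊕ (StarL d ⊕ StarL d) ≃ Fin d × Fin d :=
  Equiv.ofBijective (starHM_fun d) (starHM_bij d)

/-- the quadratic identity for `W` -/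
private theorem starHM_quad {d : ℕ} {F : Type} [Field F] [CharZero F] (t : Fin d × Fin d → F)
    (W : Matrix (Fin d × Fin d) (Fin d × Fin d) F)
    (hW : W * Matrix.diagonal t * Wᵀ
        = Matrix.of fun p q => if p = q then 1 else 1 / ((d : F) + 1)) (c : Fin d × Fin d → F) :
    ((d : F) + 1) * ∑ p, t p * (Wᵀ *ᵥ c) p ^ 2 = d * ∑ p, c p ^ 2 + (∑ p, c p) ^ 2 := by
  have hd1 : (d : F) + 1 ≠ 0 := by exact_mod_cast Nat.succ_ne_zero d
  have h1 : ∑ p, t p * (Wᵀ *ᵥ c) p ^ 2 = c ⬝ᵥ ((W * Matrix.diagonal t * Wᵀ) *ᵥ c) := by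
    rw [← Matrix.mulVec_mulVec, ← Matrix.mulVec_mulVec, Matrix.dotProduct_mulVec,
      ← Matrix.mulVec_transpose, dotProduct]
    refine Finset.sum_congr rfl fun p _ => ?_
    rw [Matrix.mulVec_diagonal]
    ring
  rw [h1, hW]
  have h2 : ∀ p, ((Matrix.of fun p q : Fin d × Fin d => if p = q then (1 : F) else
      1 / ((d : F) + 1)) *ᵥ c) p = ((d : F) * c p + ∑ q, c q) / ((d : F) + 1) := by
    intro p
    have h3 : ∀ q, (if p = q then (1 : F) else 1 / ((d : F) + 1)) * c q =
        c q / ((d : F) + 1) + (if p = q then (d : F) * c p / ((d : F) + 1) else 0) := by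
      intro q
      split_ifs with h
      · subst h
        field_simp
        ring
      · rw [add_zero]
        field_simp
    simp only [Matrix.mulVec, dotProduct, Matrix.of_apply]
    rw [Finset.sum_congr rfl fun q _ => h3 q, Finset.sum_add_distrib, Finset.sum_ite_eq,
      if_pos (Finset.mem_univ p), ← Finset.sum_div]
    ring
  rw [dotProduct, Finset.sum_congr rfl fun p _ => by rw [h2 p], Finset.mul_sum]
  have h4 : ∀ p, ((d : F) + 1) * (c p * (((d : F) * c p + ∑ q, c q) / ((d : F) + 1))) =
      (d : F) * c p ^ 2 + c p * ∑ q, c q := by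
    intro p
    field_simp
  rw [Finset.sum_congr rfl fun p _ => h4 p, Finset.sum_add_distrib, ← Finset.mul_sum,
    ← Finset.sum_mul]
  ring


/-- `d² ⟨d⟩ + ⟨1⟩ = (d + 1) ⟨d + 1⟩ + ⟨d + 1⟩ ⟨1, D⟩ ⟨2 a i a j⟩`, `i < j`.
Proof: put `y = Wᵀ *ᵥ c`; then `d ∑ c² + (∑ c)² = (d + 1) ∑ trEntry D a p * y p ²`. The totally
isotropic subspace consists of the vectors (for `c : Fin d × Fin d → F`, `t : F`)
`(c p + t)` (coefficients `d`), `∑ c - d t` (coefficient `1`), `d t` (coefficient `-(d+1)`),
`y p` (coefficients `-(d+1) * trEntry D a p`). See `Level.lag_of_matrices`. `P` is the multiset of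
the `-(d+1) * 2 * a p.1 * a p.2` for the pairs `p` with `p.2 < p.1` (`prod_lower'`, `card_lower`). -/
theorem star_HM {d : ℕ} (hd : 1 ≤ d) {F : Type} [Field F] [CharZero F] (D : F) (a : Fin d → F)
    (ha : ∀ i, a i ≠ 0) (W : Matrix (Fin d × Fin d) (Fin d × Fin d) F)
    (hW : W * Matrix.diagonal (trEntry D a) * Wᵀ
        = Matrix.of fun p q => if p = q then 1 else 1 / ((d : F) + 1)) :
    ∃ P : Multiset F, (0 : F) ∉ P ∧ P.card = d * (d - 1) / 2 ∧
      P.prod = (-((d : F) + 1) * 2) ^ (d * (d - 1) / 2) * (∏ i, a i) ^ (d - 1) ∧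
      HM (Multiset.replicate (d ^ 2) (d : F) + {1} + Multiset.replicate (d + 1) (-((d : F) + 1)) +
        P + P.map (D * ·)) := by
  have hd0 : (d : F) ≠ 0 := by exact_mod_cast (show d ≠ 0 by omega)
  have hd1 : (d : F) + 1 ≠ 0 := by exact_mod_cast Nat.succ_ne_zero d
  set e : F := -((d : F) + 1) * 2 with he
  have he0 : e ≠ 0 := mul_ne_zero (neg_ne_zero.2 hd1) two_ne_zero
  refine ⟨(Finset.univ : Finset (StarL d)).val.map (fun p => e * a p.1.1 * a p.1.2), ?_, ?_, ?_, ?_⟩
  · intro h
    obtain ⟨p, -, hp⟩ := Multiset.mem_map.1 h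
    exact mul_ne_zero (mul_ne_zero he0 (ha _)) (ha _) hp
  · rw [Multiset.card_map]
    exact card_lower d
  · exact prod_lower' a e
  · -- the index type and the coefficients
    let w : (Fin d × Fin d) ⊕ (Unit ⊕ (Unit ⊕ (Fin d ⊕ (StarL d ⊕ StarL d)))) → F :=
      Sum.elim (fun _ => (d : F)) (Sum.elim (fun _ => 1) (Sum.elim (fun _ => -((d : F) + 1))
        (Sum.elim (fun _ => -((d : F) + 1)) (Sum.elim (fun p => e * a p.1.1 * a p.1.2)
          (fun p => D * (e * a p.1.1 * a p.1.2))))))
    have hmul : (Finset.univ : Finset ((Fin d × Fin d) ⊕ (Unit ⊕ (Unit ⊕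
        (Fin d ⊕ (StarL d ⊕ StarL d)))))).val.map w =
        Multiset.replicate (d ^ 2) (d : F) + {1} + Multiset.replicate (d + 1) (-((d : F) + 1)) +
        (Finset.univ : Finset (StarL d)).val.map (fun p => e * a p.1.1 * a p.1.2) +
        ((Finset.univ : Finset (StarL d)).val.map (fun p => e * a p.1.1 * a p.1.2)).map
          (D * ·) := by
      rw [starHM_sum, starHM_sum, starHM_sum, starHM_sum, starHM_sum]
      simp only [w, Sum.elim_inl, Sum.elim_inr]
      rw [starHM_const, starHM_const, starHM_const, starHM_const, Multiset.map_map]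
      simp only [Fintype.card_prod, Fintype.card_fin, Fintype.card_unit, Function.comp_def]
      have hr : Multiset.replicate (d + 1) (-((d : F) + 1)) =
          {-((d : F) + 1)} + Multiset.replicate d (-((d : F) + 1)) := by
        rw [Multiset.replicate_succ, Multiset.singleton_add]
      rw [← sq, hr, Multiset.replicate_one, Multiset.replicate_one]
      simp only [add_assoc]
    rw [← hmul]
    apply HM.of
    have hwσ : ∀ i : Fin d ⊕ (StarL d ⊕ StarL d), w (Sum.inr (Sum.inr (Sum.inr i))) =
        -((d : F) + 1) * trEntry D a (starHM_equiv d i) := by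
      rintro (i | ⟨p, hp⟩ | ⟨p, hp⟩)
      · show -((d : F) + 1) = -((d : F) + 1) * trEntry D a (i, i)
        simp [trEntry]
      · have h4 := of_decide_eq_true hp
        show e * a p.1 * a p.2 = -((d : F) + 1) * trEntry D a p.swap
        have h5 : ¬ p.swap.1 = p.swap.2 := h4.ne
        have h6 : p.swap.1 < p.swap.2 := h4
        rw [trEntry, if_neg h5, if_pos h6, he]
        simp only [Prod.fst_swap, Prod.snd_swap]
        ring
      · have h4 := of_decide_eq_true hp
        show D * (e * a p.1 * a p.2) = -((d : F) + 1) * trEntry D a p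
        have h5 : ¬ p.1 = p.2 := h4.ne'
        have h6 : ¬ p.1 < p.2 := not_lt.2 h4.le
        rw [trEntry, if_neg h5, if_neg h6, he]
        ring
    let f : (Fin d × Fin d → F) × F →ₗ[F]
        ((Fin d × Fin d) ⊕ (Unit ⊕ (Unit ⊕ (Fin d ⊕ (StarL d ⊕ StarL d)))) → F) :=
      { toFun := fun v => Sum.elim (fun p => v.1 p + v.2) (Sum.elim
          (fun _ => ∑ p, v.1 p - (d : F) * v.2) (Sum.elim (fun _ => (d : F) * v.2)
            (fun i => (Wᵀ *ᵥ v.1) (starHM_equiv d i))))
        map_add' := by
          intro v v'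
          funext i
          rcases i with i | i | i | i
          · simp only [Sum.elim_inl, Prod.fst_add, Prod.snd_add, Pi.add_apply]
            ring
          · simp only [Sum.elim_inl, Sum.elim_inr, Prod.fst_add, Prod.snd_add,
              Pi.add_apply, Finset.sum_add_distrib]
            ring
          · simp only [Sum.elim_inl, Sum.elim_inr, Prod.snd_add, Pi.add_apply]
            ring
          · simp only [Sum.elim_inr, Prod.fst_add, Matrix.mulVec_add, Pi.add_apply]
        map_smul' := by
          intro c v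
          funext i
          rcases i with i | i | i | i
          · simp only [Sum.elim_inl, Prod.smul_fst, Prod.smul_snd,
              Pi.smul_apply, smul_eq_mul, RingHom.id_apply]
            ring
          · simp only [Sum.elim_inl, Sum.elim_inr, Prod.smul_fst, Prod.smul_snd,
              Pi.smul_apply, smul_eq_mul, RingHom.id_apply, ← Finset.mul_sum]
            ring
          · simp only [Sum.elim_inl, Sum.elim_inr, Prod.smul_snd, Pi.smul_apply, smul_eq_mul,
              RingHom.id_apply]
            ring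
          · simp only [Sum.elim_inr, Prod.smul_fst, Matrix.mulVec_smul, Pi.smul_apply,
              smul_eq_mul, RingHom.id_apply] }
    refine ⟨(Fin d × Fin d → F) × F, inferInstance, inferInstance, inferInstance, f, ?_, ?_, ?_⟩
    · rw [injective_iff_map_eq_zero]
      rintro ⟨c, t⟩ h
      have h1 := congrFun h (Sum.inr (Sum.inr (Sum.inl ())))
      have h2 := fun p => congrFun h (Sum.inl p)
      simp only [f, LinearMap.coe_mk, AddHom.coe_mk, Sum.elim_inl, Sum.elim_inr,
        Pi.zero_apply] at h1 h2
      have ht : t = 0 := (mul_eq_zero.1 h1).resolve_left hd0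
      subst ht
      have h3 : c = 0 := by
        funext p
        have := h2 p
        rw [add_zero] at this
        exact this
      subst h3
      rfl
    · rw [Module.finrank_prod, Module.finrank_fintype_fun_eq_card, Module.finrank_self]
      have hc : Fintype.card (Fin d ⊕ (StarL d ⊕ StarL d)) = Fintype.card (Fin d × Fin d) :=
        Fintype.card_congr (starHM_equiv d)
      rw [Fintype.card_sum, Fintype.card_sum, Fintype.card_sum, hc, Fintype.card_unit]
      omega
    · rintro ⟨c, t⟩
      rw [Fintype.sum_sum_type, Fintype.sum_sum_type, Fintype.sum_sum_type]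
      have h3 : ∑ i, w (Sum.inr (Sum.inr (Sum.inr i))) *
          f (c, t) (Sum.inr (Sum.inr (Sum.inr i))) ^ 2 =
          -(((d : F) + 1) * ∑ p, trEntry D a p * (Wᵀ *ᵥ c) p ^ 2) := by
        rw [← neg_mul, Finset.mul_sum, ← Equiv.sum_comp (starHM_equiv d)]
        refine Finset.sum_congr rfl fun i _ => ?_
        rw [hwσ i, mul_assoc]
        rfl
      rw [h3, starHM_quad (trEntry D a) W hW c]
      simp only [w, f, LinearMap.coe_mk, AddHom.coe_mk, Sum.elim_inl, Sum.elim_inr,
        Finset.univ_unique, Finset.sum_singleton]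
      have h4 : ∑ p : Fin d × Fin d, (d : F) * (c p + t) ^ 2 =
          (d : F) * ∑ p, c p ^ 2 + 2 * (d : F) * t * ∑ p, c p + (d : F) ^ 3 * t ^ 2 := by
        have h5 : ∀ p, (d : F) * (c p + t) ^ 2 =
            (d : F) * c p ^ 2 + 2 * (d : F) * t * c p + (d : F) * t ^ 2 := fun p => by ring
        rw [Finset.sum_congr rfl fun p _ => h5 p, Finset.sum_add_distrib, Finset.sum_add_distrib,
          ← Finset.mul_sum, ← Finset.mul_sum, Finset.sum_const, Finset.card_univ,
          Fintype.card_prod, Fintype.card_fin, nsmul_eq_mul]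
        push_cast
        ring
      rw [h4]
      ring

end Pool.Agent.Lib.MP_d0f9e0_co.Arith
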