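import Mathlib
import Pool.Agent.Lib.MP_d0f9e0_co.Bridge
import Pool.Agent.Lib.MP_d0f9e0_co.FieldDisc
import Pool.Agent.Lib.MP_d0f9e0_co.LevelC
import Pool.Agent.Lib.MP_d0f9e0_co.Arith.Real
import Pool.Agent.Lib.MP_d0f9e0_co.Arith.StarHM
import Pool.Agent.Lib.MP_d0f9e0_co.Arith.Repr7
import Pool.Agent.Lib.MP_d0f9e0_co.Arith.Repr3
import Pool.Agent.Lib.MP_d0f9e0_co.Arith.Repr5
import Pool.Agent.Lib.MP_d0f9e0_co.Arith.ReprK

set_option autoImplicit false

/-!
The representation theorem for odd dimensions.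
-/

open Matrix

namespace Pool.Agent.Lib.MP_d0f9e0_co.Arith

open Ramif

/-- the structure matrix over the real subfield -/
theorem exists_structure {d : ℕ} (hd : 1 ≤ d) (y : Fin d × Fin d → (Fin d → ℂ))
    (h1 : ∀ i, ip (y i) (y i) = 1)
    (h2 : ∀ i j, i ≠ j → ip (y i) (y j) * ip (y j) (y i) = 1 / ((d : ℂ) + 1))
    (K : Subfield ℂ) (hc : ∀ z ∈ K, star z ∈ K)
    (hT : ∀ i j k, ip (y i) (y j) * ip (y j) (y k) * ip (y k) (y i) ∈ K)
    (z : K) (hz : conjHom K hc z = -z) (hz0 : z ≠ 0)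
    (D : realSub K) (hD : (D : K) = -z ^ 2) :
    ∃ (a : Fin d → realSub K) (W : Matrix (Fin d × Fin d) (Fin d × Fin d) (realSub K)),
      (∀ i, a i ≠ 0) ∧
      W * Matrix.diagonal (trEntry D a) * Wᵀ
        = Matrix.of fun p q => if p = q then 1 else 1 / ((d : realSub K) + 1) := by
  have hd0 : (d : ℂ) ≠ 0 := by exact_mod_cast (show d ≠ 0 by omega)
  have hd1 : (d : ℂ) + 1 ≠ 0 := by exact_mod_cast (show d + 1 ≠ 0 by omega)
  have hn : ∀ a b, ip (y a) (y b) * ip (y b) (y a) = if a = b then 1 else 1 / ((d : ℂ) + 1) := by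
    intro a b
    split_ifs with h
    · subst h; rw [h1, one_mul]
    · exact h2 a b h
  have hnz : ∀ a b, ip (y a) (y b) ≠ 0 := by
    intro a b h
    have := hn a b
    rw [h, zero_mul] at this
    split_ifs at this
    · exact one_ne_zero this.symm
    · exact (one_div_ne_zero hd1) this.symm
  have hM : (Matrix.of fun p q => FieldDisc.ipp (y p) (y q) * FieldDisc.ipp (y q) (y p)).det
      = ((d : ℂ) / (d + 1)) ^ (d * d) * ((d : ℂ) + 1) := by
    have : (Matrix.of fun p q => FieldDisc.ipp (y p) (y q) * FieldDisc.ipp (y q) (y p))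
        = Matrix.of fun p q : Fin d × Fin d =>
          if p = q then (d : ℂ) / (d + 1) + 1 / (d + 1) else 1 / ((d : ℂ) + 1) := by
      ext p q
      simp only [Matrix.of_apply]
      refine (hn p q).trans ?_
      split_ifs
      · field_simp
      · rfl
    rw [this, FieldDisc.det_simplex _ _ (div_ne_zero hd0 hd1)]
    rw [Fintype.card_prod, Fintype.card_fin]
    congr 1
    push_cast
    field_simp
    ring
  have hne : (FieldDisc.projMat y).det ≠ 0 := by
    intro h
    have hsq := FieldDisc.det_projMat_sq y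
    rw [hM, h] at hsq
    have : (-1 : ℂ) ^ (d * (d - 1) / 2) * (((d : ℂ) / (d + 1)) ^ (d * d) * ((d : ℂ) + 1)) ≠ 0 :=
      mul_ne_zero (pow_ne_zero _ (by norm_num))
        (mul_ne_zero (pow_ne_zero _ (div_ne_zero hd0 hd1)) hd1)
    exact this (by rw [← hsq]; ring)
  obtain ⟨κ, hli⟩ := FieldDisc.exists_basis y hne
  have hspan : Submodule.span ℂ (Set.range y) = ⊤ := by
    have h := hli.span_eq_top_of_card_eq_finrank' (by simp)
    rw [eq_top_iff, ← h]
    refine Submodule.span_mono ?_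
    rintro _ ⟨i, rfl⟩
    exact ⟨κ i, rfl⟩
  obtain ⟨e, he, he0, heK, hye⟩ := exists_orth y (⟨0, hd⟩, ⟨0, hd⟩) hspan h1 (fun i => hnz _ _)
    K hc hT
  have hreal : ∀ i, (⟨ip (e i) (e i), heK i⟩ : K) ∈ realSub K := by
    intro i
    rw [mem_realSub]
    exact star_ip _ _
  obtain ⟨W, hW⟩ := exists_W y K hc e he he0 heK hye z hz hz0
    (fun i => ⟨⟨ip (e i) (e i), heK i⟩, hreal i⟩) (fun i => rfl) D hD
    (Matrix.of fun p q => if p = q then 1 else 1 / ((d : realSub K) + 1)) (fun p q => by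
      rw [hn]
      simp only [Matrix.of_apply]
      split_ifs
      · rfl
      · push_cast
        rfl)
  refine ⟨_, W, fun i h => he0 i ?_, hW⟩
  exact congrArg (fun t : realSub K => ((t : K) : ℂ)) h

theorem representation {d : ℕ} (hd : 2 ≤ d) {x : Fin (d ^ 2) → (Fin d → ℂ)}
    (hx : IsMaximalETF d x) (K : Subfield ℂ) (hc : ∀ z ∈ K, star z ∈ K)
    (hT : ∀ i j k, ip (x i) (x j) * ip (x j) (x k) * ip (x k) (x i) ∈ K) :
    (d % 8 = 3 → ∃ a b : realSub K, (d : realSub K) = a ^ 2 + 2 * b ^ 2) ∧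
    (d % 8 = 7 → ∃ a b : realSub K, (d : realSub K) = 2 * a ^ 2 - b ^ 2) ∧
    (d % 8 = 5 → ∃ (a b : realSub K) (z : K), z ≠ 0 ∧ z ^ 2 = -((a ^ 2 + b ^ 2 : realSub K) : K))
    := by
  have hcard : Fintype.card (Fin d × Fin d) = Fintype.card (Fin (d ^ 2)) := by
    simp [sq]
  let e : Fin d × Fin d ≃ Fin (d ^ 2) := Fintype.equivOfCardEq hcard
  have h2 : ∀ i j : Fin d × Fin d, i ≠ j →
      ip (x (e i)) (x (e j)) * ip (x (e j)) (x (e i)) = 1 / ((d : ℂ) + 1) :=
    fun i j hij => ip_mul_ip hx.2 (fun h => hij (e.injective h))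
  obtain ⟨s, hsK, hs⟩ := FieldDisc.main_pairs (by omega) (fun p => x (e p)) (fun i => hx.1 _) h2 K
      (fun i j k => hT _ _ _)
  obtain ⟨φ, hφ⟩ := exists_embedding K
  have hlev : (d % 8 = 3 ∨ d % 8 = 4 ∨ d % 8 = 5 ∨ d % 8 = 6) →
      ∃ a ∈ K, ∃ b ∈ K, a ^ 2 + b ^ 2 = (-1 : ℂ) := fun h =>
    Level.main_level (by omega) (fun p => x (e p)) (fun i => hx.1 _) h2 K
      (fun i j k => hT _ _ _) h
  have hd0 : (d : ℂ) ≠ 0 := by exact_mod_cast (show d ≠ 0 by omega)
  -- the common part: a choice of `z`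
  have key : ∀ (z : K) (hz : conjHom K hc z = -z) (hz0 : z ≠ 0) (D : realSub K)
      (hD : (D : K) = -z ^ 2), ∃ (A : realSub K) (P : Multiset (realSub K)), A ≠ 0 ∧
      (0 : realSub K) ∉ P ∧ P.card = d * (d - 1) / 2 ∧
      P.prod = (-((d : realSub K) + 1) * 2) ^ (d * (d - 1) / 2) * A ^ (d - 1) ∧
      HM (Multiset.replicate (d ^ 2) (d : realSub K) + {1} +
        Multiset.replicate (d + 1) (-((d : realSub K) + 1)) + P + P.map (D * ·)) := by
    intro z hz hz0 D hD
    obtain ⟨a, W, ha, hW⟩ := exists_structure (by omega) (fun p => x (e p)) (fun i => hx.1 _) h2 K hc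
      (fun i j k => hT _ _ _) z hz hz0 D hD
    obtain ⟨P, hP0, hPc, hPp, hP⟩ := star_HM (by omega) D a ha W hW
    exact ⟨∏ i, a i, P, Finset.prod_ne_zero_iff.2 fun i _ => ha i, hP0, hPc, hPp, hP⟩
  -- the case `d = 3 mod 4`
  have h34 : d % 4 = 3 → ∃ z : K, conjHom K hc z = -z ∧ z ≠ 0 ∧
      (((d : realSub K) : realSub K) : K) = -z ^ 2 := by
    intro h4
    have hodd : ¬ Even d := by rw [Nat.not_even_iff_odd, Nat.odd_iff]; omega
    have hM : Odd (d * (d - 1) / 2) := by
      obtain ⟨r, hr⟩ : ∃ r, d = 4 * r + 3 := ⟨d / 4, by omega⟩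
      have : d * (d - 1) / 2 = (4 * r + 3) * (2 * r + 1) := by
        apply Nat.div_eq_of_eq_mul_left (by norm_num)
        have : d - 1 = 4 * r + 2 := by omega
        rw [this, hr]; ring
      rw [this]
      exact Nat.odd_mul.2 ⟨⟨2 * r + 1, by ring⟩, ⟨r, rfl⟩⟩
    rw [if_neg hodd, hM.neg_one_pow, neg_one_mul] at hs
    have hs0 : s ≠ 0 := by
      rintro rfl
      apply hd0
      linear_combination hs
    have him : star s = -s := by
      have h1 : (s.re) * (s.im) = 0 := by
        have := congrArg Complex.im hs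
        simp [sq, Complex.mul_im] at this
        nlinarith
      have h3 : s.re * s.re - s.im * s.im = -(d : ℝ) := by
        have := congrArg Complex.re hs
        simpa [sq, Complex.mul_re] using this
      have h4 : s.re = 0 := by
        rcases mul_eq_zero.1 h1 with h | h
        · exact h
        · exfalso
          rw [h] at h3
          have hdpos : (0 : ℝ) < d := by exact_mod_cast (show 0 < d by omega)
          nlinarith [mul_self_nonneg s.re]
      apply Complex.ext
      · simp [h4]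
      · simp
    refine ⟨⟨s, hsK⟩, ?_, ?_, ?_⟩
    · apply Subtype.ext
      rw [conjHom_coe]
      exact him
    · intro h
      exact hs0 (congrArg Subtype.val h)
    · apply Subtype.ext
      have : (((-(⟨s, hsK⟩ : K) ^ 2 : K)) : ℂ) = -s ^ 2 := rfl
      rw [this, hs]
      push_cast
      ring
  refine ⟨fun h8 => ?_, fun h8 => ?_, fun h8 => ?_⟩
  · obtain ⟨z, hz, hz0, hD⟩ := h34 (by omega)
    obtain ⟨A, P, hA, hP0, hPc, hPp, hP⟩ := key z hz hz0 (d : realSub K) hD
    exact repr3 h8 φ A hA P hP0 hPc hPp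
      (three_squares K hc z hz hz0 _ hD (hlev (Or.inl h8))) hP
  · obtain ⟨z, hz, hz0, hD⟩ := h34 (by omega)
    obtain ⟨A, P, hA, hP0, hPc, hPp, hP⟩ := key z hz hz0 (d : realSub K) hD
    exact repr7 h8 φ A hA P hP0 hPc hPp hP
  · have hodd : ¬ Even d := by rw [Nat.not_even_iff_odd, Nat.odd_iff]; omega
    have hM : Even (d * (d - 1) / 2) := by
      obtain ⟨r, hr⟩ : ∃ r, d = 8 * r + 5 := ⟨d / 8, by omega⟩
      have : d * (d - 1) / 2 = (8 * r + 5) * (2 * (2 * r + 1)) := by
        apply Nat.div_eq_of_eq_mul_left (by norm_num)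
        have : d - 1 = 8 * r + 4 := by omega
        rw [this, hr]; ring
      rw [this]
      exact (even_two_mul _).mul_left _
    rw [if_neg hodd, hM.neg_one_pow, one_mul] at hs
    -- the square root of `d` is real
    have hsr : star s = s := by
      have h1 : (s.re) * (s.im) = 0 := by
        have := congrArg Complex.im hs
        simp [sq, Complex.mul_im] at this
        nlinarith
      have h3 : s.re * s.re - s.im * s.im = (d : ℝ) := by
        have := congrArg Complex.re hs
        simpa [sq, Complex.mul_re] using this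
      have h4 : s.im = 0 := by
        rcases mul_eq_zero.1 h1 with h | h
        · exfalso
          rw [h] at h3
          have hdpos : (0 : ℝ) < d := by exact_mod_cast (show 0 < d by omega)
          nlinarith [mul_self_nonneg s.im]
        · exact h
      apply Complex.ext
      · simp
      · simp [h4]
    have hsF : (⟨s, hsK⟩ : K) ∈ realSub K := by
      rw [mem_realSub]
      exact hsr
    -- a purely imaginary element
    obtain ⟨w, hw⟩ := exists_conj_ne hd hx K hc hT
    have hcc : ∀ v : K, conjHom K hc (conjHom K hc v) = v := fun v =>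
      Subtype.ext (by rw [conjHom_coe, conjHom_coe, star_star])
    have hz : conjHom K hc (w - conjHom K hc w) = -(w - conjHom K hc w) := by
      rw [map_sub, hcc]
      ring
    have hz0 : w - conjHom K hc w ≠ 0 := sub_ne_zero.2 (Ne.symm hw)
    set z := w - conjHom K hc w with hzdef
    have hDr : (-z ^ 2 : K) ∈ realSub K := by
      rw [mem_realSub]
      have h := congrArg Subtype.val hz
      rw [conjHom_coe] at h
      have e1 : ((-z ^ 2 : K) : ℂ) = -(z : ℂ) ^ 2 := rfl
      rw [e1, star_neg, star_pow, h]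
      have e2 : ((-z : K) : ℂ) = -(z : ℂ) := rfl
      rw [e2]
      ring
    obtain ⟨A, P, hA, hP0, hPc, hPp, hP⟩ := key z hz hz0 ⟨-z ^ 2, hDr⟩ rfl
    have hpos : 0 < φ ⟨-z ^ 2, hDr⟩ := by
      have h := congrArg Subtype.val hz
      rw [conjHom_coe] at h
      have e2 : ((-z : K) : ℂ) = -(z : ℂ) := rfl
      rw [e2] at h
      have hre : (z : ℂ).re = 0 := by
        have := congrArg Complex.re h
        simp at this
        linarith
      have him : (z : ℂ).im ≠ 0 := by
        intro h'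
        apply hz0
        apply Subtype.ext
        exact Complex.ext hre h'
      have e3 := hφ ⟨-z ^ 2, hDr⟩
      have e4 : (((⟨-z ^ 2, hDr⟩ : realSub K) : K) : ℂ) = -(z : ℂ) ^ 2 := rfl
      rw [e4] at e3
      generalize φ ⟨-z ^ 2, hDr⟩ = v at e3 ⊢
      have e5 := congrArg Complex.re e3
      simp [sq, Complex.mul_re, hre] at e5
      rw [e5]
      exact mul_self_pos.2 him
    obtain ⟨a, b, hab⟩ := repr5 h8 φ A hA ⟨-z ^ 2, hDr⟩ hpos ⟨⟨s, hsK⟩, hsF⟩ (by
      apply Subtype.ext
      apply Subtype.ext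
      have : ((((⟨⟨s, hsK⟩, hsF⟩ : realSub K) ^ 2 : realSub K) : K) : ℂ) = s ^ 2 := rfl
      rw [this, hs]
      push_cast
      rfl) P hP0 hPc hPp
      (three_squares K hc z hz hz0 _ rfl (hlev (Or.inr (Or.inr (Or.inl h8))))) hP
    refine ⟨a, b, z, hz0, ?_⟩
    rw [← hab]
    simp

end Pool.Agent.Lib.MP_d0f9e0_co.Arith
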